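import Pool.Agent.H17.Omega.MForce
import Pool.Agent.H17.Omega.GenM

/-!
# T8: an `A`-closed model contains the trace of `A` (trivial forcing)
-/

set_option autoImplicit false
set_option linter.unusedVariables false
set_option linter.unusedSectionVars false
set_option linter.unusedSimpArgs false
set_option linter.deprecated false

universe u v

namespace Pool.Agent.H17.Omega.T8

open CTM Name

/-- The value of a name for the trivial partial order. -/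
noncomputable def vN : Name PUnit.{u + 1} → ZFSet.{u}
  | ⟨_, x, _⟩ => ZFSet.range (fun i => vN (x i))

theorem mem_vN {X : Name PUnit.{u + 1}} {v : ZFSet.{u}} : v ∈ vN X ↔ ∃ i, vN (X.el i) = v := by
  cases X with
  | mk ι x p => rw [vN, ZFSet.mem_range]; rfl

theorem feq_triv : ∀ X Y : Name PUnit.{u + 1}, ∀ q, feq X Y q ↔ vN X = vN Y := by
  intro X
  induction X using Name.ind with
  | h X ih =>
    intro Y q
    rw [feq_def]
    constructor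
    · rintro ⟨h1, h2⟩
      ext v
      rw [mem_vN, mem_vN]
      constructor
      · rintro ⟨i, rfl⟩
        obtain ⟨q', _, j, _, h3⟩ := h1 i q le_rfl le_rfl
        exact ⟨j, ((ih i (Y.el j) q').1 h3).symm⟩
      · rintro ⟨j, rfl⟩
        obtain ⟨q', _, i, _, h3⟩ := h2 j q le_rfl le_rfl
        exact ⟨i, (ih i (Y.el j) q').1 h3⟩
    · intro h
      refine ⟨fun i q' _ _ => ?_, fun j q' _ _ => ?_⟩
      · have h1 : vN (X.el i) ∈ vN X := mem_vN.2 ⟨i, rfl⟩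
        rw [h, mem_vN] at h1
        obtain ⟨j, hj⟩ := h1
        exact ⟨q', le_rfl, j, le_rfl, (ih i (Y.el j) q').2 hj.symm⟩
      · have h1 : vN (Y.el j) ∈ vN Y := mem_vN.2 ⟨j, rfl⟩
        rw [← h, mem_vN] at h1
        obtain ⟨i, hi⟩ := h1
        exact ⟨q', le_rfl, i, le_rfl, (ih i (Y.el j) q').2 hi⟩

theorem fmem_triv {X Y : Name PUnit.{u + 1}} {q : PUnit.{u + 1}} : fmem X Y q ↔ vN X ∈ vN Y := by
  rw [mem_vN]
  constructor
  · intro h
    obtain ⟨q', _, j, _, h1⟩ := h q le_rfl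
    exact ⟨j, ((feq_triv _ _ _).1 h1).symm⟩
  · rintro ⟨j, hj⟩ q' _
    exact ⟨q', le_rfl, j, le_rfl, (feq_triv _ _ _).2 hj.symm⟩

theorem vN_check (x : ZFSet.{u}) : vN (Name.check x) = x := by
  induction x using ZFSet.inductionOn with
  | _ x ih =>
    ext v
    rw [mem_vN]
    constructor
    · rintro ⟨i, rfl⟩
      obtain ⟨y, hy, h⟩ := check_el (Q := PUnit.{u + 1}) x i
      rw [h, ih y hy]; exact hy
    · intro hv
      obtain ⟨i, hi, _⟩ := check_exists (Q := PUnit.{u + 1}) x v hv PUnit.unit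
      exact ⟨i, by rw [hi, ih v hv]⟩

/-- The coding of the trivial partial order. -/
noncomputable def c0 : PUnit.{u + 1} → ZFSet.{u} := fun _ => ∅

theorem mem_vN_nm {τ v : ZFSet.{u}} : v ∈ vN (nm c0 τ) ↔ ∃ a, ZFSet.pair a ∅ ∈ τ ∧ vN (nm c0 a) = v := by
  rw [mem_vN]
  constructor
  · rintro ⟨i, rfl⟩
    obtain ⟨a, h1, h2⟩ := nm_el c0 τ i
    exact ⟨a, h1, by rw [h2]⟩
  · rintro ⟨a, h1, rfl⟩
    obtain ⟨i, h2, _⟩ := nm_exists (p := PUnit.unit) c0 h1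
    exact ⟨i, by rw [h2]⟩

/-- The graph of a real. -/
noncomputable def zs (b : ℕ → ℕ) : ZFSet.{u} :=
  ZFSet.range (fun i : ℕ => ZFSet.pair (natZ i) (natZ (b i)))

theorem mem_zs {b : ℕ → ℕ} {z : ZFSet.{u}} : z ∈ zs b ↔ ∃ i, z = ZFSet.pair (natZ i) (natZ (b i)) := by
  rw [zs, ZFSet.mem_range]
  exact exists_congr fun i => eq_comm

theorem pair_mem_zs {b : ℕ → ℕ} {i j : ℕ} : ZFSet.pair (natZ.{u} i) (natZ j) ∈ zs b ↔ b i = j := by
  rw [mem_zs]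
  constructor
  · rintro ⟨k, h⟩
    rw [ZFSet.pair_inj, natZ_inj, natZ_inj] at h
    rw [h.1, h.2]
  · rintro rfl; exact ⟨i, rfl⟩

theorem zs_inj {b b' : ℕ → ℕ} (h : zs.{u} b = zs b') : b = b' := by
  funext i
  have h1 : ZFSet.pair (natZ.{u} i) (natZ (b i)) ∈ zs b := pair_mem_zs.2 rfl
  rw [h] at h1
  exact (pair_mem_zs.1 h1).symm

theorem exists_proj (A : Set (ℕ → ℕ)) : ∃ (K : Type u) (T : Set (List (ℕ × K))),
    IsTree T ∧ proj T = A := by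
  refine ⟨ULift.{u} (ℕ → ℕ), {l | ∃ b ∈ A, ∀ i x, l[i]? = some x → x = (b i, ULift.up b)}, ?_, ?_⟩
  · rintro s t ⟨b, hb, h⟩
    refine ⟨b, hb, fun i x hx => h i x ?_⟩
    rw [List.getElem?_append_left (List.getElem?_eq_some_iff.1 hx).1]
    exact hx
  · ext x
    constructor
    · rintro ⟨k, hk⟩
      obtain ⟨b, hb, h⟩ := hk 1
      have h1 := h 0 (x 0, k 0) (by simp)
      have hk0 : k 0 = ULift.up b := congrArg Prod.snd h1
      have : x = b := by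
        funext n
        obtain ⟨b', hb', h'⟩ := hk (n + 1)
        have h2 := h' 0 (x 0, k 0) (by simp)
        have h3 : k 0 = ULift.up b' := congrArg Prod.snd h2
        have h4 : b' = b := by
          have := hk0.symm.trans h3
          exact (congrArg ULift.down this).symm
        have h5 := h' n (x n, k n) (by rw [List.getElem?_ofFn]; simp)
        rw [h4] at h5
        exact congrArg Prod.fst h5
      rw [this]; exact hb
    · intro hx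
      refine ⟨fun _ => ULift.up x, fun n => ⟨x, hx, fun i y hy => ?_⟩⟩
      rw [List.getElem?_ofFn] at hy
      split_ifs at hy
      simpa using hy.symm

theorem forcesReal_triv {τ : Name PUnit.{u + 1}} {b : ℕ → ℕ} (h : vN τ = zs b) (q : PUnit.{u + 1}) :
    ForcesReal τ q := by
  refine ⟨fun X r _ hX => ?_, fun i r _ => ⟨r, le_rfl, b i, ?_⟩, fun i j j' r _ h1 h2 => ?_⟩
  · rw [fmem_triv, h, mem_zs] at hX
    obtain ⟨i, hi⟩ := hX
    exact ⟨r, le_rfl, i, b i, (feq_triv _ _ _).2 (by rw [hi, vN_check])⟩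
  · show fmem _ _ _
    rw [fmem_triv, vN_check, h]
    exact pair_mem_zs.2 rfl
  · have h1 : fmem _ _ _ := h1
    have h2 : fmem _ _ _ := h2
    rw [fmem_triv, vN_check, h, pair_mem_zs] at h1 h2
    rw [← h1, ← h2]

theorem forcesVal_triv {τ : Name PUnit.{u + 1}} {b : ℕ → ℕ} (h : vN τ = zs b) {q : PUnit.{u + 1}}
    {i j : ℕ} : ForcesVal τ i j q ↔ b i = j := by
  unfold ForcesVal
  rw [fmem_triv, vN_check, h, pair_mem_zs]

theorem forcesAG_triv {A : Set (ℕ → ℕ)} {τ : Name PUnit.{u + 1}} {b : ℕ → ℕ} (h : vN τ = zs b)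
    (q : PUnit.{u + 1}) : ForcesAG A τ q ↔ b ∈ A := by
  constructor
  · intro h1
    obtain ⟨s, _, K, T, hT, rfl, _, B, h2, h3, h4⟩ := h1 q le_rfl
    have h5 : ∀ n, ∃ k, B n k s := by
      intro n
      obtain ⟨s', _, x, k, h6, h7⟩ := h4 (n + 1) s le_rfl
      exact ⟨_, (h7 (Fin.last n)).2⟩
    choose k hk using h5
    refine ⟨k, fun n => ?_⟩
    obtain ⟨s', _, x, k', h6, h7⟩ := h4 n s le_rfl
    have : (fun i : Fin n => (x i, k' i)) = fun i : Fin n => (b i, k i) := by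
      funext i
      have h8 := (forcesVal_triv h).1 (h7 i).1
      have h9 := h3 i _ _ s (h7 i).2 (hk i)
      rw [h8, h9]
    rw [← this]; exact h6
  · intro h1 r _
    obtain ⟨K, T, hT, hp⟩ := exists_proj.{u} A
    refine ⟨r, le_rfl, K, T, hT, hp, forcesReal_triv h r, ?_⟩
    rw [← hp] at h1
    obtain ⟨k, hk⟩ := h1
    refine ⟨fun i y _ => k i = y, fun i y r s _ h => h, fun i y y' r h h' => h.symm.trans h',
      fun n r' _ => ⟨r', le_rfl, fun i => b i, fun i => k i, hk n, fun i => ⟨?_, rfl⟩⟩⟩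
    exact (forcesVal_triv h).2 rfl

variable {N : Set ZFSet.{u}} {hN : CTM N}

/-- Canonical names for the elements of the model. -/
theorem exists_checkF (hN : CTM N) : ∃ G : N → N, ∀ x : N, vN (nm c0 (G x).1) = x.1 := by
  obtain ⟨E0, hE0⟩ : ∃ E0 : N, E0.1 = ∅ := ⟨⟨∅, hN.empty_mem⟩, rfl⟩
  obtain ⟨G, _, hG⟩ := recursion (hN := hN) (R := fun y x : N => y.1 ∈ x.1)
    (𝒢 := fun x r v => ∀ z : N, z.1 ∈ v.1 ↔ ∃ y a, r y a ∧ z.1 = ZFSet.pair a.1 E0.1)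
    (Dfn.mem (DT.var _) (DT.var _)) (by
      refine Dfn.congr (fun v => ?_) (Dfn.all (P := fun v z => (z.1 ∈ (v 2).1 ↔ (∃ y : N, (∃ a : N, (y.1 ∈ (v 0).1 ∧ ZFSet.pair y.1 a.1 ∈ (v 1).1 ∧ z.1 = ZFSet.pair a.1 E0.1)))))
  (Dfn.iff (Dfn.mem (DT.var _) (DT.var _))
  (Dfn.ex (P := fun v y => (∃ a : N, (y.1 ∈ (v 0).1 ∧ ZFSet.pair y.1 a.1 ∈ (v 1).1 ∧ (v 3).1 = ZFSet.pair a.1 E0.1)))
  (Dfn.ex (P := fun v a => ((v 4).1 ∈ (v 0).1 ∧ ZFSet.pair (v 4).1 a.1 ∈ (v 1).1 ∧ (v 3).1 = ZFSet.pair a.1 E0.1))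
  (Dfn.and (Dfn.mem (DT.var _) (DT.var _))
  (Dfn.and (Dfn.pairMem (DT.var _) (DT.var _) (DT.var _))
  (Dfn.isPair (DT.var _) (DT.var _) (DT.const E0))))))))
      refine forall_congr' fun z => iff_congr Iff.rfl (exists_congr fun y => exists_congr fun a => ?_)
      exact (and_assoc).symm)
    (fun x => ⟨x.1, x.2, fun y => Iff.rfl⟩) mem_membership_wf
    (by
      intro x r v v' h h'
      exact Subtype.ext (hN.ext' v.2 v'.2 fun z => (h z).trans (h' z).symm))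
    (by
      intro x h hd hu
      have hF : hN.Dfn (fun v : Fin 2 → N => ZFSet.pair (v 0).1 (v 1).1 ∈ h.1) :=
        Dfn.pairMem (DT.var _) (DT.var _) (DT.const h)
      obtain ⟨b, hb, hb'⟩ := hN.exists_repl (F := fun y a : N => ZFSet.pair y.1 a.1 ∈ h.1) hF x.2
        (fun y hy a a' h1 h2 => hu y hy a a' h1 h2)
      have hF2 : hN.Dfn (fun v : Fin 2 → N => (v 1).1 = ZFSet.pair (v 0).1 E0.1) := (Dfn.isPair (DT.var _) (DT.var _) (DT.const E0))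
      obtain ⟨d, hd, hd'⟩ := hN.exists_repl (F := fun a z : N => z.1 = ZFSet.pair a.1 E0.1) hF2 hb
        (fun a _ z z' h1 h2 => Subtype.ext (h1.trans h2.symm))
      refine ⟨⟨d, hd⟩, fun z => ?_⟩
      rw [hd']
      constructor
      · rintro ⟨a, ha, hz⟩
        obtain ⟨y, hy, hya⟩ := (hb' a).1 ha
        exact ⟨y, a, ⟨hy, hya⟩, hz⟩
      · rintro ⟨y, a, ⟨hy, hya⟩, hz⟩
        exact ⟨a, (hb' a).2 ⟨y, hy, hya⟩, hz⟩)
  refine ⟨G, fun x => ?_⟩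
  induction x using (mem_membership_wf (N := N)).induction with
  | _ x ih =>
    ext v
    rw [mem_vN_nm]
    constructor
    · rintro ⟨a, h1, rfl⟩
      have haN := (hN.mem_of_mem (G x).2 h1)
      obtain ⟨y, a', ⟨hy, rfl⟩, h2⟩ := (hG x ⟨_, haN⟩).1 h1
      rw [hE0] at h2
      have h3 : a = (G y).1 := (ZFSet.pair_inj.1 h2).1
      rw [h3, ih y hy]
      exact hy
    · intro hv
      have hvN := hN.mem_of_mem x.2 hv
      refine ⟨(G ⟨v, hvN⟩).1, ?_, ih ⟨v, hvN⟩ hv⟩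
      exact (hG x ⟨_, hN.pair_mem (G ⟨v, hvN⟩).2 hN.empty_mem⟩).2 ⟨⟨v, hvN⟩, _, ⟨hv, rfl⟩, by rw [hE0]⟩

/-- The values of names are in the model. -/
theorem vN_mem (hN : CTM N) : ∀ x : N, vN (nm c0 x.1) ∈ N := by
  obtain ⟨E0, hE0⟩ : ∃ E0 : N, E0.1 = ∅ := ⟨⟨∅, hN.empty_mem⟩, rfl⟩
  have hR : hN.Dfn (fun v : Fin 2 → N => ZFSet.pair (v 0).1 E0.1 ∈ (v 1).1) := (Dfn.pairMem (DT.var _) (DT.const E0) (DT.var _))
  have hwf : WellFounded (fun y x : N => ZFSet.pair y.1 E0.1 ∈ x.1) := by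
    refine Subrelation.wf (r := fun y x : N => y.1.rank < x.1.rank) ?_
      (InvImage.wf (fun x : N => x.1.rank) wellFounded_lt)
    intro y x h
    exact rank_fst_lt h
  have hset : ∀ x : N, ∃ e ∈ N, ∀ y : N, y.1 ∈ e ↔ ZFSet.pair y.1 E0.1 ∈ x.1 := by
    intro x
    have hd : hN.Dfn (fun v : Fin 1 → N => ZFSet.pair (v 0).1 E0.1 ∈ x.1) := (Dfn.pairMem (DT.var _) (DT.const E0) (DT.const x))
    obtain ⟨e, he, he'⟩ := hN.exists_sep (P := fun y => ZFSet.pair y.1 E0.1 ∈ x.1) hd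
      (hN.sUnion_mem (hN.sUnion_mem x.2))
    refine ⟨e, he, fun y => ?_⟩
    rw [he']
    exact ⟨fun ⟨_, _, h⟩ => h, fun h => ⟨(mem_sUnion_sUnion_pair h).1, y.2, h⟩⟩
  obtain ⟨F, _, hF⟩ := recursion (hN := hN) (R := fun y x : N => ZFSet.pair y.1 E0.1 ∈ x.1)
    (𝒢 := fun x r v => ∀ z : N, z.1 ∈ v.1 ↔ ∃ y, r y z) hR (Dfn.all (P := fun v z => (z.1 ∈ (v 2).1 ↔ (∃ y : N, (ZFSet.pair y.1 E0.1 ∈ (v 0).1 ∧ ZFSet.pair y.1 z.1 ∈ (v 1).1))))
  (Dfn.iff (Dfn.mem (DT.var _) (DT.var _))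
  (Dfn.ex (P := fun v y => (ZFSet.pair y.1 E0.1 ∈ (v 0).1 ∧ ZFSet.pair y.1 (v 3).1 ∈ (v 1).1))
  (Dfn.and (Dfn.pairMem (DT.var _) (DT.const E0) (DT.var _))
  (Dfn.pairMem (DT.var _) (DT.var _) (DT.var _)))))) hset hwf
    (by
      intro x r v v' h h'
      exact Subtype.ext (hN.ext' v.2 v'.2 fun z => (h z).trans (h' z).symm))
    (by
      intro x h hd hu
      have hUN : ZFSet.sUnion (ZFSet.sUnion h.1) ∈ N := hN.sUnion_mem (hN.sUnion_mem h.2)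
      have hd' : hN.Dfn (fun v : Fin 1 → N => (∃ y : N, (ZFSet.pair y.1 E0.1 ∈ x.1 ∧ ZFSet.pair y.1 (v 0).1 ∈ h.1))) := (Dfn.ex (P := fun v y => (ZFSet.pair y.1 E0.1 ∈ x.1 ∧ ZFSet.pair y.1 (v 0).1 ∈ h.1))
  (Dfn.and (Dfn.pairMem (DT.var _) (DT.const E0) (DT.const x))
  (Dfn.pairMem (DT.var _) (DT.var _) (DT.const h))))
      obtain ⟨b, hb, hb'⟩ := hN.exists_sep (P := fun z => (∃ y : N, (ZFSet.pair y.1 E0.1 ∈ x.1 ∧ ZFSet.pair y.1 z.1 ∈ h.1))) hd' hUN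
      refine ⟨⟨b, hb⟩, fun z => ?_⟩
      rw [hb']
      constructor
      · rintro ⟨_, _, h1⟩; exact h1
      · rintro ⟨y, h1, h2⟩
        exact ⟨(mem_sUnion_sUnion_pair h2).2, z.2, y, h1, h2⟩)
  have key : ∀ x : N, (F x).1 = vN (nm c0 x.1) := by
    intro x
    induction x using hwf.induction with
    | _ x ih =>
      ext v
      rw [mem_vN_nm]
      constructor
      · intro hv
        obtain ⟨y, hy, h1⟩ := (hF x ⟨v, hN.mem_of_mem (F x).2 hv⟩).1 hv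
        exact ⟨y.1, hE0 ▸ hy, by rw [← ih y hy, h1]⟩
      · rintro ⟨a, h1, rfl⟩
        have haN := (hN.of_pair_mem (hN.mem_of_mem x.2 h1)).1
        rw [← hE0] at h1
        rw [← ih ⟨a, haN⟩ h1]
        exact (hF x _).2 ⟨⟨a, haN⟩, h1, rfl⟩
  intro x
  rw [← key]
  exact (F x).2

/-- An `A`-closed model contains the trace of `A`. -/
theorem trace_mem (hN : CTM N) {A : Set (ℕ → ℕ)} (hA : AClosed A N) :
    ∃ S ∈ N, ∀ b : ℕ → ℕ, zs b ∈ N → (zs b ∈ S ↔ b ∈ A) := by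
  have hP : PosetIn N PUnit.{u + 1} c0 := by
    refine ⟨fun _ _ _ => rfl, ⟨{∅}, hN.singleton_mem hN.empty_mem, fun z => ?_⟩,
      ⟨{ZFSet.pair ∅ ∅}, hN.singleton_mem (hN.pair_mem hN.empty_mem hN.empty_mem), fun z => ?_⟩⟩
    · rw [ZFSet.mem_singleton]
      exact ⟨fun h => ⟨PUnit.unit, h⟩, fun ⟨_, h⟩ => h⟩
    · rw [ZFSet.mem_singleton]
      exact ⟨fun h => ⟨PUnit.unit, PUnit.unit, le_rfl, h⟩, fun ⟨_, _, _, h⟩ => h⟩
  obtain ⟨q, _, σ, hσ, h⟩ := hA PUnit.{u + 1} c0 hP PUnit.unit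
  obtain ⟨G, hG⟩ := exists_checkF hN
  refine ⟨_, vN_mem hN ⟨σ, hσ⟩, fun b hb => ?_⟩
  have h1 := h (G ⟨_, hb⟩).1 (G ⟨_, hb⟩).2 q le_rfl
  rw [fmem_triv, forcesAG_triv (hG ⟨_, hb⟩), hG] at h1
  exact h1

end Pool.Agent.H17.Omega.T8
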