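import Pool.Agent.H17.T8.Rec
import Pool.Agent.H17.T8.Triv
import Pool.Agent.H17.Omega.CtmW

/-!
# T8: the universally Baire code inside a model
-/

set_option autoImplicit false
set_option linter.unusedVariables false
set_option linter.unusedSectionVars false
set_option linter.unusedSimpArgs false
set_option linter.deprecated false

universe u v

namespace Pool.Agent.H17.Omega.T8

open CTM

/-- The code of the function `f` and of the arithmetical relations `FR m`. -/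
def Am (f : (ℕ → ℕ) → ℕ → ℕ) (FR : ℕ → ℕ → ℕ → ℕ → Prop) : Set (ℕ → ℕ) :=
  {a | (a 0 = 0 ∧ f (fun n => a (n + 3)) (a 1) = a 2) ∨ (a 0 ≠ 0 ∧ FR (a 0) (a 1) (a 2) (a 3))}

variable {N : Set ZFSet.{u}} {hN : CTM N}

/-- `w` is a real. -/
def IsRl (w : N) : Prop := (((∀ p : N, (p.1 ∈ w.1 → (∃ i : N, (∃ j : N, (i.1 ∈ omZ ∧ j.1 ∈ omZ ∧ p.1 = ZFSet.pair i.1 j.1)))))) ∧ ((∀ i : N, (i.1 ∈ omZ → (∃ j : N, ZFSet.pair i.1 j.1 ∈ w.1)))) ∧ ((∀ i : N, (∀ j : N, (∀ k : N, (ZFSet.pair i.1 j.1 ∈ w.1 → (ZFSet.pair i.1 k.1 ∈ w.1 → j = k)))))))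

theorem IsRl_dfn : hN.Dfn (fun v : Fin 1 → N => IsRl (v 0)) := by
  unfold IsRl
  exact (Dfn.and (Dfn.all (P := fun v p => (p.1 ∈ (v 0).1 → (∃ i : N, (∃ j : N, (i.1 ∈ omZ ∧ j.1 ∈ omZ ∧ p.1 = ZFSet.pair i.1 j.1)))))
  (Dfn.imp (Dfn.mem (DT.var _) (DT.var _))
  (Dfn.ex (P := fun v i => (∃ j : N, (i.1 ∈ omZ ∧ j.1 ∈ omZ ∧ (v 1).1 = ZFSet.pair i.1 j.1)))
  (Dfn.ex (P := fun v j => ((v 2).1 ∈ omZ ∧ j.1 ∈ omZ ∧ (v 1).1 = ZFSet.pair (v 2).1 j.1))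
  (Dfn.and (Dfn.mem (DT.var _) (DT.const ⟨omZ, hN.omZ_mem⟩))
  (Dfn.and (Dfn.mem (DT.var _) (DT.const ⟨omZ, hN.omZ_mem⟩))
  (Dfn.isPair (DT.var _) (DT.var _) (DT.var _))))))))
  (Dfn.and (Dfn.all (P := fun v i => (i.1 ∈ omZ → (∃ j : N, ZFSet.pair i.1 j.1 ∈ (v 0).1)))
  (Dfn.imp (Dfn.mem (DT.var _) (DT.const ⟨omZ, hN.omZ_mem⟩))
  (Dfn.ex (P := fun v j => ZFSet.pair (v 1).1 j.1 ∈ (v 0).1)
  (Dfn.pairMem (DT.var _) (DT.var _) (DT.var _)))))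
  (Dfn.all (P := fun v i => (∀ j : N, (∀ k : N, (ZFSet.pair i.1 j.1 ∈ (v 0).1 → (ZFSet.pair i.1 k.1 ∈ (v 0).1 → j = k)))))
  (Dfn.all (P := fun v j => (∀ k : N, (ZFSet.pair (v 1).1 j.1 ∈ (v 0).1 → (ZFSet.pair (v 1).1 k.1 ∈ (v 0).1 → j = k))))
  (Dfn.all (P := fun v k => (ZFSet.pair (v 1).1 (v 2).1 ∈ (v 0).1 → (ZFSet.pair (v 1).1 k.1 ∈ (v 0).1 → (v 2) = k)))
  (Dfn.imp (Dfn.pairMem (DT.var _) (DT.var _) (DT.var _))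
  (Dfn.imp (Dfn.pairMem (DT.var _) (DT.var _) (DT.var _))
  (Dfn.eq (DT.var _) (DT.var _)))))))))

include hN in
theorem isRl_iff {w : N} : IsRl w ↔ ∃ b, w.1 = zs b := by
  unfold IsRl
  constructor
  · rintro ⟨h1, h2, h3⟩
    have h4 : ∀ n : ℕ, ∃ m : ℕ, ZFSet.pair (natZ.{u} n) (natZ m) ∈ w.1 := by
      intro n
      obtain ⟨j, hj⟩ := h2 ⟨natZ n, hN.natZ_mem_N n⟩ (natZ_mem_omZ n)
      obtain ⟨i', j', _, h5, h6⟩ := h1 ⟨_, hN.mem_of_mem w.2 hj⟩ hj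
      have h6 : ZFSet.pair (natZ n) j.1 = ZFSet.pair i'.1 j'.1 := h6
      rw [ZFSet.pair_inj] at h6
      obtain ⟨m, hm⟩ := mem_omZ.1 h5
      exact ⟨m, by rw [← hm, ← h6.2]; exact hj⟩
    choose b hb using h4
    refine ⟨b, ?_⟩
    ext z
    rw [mem_zs]
    constructor
    · intro hz
      obtain ⟨i, j, hi, hj, h5⟩ := h1 ⟨z, hN.mem_of_mem w.2 hz⟩ hz
      obtain ⟨n, hn⟩ := mem_omZ.1 hi
      have h5 : z = ZFSet.pair i.1 j.1 := h5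
      refine ⟨n, ?_⟩
      have h6 := h3 i j ⟨natZ (b n), hN.natZ_mem_N _⟩ (h5 ▸ hz) (by rw [hn]; exact hb n)
      rw [h5, h6, hn]
    · rintro ⟨n, rfl⟩; exact hb n
  · rintro ⟨b, hb⟩
    refine ⟨fun p hp => ?_, fun i hi => ?_, fun i j k h1 h2 => ?_⟩
    · rw [hb, mem_zs] at hp
      obtain ⟨n, hn⟩ := hp
      exact ⟨⟨natZ n, hN.natZ_mem_N n⟩, ⟨natZ (b n), hN.natZ_mem_N _⟩, natZ_mem_omZ _,
        natZ_mem_omZ _, hn⟩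
    · obtain ⟨n, hn⟩ := mem_omZ.1 hi
      refine ⟨⟨natZ (b n), hN.natZ_mem_N _⟩, ?_⟩
      rw [hb, hn]; exact mem_zs.2 ⟨n, rfl⟩
    · rw [hb, mem_zs] at h1 h2
      obtain ⟨n, hn⟩ := h1
      obtain ⟨m, hm⟩ := h2
      rw [ZFSet.pair_inj] at hn hm
      have : n = m := natZ_inj.1 (hn.1.symm.trans hm.1)
      subst this
      exact Subtype.ext (hn.2.trans hm.2.symm)

include hN in
theorem zs_of {b : ℕ → ℕ} {P : N → N → Prop} (hP : hN.Dfn (fun v : Fin 2 → N => P (v 0) (v 1)))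
    (h : ∀ i j : ℕ, P ⟨natZ i, hN.natZ_mem_N i⟩ ⟨natZ j, hN.natZ_mem_N j⟩ ↔ b i = j) :
    zs b ∈ N := by
  have hd : hN.Dfn (fun v : Fin 1 → N => (∃ i : N, (∃ j : N, ((v 0).1 = ZFSet.pair i.1 j.1 ∧ P i j)))) := (Dfn.ex (P := fun v i => (∃ j : N, ((v 0).1 = ZFSet.pair i.1 j.1 ∧ P i j)))
  (Dfn.ex (P := fun v j => ((v 0).1 = ZFSet.pair (v 1).1 j.1 ∧ P (v 1) j))
  (Dfn.and (Dfn.isPair (DT.var _) (DT.var _) (DT.var _))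
  (Dfn.subst2 (P := P) hP (DT.var _) (DT.var _)))))
  obtain ⟨c, hc, hc'⟩ := hN.exists_sep (P := fun p => (∃ i : N, (∃ j : N, (p.1 = ZFSet.pair i.1 j.1 ∧ P i j)))) hd
    (hN.prod_mem hN.omZ_mem hN.omZ_mem)
  have : zs b = c := by
    ext z
    rw [mem_zs, hc']
    constructor
    · rintro ⟨n, rfl⟩
      exact ⟨by simp [natZ_mem_omZ], hN.pair_mem (hN.natZ_mem_N _) (hN.natZ_mem_N _),
        ⟨natZ n, hN.natZ_mem_N n⟩, ⟨natZ (b n), hN.natZ_mem_N _⟩, rfl, (h _ _).2 rfl⟩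
    · rintro ⟨h1, h2, i, j, h3, h4⟩
      have h3 : z = ZFSet.pair i.1 j.1 := h3
      rw [h3, ZFSet.pair_mem_prod] at h1
      obtain ⟨n, hn⟩ := mem_omZ.1 h1.1
      obtain ⟨m, hm⟩ := mem_omZ.1 h1.2
      have e1 : i = ⟨natZ n, hN.natZ_mem_N n⟩ := Subtype.ext hn
      have e2 : j = ⟨natZ m, hN.natZ_mem_N m⟩ := Subtype.ext hm
      rw [e1, e2] at h4
      exact ⟨n, by rw [h3, hn, hm, (h _ _).1 h4]⟩
  rw [this]; exact hc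

include hN in
theorem rel_of {Q : ℕ → ℕ → ℕ → Prop} {P : N → N → N → Prop}
    (hP : hN.Dfn (fun v : Fin 3 → N => P (v 0) (v 1) (v 2)))
    (h : ∀ i j k : ℕ, P ⟨natZ i, hN.natZ_mem_N i⟩ ⟨natZ j, hN.natZ_mem_N j⟩
      ⟨natZ k, hN.natZ_mem_N k⟩ ↔ Q i j k) : relThreeZ.{u} Q ∈ N := by
  have hd : hN.Dfn (fun v : Fin 1 → N => (∃ i : N, (∃ e : N, (∃ j : N, (∃ k : N, ((v 0).1 = ZFSet.pair i.1 e.1 ∧ e.1 = ZFSet.pair j.1 k.1 ∧ P i j k)))))) := (Dfn.ex (P := fun v i => (∃ e : N, (∃ j : N, (∃ k : N, ((v 0).1 = ZFSet.pair i.1 e.1 ∧ e.1 = ZFSet.pair j.1 k.1 ∧ P i j k)))))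
  (Dfn.ex (P := fun v e => (∃ j : N, (∃ k : N, ((v 0).1 = ZFSet.pair (v 1).1 e.1 ∧ e.1 = ZFSet.pair j.1 k.1 ∧ P (v 1) j k))))
  (Dfn.ex (P := fun v j => (∃ k : N, ((v 0).1 = ZFSet.pair (v 1).1 (v 2).1 ∧ (v 2).1 = ZFSet.pair j.1 k.1 ∧ P (v 1) j k)))
  (Dfn.ex (P := fun v k => ((v 0).1 = ZFSet.pair (v 1).1 (v 2).1 ∧ (v 2).1 = ZFSet.pair (v 3).1 k.1 ∧ P (v 1) (v 3) k))
  (Dfn.and (Dfn.isPair (DT.var _) (DT.var _) (DT.var _))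
  (Dfn.and (Dfn.isPair (DT.var _) (DT.var _) (DT.var _))
  (Dfn.subst3 (P := P) hP (DT.var _) (DT.var _) (DT.var _))))))))
  obtain ⟨c, hc, hc'⟩ := hN.exists_sep (P := fun p => (∃ i : N, (∃ e : N, (∃ j : N, (∃ k : N, (p.1 = ZFSet.pair i.1 e.1 ∧ e.1 = ZFSet.pair j.1 k.1 ∧ P i j k)))))) hd
    (hN.prod_mem hN.omZ_mem (hN.prod_mem hN.omZ_mem hN.omZ_mem))
  have : relThreeZ.{u} Q = c := by
    ext z
    rw [mem_relThreeZ, hc']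
    constructor
    · rintro ⟨i, j, k, h1, rfl⟩
      have h2 : ZFSet.pair (natZ.{u} j) (natZ k) ∈ N :=
        hN.pair_mem (hN.natZ_mem_N _) (hN.natZ_mem_N _)
      exact ⟨by simp [natZ_mem_omZ], hN.pair_mem (hN.natZ_mem_N _) h2,
        ⟨natZ i, hN.natZ_mem_N _⟩, ⟨_, h2⟩, ⟨natZ j, hN.natZ_mem_N _⟩, ⟨natZ k, hN.natZ_mem_N _⟩,
        rfl, rfl, (h _ _ _).2 h1⟩
    · rintro ⟨h1, h2, i, e, j, k, h3, h4, h5⟩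
      have h3 : z = ZFSet.pair i.1 e.1 := h3
      rw [h3, h4, ZFSet.pair_mem_prod, ZFSet.pair_mem_prod] at h1
      obtain ⟨n, hn⟩ := mem_omZ.1 h1.1
      obtain ⟨m, hm⟩ := mem_omZ.1 h1.2.1
      obtain ⟨l, hl⟩ := mem_omZ.1 h1.2.2
      have e1 : i = ⟨natZ n, hN.natZ_mem_N n⟩ := Subtype.ext hn
      have e2 : j = ⟨natZ m, hN.natZ_mem_N m⟩ := Subtype.ext hm
      have e3 : k = ⟨natZ l, hN.natZ_mem_N l⟩ := Subtype.ext hl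
      rw [e1, e2, e3] at h5
      exact ⟨n, m, l, (h _ _ _).1 h5, by rw [h3, h4, hn, hm, hl]⟩
  rw [this]; exact hc

theorem zs_zero (hN : CTM N) : zs (fun _ => 0) ∈ N := by
  obtain ⟨N0, hN0⟩ : ∃ N0 : N, N0.1 = natZ 0 := ⟨⟨natZ 0, hN.natZ_mem_N 0⟩, rfl⟩
  refine zs_of (hN := hN) (P := fun i j => j = N0) (Dfn.eq (DT.var _) (DT.const N0)) fun i j => ?_
  constructor
  · intro h
    have h1 : natZ.{u} j = N0.1 := congrArg Subtype.val h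
    rw [hN0, natZ_inj] at h1
    exact h1.symm
  · intro h
    exact Subtype.ext (by rw [hN0, h])

theorem zs_update (hN : CTM N) {b : ℕ → ℕ} (hb : zs b ∈ N) (n v : ℕ) :
    zs (Function.update b n v) ∈ N := by
  obtain ⟨A, hA⟩ : ∃ A : N, A.1 = natZ n := ⟨⟨natZ n, hN.natZ_mem_N n⟩, rfl⟩
  obtain ⟨B, hB⟩ : ∃ B : N, B.1 = natZ v := ⟨⟨natZ v, hN.natZ_mem_N v⟩, rfl⟩
  obtain ⟨Z, hZ⟩ : ∃ Z : N, Z.1 = zs b := ⟨⟨_, hb⟩, rfl⟩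
  refine zs_of (hN := hN) (P := fun i j => (((i = A ∧ j = B)) ∨ (((¬ (i = A)) ∧ ZFSet.pair i.1 j.1 ∈ Z.1)))) (Dfn.or (Dfn.and (Dfn.eq (DT.var _) (DT.const A))
  (Dfn.eq (DT.var _) (DT.const B)))
  (Dfn.and (Dfn.not (Dfn.eq (DT.var _) (DT.const A)))
  (Dfn.pairMem (DT.var _) (DT.var _) (DT.const Z)))) fun i j => ?_
  have h1 : (⟨natZ i, hN.natZ_mem_N i⟩ : N) = A ↔ i = n := by
    rw [Subtype.ext_iff, hA]; exact natZ_inj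
  have h2 : (⟨natZ j, hN.natZ_mem_N j⟩ : N) = B ↔ j = v := by
    rw [Subtype.ext_iff, hB]; exact natZ_inj
  rw [h1, h2, hZ, pair_mem_zs]
  by_cases h : i = n
  · subst h
    simp [eq_comm]
  · rw [Function.update_of_ne h]
    simp [h]

/-- The trace of `A` in the model. -/
theorem exists_trace (hN : CTM N) {A : Set (ℕ → ℕ)} (hA : AClosed A N) :
    ∃ S : N, ∀ v : ZFSet.{u}, v ∈ S.1 ↔ v ∈ N ∧ ∃ b, v = zs b ∧ b ∈ A := by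
  obtain ⟨S0, hS0, h1⟩ := trace_mem hN hA
  obtain ⟨S, hS, hS'⟩ := hN.exists_sep (P := fun w => IsRl w) IsRl_dfn hS0
  refine ⟨⟨S, hS⟩, fun v => ?_⟩
  show v ∈ S ↔ _
  rw [hS']
  constructor
  · rintro ⟨h2, h3, h4⟩
    obtain ⟨b, hb⟩ := (isRl_iff (hN := hN)).1 h4
    have hb : v = zs b := hb
    refine ⟨h3, b, hb, ?_⟩
    rw [hb] at h2 h3
    exact (h1 b h3).1 h2
  · rintro ⟨h2, b, rfl, h3⟩
    exact ⟨(h1 b h2).2 h3, h2, (isRl_iff (hN := hN)).2 ⟨b, rfl⟩⟩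

/-! ## The code in the model -/

/-- `f(z)(c) = j`. -/
def F3d (S SC3 N0 N1 N2 z c j : N) : Prop := (∃ w : N, (w.1 ∈ S.1 ∧ ZFSet.pair N0.1 N0.1 ∈ w.1 ∧ ZFSet.pair N1.1 c.1 ∈ w.1 ∧ ZFSet.pair N2.1 j.1 ∈ w.1 ∧ ((∀ i : N, (∀ u : N, (∀ k : N, (ZFSet.pair i.1 u.1 ∈ z.1 → ((Tri SC3) k i N0 → ZFSet.pair k.1 u.1 ∈ w.1))))))))

theorem F3d_dfn (S SC3 N0 N1 N2 : N) :
    hN.Dfn (fun v : Fin 3 → N => F3d S SC3 N0 N1 N2 (v 0) (v 1) (v 2)) := by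
  unfold F3d
  exact (Dfn.ex (P := fun v w => (w.1 ∈ S.1 ∧ ZFSet.pair N0.1 N0.1 ∈ w.1 ∧ ZFSet.pair N1.1 (v 1).1 ∈ w.1 ∧ ZFSet.pair N2.1 (v 2).1 ∈ w.1 ∧ ((∀ i : N, (∀ u : N, (∀ k : N, (ZFSet.pair i.1 u.1 ∈ (v 0).1 → ((Tri SC3) k i N0 → ZFSet.pair k.1 u.1 ∈ w.1))))))))
  (Dfn.and (Dfn.mem (DT.var _) (DT.const S))
  (Dfn.and (Dfn.pairMem (DT.const N0) (DT.const N0) (DT.var _))
  (Dfn.and (Dfn.pairMem (DT.const N1) (DT.var _) (DT.var _))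
  (Dfn.and (Dfn.pairMem (DT.const N2) (DT.var _) (DT.var _))
  (Dfn.all (P := fun v i => (∀ u : N, (∀ k : N, (ZFSet.pair i.1 u.1 ∈ (v 0).1 → ((Tri SC3) k i N0 → ZFSet.pair k.1 u.1 ∈ (v 3).1)))))
  (Dfn.all (P := fun v u => (∀ k : N, (ZFSet.pair (v 4).1 u.1 ∈ (v 0).1 → ((Tri SC3) k (v 4) N0 → ZFSet.pair k.1 u.1 ∈ (v 3).1))))
  (Dfn.all (P := fun v k => (ZFSet.pair (v 4).1 (v 5).1 ∈ (v 0).1 → ((Tri SC3) k (v 4) N0 → ZFSet.pair k.1 (v 5).1 ∈ (v 3).1)))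
  (Dfn.imp (Dfn.pairMem (DT.var _) (DT.var _) (DT.var _))
  (Dfn.imp (Dfn.subst3 (P := (Tri SC3)) (Tri_dfn SC3) (DT.var _) (DT.var _) (DT.const N0))
  (Dfn.pairMem (DT.var _) (DT.var _) (DT.var _))))))))))))

/-- `Y` is the set of all `c` with `f(z)(c) ≠ 0`. -/
def FYd (S SC3 N0 N1 N2 z Y : N) : Prop := (∀ c : N, (c.1 ∈ Y.1 ↔ (∃ j : N, ((F3d S SC3 N0 N1 N2) z c j ∧ (¬ (j = N0))))))

theorem FYd_dfn (S SC3 N0 N1 N2 : N) :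
    hN.Dfn (fun v : Fin 2 → N => FYd S SC3 N0 N1 N2 (v 0) (v 1)) := by
  unfold FYd
  exact (Dfn.all (P := fun v c => (c.1 ∈ (v 1).1 ↔ (∃ j : N, ((F3d S SC3 N0 N1 N2) (v 0) c j ∧ (¬ (j = N0))))))
  (Dfn.iff (Dfn.mem (DT.var _) (DT.var _))
  (Dfn.ex (P := fun v j => ((F3d S SC3 N0 N1 N2) (v 0) (v 2) j ∧ (¬ (j = N0))))
  (Dfn.and (Dfn.subst3 (P := (F3d S SC3 N0 N1 N2)) (F3d_dfn S SC3 N0 N1 N2) (DT.var _) (DT.var _) (DT.var _))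
  (Dfn.not (Dfn.eq (DT.var _) (DT.const N0)))))))

/-- The order coded by `z`. -/
def LoD (PR0 N0 z i j : N) : Prop := (∃ k : N, (∃ u : N, ((Tri PR0) i j k ∧ ZFSet.pair k.1 u.1 ∈ z.1 ∧ (¬ (u = N0)))))

theorem LoD_dfn (PR0 N0 : N) : hN.Dfn (fun v : Fin 3 → N => LoD PR0 N0 (v 0) (v 1) (v 2)) := by
  unfold LoD
  exact (Dfn.ex (P := fun v k => (∃ u : N, ((Tri PR0) (v 1) (v 2) k ∧ ZFSet.pair k.1 u.1 ∈ (v 0).1 ∧ (¬ (u = N0)))))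
  (Dfn.ex (P := fun v u => ((Tri PR0) (v 1) (v 2) (v 3) ∧ ZFSet.pair (v 3).1 u.1 ∈ (v 0).1 ∧ (¬ (u = N0))))
  (Dfn.and (Dfn.subst3 (P := (Tri PR0)) (Tri_dfn PR0) (DT.var _) (DT.var _) (DT.var _))
  (Dfn.and (Dfn.pairMem (DT.var _) (DT.var _) (DT.var _))
  (Dfn.not (Dfn.eq (DT.var _) (DT.const N0)))))))

/-- `z` codes a well-order of `ω`. -/
def WOD (PR0 N0 z : N) : Prop := (((∀ i : N, (∀ j : N, (i.1 ∈ omZ → (j.1 ∈ omZ → ((LoD PR0 N0) z i j ∨ i = j ∨ (LoD PR0 N0) z j i)))))) ∧ ((∀ i : N, (∀ j : N, (∀ k : N, ((LoD PR0 N0) z i j → ((LoD PR0 N0) z j k → (LoD PR0 N0) z i k)))))) ∧ ((∀ X : N, (X.1 ⊆ omZ → ((∃ i : N, i.1 ∈ X.1) → (∃ m : N, (m.1 ∈ X.1 ∧ ((∀ j : N, (j.1 ∈ X.1 → ¬ ((LoD PR0 N0) z j m)))))))))))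

theorem WOD_dfn (PR0 N0 : N) : hN.Dfn (fun v : Fin 1 → N => WOD PR0 N0 (v 0)) := by
  unfold WOD
  exact (Dfn.and (Dfn.all (P := fun v i => (∀ j : N, (i.1 ∈ omZ → (j.1 ∈ omZ → ((LoD PR0 N0) (v 0) i j ∨ i = j ∨ (LoD PR0 N0) (v 0) j i)))))
  (Dfn.all (P := fun v j => ((v 1).1 ∈ omZ → (j.1 ∈ omZ → ((LoD PR0 N0) (v 0) (v 1) j ∨ (v 1) = j ∨ (LoD PR0 N0) (v 0) j (v 1)))))
  (Dfn.imp (Dfn.mem (DT.var _) (DT.const ⟨omZ, hN.omZ_mem⟩))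
  (Dfn.imp (Dfn.mem (DT.var _) (DT.const ⟨omZ, hN.omZ_mem⟩))
  (Dfn.or (Dfn.subst3 (P := (LoD PR0 N0)) (LoD_dfn PR0 N0) (DT.var _) (DT.var _) (DT.var _))
  (Dfn.or (Dfn.eq (DT.var _) (DT.var _))
  (Dfn.subst3 (P := (LoD PR0 N0)) (LoD_dfn PR0 N0) (DT.var _) (DT.var _) (DT.var _))))))))
  (Dfn.and (Dfn.all (P := fun v i => (∀ j : N, (∀ k : N, ((LoD PR0 N0) (v 0) i j → ((LoD PR0 N0) (v 0) j k → (LoD PR0 N0) (v 0) i k)))))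
  (Dfn.all (P := fun v j => (∀ k : N, ((LoD PR0 N0) (v 0) (v 1) j → ((LoD PR0 N0) (v 0) j k → (LoD PR0 N0) (v 0) (v 1) k))))
  (Dfn.all (P := fun v k => ((LoD PR0 N0) (v 0) (v 1) (v 2) → ((LoD PR0 N0) (v 0) (v 2) k → (LoD PR0 N0) (v 0) (v 1) k)))
  (Dfn.imp (Dfn.subst3 (P := (LoD PR0 N0)) (LoD_dfn PR0 N0) (DT.var _) (DT.var _) (DT.var _))
  (Dfn.imp (Dfn.subst3 (P := (LoD PR0 N0)) (LoD_dfn PR0 N0) (DT.var _) (DT.var _) (DT.var _))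
  (Dfn.subst3 (P := (LoD PR0 N0)) (LoD_dfn PR0 N0) (DT.var _) (DT.var _) (DT.var _)))))))
  (Dfn.all (P := fun v X => (X.1 ⊆ omZ → ((∃ i : N, i.1 ∈ X.1) → (∃ m : N, (m.1 ∈ X.1 ∧ ((∀ j : N, (j.1 ∈ X.1 → ¬ ((LoD PR0 N0) (v 0) j m)))))))))
  (Dfn.imp (Dfn.subset (DT.var _) (DT.const ⟨omZ, hN.omZ_mem⟩))
  (Dfn.imp (Dfn.ex (P := fun v i => i.1 ∈ (v 1).1)
  (Dfn.mem (DT.var _) (DT.var _)))
  (Dfn.ex (P := fun v m => (m.1 ∈ (v 1).1 ∧ ((∀ j : N, (j.1 ∈ (v 1).1 → ¬ ((LoD PR0 N0) (v 0) j m))))))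
  (Dfn.and (Dfn.mem (DT.var _) (DT.var _))
  (Dfn.all (P := fun v j => (j.1 ∈ (v 1).1 → ¬ ((LoD PR0 N0) (v 0) j (v 2))))
  (Dfn.imp (Dfn.mem (DT.var _) (DT.var _))
  (Dfn.not (Dfn.subst3 (P := (LoD PR0 N0)) (LoD_dfn PR0 N0) (DT.var _) (DT.var _) (DT.var _))))))))))))

/-- The sets needed in the model. -/
structure Tabs (N : Set ZFSet.{u}) (f : (ℕ → ℕ) → ℕ → ℕ) (S SC3 PR0 N0 N1 N2 : N) : Prop where
  s0 : ∀ v ∈ S.1, v ∈ N ∧ ∃ b, v = zs b ∧ (b 0 = 0 → f (fun n => b (n + 3)) (b 1) = b 2)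
  s1 : ∀ b, zs b ∈ N → b 0 = 0 → f (fun n => b (n + 3)) (b 1) = b 2 → zs b ∈ S.1
  sc3 : SC3.1 = relThreeZ.{u} (fun j k b => j = k + 3 ∧ b = 0)
  pr0 : PR0.1 = relThreeZ.{u} (fun i j k => k = Nat.pair 0 (Nat.pair i j))
  n0 : N0.1 = natZ 0
  n1 : N1.1 = natZ 1
  n2 : N2.1 = natZ 2

/-- The arithmetical tables. -/
theorem fr_mem (hN : CTM N) {f : (ℕ → ℕ) → ℕ → ℕ} {FR : ℕ → ℕ → ℕ → ℕ → Prop}
    (hA : AClosed (Am f FR) N) (m : ℕ) (hm : m ≠ 0) : relThreeZ.{u} (FR m) ∈ N := by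
  obtain ⟨S, hS⟩ := exists_trace hN hA
  obtain ⟨N0, hN0⟩ : ∃ N0 : N, N0.1 = natZ 0 := ⟨⟨natZ 0, hN.natZ_mem_N 0⟩, rfl⟩
  obtain ⟨N1, hN1⟩ : ∃ N1 : N, N1.1 = natZ 1 := ⟨⟨natZ 1, hN.natZ_mem_N 1⟩, rfl⟩
  obtain ⟨N2, hN2⟩ : ∃ N2 : N, N2.1 = natZ 2 := ⟨⟨natZ 2, hN.natZ_mem_N 2⟩, rfl⟩
  obtain ⟨N3, hN3⟩ : ∃ N3 : N, N3.1 = natZ 3 := ⟨⟨natZ 3, hN.natZ_mem_N 3⟩, rfl⟩
  obtain ⟨NM, hNM⟩ : ∃ NM : N, NM.1 = natZ m := ⟨⟨natZ m, hN.natZ_mem_N m⟩, rfl⟩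
  refine rel_of (hN := hN) (P := fun i j k => (∃ w : N, (w.1 ∈ S.1 ∧ ZFSet.pair N0.1 NM.1 ∈ w.1 ∧ ZFSet.pair N1.1 i.1 ∈ w.1 ∧ ZFSet.pair N2.1 j.1 ∈ w.1 ∧ ZFSet.pair N3.1 k.1 ∈ w.1))) (Dfn.ex (P := fun v w => (w.1 ∈ S.1 ∧ ZFSet.pair N0.1 NM.1 ∈ w.1 ∧ ZFSet.pair N1.1 (v 0).1 ∈ w.1 ∧ ZFSet.pair N2.1 (v 1).1 ∈ w.1 ∧ ZFSet.pair N3.1 (v 2).1 ∈ w.1))
  (Dfn.and (Dfn.mem (DT.var _) (DT.const S))
  (Dfn.and (Dfn.pairMem (DT.const N0) (DT.const NM) (DT.var _))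
  (Dfn.and (Dfn.pairMem (DT.const N1) (DT.var _) (DT.var _))
  (Dfn.and (Dfn.pairMem (DT.const N2) (DT.var _) (DT.var _))
  (Dfn.pairMem (DT.const N3) (DT.var _) (DT.var _))))))) fun i j k => ?_
  constructor
  · rintro ⟨w, h1, h2, h3, h4, h5⟩
    obtain ⟨_, b, hb, hb'⟩ := (hS _).1 h1
    rw [hb, hN0, hNM, pair_mem_zs] at h2
    rw [hb, hN1] at h3
    rw [hb, hN2] at h4
    rw [hb, hN3] at h5
    have h3 := pair_mem_zs.1 h3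
    have h4 := pair_mem_zs.1 h4
    have h5 := pair_mem_zs.1 h5
    rcases hb' with ⟨h6, _⟩ | ⟨_, h6⟩
    · exact (hm (h2.symm.trans h6)).elim
    · rwa [h2, h3, h4, h5] at h6
  · intro h
    let b : ℕ → ℕ := Function.update (Function.update (Function.update (Function.update
      (fun _ => 0) 0 m) 1 i) 2 j) 3 k
    have hb : zs b ∈ N := zs_update hN (zs_update hN (zs_update hN (zs_update hN
      (zs_zero hN) _ _) _ _) _ _) _ _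
    have b0 : b 0 = m := by simp [b, Function.update]
    have b1 : b 1 = i := by simp [b, Function.update]
    have b2 : b 2 = j := by simp [b, Function.update]
    have b3 : b 3 = k := by simp [b, Function.update]
    refine ⟨⟨_, hb⟩, (hS _).2 ⟨hb, b, rfl, Or.inr ⟨by rw [b0]; exact hm, ?_⟩⟩, ?_, ?_, ?_, ?_⟩
    · rw [b0, b1, b2, b3]; exact h
    · show ZFSet.pair N0.1 NM.1 ∈ zs b
      rw [hN0, hNM]; exact pair_mem_zs.2 b0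
    · show ZFSet.pair N1.1 _ ∈ zs b
      rw [hN1]; exact pair_mem_zs.2 b1
    · show ZFSet.pair N2.1 _ ∈ zs b
      rw [hN2]; exact pair_mem_zs.2 b2
    · show ZFSet.pair N3.1 _ ∈ zs b
      rw [hN3]; exact pair_mem_zs.2 b3

/-- The tables exist. -/
theorem exists_tabs (hN : CTM N) {f : (ℕ → ℕ) → ℕ → ℕ} {FR : ℕ → ℕ → ℕ → ℕ → Prop}
    (hA : AClosed (Am f FR) N) (h3 : relThreeZ.{u} (fun j k b => j = k + 3 ∧ b = 0) ∈ N)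
    (h0 : relThreeZ.{u} (fun i j k => k = Nat.pair 0 (Nat.pair i j)) ∈ N) :
    ∃ S SC3 PR0 N0 N1 N2 : N, Tabs N f S SC3 PR0 N0 N1 N2 := by
  obtain ⟨S, hS⟩ := exists_trace hN hA
  refine ⟨S, ⟨_, h3⟩, ⟨_, h0⟩, ⟨natZ 0, hN.natZ_mem_N 0⟩, ⟨natZ 1, hN.natZ_mem_N 1⟩,
    ⟨natZ 2, hN.natZ_mem_N 2⟩, ⟨fun v hv => ?_, fun b hb h1 h2 => ?_, rfl, rfl, rfl, rfl, rfl⟩⟩
  · obtain ⟨h1, b, h2, h3⟩ := (hS v).1 hv
    refine ⟨h1, b, h2, fun h4 => ?_⟩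
    rcases h3 with ⟨_, h5⟩ | ⟨h5, _⟩
    · exact h5
    · exact (h5 h4).elim
  · exact (hS _).2 ⟨hb, b, rfl, Or.inl ⟨h1, h2⟩⟩

section

variable {f : (ℕ → ℕ) → ℕ → ℕ} {S SC3 PR0 N0 N1 N2 : N} (hT : Tabs N f S SC3 PR0 N0 N1 N2)

include hN hT

theorem shift_mem {b : ℕ → ℕ} (hb : zs b ∈ N) (c j : ℕ) :
    zs (fun n => if n = 0 then 0 else if n = 1 then c else if n = 2 then j else b (n - 3)) ∈ N := by
  obtain ⟨Z, hZ⟩ : ∃ Z : N, Z.1 = zs b := ⟨⟨_, hb⟩, rfl⟩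
  obtain ⟨C, hC⟩ : ∃ C : N, C.1 = natZ c := ⟨⟨natZ c, hN.natZ_mem_N c⟩, rfl⟩
  obtain ⟨J, hJ⟩ : ∃ J : N, J.1 = natZ j := ⟨⟨natZ j, hN.natZ_mem_N j⟩, rfl⟩
  refine zs_of (hN := hN) (P := fun i j => (((i = N0 ∧ j = N0)) ∨ ((i = N1 ∧ j = C)) ∨ ((i = N2 ∧ j = J)) ∨ ((∃ k : N, (ZFSet.pair k.1 j.1 ∈ Z.1 ∧ (Tri SC3) i k N0))))) (Dfn.or (Dfn.and (Dfn.eq (DT.var _) (DT.const N0))
  (Dfn.eq (DT.var _) (DT.const N0)))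
  (Dfn.or (Dfn.and (Dfn.eq (DT.var _) (DT.const N1))
  (Dfn.eq (DT.var _) (DT.const C)))
  (Dfn.or (Dfn.and (Dfn.eq (DT.var _) (DT.const N2))
  (Dfn.eq (DT.var _) (DT.const J)))
  (Dfn.ex (P := fun v k => (ZFSet.pair k.1 (v 1).1 ∈ Z.1 ∧ (Tri SC3) (v 0) k N0))
  (Dfn.and (Dfn.pairMem (DT.var _) (DT.var _) (DT.const Z))
  (Dfn.subst3 (P := (Tri SC3)) (Tri_dfn SC3) (DT.var _) (DT.var _) (DT.const N0))))))) fun n m => ?_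
  have e : ∀ (a : ℕ) (X : N) (x : ℕ), X.1 = natZ x →
      ((⟨natZ a, hN.natZ_mem_N a⟩ : N) = X ↔ a = x) := by
    intro a X x hX
    rw [Subtype.ext_iff, hX]; exact natZ_inj
  rw [e n N0 0 hT.n0, e n N1 1 hT.n1, e n N2 2 hT.n2, e m N0 0 hT.n0, e m C c hC, e m J j hJ]
  have h1 : (∃ k : N, ZFSet.pair k.1 (natZ.{u} m) ∈ Z.1 ∧
      Tri SC3 ⟨natZ n, hN.natZ_mem_N n⟩ k N0) ↔ ∃ k, b k = m ∧ n = k + 3 := by
    constructor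
    · rintro ⟨k, h1, h2⟩
      obtain ⟨a1, a2, a3, b1, b2, b3, b4⟩ := (tri_iff (hN := hN) hT.sc3).1 h2
      rw [hZ, b3, pair_mem_zs] at h1
      have b2 : natZ.{u} n = natZ a1 := b2
      rw [natZ_inj] at b2
      exact ⟨a2, h1, b2.trans b1.1⟩
    · rintro ⟨k, h1, h2⟩
      refine ⟨⟨natZ k, hN.natZ_mem_N k⟩, by rw [hZ]; exact pair_mem_zs.2 h1, ?_⟩
      exact (tri_nat (hN := hN) hT.sc3 rfl rfl hT.n0).2 ⟨h2, rfl⟩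
  rw [h1]
  rcases n with _ | _ | _ | n
  · simp [eq_comm]
  · simp [eq_comm]
  · simp [eq_comm]
  · simp

theorem f3_iff {z c j : N} {b : ℕ → ℕ} (hz : z.1 = zs b) : F3d S SC3 N0 N1 N2 z c j ↔
    ∃ c0 j0, c.1 = natZ c0 ∧ j.1 = natZ j0 ∧ f b c0 = j0 := by
  unfold F3d
  constructor
  · rintro ⟨w, h1, h2, h3, h4, h5⟩
    obtain ⟨_, a, ha, ha'⟩ := hT.s0 _ h1
    rw [ha, hT.n0, pair_mem_zs] at h2
    rw [ha, mem_zs] at h3 h4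
    obtain ⟨i1, g1⟩ := h3
    obtain ⟨i2, g2⟩ := h4
    rw [ZFSet.pair_inj, hT.n1] at g1
    rw [ZFSet.pair_inj, hT.n2] at g2
    have e1 := natZ_inj.1 g1.1
    have e2 := natZ_inj.1 g2.1
    subst e1 e2
    refine ⟨a 1, a 2, g1.2, g2.2, ?_⟩
    rw [← ha' h2]
    congr 1
    funext n
    have h6 := h5 ⟨natZ n, hN.natZ_mem_N n⟩ ⟨natZ (b n), hN.natZ_mem_N _⟩
      ⟨natZ (n + 3), hN.natZ_mem_N _⟩ (by rw [hz]; exact pair_mem_zs.2 rfl)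
      ((tri_nat (hN := hN) hT.sc3 rfl rfl hT.n0).2 ⟨rfl, rfl⟩)
    rw [ha] at h6
    exact (pair_mem_zs.1 h6).symm
  · rintro ⟨c0, j0, hc, hj, h⟩
    let a : ℕ → ℕ := fun n => if n = 0 then 0 else if n = 1 then c0 else if n = 2 then j0
      else b (n - 3)
    have ha : zs a ∈ N := shift_mem (hN := hN) hT (by rw [← hz]; exact z.2) c0 j0
    refine ⟨⟨_, ha⟩, hT.s1 a ha rfl ?_, ?_, ?_, ?_, ?_⟩
    · show f b c0 = j0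
      exact h
    · rw [hT.n0]; exact pair_mem_zs.2 rfl
    · rw [hT.n1, hc]; exact pair_mem_zs.2 rfl
    · rw [hT.n2, hj]; exact pair_mem_zs.2 rfl
    · intro i v k h1 h2
      obtain ⟨a1, a2, a3, b1, b2, b3, b4⟩ := (tri_iff (hN := hN) hT.sc3).1 h2
      rw [hz, b3, mem_zs] at h1
      obtain ⟨i', h1⟩ := h1
      rw [ZFSet.pair_inj, natZ_inj] at h1
      rw [b2, b1.1, h1.2, h1.1]
      exact pair_mem_zs.2 rfl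

theorem fy_iff {z Y : N} {b : ℕ → ℕ} (hz : z.1 = zs b) :
    FYd S SC3 N0 N1 N2 z Y ↔ Y.1 = Ys (f b) := by
  have h1 : ∀ c : N, (∃ j : N, F3d S SC3 N0 N1 N2 z c j ∧ ¬ (j = N0)) ↔ c.1 ∈ Ys.{u} (f b) := by
    intro c
    rw [mem_Ys]
    constructor
    · rintro ⟨j, h1, h2⟩
      obtain ⟨c0, j0, h3, h4, h5⟩ := (f3_iff (hN := hN) hT hz).1 h1
      refine ⟨c0, fun h6 => h2 (Subtype.ext ?_), h3⟩
      rw [h4, ← h5, h6, hT.n0]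
    · rintro ⟨c0, h1, h2⟩
      refine ⟨⟨natZ (f b c0), hN.natZ_mem_N _⟩, (f3_iff (hN := hN) hT hz).2 ⟨c0, _, h2, rfl, rfl⟩,
        fun h3 => h1 ?_⟩
      have h3 : natZ.{u} (f b c0) = N0.1 := congrArg Subtype.val h3
      rwa [hT.n0, natZ_inj] at h3
  unfold FYd
  constructor
  · intro h
    apply ZFSet.ext
    intro y
    constructor
    · intro hy
      exact (h1 ⟨y, hN.mem_of_mem Y.2 hy⟩).1 ((h _).1 hy)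
    · intro hy
      obtain ⟨c, _, hc⟩ := mem_Ys.1 hy
      have hyN : y ∈ N := by rw [hc]; exact hN.natZ_mem_N c
      exact (h ⟨y, hyN⟩).2 ((h1 ⟨y, hyN⟩).2 hy)
  · intro h c
    rw [h, h1]

theorem ys_mem {b : ℕ → ℕ} (hb : zs b ∈ N) : Ys (f b) ∈ N := by
  obtain ⟨Z, hZ⟩ : ∃ Z : N, Z.1 = zs b := ⟨⟨_, hb⟩, rfl⟩
  have hd : hN.Dfn (fun v : Fin 1 → N => (∃ j : N, ((F3d S SC3 N0 N1 N2) Z (v 0) j ∧ (¬ (j = N0))))) := (Dfn.ex (P := fun v j => ((F3d S SC3 N0 N1 N2) Z (v 0) j ∧ (¬ (j = N0))))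
  (Dfn.and (Dfn.subst3 (P := (F3d S SC3 N0 N1 N2)) (F3d_dfn S SC3 N0 N1 N2) (DT.const Z) (DT.var _) (DT.var _))
  (Dfn.not (Dfn.eq (DT.var _) (DT.const N0)))))
  obtain ⟨Y, hY, hY'⟩ := hN.exists_sep (P := fun c => (∃ j : N, ((F3d S SC3 N0 N1 N2) Z c j ∧ (¬ (j = N0))))) hd hN.omZ_mem
  have h1 : FYd S SC3 N0 N1 N2 Z ⟨Y, hY⟩ := by
    intro c
    show c.1 ∈ Y ↔ _
    rw [hY']
    constructor
    · rintro ⟨_, _, h⟩; exact h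
    · intro h
      refine ⟨?_, c.2, h⟩
      obtain ⟨j, h1, _⟩ := h
      obtain ⟨c0, j0, h3, h4, h5⟩ := (f3_iff (hN := hN) hT hZ).1 h1
      rw [h3]; exact natZ_mem_omZ _
  rw [← (fy_iff (hN := hN) hT hZ).1 h1]
  exact hY

theorem lo_iff {z i j : N} {b : ℕ → ℕ} (hz : z.1 = zs b) : LoD PR0 N0 z i j ↔
    ∃ i0 j0, i.1 = natZ i0 ∧ j.1 = natZ j0 ∧ Lo b i0 j0 := by
  unfold LoD Lo
  constructor
  · rintro ⟨k, v, h1, h2, h3⟩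
    obtain ⟨a1, a2, a3, b1, b2, b3, b4⟩ := (tri_iff (hN := hN) hT.pr0).1 h1
    refine ⟨a1, a2, b2, b3, fun h4 => h3 (Subtype.ext ?_)⟩
    rw [hz, b4, mem_zs] at h2
    obtain ⟨n, h2⟩ := h2
    rw [ZFSet.pair_inj, natZ_inj] at h2
    rw [h2.2, ← h2.1, b1, h4, hT.n0]
  · rintro ⟨i0, j0, h1, h2, h3⟩
    refine ⟨⟨natZ (Nat.pair 0 (Nat.pair i0 j0)), hN.natZ_mem_N _⟩,
      ⟨natZ (b (Nat.pair 0 (Nat.pair i0 j0))), hN.natZ_mem_N _⟩, ?_, ?_, fun h4 => h3 ?_⟩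
    · exact (tri_nat (hN := hN) hT.pr0 h1 h2 rfl).2 rfl
    · rw [hz]; exact pair_mem_zs.2 rfl
    · have h4 : natZ.{u} (b (Nat.pair 0 (Nat.pair i0 j0))) = N0.1 := congrArg Subtype.val h4
      rwa [hT.n0, natZ_inj] at h4


theorem wod_iff {z : N} {b : ℕ → ℕ} (hz : z.1 = zs b) : WOD PR0 N0 z ↔ WOr b := by
  have hlo : ∀ i j : ℕ, ∀ I J : N, I.1 = natZ i → J.1 = natZ j → (LoD PR0 N0 z I J ↔ Lo b i j) := by
    intro i j I J hI hJ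
    rw [lo_iff (hN := hN) hT hz]
    constructor
    · rintro ⟨i0, j0, h1, h2, h3⟩
      rw [hI, natZ_inj] at h1
      rw [hJ, natZ_inj] at h2
      rw [h1, h2]; exact h3
    · intro h; exact ⟨i, j, hI, hJ, h⟩
  unfold WOD
  constructor
  · rintro ⟨h1, h2, h3⟩
    have htri : ∀ i j, ¬ Lo b i j → ¬ Lo b j i → i = j := by
      intro i j h4 h5
      rcases h1 ⟨natZ i, hN.natZ_mem_N i⟩ ⟨natZ j, hN.natZ_mem_N j⟩ (natZ_mem_omZ i)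
        (natZ_mem_omZ j) with h | h | h
      · exact (h4 ((hlo i j _ _ rfl rfl).1 h)).elim
      · exact natZ_inj.1 (congrArg Subtype.val h)
      · exact (h5 ((hlo j i _ _ rfl rfl).1 h)).elim
    -- the relation as a set
    have hd : hN.Dfn (fun v : Fin 1 → N => (∃ i : N, (∃ j : N, ((v 0).1 = ZFSet.pair i.1 j.1 ∧ (LoD PR0 N0) z i j)))) := (Dfn.ex (P := fun v i => (∃ j : N, ((v 0).1 = ZFSet.pair i.1 j.1 ∧ (LoD PR0 N0) z i j)))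
  (Dfn.ex (P := fun v j => ((v 0).1 = ZFSet.pair (v 1).1 j.1 ∧ (LoD PR0 N0) z (v 1) j))
  (Dfn.and (Dfn.isPair (DT.var _) (DT.var _) (DT.var _))
  (Dfn.subst3 (P := (LoD PR0 N0)) (LoD_dfn PR0 N0) (DT.const z) (DT.var _) (DT.var _)))))
    obtain ⟨E, hE, hE'⟩ := hN.exists_sep (P := fun p => (∃ i : N, (∃ j : N, (p.1 = ZFSet.pair i.1 j.1 ∧ (LoD PR0 N0) z i j)))) hd
      (hN.prod_mem hN.omZ_mem hN.omZ_mem)
    have hE2 : ∀ i j : N, ZFSet.pair i.1 j.1 ∈ E ↔ LoD PR0 N0 z i j := by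
      intro i j
      rw [hE']
      constructor
      · rintro ⟨_, h4, i', j', h5, h6⟩
        have h5 : ZFSet.pair i.1 j.1 = ZFSet.pair i'.1 j'.1 := h5
        rw [ZFSet.pair_inj] at h5
        have e1 : i = i' := Subtype.ext h5.1
        have e2 : j = j' := Subtype.ext h5.2
        rw [e1, e2]; exact h6
      · intro h
        obtain ⟨i0, j0, h5, h6, _⟩ := (lo_iff (hN := hN) hT hz).1 h
        refine ⟨?_, hN.pair_mem i.2 j.2, i, j, rfl, h⟩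
        rw [h5, h6]; simp [natZ_mem_omZ]
    obtain ⟨F, _, hF⟩ := exists_collapse_of_min hN hN.omZ_mem hE (by
      intro y x h
      have hyx := hN.of_pair_mem (hN.mem_of_mem hE h)
      obtain ⟨i0, j0, h5, h6, _⟩ := (lo_iff (hN := hN) hT hz).1 ((hE2 ⟨y, hyx.1⟩ ⟨x, hyx.2⟩).1 h)
      have h5 : y = natZ i0 := h5
      have h6 : x = natZ j0 := h6
      rw [h5, h6]
      exact ⟨natZ_mem_omZ _, natZ_mem_omZ _⟩) (by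
      intro c hc hcs hc0
      have hne : ∃ e, e ∈ c := by
        by_contra hc1
        push Not at hc1
        exact hc0 ((ZFSet.eq_empty c).2 hc1)
      obtain ⟨e, he⟩ := hne
      obtain ⟨m, hm, h4⟩ := h3 ⟨c, hc⟩ hcs ⟨⟨e, hN.mem_of_mem hc he⟩, he⟩
      refine ⟨m.1, hm, fun y hy h5 => ?_⟩
      exact h4 ⟨y, hN.mem_of_mem hc hy⟩ hy ((hE2 ⟨y, hN.mem_of_mem hc hy⟩ m).1 h5))
    have hwf : WellFounded (Lo b) := by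
      refine Subrelation.wf (r := fun i j : ℕ => (F ⟨natZ i, hN.natZ_mem_N i⟩).1.rank <
        (F ⟨natZ j, hN.natZ_mem_N j⟩).1.rank) ?_ (InvImage.wf
        (fun i : ℕ => (F ⟨natZ i, hN.natZ_mem_N i⟩).1.rank) wellFounded_lt)
      intro i j h
      refine ZFSet.rank_lt_of_mem ((hF _ _).2 ⟨_, ?_, rfl⟩)
      exact (hE2 _ _).2 ((hlo i j _ _ rfl rfl).2 h)
    exact @IsWellOrder.mk _ _ ⟨hwf⟩ ⟨htri⟩
  · intro h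
    have hwo : IsWellOrder ℕ (Lo b) := h
    refine ⟨fun i j hi hj => ?_, fun i j k h1 h2 => ?_, fun X hX hne => ?_⟩
    · obtain ⟨i0, hi0⟩ := mem_omZ.1 hi
      obtain ⟨j0, hj0⟩ := mem_omZ.1 hj
      by_cases h1 : Lo b i0 j0
      · exact Or.inl ((hlo _ _ _ _ hi0 hj0).2 h1)
      by_cases h2 : Lo b j0 i0
      · exact Or.inr (Or.inr ((hlo _ _ _ _ hj0 hi0).2 h2))
      have h3 := hwo.toTrichotomous.trichotomous i0 j0 h1 h2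
      exact Or.inr (Or.inl (Subtype.ext (by rw [hi0, hj0, h3])))
    · obtain ⟨i0, j0, g1, g2, g3⟩ := (lo_iff (hN := hN) hT hz).1 h1
      obtain ⟨j1, k0, g4, g5, g6⟩ := (lo_iff (hN := hN) hT hz).1 h2
      rw [g2, natZ_inj] at g4
      subst g4
      exact (hlo _ _ _ _ g1 g5).2 (_root_.trans g3 g6)
    · obtain ⟨i, hi⟩ := hne
      obtain ⟨i0, hi0⟩ := mem_omZ.1 (hX hi)
      obtain ⟨m, hm, hm'⟩ := hwo.toIsWellFounded.wf.has_min {n : ℕ | natZ n ∈ X.1}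
        ⟨i0, by show natZ i0 ∈ X.1; rw [← hi0]; exact hi⟩
      refine ⟨⟨natZ m, hN.natZ_mem_N m⟩, hm, fun j hj h1 => ?_⟩
      obtain ⟨j0, hj0⟩ := mem_omZ.1 (hX hj)
      exact hm' j0 (by show natZ j0 ∈ X.1; rw [← hj0]; exact hj) ((hlo _ _ _ _ hj0 rfl).1 h1)

/-- The set of all blueprints of the model. -/
theorem exists_C : ∃ C : N, ∀ v : ZFSet.{u}, v ∈ C.1 ↔ ∃ b, zs b ∈ N ∧ WOr b ∧ v = Ys (f b) := by
  obtain ⟨P, hP, hP'⟩ := hN.exists_pow (hN.prod_mem hN.omZ_mem hN.omZ_mem)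
  obtain ⟨R, hR, hR'⟩ := hN.exists_sep (P := fun z => IsRl z ∧ WOD PR0 N0 z) (show hN.Dfn (fun v : Fin 1 → N => (IsRl (v 0) ∧ (WOD PR0 N0) (v 0))) from (Dfn.and (Dfn.subst1 (P := IsRl) IsRl_dfn (DT.var _))
  (Dfn.subst1 (P := (WOD PR0 N0)) (WOD_dfn PR0 N0) (DT.var _)))) hP
  obtain ⟨C, hC, hC'⟩ := hN.exists_repl (F := fun z Y => FYd S SC3 N0 N1 N2 z Y)
    (FYd_dfn S SC3 N0 N1 N2) hR (by
      intro z hz Y Y' h1 h2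
      obtain ⟨_, _, h3, _⟩ := (hR' _).1 hz
      obtain ⟨b, hb⟩ := (isRl_iff (hN := hN)).1 h3
      have hb : z.1 = zs b := hb
      exact Subtype.ext (((fy_iff (hN := hN) hT hb).1 h1).trans ((fy_iff (hN := hN) hT hb).1 h2).symm))
  refine ⟨⟨C, hC⟩, fun v => ?_⟩
  show v ∈ C ↔ _
  constructor
  · intro hv
    obtain ⟨z, hz, h1⟩ := (hC' ⟨v, hN.mem_of_mem hC hv⟩).1 hv
    obtain ⟨_, _, h3, h4⟩ := (hR' _).1 hz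
    obtain ⟨b, hb⟩ := (isRl_iff (hN := hN)).1 h3
    have hb : z.1 = zs b := hb
    exact ⟨b, by rw [← hb]; exact z.2, (wod_iff (hN := hN) hT hb).1 h4,
      (fy_iff (hN := hN) hT hb).1 h1⟩
  · rintro ⟨b, hb, hw, rfl⟩
    have hY := ys_mem (hN := hN) hT hb
    refine (hC' ⟨_, hY⟩).2 ⟨⟨_, hb⟩, (hR' _).2 ⟨(hP' _).2 ⟨hb, ?_⟩, hb,
      (isRl_iff (hN := hN)).2 ⟨b, rfl⟩, (wod_iff (hN := hN) hT rfl).2 hw⟩, ?_⟩
    · intro p hp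
      obtain ⟨n, rfl⟩ := mem_zs.1 hp
      simp [natZ_mem_omZ]
    · exact (fy_iff (hN := hN) hT rfl).2 rfl

end

end Pool.Agent.H17.Omega.T8
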