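import Pool.Agent.H17.T8.Defs

/-!
# T8, part D: amalgamation of a universally Baire graph with a clopen relation

Written by helper82 (statement by helper17).
-/

set_option autoImplicit false

universe u

namespace Pool.Agent.H17.Omega.T8

theorem amal_isOpen_coord (P : ℕ → ℕ → ℕ → ℕ → Prop) :
    IsOpen {a : ℕ → ℕ | P (a 0) (a 1) (a 2) (a 3)} := by
  have h : Continuous fun a : ℕ → ℕ => (a 0, a 1, a 2, a 3) := by fun_prop
  exact (isOpen_discrete {q : ℕ × ℕ × ℕ × ℕ | P q.1 q.2.1 q.2.2.1 q.2.2.2}).preimage h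

theorem UB_amal {f : (ℕ → ℕ) → ℕ → ℕ} (hf : UB.{u} {a | f (fun n => a (n + 2)) (a 0) = a 1})
    (FR : ℕ → ℕ → ℕ → ℕ → Prop) :
    UB.{u} {a | (a 0 = 0 ∧ f (fun n => a (n + 3)) (a 1) = a 2) ∨
      (a 0 ≠ 0 ∧ FR (a 0) (a 1) (a 2) (a 3))} := by
  intro X _ F hF
  have h1 : BaireMeasurableSet (F ⁻¹' {a | a 0 = 0}) :=
    ((amal_isOpen_coord fun i _ _ _ => i = 0).preimage hF).baireMeasurableSet
  have h2 : BaireMeasurableSet (F ⁻¹' {a | a 0 ≠ 0 ∧ FR (a 0) (a 1) (a 2) (a 3)}) :=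
    ((amal_isOpen_coord fun i j k l => i ≠ 0 ∧ FR i j k l).preimage hF).baireMeasurableSet
  have h3 : Continuous fun x : X => fun n => F x (n + 1) := by fun_prop
  have h4 := hf X (fun x n => F x (n + 1)) h3
  have e : F ⁻¹' {a | (a 0 = 0 ∧ f (fun n => a (n + 3)) (a 1) = a 2) ∨
      (a 0 ≠ 0 ∧ FR (a 0) (a 1) (a 2) (a 3))} =
      (F ⁻¹' {a | a 0 = 0} ∩ (fun x n => F x (n + 1)) ⁻¹'
        {a | f (fun n => a (n + 2)) (a 0) = a 1}) ∪
      F ⁻¹' {a | a 0 ≠ 0 ∧ FR (a 0) (a 1) (a 2) (a 3)} := rfl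
  rw [e]
  exact (h1.inter h4).union h2

end Pool.Agent.H17.Omega.T8
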