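import Pool.Agent.H17.T8.Defs

/-!
# T8, part D: combinatorics of the nice ordinals and the coding of the real `z'`

Written by helper82 (statements by helper17).
-/

set_option autoImplicit false
set_option linter.unusedVariables false
set_option linter.unusedSectionVars false

universe u

namespace Pool.Agent.H17.Omega.T8

section cmb

variable (e : ℕ → Ordinal.{u}) (Nc : Ordinal.{u} → Prop)

/-- `n` is the representative of a good ordinal: `e n` satisfies `Nc`, it is not a limit of such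
ordinals of the enumeration, and `n` is the least index. -/
def Rp (n : ℕ) : Prop :=
  Nc (e n) ∧ (∃ σ < e n, ∀ m, Nc (e m) → e m < e n → e m ≤ σ) ∧ ∀ m, e m = e n → n ≤ m

/-- The order of the indices: first the representatives, in the order of their ordinals. -/
def lo (i j : ℕ) : Prop :=
  (Rp e Nc i ∧ ¬ Rp e Nc j) ∨ (Rp e Nc i ∧ Rp e Nc j ∧ e i < e j) ∨
    (¬ Rp e Nc i ∧ ¬ Rp e Nc j ∧ i < j)

open Classical in
/-- The lengths of the blocks. -/
noncomputable def sR (i : ℕ) : Ordinal.{u} := if Rp e Nc i then e i else 0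

variable {e Nc}

theorem rp_inj {i j : ℕ} (hi : Rp e Nc i) (hj : Rp e Nc j) (h : e i = e j) : i = j :=
  le_antisymm (hi.2.2 j h.symm) (hj.2.2 i h)

theorem wo_lo : IsWellOrder ℕ (lo e Nc) := by
  classical
  let F : ℕ → Ordinal.{u} ⊕ ℕ := fun i => if Rp e Nc i then Sum.inl (e i) else Sum.inr i
  have hF1 : ∀ i, Rp e Nc i → F i = Sum.inl (e i) := fun i h => if_pos h
  have hF2 : ∀ i, ¬ Rp e Nc i → F i = Sum.inr i := fun i h => if_neg h
  have hinj : Function.Injective F := by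
    intro i j h
    by_cases hi : Rp e Nc i <;> by_cases hj : Rp e Nc j
    · rw [hF1 i hi, hF1 j hj] at h
      exact rp_inj hi hj (Sum.inl.inj h)
    · rw [hF1 i hi, hF2 j hj] at h
      exact absurd h (by simp)
    · rw [hF2 i hi, hF1 j hj] at h
      exact absurd h (by simp)
    · rw [hF2 i hi, hF2 j hj] at h
      exact Sum.inr.inj h
  have hrel : ∀ i j, Sum.Lex (· < ·) (· < ·) (F i) (F j) ↔ lo e Nc i j := by
    intro i j
    unfold lo
    by_cases hi : Rp e Nc i <;> by_cases hj : Rp e Nc j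
    · rw [hF1 i hi, hF1 j hj, Sum.lex_inl_inl]
      simp [hi, hj]
    · rw [hF1 i hi, hF2 j hj]
      simp [hi, hj]
    · rw [hF2 i hi, hF1 j hj]
      simp [hi, hj]
    · rw [hF2 i hi, hF2 j hj, Sum.lex_inr_inr]
      simp [hi, hj]
  exact RelEmbedding.isWellOrder
    (⟨⟨F, hinj⟩, fun {i j} => hrel i j⟩ : lo e Nc ↪r Sum.Lex (· < ·) (· < ·))

theorem sR_of_rp {i : ℕ} (h : Rp e Nc i) : sR e Nc i = e i := by
  unfold sR
  rw [if_pos h]

theorem sR_of_not {i : ℕ} (h : ¬ Rp e Nc i) : sR e Nc i = 0 := by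
  unfold sR
  rw [if_neg h]

theorem sR_low {i : ℕ} (h : Rp e Nc i) :
    ∃ σ < sR e Nc i, ∀ j, lo e Nc j i → sR e Nc j ≤ σ := by
  obtain ⟨σ, h1, h2⟩ := h.2.1
  rw [sR_of_rp h]
  refine ⟨σ, h1, fun j hj => ?_⟩
  rcases hj with hj | hj | hj
  · exact absurd h hj.2
  · rw [sR_of_rp hj.1]
    exact h2 j hj.1.1 hj.2.2
  · exact absurd h hj.2.1

theorem rep_uniq {n m m' : ℕ} (h : Rp e Nc m ∧ e m = e n) (h' : Rp e Nc m' ∧ e m' = e n) :
    m = m' := rp_inj h.1 h'.1 (h.2.trans h'.2.symm)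

/-- The least index with a given value. -/
theorem exists_least_index (n : ℕ) : ∃ m, e m = e n ∧ ∀ k, e k = e n → m ≤ k := by
  classical
  have hex : ∃ m, e m = e n := ⟨n, rfl⟩
  exact ⟨Nat.find hex, Nat.find_spec hex, fun k hk => Nat.find_min' hex hk⟩

theorem rep_or_lim (n : ℕ) (h : Nc (e n)) : (∃ m, Rp e Nc m ∧ e m = e n) ∨
    ((¬ ∃ m, Rp e Nc m ∧ e m = e n) ∧ ∀ z : ZFSet.{u}, z ∈ (e n).toZFSet ↔
      ∃ j, (Rp e Nc j ∧ e j < e n) ∧ z ∈ (e j).toZFSet) := by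
  classical
  by_cases h0 : ∃ m, Rp e Nc m ∧ e m = e n
  · exact Or.inl h0
  · refine Or.inr ⟨h0, fun z => ⟨fun hz => ?_, ?_⟩⟩
    · obtain ⟨σ, hσ, rfl⟩ := Ordinal.mem_toZFSet_iff.1 hz
      have h1 : ∃ m, Nc (e m) ∧ e m < e n ∧ σ < e m := by
        by_contra hc
        obtain ⟨m, hm1, hm2⟩ := exists_least_index (e := e) n
        refine h0 ⟨m, ⟨by rw [hm1]; exact h, ⟨σ, by rw [hm1]; exact hσ, fun k hk1 hk2 => ?_⟩,
          fun k hk => hm2 k (hk.trans hm1)⟩, hm1⟩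
        by_contra hc2
        exact hc ⟨k, hk1, by rw [← hm1]; exact hk2, not_le.1 hc2⟩
      -- the least value
      let P : Ordinal.{u} → Prop := fun τ => ∃ m, Nc (e m) ∧ σ < e m ∧ e m = τ
      have hP : ∃ τ, P τ := by
        obtain ⟨m, h2, _, h3⟩ := h1
        exact ⟨_, m, h2, h3, rfl⟩
      obtain ⟨τ, hτ, hmin⟩ : ∃ τ, P τ ∧ ∀ τ', P τ' → τ ≤ τ' := by
        refine ⟨WellFounded.min (wellFounded_lt (α := Ordinal.{u})) {τ | P τ} hP,
          WellFounded.min_mem _ _ hP, fun τ' hτ' => ?_⟩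
        exact not_lt.1 (WellFounded.not_lt_min (wellFounded_lt (α := Ordinal.{u})) {τ | P τ} hτ')
      obtain ⟨m, hm1, hm2, rfl⟩ := hτ
      obtain ⟨k, hk1, hk2⟩ := exists_least_index (e := e) m
      refine ⟨k, ⟨⟨by rw [hk1]; exact hm1, ⟨σ, by rw [hk1]; exact hm2, fun l hl1 hl2 => ?_⟩,
        fun l hl => hk2 l (hl.trans hk1)⟩, ?_⟩, ?_⟩
      · by_contra hc
        have h4 := hmin (e l) ⟨l, hl1, not_le.1 hc, rfl⟩
        rw [hk1] at hl2
        exact absurd hl2 (not_lt.2 h4)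
      · rw [hk1]
        obtain ⟨m', h5, h6, h7⟩ := h1
        exact (hmin (e m') ⟨m', h5, h7, rfl⟩).trans_lt h6
      · rw [hk1]
        exact Ordinal.toZFSet_mem_toZFSet_iff.2 hm2
    · rintro ⟨j, ⟨_, h2⟩, h3⟩
      obtain ⟨σ, hσ, rfl⟩ := Ordinal.mem_toZFSet_iff.1 h3
      exact Ordinal.toZFSet_mem_toZFSet_iff.2 (hσ.trans h2)

end cmb

section cod

/-- The ternary relation coded by `z'`. -/
def Cd (lo : ℕ → ℕ → Prop) (T : ℕ → ℕ → ℕ → ℕ → Prop) (i j k : ℕ) : Prop :=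
  (i = 0 ∧ lo j k) ∨ (∃ m, i = 2 * m + 1 ∧ k = 2 * Nat.pair m j + 2) ∨
    (∃ m c, i = 2 * Nat.pair m c + 2 ∧ T m c j k)

open Classical in
/-- The real `z'`. -/
noncomputable def cod (lo : ℕ → ℕ → Prop) (T : ℕ → ℕ → ℕ → ℕ → Prop) : ℕ → ℕ := fun n =>
  if Cd lo T n.unpair.1 n.unpair.2.unpair.1 n.unpair.2.unpair.2 then 1 else 0

variable {lo : ℕ → ℕ → Prop} {T : ℕ → ℕ → ℕ → ℕ → Prop}

theorem tern_cod_iff {i j k : ℕ} : Tern (cod lo T) i j k ↔ Cd lo T i j k := by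
  unfold Tern cod
  rw [Nat.unpair_pair, Nat.unpair_pair]
  by_cases h : Cd lo T i j k
  · simp [h]
  · simp [h]

theorem tern_cod : Tern (cod lo T) = Cd lo T := by
  funext i j k
  exact propext tern_cod_iff

theorem cd_zero {j k : ℕ} : Cd lo T 0 j k ↔ lo j k := by
  unfold Cd
  constructor
  · rintro (⟨_, h⟩ | ⟨m, h, _⟩ | ⟨m, c, h, _⟩)
    · exact h
    · omega
    · omega
  · exact fun h => Or.inl ⟨rfl, h⟩

theorem lo_cod : Lo (cod lo T) = lo := by
  funext j k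
  exact propext (tern_cod_iff.trans cd_zero)

theorem cd_odd {m j k : ℕ} : Cd lo T (2 * m + 1) j k ↔ k = 2 * Nat.pair m j + 2 := by
  unfold Cd
  constructor
  · rintro (⟨h, _⟩ | ⟨m', h, h'⟩ | ⟨m', c, h, _⟩)
    · omega
    · have : m = m' := by omega
      rw [this]
      exact h'
    · omega
  · exact fun h => Or.inr (Or.inl ⟨m, rfl, h⟩)

theorem cd_even {m c j k : ℕ} : Cd lo T (2 * Nat.pair m c + 2) j k ↔ T m c j k := by
  unfold Cd
  constructor
  · rintro (⟨h, _⟩ | ⟨m', h, h'⟩ | ⟨m', c', h, h'⟩)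
    · omega
    · omega
    · have h1 : Nat.pair m c = Nat.pair m' c' := by omega
      obtain ⟨rfl, rfl⟩ := Nat.pair_eq_pair.1 h1
      exact h'
  · exact fun h => Or.inr (Or.inr ⟨m, c, rfl, h⟩)

end cod

end Pool.Agent.H17.Omega.T8
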