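import Pool.Agent.H17.T8.Ns
import Pool.Agent.H17.T8.AM
import Pool.Agent.H17.T8.Cmb

/-!
# T8: nice ordinals and closed sequences (definitions)
-/

set_option autoImplicit false
set_option linter.unusedVariables false
set_option linter.unusedSectionVars false
set_option linter.unusedSimpArgs false
set_option linter.deprecated false

universe u v

namespace Pool.Agent.H17.Omega.T8

/-- `α` is not the value of a term over smaller ordinals, for the blueprints of `N`. -/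
def Nice (N : Set ZFSet.{u}) (f : (ℕ → ℕ) → ℕ → ℕ) (α : Ordinal.{u}) : Prop :=
  ∀ b : ℕ → ℕ, zs b ∈ N → WOr b → ∀ η < α, ∀ t : Tm.{u}, Over (fun _ => η) t →
    vl (f b) (fun _ => η) t ≠ α.toZFSet

/-- `e` extends `a`; if `e n` is not nice then it is the value of the term `tt n`, and the
ordinals that are needed are listed as `e (ch n j)`. -/
structure Clo (N : Set ZFSet.{u}) (f : (ℕ → ℕ) → ℕ → ℕ) (a e : ℕ → Ordinal.{u})
    (xx : ℕ → ℕ → ℕ) (tt : ℕ → Tm.{u}) : Prop where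
  ev : ∀ m, e (2 * m) = a m
  wo : ∀ n, ¬ Nice N f (e n) → ∃ b, zs b ∈ N ∧ WOr b ∧ xx n = f b
  ovr : ∀ n, ¬ Nice N f (e n) → Over (fun _ => e (ch n 0)) (tt n)
  kid : ∀ n, ¬ Nice N f (e n) → ∀ j ξ, (os (tt n))[j]? = some ξ → e (ch n (j + 1)) = ξ
  val : ∀ n, ¬ Nice N f (e n) → vl (xx n) (fun _ => e (ch n 0)) (tt n) = (e n).toZFSet
  lt : ∀ n, ¬ Nice N f (e n) → ∀ j, e (ch n j) < e n
  te : Ss e ∈ N
  tn : relThreeZ.{u} (fun n a b => ¬ Nice N f (e n) ∧ a = 0 ∧ b = 0) ∈ N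
  tl : relThreeZ.{u} (fun n L b => L = lb (tt n) ∧ b = 0) ∈ N
  tc : relThreeZ.{u} (fun n c b => xx n c ≠ 0 ∧ b = 0) ∈ N

/-- The tables coded by the real. -/
def TF (e : ℕ → Ordinal.{u}) (Nc : Ordinal.{u} → Prop) (xx : ℕ → ℕ → ℕ) (tt : ℕ → Tm.{u}) :
    ℕ → ℕ → ℕ → ℕ → Prop
  | 0 => fun n l j => n = ch l j
  | 1 => fun n a b => ¬ Nc (e n) ∧ a = 0 ∧ b = 0
  | 2 => fun n m b => (Rp e Nc m ∧ e m = e n) ∧ b = 0
  | 3 => fun n m b => (Rp e Nc m ∧ e m < e n) ∧ b = 0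
  | 4 => fun n L b => L = lb (tt n) ∧ b = 0
  | 5 => fun n c b => xx n c ≠ 0 ∧ b = 0
  | 6 => fun j k b => j = k + 1 ∧ b = 0
  | 7 => fun n m b => n = 2 * m ∧ b = 0
  | m + 8 => QR.{u} m

/-- The arithmetical relations in the universally Baire code (`m ≠ 0`). -/
def FR : ℕ → ℕ → ℕ → ℕ → Prop
  | 0 => fun _ _ _ => False
  | 1 => fun n l j => n = ch l j
  | 2 => fun n m b => n = 2 * m ∧ b = 0
  | 3 => fun j k b => j = k + 1 ∧ b = 0
  | 4 => fun j k b => j = k + 3 ∧ b = 0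
  | 5 => fun n i j => n = Nat.pair i j
  | 6 => fun i j k => k = Nat.pair 0 (Nat.pair i j)
  | 7 => fun i j k => (∃ m, i = 2 * m + 1 ∧ k = 2 * Nat.pair m j + 2) ∨
      (∃ m c, i = 2 * Nat.pair m c + 2 ∧ (m = 0 ∨ 6 ≤ m) ∧
        TF.{u} (fun _ => 0) (fun _ => True) (fun _ _ => 0) (fun _ => (0, [])) m c j k)
  | 8 => fun m c i => i = 2 * Nat.pair m c + 2
  | m + 9 => QR.{u} m

end Pool.Agent.H17.Omega.T8
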