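import Pool.Agent.H17.T8.Red

/-!
# T8: existence of closed sequences
-/

set_option autoImplicit false
set_option linter.unusedVariables false
set_option linter.unusedSectionVars false
set_option linter.unusedSimpArgs false
set_option linter.deprecated false

universe u v

namespace Pool.Agent.H17.Omega.T8

open CTM

variable {N : Set ZFSet.{u}} {hN : CTM N}

/-- `n` is a child of `l`. -/
def RlD (OD l n : N) : Prop := (∃ j : N, (Tri OD) n l j)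

theorem RlD_dfn (OD : N) : hN.Dfn (fun v : Fin 2 → N => RlD OD (v 0) (v 1)) := by
  unfold RlD
  exact (Dfn.ex (P := fun v j => (Tri OD) (v 1) (v 0) j)
  (Dfn.subst3 (P := (Tri OD)) (Tri_dfn OD) (DT.var _) (DT.var _) (DT.var _)))

include hN in
theorem rld_iff {OD l n : N} (hOD : OD.1 = relThreeZ.{u} (fun n l j => n = ch l j)) :
    RlD OD l n ↔ ∃ l0 j, l.1 = natZ l0 ∧ n.1 = natZ (ch l0 j) := by
  unfold RlD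
  constructor
  · rintro ⟨j, h⟩
    obtain ⟨a1, a2, a3, b1, b2, b3, b4⟩ := (tri_iff (hN := hN) hOD).1 h
    exact ⟨a2, a3, b3, by rw [b2, b1]⟩
  · rintro ⟨l0, j, h1, h2⟩
    exact ⟨⟨natZ j, hN.natZ_mem_N j⟩, (tri_nat (hN := hN) hOD h2 h1 rfl).2 rfl⟩

theorem lt_ch (l j : ℕ) : l < ch l j := by
  unfold ch
  have := Nat.left_le_pair l j
  omega

/-- The recursion step. -/
def StepD (OD EV SC N0 AA KK : N) (G : N → N → Prop) (n : N) (r : N → N → Prop) (v0 : N) : Prop :=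
  (∀ x : N, (x.1 ∈ v0.1 ↔ (x.1 ∈ KK.1 ∧ ((((∃ m : N, (∃ w : N, ((Tri EV) n m N0 ∧ ZFSet.pair m.1 w.1 ∈ AA.1 ∧ x.1 ∈ w.1)))) ∨ ((∃ l : N, (∃ j : N, (∃ α : N, (∃ q : N, (∃ η : N, (∃ u : N, (∃ z : N, (∃ y : N, (∃ L : N, (∃ g : N, ((Tri OD) n l j ∧ r l α ∧ G α q ∧ q.1 = ZFSet.pair η.1 u.1 ∧ u.1 = ZFSet.pair z.1 y.1 ∧ y.1 = ZFSet.pair L.1 g.1 ∧ ((((j = N0 ∧ x.1 ∈ η.1)) ∨ ((∃ k : N, (∃ w : N, ((Tri SC) j k N0 ∧ ZFSet.pair k.1 w.1 ∈ g.1 ∧ x.1 ∈ w.1)))))))))))))))))))))))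

theorem StepD_dfn (OD EV SC N0 AA KK : N) {G : N → N → Prop}
    (hG : hN.Dfn (fun v : Fin 2 → N => G (v 0) (v 1))) :
    hN.Dfn (fun v : Fin 3 → N => StepD OD EV SC N0 AA KK G (v 0)
      (fun y w => RlD OD y (v 0) ∧ ZFSet.pair y.1 w.1 ∈ (v 1).1) (v 2)) := by
  have h := (show hN.Dfn (fun v : Fin 3 → N => (∀ x : N, (x.1 ∈ (v 2).1 ↔ (x.1 ∈ KK.1 ∧ ((((∃ m : N, (∃ w : N, ((Tri EV) (v 0) m N0 ∧ ZFSet.pair m.1 w.1 ∈ AA.1 ∧ x.1 ∈ w.1)))) ∨ ((∃ l : N, (∃ j : N, (∃ α : N, (∃ q : N, (∃ η : N, (∃ u : N, (∃ z : N, (∃ y : N, (∃ L : N, (∃ g : N, ((Tri OD) (v 0) l j ∧ (((RlD OD) l (v 0) ∧ ZFSet.pair l.1 α.1 ∈ (v 1).1)) ∧ G α q ∧ q.1 = ZFSet.pair η.1 u.1 ∧ u.1 = ZFSet.pair z.1 y.1 ∧ y.1 = ZFSet.pair L.1 g.1 ∧ ((((j = N0 ∧ x.1 ∈ η.1)) ∨ ((∃ k : N, (∃ w : N, ((Tri SC) j k N0 ∧ ZFSet.pair k.1 w.1 ∈ g.1 ∧ x.1 ∈ w.1))))))))))))))))))))))))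 from (Dfn.all (P := fun v x => (x.1 ∈ (v 2).1 ↔ (x.1 ∈ KK.1 ∧ ((((∃ m : N, (∃ w : N, ((Tri EV) (v 0) m N0 ∧ ZFSet.pair m.1 w.1 ∈ AA.1 ∧ x.1 ∈ w.1)))) ∨ ((∃ l : N, (∃ j : N, (∃ α : N, (∃ q : N, (∃ η : N, (∃ u : N, (∃ z : N, (∃ y : N, (∃ L : N, (∃ g : N, ((Tri OD) (v 0) l j ∧ (((RlD OD) l (v 0) ∧ ZFSet.pair l.1 α.1 ∈ (v 1).1)) ∧ G α q ∧ q.1 = ZFSet.pair η.1 u.1 ∧ u.1 = ZFSet.pair z.1 y.1 ∧ y.1 = ZFSet.pair L.1 g.1 ∧ ((((j = N0 ∧ x.1 ∈ η.1)) ∨ ((∃ k : N, (∃ w : N, ((Tri SC) j k N0 ∧ ZFSet.pair k.1 w.1 ∈ g.1 ∧ x.1 ∈ w.1)))))))))))))))))))))))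
  (Dfn.iff (Dfn.mem (DT.var _) (DT.var _))
  (Dfn.and (Dfn.mem (DT.var _) (DT.const KK))
  (Dfn.or (Dfn.ex (P := fun v m => (∃ w : N, ((Tri EV) (v 0) m N0 ∧ ZFSet.pair m.1 w.1 ∈ AA.1 ∧ (v 3).1 ∈ w.1)))
  (Dfn.ex (P := fun v w => ((Tri EV) (v 0) (v 4) N0 ∧ ZFSet.pair (v 4).1 w.1 ∈ AA.1 ∧ (v 3).1 ∈ w.1))
  (Dfn.and (Dfn.subst3 (P := (Tri EV)) (Tri_dfn EV) (DT.var _) (DT.var _) (DT.const N0))
  (Dfn.and (Dfn.pairMem (DT.var _) (DT.var _) (DT.const AA))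
  (Dfn.mem (DT.var _) (DT.var _))))))
  (Dfn.ex (P := fun v l => (∃ j : N, (∃ α : N, (∃ q : N, (∃ η : N, (∃ u : N, (∃ z : N, (∃ y : N, (∃ L : N, (∃ g : N, ((Tri OD) (v 0) l j ∧ (((RlD OD) l (v 0) ∧ ZFSet.pair l.1 α.1 ∈ (v 1).1)) ∧ G α q ∧ q.1 = ZFSet.pair η.1 u.1 ∧ u.1 = ZFSet.pair z.1 y.1 ∧ y.1 = ZFSet.pair L.1 g.1 ∧ ((((j = N0 ∧ (v 3).1 ∈ η.1)) ∨ ((∃ k : N, (∃ w : N, ((Tri SC) j k N0 ∧ ZFSet.pair k.1 w.1 ∈ g.1 ∧ (v 3).1 ∈ w.1)))))))))))))))))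
  (Dfn.ex (P := fun v j => (∃ α : N, (∃ q : N, (∃ η : N, (∃ u : N, (∃ z : N, (∃ y : N, (∃ L : N, (∃ g : N, ((Tri OD) (v 0) (v 4) j ∧ (((RlD OD) (v 4) (v 0) ∧ ZFSet.pair (v 4).1 α.1 ∈ (v 1).1)) ∧ G α q ∧ q.1 = ZFSet.pair η.1 u.1 ∧ u.1 = ZFSet.pair z.1 y.1 ∧ y.1 = ZFSet.pair L.1 g.1 ∧ ((((j = N0 ∧ (v 3).1 ∈ η.1)) ∨ ((∃ k : N, (∃ w : N, ((Tri SC) j k N0 ∧ ZFSet.pair k.1 w.1 ∈ g.1 ∧ (v 3).1 ∈ w.1))))))))))))))))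
  (Dfn.ex (P := fun v α => (∃ q : N, (∃ η : N, (∃ u : N, (∃ z : N, (∃ y : N, (∃ L : N, (∃ g : N, ((Tri OD) (v 0) (v 4) (v 5) ∧ (((RlD OD) (v 4) (v 0) ∧ ZFSet.pair (v 4).1 α.1 ∈ (v 1).1)) ∧ G α q ∧ q.1 = ZFSet.pair η.1 u.1 ∧ u.1 = ZFSet.pair z.1 y.1 ∧ y.1 = ZFSet.pair L.1 g.1 ∧ (((((v 5) = N0 ∧ (v 3).1 ∈ η.1)) ∨ ((∃ k : N, (∃ w : N, ((Tri SC) (v 5) k N0 ∧ ZFSet.pair k.1 w.1 ∈ g.1 ∧ (v 3).1 ∈ w.1)))))))))))))))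
  (Dfn.ex (P := fun v q => (∃ η : N, (∃ u : N, (∃ z : N, (∃ y : N, (∃ L : N, (∃ g : N, ((Tri OD) (v 0) (v 4) (v 5) ∧ (((RlD OD) (v 4) (v 0) ∧ ZFSet.pair (v 4).1 (v 6).1 ∈ (v 1).1)) ∧ G (v 6) q ∧ q.1 = ZFSet.pair η.1 u.1 ∧ u.1 = ZFSet.pair z.1 y.1 ∧ y.1 = ZFSet.pair L.1 g.1 ∧ (((((v 5) = N0 ∧ (v 3).1 ∈ η.1)) ∨ ((∃ k : N, (∃ w : N, ((Tri SC) (v 5) k N0 ∧ ZFSet.pair k.1 w.1 ∈ g.1 ∧ (v 3).1 ∈ w.1))))))))))))))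
  (Dfn.ex (P := fun v η => (∃ u : N, (∃ z : N, (∃ y : N, (∃ L : N, (∃ g : N, ((Tri OD) (v 0) (v 4) (v 5) ∧ (((RlD OD) (v 4) (v 0) ∧ ZFSet.pair (v 4).1 (v 6).1 ∈ (v 1).1)) ∧ G (v 6) (v 7) ∧ (v 7).1 = ZFSet.pair η.1 u.1 ∧ u.1 = ZFSet.pair z.1 y.1 ∧ y.1 = ZFSet.pair L.1 g.1 ∧ (((((v 5) = N0 ∧ (v 3).1 ∈ η.1)) ∨ ((∃ k : N, (∃ w : N, ((Tri SC) (v 5) k N0 ∧ ZFSet.pair k.1 w.1 ∈ g.1 ∧ (v 3).1 ∈ w.1)))))))))))))
  (Dfn.ex (P := fun v u => (∃ z : N, (∃ y : N, (∃ L : N, (∃ g : N, ((Tri OD) (v 0) (v 4) (v 5) ∧ (((RlD OD) (v 4) (v 0) ∧ ZFSet.pair (v 4).1 (v 6).1 ∈ (v 1).1)) ∧ G (v 6) (v 7) ∧ (v 7).1 = ZFSet.pair (v 8).1 u.1 ∧ u.1 = ZFSet.pair z.1 y.1 ∧ y.1 = ZFSet.pair L.1 g.1 ∧ (((((v 5) = N0 ∧ (v 3).1 ∈ (v 8).1)) ∨ ((∃ k : N, (∃ w : N, ((Tri SC) (v 5) k N0 ∧ ZFSet.pair k.1 w.1 ∈ g.1 ∧ (v 3).1 ∈ w.1))))))))))))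
  (Dfn.ex (P := fun v z => (∃ y : N, (∃ L : N, (∃ g : N, ((Tri OD) (v 0) (v 4) (v 5) ∧ (((RlD OD) (v 4) (v 0) ∧ ZFSet.pair (v 4).1 (v 6).1 ∈ (v 1).1)) ∧ G (v 6) (v 7) ∧ (v 7).1 = ZFSet.pair (v 8).1 (v 9).1 ∧ (v 9).1 = ZFSet.pair z.1 y.1 ∧ y.1 = ZFSet.pair L.1 g.1 ∧ (((((v 5) = N0 ∧ (v 3).1 ∈ (v 8).1)) ∨ ((∃ k : N, (∃ w : N, ((Tri SC) (v 5) k N0 ∧ ZFSet.pair k.1 w.1 ∈ g.1 ∧ (v 3).1 ∈ w.1)))))))))))
  (Dfn.ex (P := fun v y => (∃ L : N, (∃ g : N, ((Tri OD) (v 0) (v 4) (v 5) ∧ (((RlD OD) (v 4) (v 0) ∧ ZFSet.pair (v 4).1 (v 6).1 ∈ (v 1).1)) ∧ G (v 6) (v 7) ∧ (v 7).1 = ZFSet.pair (v 8).1 (v 9).1 ∧ (v 9).1 = ZFSet.pair (v 10).1 y.1 ∧ y.1 = ZFSet.pair L.1 g.1 ∧ (((((v 5) = N0 ∧ (v 3).1 ∈ (v 8).1)) ∨ ((∃ k : N, (∃ w : N, ((Tri SC) (v 5) k N0 ∧ ZFSet.pair k.1 w.1 ∈ g.1 ∧ (v 3).1 ∈ w.1))))))))))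
  (Dfn.ex (P := fun v L => (∃ g : N, ((Tri OD) (v 0) (v 4) (v 5) ∧ (((RlD OD) (v 4) (v 0) ∧ ZFSet.pair (v 4).1 (v 6).1 ∈ (v 1).1)) ∧ G (v 6) (v 7) ∧ (v 7).1 = ZFSet.pair (v 8).1 (v 9).1 ∧ (v 9).1 = ZFSet.pair (v 10).1 (v 11).1 ∧ (v 11).1 = ZFSet.pair L.1 g.1 ∧ (((((v 5) = N0 ∧ (v 3).1 ∈ (v 8).1)) ∨ ((∃ k : N, (∃ w : N, ((Tri SC) (v 5) k N0 ∧ ZFSet.pair k.1 w.1 ∈ g.1 ∧ (v 3).1 ∈ w.1)))))))))
  (Dfn.ex (P := fun v g => ((Tri OD) (v 0) (v 4) (v 5) ∧ (((RlD OD) (v 4) (v 0) ∧ ZFSet.pair (v 4).1 (v 6).1 ∈ (v 1).1)) ∧ G (v 6) (v 7) ∧ (v 7).1 = ZFSet.pair (v 8).1 (v 9).1 ∧ (v 9).1 = ZFSet.pair (v 10).1 (v 11).1 ∧ (v 11).1 = ZFSet.pair (v 12).1 g.1 ∧ (((((v 5) = N0 ∧ (v 3).1 ∈ (v 8).1)) ∨ ((∃ k : N, (∃ w : N, ((Tri SC) (v 5) k N0 ∧ ZFSet.pair k.1 w.1 ∈ g.1 ∧ (v 3).1 ∈ w.1))))))))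
  (Dfn.and (Dfn.subst3 (P := (Tri OD)) (Tri_dfn OD) (DT.var _) (DT.var _) (DT.var _))
  (Dfn.and (Dfn.and (Dfn.subst2 (P := (RlD OD)) (RlD_dfn OD) (DT.var _) (DT.var _))
  (Dfn.pairMem (DT.var _) (DT.var _) (DT.var _)))
  (Dfn.and (Dfn.subst2 (P := G) hG (DT.var _) (DT.var _))
  (Dfn.and (Dfn.isPair (DT.var _) (DT.var _) (DT.var _))
  (Dfn.and (Dfn.isPair (DT.var _) (DT.var _) (DT.var _))
  (Dfn.and (Dfn.isPair (DT.var _) (DT.var _) (DT.var _))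
  (Dfn.or (Dfn.and (Dfn.eq (DT.var _) (DT.const N0))
  (Dfn.mem (DT.var _) (DT.var _)))
  (Dfn.ex (P := fun v k => (∃ w : N, ((Tri SC) (v 5) k N0 ∧ ZFSet.pair k.1 w.1 ∈ (v 13).1 ∧ (v 3).1 ∈ w.1)))
  (Dfn.ex (P := fun v w => ((Tri SC) (v 5) (v 14) N0 ∧ ZFSet.pair (v 14).1 w.1 ∈ (v 13).1 ∧ (v 3).1 ∈ w.1))
  (Dfn.and (Dfn.subst3 (P := (Tri SC)) (Tri_dfn SC) (DT.var _) (DT.var _) (DT.const N0))
  (Dfn.and (Dfn.pairMem (DT.var _) (DT.var _) (DT.var _))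
  (Dfn.mem (DT.var _) (DT.var _))))))))))))))))))))))))))))
  refine Dfn.congr (fun v => ?_) h
  exact Iff.rfl

/-- The recursion. -/
theorem exists_step (hN : CTM N) {OD EV SC N0 AA KK : N} {G : N → N → Prop}
    (hOD : OD.1 = relThreeZ.{u} (fun n l j => n = ch l j))
    (hG : hN.Dfn (fun v : Fin 2 → N => G (v 0) (v 1))) :
    ∃ F : N → N, hN.Dfn (fun v : Fin 2 → N => F (v 0) = v 1) ∧
      ∀ n, StepD OD EV SC N0 AA KK G n (fun y w => RlD OD y n ∧ F y = w) (F n) := by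
  have hwf : WellFounded (fun l n : N => RlD OD l n) := by
    classical
    let μ : N → ℕ := fun x => if h : ∃ n, x.1 = natZ n then h.choose else 0
    have hμ : ∀ n x, x.1 = natZ n → μ x = n := by
      intro n x hx
      have h : ∃ n, x.1 = natZ n := ⟨n, hx⟩
      have h1 : h.choose = n := natZ_inj.1 (h.choose_spec.symm.trans hx)
      simp only [μ]
      rw [dif_pos h, h1]
    refine Subrelation.wf (r := fun k n => μ k < μ n) ?_ (InvImage.wf μ wellFounded_lt)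
    intro l n h
    obtain ⟨l0, j, h1, h2⟩ := (rld_iff (hN := hN) hOD).1 h
    rw [hμ _ _ h1, hμ _ _ h2]
    exact lt_ch l0 j
  refine recursion (hN := hN) (R := fun l n : N => RlD OD l n)
    (𝒢 := StepD OD EV SC N0 AA KK G) (RlD_dfn OD) (StepD_dfn OD EV SC N0 AA KK hG) ?_ hwf ?_ ?_
  · intro n
    obtain ⟨e, he, he'⟩ := hN.exists_sep (P := fun l => RlD OD l n)
      (Dfn.subst2 (P := RlD OD) (RlD_dfn OD) (DT.var 0) (DT.const n)) hN.omZ_mem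
    refine ⟨e, he, fun l => ?_⟩
    rw [he']
    refine ⟨fun ⟨_, _, h⟩ => h, fun h => ⟨?_, l.2, h⟩⟩
    obtain ⟨l0, j, h1, h2⟩ := (rld_iff (hN := hN) hOD).1 h
    rw [h1]; exact natZ_mem_omZ _
  · intro n r v v' h h'
    exact Subtype.ext (hN.ext' v.2 v'.2 fun z => (h z).trans (h' z).symm)
  · intro n h hd hu
    have hdf : hN.Dfn (fun v : Fin 1 → N => ((v 0).1 ∈ KK.1 ∧ ((((∃ m : N, (∃ w : N, ((Tri EV) n m N0 ∧ ZFSet.pair m.1 w.1 ∈ AA.1 ∧ (v 0).1 ∈ w.1)))) ∨ ((∃ l : N, (∃ j : N, (∃ α : N, (∃ q : N, (∃ η : N, (∃ u : N, (∃ z : N, (∃ y : N, (∃ L : N, (∃ g : N, ((Tri OD) n l j ∧ (((RlD OD) l n ∧ ZFSet.pair l.1 α.1 ∈ h.1)) ∧ G α q ∧ q.1 = ZFSet.pair η.1 u.1 ∧ u.1 = ZFSet.pair z.1 y.1 ∧ y.1 = ZFSet.pair L.1 g.1 ∧ ((((j = N0 ∧ (v 0).1 ∈ η.1)) ∨ ((∃ k : N, (∃ w : N, ((Tri SC) j k N0 ∧ ZFSet.pair k.1 w.1 ∈ g.1 ∧ (v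 0).1 ∈ w.1)))))))))))))))))))))) := (Dfn.and (Dfn.mem (DT.var _) (DT.const KK))
  (Dfn.or (Dfn.ex (P := fun v m => (∃ w : N, ((Tri EV) n m N0 ∧ ZFSet.pair m.1 w.1 ∈ AA.1 ∧ (v 0).1 ∈ w.1)))
  (Dfn.ex (P := fun v w => ((Tri EV) n (v 1) N0 ∧ ZFSet.pair (v 1).1 w.1 ∈ AA.1 ∧ (v 0).1 ∈ w.1))
  (Dfn.and (Dfn.subst3 (P := (Tri EV)) (Tri_dfn EV) (DT.const n) (DT.var _) (DT.const N0))
  (Dfn.and (Dfn.pairMem (DT.var _) (DT.var _) (DT.const AA))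
  (Dfn.mem (DT.var _) (DT.var _))))))
  (Dfn.ex (P := fun v l => (∃ j : N, (∃ α : N, (∃ q : N, (∃ η : N, (∃ u : N, (∃ z : N, (∃ y : N, (∃ L : N, (∃ g : N, ((Tri OD) n l j ∧ (((RlD OD) l n ∧ ZFSet.pair l.1 α.1 ∈ h.1)) ∧ G α q ∧ q.1 = ZFSet.pair η.1 u.1 ∧ u.1 = ZFSet.pair z.1 y.1 ∧ y.1 = ZFSet.pair L.1 g.1 ∧ ((((j = N0 ∧ (v 0).1 ∈ η.1)) ∨ ((∃ k : N, (∃ w : N, ((Tri SC) j k N0 ∧ ZFSet.pair k.1 w.1 ∈ g.1 ∧ (v 0).1 ∈ w.1)))))))))))))))))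
  (Dfn.ex (P := fun v j => (∃ α : N, (∃ q : N, (∃ η : N, (∃ u : N, (∃ z : N, (∃ y : N, (∃ L : N, (∃ g : N, ((Tri OD) n (v 1) j ∧ (((RlD OD) (v 1) n ∧ ZFSet.pair (v 1).1 α.1 ∈ h.1)) ∧ G α q ∧ q.1 = ZFSet.pair η.1 u.1 ∧ u.1 = ZFSet.pair z.1 y.1 ∧ y.1 = ZFSet.pair L.1 g.1 ∧ ((((j = N0 ∧ (v 0).1 ∈ η.1)) ∨ ((∃ k : N, (∃ w : N, ((Tri SC) j k N0 ∧ ZFSet.pair k.1 w.1 ∈ g.1 ∧ (v 0).1 ∈ w.1))))))))))))))))
  (Dfn.ex (P := fun v α => (∃ q : N, (∃ η : N, (∃ u : N, (∃ z : N, (∃ y : N, (∃ L : N, (∃ g : N, ((Tri OD) n (v 1) (v 2) ∧ (((RlD OD) (v 1) n ∧ ZFSet.pair (v 1).1 α.1 ∈ h.1)) ∧ G α q ∧ q.1 = ZFSet.pair η.1 u.1 ∧ u.1 = ZFSet.pair z.1 y.1 ∧ y.1 = ZFSet.pair L.1 g.1 ∧ (((((v 2) = N0 ∧ (v 0).1 ∈ η.1)) ∨ ((∃ k : N, (∃ w : N, ((Tri SC) (v 2) k N0 ∧ ZFSet.pair k.1 w.1 ∈ g.1 ∧ (v 0).1 ∈ w.1)))))))))))))))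
  (Dfn.ex (P := fun v q => (∃ η : N, (∃ u : N, (∃ z : N, (∃ y : N, (∃ L : N, (∃ g : N, ((Tri OD) n (v 1) (v 2) ∧ (((RlD OD) (v 1) n ∧ ZFSet.pair (v 1).1 (v 3).1 ∈ h.1)) ∧ G (v 3) q ∧ q.1 = ZFSet.pair η.1 u.1 ∧ u.1 = ZFSet.pair z.1 y.1 ∧ y.1 = ZFSet.pair L.1 g.1 ∧ (((((v 2) = N0 ∧ (v 0).1 ∈ η.1)) ∨ ((∃ k : N, (∃ w : N, ((Tri SC) (v 2) k N0 ∧ ZFSet.pair k.1 w.1 ∈ g.1 ∧ (v 0).1 ∈ w.1))))))))))))))
  (Dfn.ex (P := fun v η => (∃ u : N, (∃ z : N, (∃ y : N, (∃ L : N, (∃ g : N, ((Tri OD) n (v 1) (v 2) ∧ (((RlD OD) (v 1) n ∧ ZFSet.pair (v 1).1 (v 3).1 ∈ h.1)) ∧ G (v 3) (v 4) ∧ (v 4).1 = ZFSet.pair η.1 u.1 ∧ u.1 = ZFSet.pair z.1 y.1 ∧ y.1 = ZFSet.pair L.1 g.1 ∧ (((((v 2) = N0 ∧ (v 0).1 ∈ η.1)) ∨ ((∃ k : N, (∃ w : N, ((Tri SC) (v 2) k N0 ∧ ZFSet.pair k.1 w.1 ∈ g.1 ∧ (v 0).1 ∈ w.1)))))))))))))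
  (Dfn.ex (P := fun v u => (∃ z : N, (∃ y : N, (∃ L : N, (∃ g : N, ((Tri OD) n (v 1) (v 2) ∧ (((RlD OD) (v 1) n ∧ ZFSet.pair (v 1).1 (v 3).1 ∈ h.1)) ∧ G (v 3) (v 4) ∧ (v 4).1 = ZFSet.pair (v 5).1 u.1 ∧ u.1 = ZFSet.pair z.1 y.1 ∧ y.1 = ZFSet.pair L.1 g.1 ∧ (((((v 2) = N0 ∧ (v 0).1 ∈ (v 5).1)) ∨ ((∃ k : N, (∃ w : N, ((Tri SC) (v 2) k N0 ∧ ZFSet.pair k.1 w.1 ∈ g.1 ∧ (v 0).1 ∈ w.1))))))))))))
  (Dfn.ex (P := fun v z => (∃ y : N, (∃ L : N, (∃ g : N, ((Tri OD) n (v 1) (v 2) ∧ (((RlD OD) (v 1) n ∧ ZFSet.pair (v 1).1 (v 3).1 ∈ h.1)) ∧ G (v 3) (v 4) ∧ (v 4).1 = ZFSet.pair (v 5).1 (v 6).1 ∧ (v 6).1 = ZFSet.pair z.1 y.1 ∧ y.1 = ZFSet.pair L.1 g.1 ∧ (((((v 2) = N0 ∧ (v 0).1 ∈ (v 5).1)) ∨ ((∃ k : N, (∃ w : N, ((Tri SC) (v 2) k N0 ∧ ZFSet.pair k.1 w.1 ∈ g.1 ∧ (v 0).1 ∈ w.1)))))))))))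
  (Dfn.ex (P := fun v y => (∃ L : N, (∃ g : N, ((Tri OD) n (v 1) (v 2) ∧ (((RlD OD) (v 1) n ∧ ZFSet.pair (v 1).1 (v 3).1 ∈ h.1)) ∧ G (v 3) (v 4) ∧ (v 4).1 = ZFSet.pair (v 5).1 (v 6).1 ∧ (v 6).1 = ZFSet.pair (v 7).1 y.1 ∧ y.1 = ZFSet.pair L.1 g.1 ∧ (((((v 2) = N0 ∧ (v 0).1 ∈ (v 5).1)) ∨ ((∃ k : N, (∃ w : N, ((Tri SC) (v 2) k N0 ∧ ZFSet.pair k.1 w.1 ∈ g.1 ∧ (v 0).1 ∈ w.1))))))))))
  (Dfn.ex (P := fun v L => (∃ g : N, ((Tri OD) n (v 1) (v 2) ∧ (((RlD OD) (v 1) n ∧ ZFSet.pair (v 1).1 (v 3).1 ∈ h.1)) ∧ G (v 3) (v 4) ∧ (v 4).1 = ZFSet.pair (v 5).1 (v 6).1 ∧ (v 6).1 = ZFSet.pair (v 7).1 (v 8).1 ∧ (v 8).1 = ZFSet.pair L.1 g.1 ∧ (((((v 2) = N0 ∧ (v 0).1 ∈ (v 5).1)) ∨ ((∃ k : N, (∃ w : N, ((Tri SC) (v 2) k N0 ∧ ZFSet.pair k.1 w.1 ∈ g.1 ∧ (v 0).1 ∈ w.1)))))))))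
  (Dfn.ex (P := fun v g => ((Tri OD) n (v 1) (v 2) ∧ (((RlD OD) (v 1) n ∧ ZFSet.pair (v 1).1 (v 3).1 ∈ h.1)) ∧ G (v 3) (v 4) ∧ (v 4).1 = ZFSet.pair (v 5).1 (v 6).1 ∧ (v 6).1 = ZFSet.pair (v 7).1 (v 8).1 ∧ (v 8).1 = ZFSet.pair (v 9).1 g.1 ∧ (((((v 2) = N0 ∧ (v 0).1 ∈ (v 5).1)) ∨ ((∃ k : N, (∃ w : N, ((Tri SC) (v 2) k N0 ∧ ZFSet.pair k.1 w.1 ∈ g.1 ∧ (v 0).1 ∈ w.1))))))))
  (Dfn.and (Dfn.subst3 (P := (Tri OD)) (Tri_dfn OD) (DT.const n) (DT.var _) (DT.var _))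
  (Dfn.and (Dfn.and (Dfn.subst2 (P := (RlD OD)) (RlD_dfn OD) (DT.var _) (DT.const n))
  (Dfn.pairMem (DT.var _) (DT.var _) (DT.const h)))
  (Dfn.and (Dfn.subst2 (P := G) hG (DT.var _) (DT.var _))
  (Dfn.and (Dfn.isPair (DT.var _) (DT.var _) (DT.var _))
  (Dfn.and (Dfn.isPair (DT.var _) (DT.var _) (DT.var _))
  (Dfn.and (Dfn.isPair (DT.var _) (DT.var _) (DT.var _))
  (Dfn.or (Dfn.and (Dfn.eq (DT.var _) (DT.const N0))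
  (Dfn.mem (DT.var _) (DT.var _)))
  (Dfn.ex (P := fun v k => (∃ w : N, ((Tri SC) (v 2) k N0 ∧ ZFSet.pair k.1 w.1 ∈ (v 10).1 ∧ (v 0).1 ∈ w.1)))
  (Dfn.ex (P := fun v w => ((Tri SC) (v 2) (v 11) N0 ∧ ZFSet.pair (v 11).1 w.1 ∈ (v 10).1 ∧ (v 0).1 ∈ w.1))
  (Dfn.and (Dfn.subst3 (P := (Tri SC)) (Tri_dfn SC) (DT.var _) (DT.var _) (DT.const N0))
  (Dfn.and (Dfn.pairMem (DT.var _) (DT.var _) (DT.var _))
  (Dfn.mem (DT.var _) (DT.var _)))))))))))))))))))))))))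
    obtain ⟨b, hb, hb'⟩ := hN.exists_sep (P := fun x => (x.1 ∈ KK.1 ∧ ((((∃ m : N, (∃ w : N, ((Tri EV) n m N0 ∧ ZFSet.pair m.1 w.1 ∈ AA.1 ∧ x.1 ∈ w.1)))) ∨ ((∃ l : N, (∃ j : N, (∃ α : N, (∃ q : N, (∃ η : N, (∃ u : N, (∃ z : N, (∃ y : N, (∃ L : N, (∃ g : N, ((Tri OD) n l j ∧ (((RlD OD) l n ∧ ZFSet.pair l.1 α.1 ∈ h.1)) ∧ G α q ∧ q.1 = ZFSet.pair η.1 u.1 ∧ u.1 = ZFSet.pair z.1 y.1 ∧ y.1 = ZFSet.pair L.1 g.1 ∧ ((((j = N0 ∧ x.1 ∈ η.1)) ∨ ((∃ k : N, (∃ w : N, ((Tri SC) j k N0 ∧ ZFSet.pair k.1 w.1 ∈ g.1 ∧ x.1 ∈ w.1)))))))))))))))))))))) hdf KK.2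
    refine ⟨⟨b, hb⟩, fun x => ?_⟩
    show x.1 ∈ b ↔ _
    rw [hb']
    constructor
    · rintro ⟨_, _, h1⟩; exact h1
    · intro h1
      exact ⟨h1.1, x.2, h1⟩


theorem toZ_inj {o o' : Ordinal.{u}} (h : o.toZFSet = o'.toZFSet) : o = o' := by
  have := congrArg ZFSet.rank h
  rwa [Ordinal.rank_toZFSet, Ordinal.rank_toZFSet] at this

theorem lt_rank_Ss (a : ℕ → Ordinal.{u}) (m : ℕ) : a m < (Ss a).rank := by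
  have h1 : ZFSet.pair (natZ m) (a m).toZFSet ∈ Ss a := pair_mem_Ss.2 rfl
  have h2 : ({natZ m, (a m).toZFSet} : ZFSet.{u}) ∈ ZFSet.pair (natZ m) (a m).toZFSet := by
    rw [ZFSet.pair]; simp
  have h3 : (a m).toZFSet ∈ ({natZ m, (a m).toZFSet} : ZFSet.{u}) := by simp
  have := (ZFSet.rank_lt_of_mem h3).trans ((ZFSet.rank_lt_of_mem h2).trans (ZFSet.rank_lt_of_mem h1))
  rwa [Ordinal.rank_toZFSet] at this

/-- The values of the recursion. -/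
theorem step_values (hN : CTM N) {OD EV SC N0 AA KK : N} {G : N → N → Prop} {F : N → N}
    (hF : ∀ n, StepD OD EV SC N0 AA KK G n (fun y w => RlD OD y n ∧ F y = w) (F n))
    (hOD : OD.1 = relThreeZ.{u} (fun n l j => n = ch l j))
    (hEV : EV.1 = relThreeZ.{u} (fun n m b => n = 2 * m ∧ b = 0))
    (hSC : SC.1 = relThreeZ.{u} (fun j k b => j = k + 1 ∧ b = 0))
    (hN0 : N0.1 = natZ 0) {a : ℕ → Ordinal.{u}} (hAA : AA.1 = Ss a) {κ : Ordinal.{u}}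
    (hKK : KK.1 = κ.toZFSet) (hκ : ∀ m, a m < κ)
    (hG : ∀ (α q : N) (o : Ordinal.{u}), α.1 = o.toZFSet → G α q →
      ∃ (η : Ordinal.{u}) (b : ℕ → ℕ) (t : Tm.{u}), η < o ∧ Over (fun _ => η) t ∧
        q.1 = ZFSet.pair η.toZFSet (ZFSet.pair (zs b) (tc t)))
    (hGu : ∀ α q q', G α q → G α q' → q = q') :
    ∃ e : ℕ → Ordinal.{u}, (∀ n x, x.1 = natZ n → (F x).1 = (e n).toZFSet) ∧ (∀ n, e n < κ) ∧
      (∀ m, e (2 * m) = a m) ∧ (∀ l (L q : N) (η : Ordinal.{u}) (b : ℕ → ℕ) (t : Tm.{u}),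
        L.1 = natZ l → G (F L) q → q.1 = ZFSet.pair η.toZFSet (ZFSet.pair (zs b) (tc t)) →
        η < e l → Over (fun _ => η) t → e (ch l 0) = η ∧
        ∀ k, e (ch l (k + 1)) = ((os t)[k]?).getD 0) := by
  have h0κ : (0 : Ordinal.{u}) < κ := zero_le.trans_lt (hκ 0)
  -- even
  have heven : ∀ m, ∀ n : N, n.1 = natZ (2 * m) → (F n).1 = (a m).toZFSet := by
    intro m n hn
    apply ZFSet.ext
    intro z
    constructor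
    · intro hz
      obtain ⟨_, h | h⟩ := (hF n ⟨z, hN.mem_of_mem (F n).2 hz⟩).1 hz
      · obtain ⟨m', w, h1, h2, h3⟩ := h
        obtain ⟨a1, a2, a3, b1, b2, b3, b4⟩ := (tri_iff (hN := hN) hEV).1 h1
        rw [hn, natZ_inj] at b2
        have e1 : a2 = m := by omega
        rw [b3, hAA, pair_mem_Ss] at h2
        rw [← e1, ← h2]; exact h3
      · obtain ⟨l, j, α, q, η, u, z', y, L, g, h1, _⟩ := h
        obtain ⟨a1, a2, a3, b1, b2, b3, b4⟩ := (tri_iff (hN := hN) hOD).1 h1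
        rw [hn, natZ_inj] at b2
        exfalso
        rw [← b2] at b1
        unfold ch at b1
        omega
    · intro hz
      have haN : (a m).toZFSet ∈ N := by
        have h1 : ZFSet.pair (natZ m) (a m).toZFSet ∈ AA.1 := by rw [hAA]; exact pair_mem_Ss.2 rfl
        exact (hN.of_pair_mem (hN.mem_of_mem AA.2 h1)).2
      obtain ⟨ξ, hξ, rfl⟩ := Ordinal.mem_toZFSet_iff.1 hz
      refine (hF n ⟨_, hN.mem_of_mem haN hz⟩).2 ⟨?_, Or.inl ⟨⟨natZ m, hN.natZ_mem_N m⟩,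
        ⟨_, haN⟩, ?_, ?_, hz⟩⟩
      · rw [hKK]; exact Ordinal.toZFSet_mem_toZFSet_iff.2 (hξ.trans (hκ m))
      · exact (tri_nat (hN := hN) hEV hn rfl hN0).2 ⟨rfl, rfl⟩
      · rw [hAA]; exact pair_mem_Ss.2 rfl
  -- odd
  have hodd : ∀ l j, ∀ n L : N, n.1 = natZ (ch l j) → L.1 = natZ l → ∀ x : N, x.1 ∈ (F n).1 ↔
      x.1 ∈ KK.1 ∧ ∃ q η u z y LL g : N, G (F L) q ∧ q.1 = ZFSet.pair η.1 u.1 ∧
        u.1 = ZFSet.pair z.1 y.1 ∧ y.1 = ZFSet.pair LL.1 g.1 ∧ ((j = 0 ∧ x.1 ∈ η.1) ∨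
          ∃ (k : ℕ) (w : N), j = k + 1 ∧ ZFSet.pair (natZ k) w.1 ∈ g.1 ∧ x.1 ∈ w.1) := by
    intro l j n L hn hL x
    constructor
    · intro hx
      obtain ⟨h0, h | h⟩ := (hF n x).1 hx
      · obtain ⟨m', w, h1, _⟩ := h
        obtain ⟨a1, a2, a3, b1, b2, b3, b4⟩ := (tri_iff (hN := hN) hEV).1 h1
        rw [hn, natZ_inj] at b2
        exfalso
        rw [← b2] at b1
        unfold ch at b1
        omega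
      · obtain ⟨l', j', α, q, η, u, z', y, LL, g, h1, h2, h3, h4, h5, h6, h7⟩ := h
        obtain ⟨a1, a2, a3, b1, b2, b3, b4⟩ := (tri_iff (hN := hN) hOD).1 h1
        rw [hn, natZ_inj] at b2
        rw [← b2] at b1
        obtain ⟨e1, e2⟩ := ch_inj b1
        subst e1 e2
        have e3 : l' = L := Subtype.ext (b3.trans hL.symm)
        have h22 : F l' = α := h2.2
        rw [e3] at h22
        refine ⟨h0, q, η, u, z', y, LL, g, by rw [h22]; exact h3, h4, h5, h6, ?_⟩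
        rcases h7 with ⟨h7, h8⟩ | ⟨k, w, h7, h8, h9⟩
        · left
          refine ⟨?_, h8⟩
          have h7 : j' = N0 := h7
          rw [h7, hN0, natZ_inj] at b4
          exact b4.symm
        · right
          obtain ⟨c1, c2, c3, d1, d2, d3, d4⟩ := (tri_iff (hN := hN) hSC).1 h7
          rw [b4, natZ_inj] at d2
          exact ⟨c2, w, by rw [d2, d1.1], by rw [← d3]; exact h8, h9⟩
    · rintro ⟨h0, q, η, u, z', y, LL, g, h3, h4, h5, h6, h7⟩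
      refine (hF n x).2 ⟨h0, Or.inr ⟨L, ⟨natZ j, hN.natZ_mem_N j⟩, F L, q, η, u, z', y, LL, g, ?_,
        ⟨?_, rfl⟩, h3, h4, h5, h6, ?_⟩⟩
      · exact (tri_nat (hN := hN) hOD hn hL rfl).2 rfl
      · exact (rld_iff (hN := hN) hOD).2 ⟨l, j, hL, hn⟩
      · rcases h7 with ⟨h7, h8⟩ | ⟨k, w, h7, h8, h9⟩
        · exact Or.inl ⟨Subtype.ext (by rw [hN0, h7]), h8⟩
        · refine Or.inr ⟨⟨natZ k, hN.natZ_mem_N k⟩, w, ?_, h8, h9⟩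
          exact (tri_nat (hN := hN) hSC rfl rfl hN0).2 ⟨h7, rfl⟩
  -- the values at the children
  have hval : ∀ l (L q : N) (o η : Ordinal.{u}) (b : ℕ → ℕ) (t : Tm.{u}), L.1 = natZ l →
      (F L).1 = o.toZFSet → o < κ → G (F L) q →
      q.1 = ZFSet.pair η.toZFSet (ZFSet.pair (zs b) (tc t)) → η < o → Over (fun _ => η) t →
      (∀ n : N, n.1 = natZ (ch l 0) → (F n).1 = η.toZFSet) ∧
      ∀ k, ∀ n : N, n.1 = natZ (ch l (k + 1)) → (F n).1 = (((os t)[k]?).getD 0).toZFSet := by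
    intro l L q o η b t hL ho hoκ hq hq' hη ht
    have hu : ∀ q' η' u z y LL g : N, G (F L) q' → q'.1 = ZFSet.pair η'.1 u.1 →
        u.1 = ZFSet.pair z.1 y.1 → y.1 = ZFSet.pair LL.1 g.1 → η'.1 = η.toZFSet ∧ g.1 = fz (os t) := by
      intro q' η' u z y LL g h1 h2 h3 h4
      have := hGu _ _ _ hq h1
      subst this
      rw [h3] at h2
      rw [h4] at h2
      rw [hq', ZFSet.pair_inj, ZFSet.pair_inj] at h2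
      obtain ⟨e1, _, e2⟩ := h2
      rw [tc, ZFSet.pair_inj] at e2
      exact ⟨e1.symm, e2.2.symm⟩
    have hqN := q.2
    rw [hq'] at hqN
    have hηN := (hN.of_pair_mem hqN).1
    have huN := (hN.of_pair_mem hqN).2
    have hzN := (hN.of_pair_mem huN).1
    have htN := (hN.of_pair_mem huN).2
    have hgN := (hN.of_pair_mem (show ZFSet.pair (natZ (lb t)) (fz (os t)) ∈ N from htN)).2
    constructor
    · intro n hn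
      apply ZFSet.ext
      intro z
      constructor
      · intro hz
        obtain ⟨_, q', η', u, z', y, LL, g, h1, h2, h3, h4, h5⟩ :=
          (hodd l 0 n L hn hL ⟨z, hN.mem_of_mem (F n).2 hz⟩).1 hz
        rcases h5 with ⟨_, h5⟩ | ⟨k, w, h5, _⟩
        · rw [← (hu _ _ _ _ _ _ _ h1 h2 h3 h4).1]; exact h5
        · omega
      · intro hz
        obtain ⟨ξ, hξ, rfl⟩ := Ordinal.mem_toZFSet_iff.1 hz
        refine (hodd l 0 n L hn hL ⟨_, hN.mem_of_mem hηN hz⟩).2 ⟨?_, q, ⟨_, hηN⟩, ⟨_, huN⟩,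
          ⟨_, hzN⟩, ⟨_, htN⟩, ⟨natZ (lb t), hN.natZ_mem_N _⟩, ⟨_, hgN⟩, hq, hq', rfl, rfl,
          Or.inl ⟨rfl, hz⟩⟩
        rw [hKK]; exact Ordinal.toZFSet_mem_toZFSet_iff.2 ((hξ.trans hη).trans hoκ)
    · intro k n hn
      apply ZFSet.ext
      intro z
      constructor
      · intro hz
        obtain ⟨_, q', η', u, z', y, LL, g, h1, h2, h3, h4, h5⟩ :=
          (hodd l (k + 1) n L hn hL ⟨z, hN.mem_of_mem (F n).2 hz⟩).1 hz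
        rcases h5 with ⟨h5, _⟩ | ⟨k', w, h5, h6, h7⟩
        · omega
        · have e1 : k = k' := by omega
          subst e1
          rw [(hu _ _ _ _ _ _ _ h1 h2 h3 h4).2, pair_mem_fz] at h6
          obtain ⟨ξ, h8, h9⟩ := h6
          rw [h8]
          show z ∈ ξ.toZFSet
          rw [← h9]; exact h7
      · intro hz
        rcases hk : (os t)[k]? with _ | ξ
        · rw [hk] at hz
          obtain ⟨ξ, hξ, _⟩ := Ordinal.mem_toZFSet_iff.1 hz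
          exact absurd hξ (not_lt.2 zero_le)
        · rw [hk] at hz
          have hz : z ∈ ξ.toZFSet := hz
          have hξη : ξ < η := by
            have h1 : ξ ∈ os t := List.mem_of_getElem? hk
            obtain ⟨p, hp, rfl⟩ := List.mem_map.1 h1
            exact ht p hp
          have hξN : ξ.toZFSet ∈ N := hN.toZFSet_mem_of_le hξη.le hηN
          obtain ⟨ζ, hζ, rfl⟩ := Ordinal.mem_toZFSet_iff.1 hz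
          refine (hodd l (k + 1) n L hn hL ⟨_, hN.mem_of_mem hξN hz⟩).2 ⟨?_, q, ⟨_, hηN⟩,
            ⟨_, huN⟩, ⟨_, hzN⟩, ⟨_, htN⟩, ⟨natZ (lb t), hN.natZ_mem_N _⟩, ⟨_, hgN⟩, hq, hq', rfl,
            rfl, Or.inr ⟨k, ⟨_, hξN⟩, rfl, ?_, hz⟩⟩
          · rw [hKK]
            exact Ordinal.toZFSet_mem_toZFSet_iff.2 (((hζ.trans hξη).trans hη).trans hoκ)
          · exact pair_mem_fz.2 ⟨ξ, hk, rfl⟩
  have hnone : ∀ l j (n L : N), n.1 = natZ (ch l j) → L.1 = natZ l → (¬ ∃ q, G (F L) q) →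
      (F n).1 = (0 : Ordinal.{u}).toZFSet := by
    intro l j n L hn hL h
    rw [Ordinal.toZFSet_zero]
    rw [ZFSet.eq_empty]
    intro z hz
    obtain ⟨_, q, _, _, _, _, _, _, h1, _⟩ := (hodd l j n L hn hL ⟨z, hN.mem_of_mem (F n).2 hz⟩).1 hz
    exact h ⟨q, h1⟩
  have hP : ∀ n : ℕ, ∃ o < κ, ∀ x : N, x.1 = natZ n → (F x).1 = o.toZFSet := by
    intro n
    induction n using Nat.strong_induction_on with
    | _ n ih =>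
      rcases Nat.even_or_odd' n with ⟨m, hm | hm⟩
      · exact ⟨a m, hκ m, fun x hx => heven m x (by rw [hx, hm])⟩
      · obtain ⟨l, j, rfl⟩ : ∃ l j, n = ch l j :=
          ⟨m.unpair.1, m.unpair.2, by rw [hm, ch, Nat.pair_unpair]⟩
        obtain ⟨o, ho, ho'⟩ := ih l (lt_ch l j)
        have hL := ho' ⟨natZ l, hN.natZ_mem_N l⟩ rfl
        by_cases hq : ∃ q, G (F ⟨natZ l, hN.natZ_mem_N l⟩) q
        · obtain ⟨q, hq⟩ := hq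
          obtain ⟨η, b, t, h1, h2, h3⟩ := hG _ q o hL hq
          obtain ⟨h4, h5⟩ := hval l _ q o η b t rfl hL ho hq h3 h1 h2
          rcases j with _ | k
          · exact ⟨η, h1.trans ho, h4⟩
          · refine ⟨_, ?_, h5 k⟩
            rcases hk : (os t)[k]? with _ | ξ
            · exact h0κ
            · have h6 : ξ ∈ os t := List.mem_of_getElem? hk
              obtain ⟨p, hp, rfl⟩ := List.mem_map.1 h6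
              exact ((h2 p hp).trans h1).trans ho
        · exact ⟨0, h0κ, fun x hx => hnone l j x ⟨natZ l, hN.natZ_mem_N l⟩ hx rfl hq⟩
  choose e he1 he2 using hP
  refine ⟨e, fun n x hx => he2 n x hx, he1, fun m => ?_, ?_⟩
  · have h1 := heven m ⟨natZ (2 * m), hN.natZ_mem_N _⟩ rfl
    rw [he2 (2 * m) _ rfl] at h1
    exact toZ_inj h1
  · intro l L q η b t hL hq hq' hη ht
    obtain ⟨h4, h5⟩ := hval l L q (e l) η b t hL (he2 l L hL) (he1 l) hq hq' hη ht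
    constructor
    · have h6 := h4 ⟨natZ (ch l 0), hN.natZ_mem_N _⟩ rfl
      rw [he2 _ _ rfl] at h6
      exact toZ_inj h6
    · intro k
      have h6 := h5 k ⟨natZ (ch l (k + 1)), hN.natZ_mem_N _⟩ rfl
      rw [he2 _ _ rfl] at h6
      exact toZ_inj h6


/-- Every sequence of ordinals in the model can be closed off. -/
theorem exists_clo {N : Set ZFSet.{u}} (hN : CTM N) {f : (ℕ → ℕ) → ℕ → ℕ}
    (hA : AClosed (Am f FR.{u}) N) (hf : ∀ b, WOr b → WF.{u} (f b)) {a : ℕ → Ordinal.{u}}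
    (ha : Ss a ∈ N) : ∃ e xx tt, Clo N f a e xx tt := by
  classical
  have hfr := fun m hm => fr_mem hN hA m hm
  have hQ : HasQ N := fun m => hfr (m + 9) (by omega)
  obtain ⟨S, SC3, PR0, N0, N1, N2, hT⟩ := exists_tabs hN hA (hfr 4 (by omega)) (hfr 6 (by omega))
  obtain ⟨C, hC⟩ := exists_C (hN := hN) hT
  obtain ⟨V, hV, hV'⟩ := exists_valF hN hQ (C := C) (by
    intro Y hY
    obtain ⟨b, _, h1, h2⟩ := (hC Y).1 hY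
    exact ⟨f b, hf b h1, h2⟩)
  obtain ⟨TY, hTY⟩ : ∃ TY : N, TY.1 = relThreeZ.{u} Ty := ⟨⟨_, hQ 0⟩, rfl⟩
  obtain ⟨OD, hOD⟩ : ∃ OD : N, OD.1 = relThreeZ.{u} (fun n l j => n = ch l j) :=
    ⟨⟨_, hfr 1 (by omega)⟩, rfl⟩
  obtain ⟨EV, hEV⟩ : ∃ EV : N, EV.1 = relThreeZ.{u} (fun n m b => n = 2 * m ∧ b = 0) :=
    ⟨⟨_, hfr 2 (by omega)⟩, rfl⟩
  obtain ⟨SC, hSC⟩ : ∃ SC : N, SC.1 = relThreeZ.{u} (fun j k b => j = k + 1 ∧ b = 0) :=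
    ⟨⟨_, hfr 3 (by omega)⟩, rfl⟩
  obtain ⟨AA, hAA⟩ : ∃ AA : N, AA.1 = Ss a := ⟨⟨_, ha⟩, rfl⟩
  set κ : Ordinal.{u} := (Ss a).rank with hκ
  obtain ⟨KK, hKK⟩ : ∃ KK : N, KK.1 = κ.toZFSet := ⟨⟨_, hN.rank_mem ha⟩, rfl⟩
  obtain ⟨L0, hL0⟩ : ∃ L0 : N, L0.1 = natZ (lb ((0, []) : Tm.{u})) :=
    ⟨⟨natZ (lb ((0, []) : Tm.{u})), hN.natZ_mem_N _⟩, rfl⟩
  have hN0 := hT.n0
  have hred := fun (α q : N) (o : Ordinal.{u}) (h : α.1 = o.toZFSet) =>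
    redd_iff hN hT hTY hQ hC hV' hf (α := α) (q := q) (o := o) h
  -- the set of all reductions
  obtain ⟨PW, hPW, hPW'⟩ := hN.exists_pow (hN.prod_mem hN.omZ_mem hN.omZ_mem)
  obtain ⟨PK, hPK, hPK'⟩ := hN.exists_pow (hN.prod_mem hN.omZ_mem KK.2)
  have hD : ZFSet.prod KK.1 (ZFSet.prod PW (ZFSet.prod omZ PK)) ∈ N :=
    hN.prod_mem KK.2 (hN.prod_mem hPW (hN.prod_mem hN.omZ_mem hPK))
  obtain ⟨G, hG, hG1, hGu, hG2⟩ := exists_unif_dfn hN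
    (REDd_dfn (hN := hN) S SC3 PR0 N0 N1 N2 TY hV) KK.2 hD
  obtain ⟨F, hF, hF'⟩ := exists_step hN (EV := EV) (SC := SC) (N0 := N0) (AA := AA) (KK := KK) hOD hG
  obtain ⟨e, he, heκ, hev, hch⟩ := step_values hN hF' hOD hEV hSC hN0 hAA hKK
    (fun m => lt_rank_Ss a m) (by
      intro α q o hα hq
      obtain ⟨η, b, t, h1, _, _, h2, _, h3⟩ := (hred α q o hα).1 (hG1 α q hq).2.2
      exact ⟨η, b, t, h1, h2, h3⟩) hGu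
  have heN : ∀ n, (e n).toZFSet ∈ N := fun n =>
    hN.toZFSet_mem_of_le (heκ n).le (by rw [← hKK]; exact KK.2)
  let X : ℕ → N := fun n => F ⟨natZ n, hN.natZ_mem_N n⟩
  have hX : ∀ n, (X n).1 = (e n).toZFSet := fun n => he n _ rfl
  have hnice : ∀ n, ¬ Nice N f (e n) ↔ ∃ q, G (X n) q := by
    intro n
    constructor
    · intro h
      unfold Nice at h
      push Not at h
      obtain ⟨b, h1, h2, η, h3, t, h4, h5⟩ := h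
      have hηN : η.toZFSet ∈ N := hN.toZFSet_mem_of_le h3.le (heN n)
      have htN : ∀ ξ ∈ os t, ξ.toZFSet ∈ N := by
        intro ξ hξ
        obtain ⟨p, hp, rfl⟩ := List.mem_map.1 hξ
        exact hN.toZFSet_mem_of_le (h4 p hp).le hηN
      have hqN : ZFSet.pair η.toZFSet (ZFSet.pair (zs b) (tc t)) ∈ N :=
        hN.pair_mem hηN (hN.pair_mem h1 (tc_mem (hN := hN) htN))
      refine hG2 (X n) ⟨_, hqN⟩ ?_ ?_ ?_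
      · rw [hX, hKK]; exact Ordinal.toZFSet_mem_toZFSet_iff.2 (heκ n)
      · show ZFSet.pair _ _ ∈ _
        rw [ZFSet.pair_mem_prod, ZFSet.pair_mem_prod, tc, ZFSet.pair_mem_prod]
        refine ⟨?_, ?_, natZ_mem_omZ _, ?_⟩
        · rw [hKK]; exact Ordinal.toZFSet_mem_toZFSet_iff.2 (h3.trans (heκ n))
        · refine (hPW' _).2 ⟨h1, fun p hp => ?_⟩
          obtain ⟨i, rfl⟩ := mem_zs.1 hp
          simp [natZ_mem_omZ]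
        · refine (hPK' _).2 ⟨fz_mem (hN := hN) _ htN, fun p hp => ?_⟩
          obtain ⟨k, ξ, hk, rfl⟩ := mem_fz.1 hp
          rw [ZFSet.pair_mem_prod]
          refine ⟨natZ_mem_omZ _, ?_⟩
          rw [hKK]
          refine Ordinal.toZFSet_mem_toZFSet_iff.2 ?_
          obtain ⟨p', hp', rfl⟩ := List.mem_map.1 (List.mem_of_getElem? hk)
          exact (h4 p' hp').trans (h3.trans (heκ n))
      · exact (hred (X n) ⟨_, hqN⟩ (e n) (hX n)).2 ⟨η, b, t, h3, h1, h2, h4, h5, rfl⟩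
    · rintro ⟨q, hq⟩ hni
      obtain ⟨η, b, t, h1, h2, h3, h4, h5, _⟩ := (hred (X n) q (e n) (hX n)).1 (hG1 _ q hq).2.2
      exact hni b h2 h3 η h1 t h4 h5
  have hdat : ∀ n, ∃ (x : ℕ → ℕ) (t : Tm.{u}), (¬ Nice N f (e n) → ∃ b q, zs b ∈ N ∧ WOr b ∧
      x = f b ∧ G (X n) q ∧ q.1 = ZFSet.pair (e (ch n 0)).toZFSet (ZFSet.pair (zs b) (tc t)) ∧
      e (ch n 0) < e n ∧ Over (fun _ => e (ch n 0)) t ∧
      vl (f b) (fun _ => e (ch n 0)) t = (e n).toZFSet ∧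
      ∀ k, e (ch n (k + 1)) = ((os t)[k]?).getD 0) ∧
      (Nice N f (e n) → x = (fun _ => 0) ∧ t = (0, [])) := by
    intro n
    by_cases hn : Nice N f (e n)
    · exact ⟨_, _, fun h => (h hn).elim, fun _ => ⟨rfl, rfl⟩⟩
    · obtain ⟨q, hq⟩ := (hnice n).1 hn
      obtain ⟨η, b, t, h1, h2, h3, h4, h5, h6⟩ := (hred (X n) q (e n) (hX n)).1 (hG1 _ q hq).2.2
      obtain ⟨h7, h8⟩ := hch n _ q η b t rfl hq h6 h1 h4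
      refine ⟨f b, t, fun _ => ⟨b, q, h2, h3, rfl, hq, ?_, ?_, ?_, ?_, h8⟩, fun h => (hn h).elim⟩
      · rw [h7]; exact h6
      · rw [h7]; exact h1
      · rw [h7]; exact h4
      · rw [h7]; exact h5
  choose xx tt hd1 hd2 using hdat
  -- the tables
  have hGn : ∀ n : N, ∀ i, n.1 = natZ i → ((∃ α q : N, F n = α ∧ G α q) ↔ ¬ Nice N f (e i)) := by
    intro n i hn
    have e1 : n = ⟨natZ i, hN.natZ_mem_N i⟩ := Subtype.ext hn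
    rw [hnice i, e1]
    constructor
    · rintro ⟨α, q, h1, h2⟩
      exact ⟨q, by show G (F _) q; rw [h1]; exact h2⟩
    · rintro ⟨q, hq⟩
      exact ⟨_, q, rfl, hq⟩
  have hz : ∀ b : ℕ, (⟨natZ b, hN.natZ_mem_N b⟩ : N) = N0 ↔ b = 0 := by
    intro b
    rw [Subtype.ext_iff, hN0]; exact natZ_inj
  refine ⟨e, xx, tt, hev, ?_, ?_, ?_, ?_, ?_, ?_, ?_, ?_, ?_⟩
  · intro n hn
    obtain ⟨b, q, h1, h2, h3, _⟩ := hd1 n hn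
    exact ⟨b, h1, h2, h3⟩
  · intro n hn
    obtain ⟨b, q, h1, h2, h3, h4, h5, h6, h7, h8, h9⟩ := hd1 n hn
    exact h7
  · intro n hn j ξ hξ
    obtain ⟨b, q, h1, h2, h3, h4, h5, h6, h7, h8, h9⟩ := hd1 n hn
    rw [h9 j, hξ]; rfl
  · intro n hn
    obtain ⟨b, q, h1, h2, h3, h4, h5, h6, h7, h8, h9⟩ := hd1 n hn
    rw [h3]; exact h8
  · intro n hn j
    obtain ⟨b, q, h1, h2, h3, h4, h5, h6, h7, h8, h9⟩ := hd1 n hn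
    rcases j with _ | k
    · exact h6
    · rw [h9 k]
      rcases hk : (os (tt n))[k]? with _ | ξ
      · exact zero_le.trans_lt h6
      · obtain ⟨p, hp, rfl⟩ := List.mem_map.1 (List.mem_of_getElem? hk)
        exact (h7 p hp).trans h6
  · -- the sequence
    have hdf : hN.Dfn (fun v : Fin 1 → N => (∃ n : N, (∃ w : N, ((v 0).1 = ZFSet.pair n.1 w.1 ∧ (fun x y => F x = y) n w)))) := (Dfn.ex (P := fun v n => (∃ w : N, ((v 0).1 = ZFSet.pair n.1 w.1 ∧ (fun x y => F x = y) n w)))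
  (Dfn.ex (P := fun v w => ((v 0).1 = ZFSet.pair (v 1).1 w.1 ∧ (fun x y => F x = y) (v 1) w))
  (Dfn.and (Dfn.isPair (DT.var _) (DT.var _) (DT.var _))
  (Dfn.subst2 (P := (fun x y => F x = y)) hF (DT.var _) (DT.var _)))))
    obtain ⟨b, hb, hb'⟩ := hN.exists_sep (P := fun p => (∃ n : N, (∃ w : N, (p.1 = ZFSet.pair n.1 w.1 ∧ (fun x y => F x = y) n w)))) hdf
      (hN.prod_mem hN.omZ_mem KK.2)
    have : Ss e = b := by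
      ext z
      rw [Ss, ZFSet.mem_range, hb']
      constructor
      · rintro ⟨i, rfl⟩
        refine ⟨?_, hN.pair_mem (hN.natZ_mem_N i) (heN i), ⟨natZ i, hN.natZ_mem_N i⟩, ⟨_, heN i⟩,
          rfl, Subtype.ext (hX i)⟩
        rw [ZFSet.pair_mem_prod, hKK]
        exact ⟨natZ_mem_omZ i, Ordinal.toZFSet_mem_toZFSet_iff.2 (heκ i)⟩
      · rintro ⟨h1, h2, n, w, h3, h4⟩
        have h3 : z = ZFSet.pair n.1 w.1 := h3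
        have h4 : F n = w := h4
        rw [h3, ZFSet.pair_mem_prod] at h1
        obtain ⟨i, hi⟩ := mem_omZ.1 h1.1
        exact ⟨i, by rw [h3, ← h4, he i n hi, hi]⟩
    rw [this]; exact hb
  · refine rel_of (hN := hN) (P := fun n a b => (((∃ α : N, (∃ q : N, ((fun x y => F x = y) n α ∧ G α q)))) ∧ a = N0 ∧ b = N0)) (Dfn.and (Dfn.ex (P := fun v α => (∃ q : N, ((fun x y => F x = y) (v 0) α ∧ G α q)))
  (Dfn.ex (P := fun v q => ((fun x y => F x = y) (v 0) (v 3) ∧ G (v 3) q))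
  (Dfn.and (Dfn.subst2 (P := (fun x y => F x = y)) hF (DT.var _) (DT.var _))
  (Dfn.subst2 (P := G) hG (DT.var _) (DT.var _)))))
  (Dfn.and (Dfn.eq (DT.var _) (DT.const N0))
  (Dfn.eq (DT.var _) (DT.const N0)))) fun i j k => ?_
    rw [hz, hz]
    exact and_congr_left fun _ => hGn _ i rfl
  · refine rel_of (hN := hN) (P := fun n L b => (((((∃ α : N, (∃ q : N, (∃ η : N, (∃ u : N, (∃ z : N, (∃ y : N, (∃ g : N, ((fun x y => F x = y) n α ∧ G α q ∧ q.1 = ZFSet.pair η.1 u.1 ∧ u.1 = ZFSet.pair z.1 y.1 ∧ y.1 = ZFSet.pair L.1 g.1))))))))) ∨ (((¬ ((∃ α : N, (∃ q : N, ((fun x y => F x = y) n α ∧ G α q))))) ∧ L = L0)))) ∧ b = N0)) (Dfn.and (Dfn.or (Dfn.ex (P := fun v α => (∃ q : N, (∃ η : N, (∃ u : N, (∃ z : N, (∃ y : N, (∃ g : N, ((fun x y => F x = y) (v 0) α ∧ G α q ∧ q.1 = ZFSet.pair η.1 u.1 ∧ u.1 = ZFSet.pair z.1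 y.1 ∧ y.1 = ZFSet.pair (v 1).1 g.1))))))))
  (Dfn.ex (P := fun v q => (∃ η : N, (∃ u : N, (∃ z : N, (∃ y : N, (∃ g : N, ((fun x y => F x = y) (v 0) (v 3) ∧ G (v 3) q ∧ q.1 = ZFSet.pair η.1 u.1 ∧ u.1 = ZFSet.pair z.1 y.1 ∧ y.1 = ZFSet.pair (v 1).1 g.1)))))))
  (Dfn.ex (P := fun v η => (∃ u : N, (∃ z : N, (∃ y : N, (∃ g : N, ((fun x y => F x = y) (v 0) (v 3) ∧ G (v 3) (v 4) ∧ (v 4).1 = ZFSet.pair η.1 u.1 ∧ u.1 = ZFSet.pair z.1 y.1 ∧ y.1 = ZFSet.pair (v 1).1 g.1))))))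
  (Dfn.ex (P := fun v u => (∃ z : N, (∃ y : N, (∃ g : N, ((fun x y => F x = y) (v 0) (v 3) ∧ G (v 3) (v 4) ∧ (v 4).1 = ZFSet.pair (v 5).1 u.1 ∧ u.1 = ZFSet.pair z.1 y.1 ∧ y.1 = ZFSet.pair (v 1).1 g.1)))))
  (Dfn.ex (P := fun v z => (∃ y : N, (∃ g : N, ((fun x y => F x = y) (v 0) (v 3) ∧ G (v 3) (v 4) ∧ (v 4).1 = ZFSet.pair (v 5).1 (v 6).1 ∧ (v 6).1 = ZFSet.pair z.1 y.1 ∧ y.1 = ZFSet.pair (v 1).1 g.1))))
  (Dfn.ex (P := fun v y => (∃ g : N, ((fun x y => F x = y) (v 0) (v 3) ∧ G (v 3) (v 4) ∧ (v 4).1 = ZFSet.pair (v 5).1 (v 6).1 ∧ (v 6).1 = ZFSet.pair (v 7).1 y.1 ∧ y.1 = ZFSet.pair (v 1).1 g.1)))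
  (Dfn.ex (P := fun v g => ((fun x y => F x = y) (v 0) (v 3) ∧ G (v 3) (v 4) ∧ (v 4).1 = ZFSet.pair (v 5).1 (v 6).1 ∧ (v 6).1 = ZFSet.pair (v 7).1 (v 8).1 ∧ (v 8).1 = ZFSet.pair (v 1).1 g.1))
  (Dfn.and (Dfn.subst2 (P := (fun x y => F x = y)) hF (DT.var _) (DT.var _))
  (Dfn.and (Dfn.subst2 (P := G) hG (DT.var _) (DT.var _))
  (Dfn.and (Dfn.isPair (DT.var _) (DT.var _) (DT.var _))
  (Dfn.and (Dfn.isPair (DT.var _) (DT.var _) (DT.var _))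
  (Dfn.isPair (DT.var _) (DT.var _) (DT.var _)))))))))))))
  (Dfn.and (Dfn.not (Dfn.ex (P := fun v α => (∃ q : N, ((fun x y => F x = y) (v 0) α ∧ G α q)))
  (Dfn.ex (P := fun v q => ((fun x y => F x = y) (v 0) (v 3) ∧ G (v 3) q))
  (Dfn.and (Dfn.subst2 (P := (fun x y => F x = y)) hF (DT.var _) (DT.var _))
  (Dfn.subst2 (P := G) hG (DT.var _) (DT.var _))))))
  (Dfn.eq (DT.var _) (DT.const L0))))
  (Dfn.eq (DT.var _) (DT.const N0))) fun i j k => ?_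
    rw [hz]
    refine and_congr_left fun _ => ?_
    by_cases hn : Nice N f (e i)
    · have h1 : ¬ ∃ α q : N, F ⟨natZ i, hN.natZ_mem_N i⟩ = α ∧ G α q := fun h =>
        (hGn ⟨natZ i, hN.natZ_mem_N i⟩ i rfl).1 h hn
      rw [(hd2 i hn).2]
      constructor
      · rintro (⟨α, q, _, _, _, _, _, h2, h3, _⟩ | ⟨_, h2⟩)
        · exact (h1 ⟨α, q, h2, h3⟩).elim
        · have h2 : natZ.{u} j = L0.1 := congrArg Subtype.val h2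
          rw [hL0, natZ_inj] at h2
          exact h2
      · intro h2
        exact Or.inr ⟨h1, Subtype.ext (by rw [hL0, h2])⟩
    · obtain ⟨b, q, h1, h2, h3, h4, h5, h6, h7, h8, h9⟩ := hd1 i hn
      have hqN := q.2
      rw [h5] at hqN
      have huN := (hN.of_pair_mem hqN).2
      have htN := (hN.of_pair_mem huN).2
      have hgN := (hN.of_pair_mem (show ZFSet.pair (natZ (lb (tt i))) (fz (os (tt i))) ∈ N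
        from htN)).2
      constructor
      · rintro (⟨α, q', η, u, z, y, g, g1, g2, g3, g4, g5⟩ | ⟨g1, _⟩)
        · have g1 : F _ = α := g1
          have e1 : q' = q := hGu α q' q g2 (by rw [← g1]; exact h4)
          subst e1
          rw [h5, g4, g5, ZFSet.pair_inj, ZFSet.pair_inj, tc, ZFSet.pair_inj, natZ_inj] at g3
          exact g3.2.2.1.symm
        · exact (g1 ((hGn _ i rfl).2 hn)).elim
      · intro hj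
        subst hj
        exact Or.inl ⟨X i, q, ⟨_, (hN.of_pair_mem hqN).1⟩, ⟨_, huN⟩, ⟨_, h1⟩, ⟨_, htN⟩, ⟨_, hgN⟩,
          rfl, h4, h5, rfl, rfl⟩
  · refine rel_of (hN := hN) (P := fun n c b => (((∃ α : N, (∃ q : N, (∃ η : N, (∃ u : N, (∃ z : N, (∃ y : N, (∃ j : N, ((fun x y => F x = y) n α ∧ G α q ∧ q.1 = ZFSet.pair η.1 u.1 ∧ u.1 = ZFSet.pair z.1 y.1 ∧ (F3d S SC3 N0 N1 N2) z c j ∧ (¬ (j = N0))))))))))) ∧ b = N0)) (Dfn.and (Dfn.ex (P := fun v α => (∃ q : N, (∃ η : N, (∃ u : N, (∃ z : N, (∃ y : N, (∃ j : N, ((fun x y => F x = y) (v 0) α ∧ G α q ∧ q.1 = ZFSet.pair η.1 u.1 ∧ u.1 = ZFSet.pair z.1 y.1 ∧ (F3d S SC3 N0 N1 N2) z (v 1) j ∧ (¬ (j = N0))))))))))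
  (Dfn.ex (P := fun v q => (∃ η : N, (∃ u : N, (∃ z : N, (∃ y : N, (∃ j : N, ((fun x y => F x = y) (v 0) (v 3) ∧ G (v 3) q ∧ q.1 = ZFSet.pair η.1 u.1 ∧ u.1 = ZFSet.pair z.1 y.1 ∧ (F3d S SC3 N0 N1 N2) z (v 1) j ∧ (¬ (j = N0)))))))))
  (Dfn.ex (P := fun v η => (∃ u : N, (∃ z : N, (∃ y : N, (∃ j : N, ((fun x y => F x = y) (v 0) (v 3) ∧ G (v 3) (v 4) ∧ (v 4).1 = ZFSet.pair η.1 u.1 ∧ u.1 = ZFSet.pair z.1 y.1 ∧ (F3d S SC3 N0 N1 N2) z (v 1) j ∧ (¬ (j = N0))))))))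
  (Dfn.ex (P := fun v u => (∃ z : N, (∃ y : N, (∃ j : N, ((fun x y => F x = y) (v 0) (v 3) ∧ G (v 3) (v 4) ∧ (v 4).1 = ZFSet.pair (v 5).1 u.1 ∧ u.1 = ZFSet.pair z.1 y.1 ∧ (F3d S SC3 N0 N1 N2) z (v 1) j ∧ (¬ (j = N0)))))))
  (Dfn.ex (P := fun v z => (∃ y : N, (∃ j : N, ((fun x y => F x = y) (v 0) (v 3) ∧ G (v 3) (v 4) ∧ (v 4).1 = ZFSet.pair (v 5).1 (v 6).1 ∧ (v 6).1 = ZFSet.pair z.1 y.1 ∧ (F3d S SC3 N0 N1 N2) z (v 1) j ∧ (¬ (j = N0))))))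
  (Dfn.ex (P := fun v y => (∃ j : N, ((fun x y => F x = y) (v 0) (v 3) ∧ G (v 3) (v 4) ∧ (v 4).1 = ZFSet.pair (v 5).1 (v 6).1 ∧ (v 6).1 = ZFSet.pair (v 7).1 y.1 ∧ (F3d S SC3 N0 N1 N2) (v 7) (v 1) j ∧ (¬ (j = N0)))))
  (Dfn.ex (P := fun v j => ((fun x y => F x = y) (v 0) (v 3) ∧ G (v 3) (v 4) ∧ (v 4).1 = ZFSet.pair (v 5).1 (v 6).1 ∧ (v 6).1 = ZFSet.pair (v 7).1 (v 8).1 ∧ (F3d S SC3 N0 N1 N2) (v 7) (v 1) j ∧ (¬ (j = N0))))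
  (Dfn.and (Dfn.subst2 (P := (fun x y => F x = y)) hF (DT.var _) (DT.var _))
  (Dfn.and (Dfn.subst2 (P := G) hG (DT.var _) (DT.var _))
  (Dfn.and (Dfn.isPair (DT.var _) (DT.var _) (DT.var _))
  (Dfn.and (Dfn.isPair (DT.var _) (DT.var _) (DT.var _))
  (Dfn.and (Dfn.subst3 (P := (F3d S SC3 N0 N1 N2)) (F3d_dfn S SC3 N0 N1 N2) (DT.var _) (DT.var _) (DT.var _))
  (Dfn.not (Dfn.eq (DT.var _) (DT.const N0)))))))))))))))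
  (Dfn.eq (DT.var _) (DT.const N0))) fun i j k => ?_
    rw [hz]
    refine and_congr_left fun _ => ?_
    by_cases hn : Nice N f (e i)
    · rw [(hd2 i hn).1]
      constructor
      · rintro ⟨α, q, _, _, _, _, _, h2, h3, _⟩
        exact ((hGn ⟨natZ i, hN.natZ_mem_N i⟩ i rfl).1 ⟨α, q, h2, h3⟩ hn).elim
      · intro h; exact (h rfl).elim
    · obtain ⟨b, q, h1, h2, h3, h4, h5, h6, h7, h8, h9⟩ := hd1 i hn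
      have hqN := q.2
      rw [h5] at hqN
      have huN := (hN.of_pair_mem hqN).2
      have htN := (hN.of_pair_mem huN).2
      rw [h3]
      constructor
      · rintro ⟨α, q', η, u, z, y, j', g1, g2, g3, g4, g5, g6⟩
        have g1 : F _ = α := g1
        have e1 : q' = q := hGu α q' q g2 (by rw [← g1]; exact h4)
        subst e1
        rw [h5, g4, ZFSet.pair_inj, ZFSet.pair_inj] at g3
        obtain ⟨c0, j0, c1, c2, c3⟩ := (f3_iff (hN := hN) hT g3.2.1.symm).1 g5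
        have c1 : natZ.{u} j = natZ c0 := c1
        rw [natZ_inj] at c1
        subst c1
        intro c4
        exact g6 (Subtype.ext (by rw [c2, ← c3, c4, hN0]))
      · intro hj
        refine ⟨X i, q, ⟨_, (hN.of_pair_mem hqN).1⟩, ⟨_, huN⟩, ⟨_, h1⟩, ⟨_, htN⟩,
          ⟨natZ (f b j), hN.natZ_mem_N _⟩, rfl, h4, h5, rfl, ?_, fun c4 => hj ((hz _).1 c4)⟩
        exact (f3_iff (hN := hN) hT rfl).2 ⟨j, _, rfl, rfl, rfl⟩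

end Pool.Agent.H17.Omega.T8
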