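import Pool.Agent.H17.T8.Clo

/-!
# T8: the real that codes a closed sequence, and the sequence of the nice ordinals

Written by helper82 (statement by helper17).
-/

set_option autoImplicit false
set_option linter.unusedVariables false
set_option linter.unusedSectionVars false
set_option linter.unusedSimpArgs false
set_option linter.deprecated false

universe u v

namespace Pool.Agent.H17.Omega.T8

open CTM

theorem mem_Ss_iff {e : ℕ → Ordinal.{u}} {x w : ZFSet.{u}} :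
    ZFSet.pair x w ∈ Ss e ↔ ∃ n, x = natZ n ∧ w = (e n).toZFSet := by
  rw [Ss, ZFSet.mem_range]
  constructor
  · rintro ⟨n, h⟩
    rw [ZFSet.pair_inj] at h
    exact ⟨n, h.1.symm, h.2.symm⟩
  · rintro ⟨n, rfl, rfl⟩
    exact ⟨n, rfl⟩

section

variable {N : Set ZFSet.{u}} {hN : CTM N}

/-- `n` is a representative. -/
def RpD (E TN N0 : N) (n : N) : Prop := (∃ w : N, (ZFSet.pair n.1 w.1 ∈ E.1 ∧ (¬ ((Tri TN) n N0 N0)) ∧ ((∃ s : N, (s.1 ∈ w.1 ∧ ((∀ m : N, (∀ y : N, (ZFSet.pair m.1 y.1 ∈ E.1 → (¬ ((Tri TN) m N0 N0) → (y.1 ∈ w.1 → (y = s ∨ y.1 ∈ s.1)))))))))) ∧ ((∀ m : N, (ZFSet.pair m.1 w.1 ∈ E.1 → (n = m ∨ n.1 ∈ m.1))))))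

theorem RpD_dfn (E TN N0 : N) : hN.Dfn (fun v : Fin 1 → N => RpD E TN N0 (v 0)) := by
  unfold RpD
  exact (Dfn.ex (P := fun v w => (ZFSet.pair (v 0).1 w.1 ∈ E.1 ∧ (¬ ((Tri TN) (v 0) N0 N0)) ∧ ((∃ s : N, (s.1 ∈ w.1 ∧ ((∀ m : N, (∀ y : N, (ZFSet.pair m.1 y.1 ∈ E.1 → (¬ ((Tri TN) m N0 N0) → (y.1 ∈ w.1 → (y = s ∨ y.1 ∈ s.1)))))))))) ∧ ((∀ m : N, (ZFSet.pair m.1 w.1 ∈ E.1 → ((v 0) = m ∨ (v 0).1 ∈ m.1))))))
  (Dfn.and (Dfn.pairMem (DT.var _) (DT.var _) (DT.const E))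
  (Dfn.and (Dfn.not (Dfn.subst3 (P := (Tri TN)) (Tri_dfn TN) (DT.var _) (DT.const N0) (DT.const N0)))
  (Dfn.and (Dfn.ex (P := fun v s => (s.1 ∈ (v 1).1 ∧ ((∀ m : N, (∀ y : N, (ZFSet.pair m.1 y.1 ∈ E.1 → (¬ ((Tri TN) m N0 N0) → (y.1 ∈ (v 1).1 → (y = s ∨ y.1 ∈ s.1)))))))))
  (Dfn.and (Dfn.mem (DT.var _) (DT.var _))
  (Dfn.all (P := fun v m => (∀ y : N, (ZFSet.pair m.1 y.1 ∈ E.1 → (¬ ((Tri TN) m N0 N0) → (y.1 ∈ (v 1).1 → (y = (v 2) ∨ y.1 ∈ (v 2).1))))))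
  (Dfn.all (P := fun v y => (ZFSet.pair (v 3).1 y.1 ∈ E.1 → (¬ ((Tri TN) (v 3) N0 N0) → (y.1 ∈ (v 1).1 → (y = (v 2) ∨ y.1 ∈ (v 2).1)))))
  (Dfn.imp (Dfn.pairMem (DT.var _) (DT.var _) (DT.const E))
  (Dfn.imp (Dfn.not (Dfn.subst3 (P := (Tri TN)) (Tri_dfn TN) (DT.var _) (DT.const N0) (DT.const N0)))
  (Dfn.imp (Dfn.mem (DT.var _) (DT.var _))
  (Dfn.or (Dfn.eq (DT.var _) (DT.var _))
  (Dfn.mem (DT.var _) (DT.var _))))))))))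
  (Dfn.all (P := fun v m => (ZFSet.pair m.1 (v 1).1 ∈ E.1 → ((v 0) = m ∨ (v 0).1 ∈ m.1)))
  (Dfn.imp (Dfn.pairMem (DT.var _) (DT.var _) (DT.const E))
  (Dfn.or (Dfn.eq (DT.var _) (DT.var _))
  (Dfn.mem (DT.var _) (DT.var _)))))))))

variable {e : ℕ → Ordinal.{u}} {Nc : Ordinal.{u} → Prop}

include hN in
theorem rpd_iff {E TN N0 n : N} (hE : E.1 = Ss e)
    (hTN : TN.1 = relThreeZ.{u} (fun n a b => ¬ Nc (e n) ∧ a = 0 ∧ b = 0)) (hN0 : N0.1 = natZ 0) :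
    RpD E TN N0 n ↔ ∃ n0, n.1 = natZ n0 ∧ Rp e Nc n0 := by
  have hnc : ∀ (m : N) (m0 : ℕ), m.1 = natZ m0 → (¬ Tri TN m N0 N0 ↔ Nc (e m0)) := by
    intro m m0 hm
    rw [tri_nat (hN := hN) hTN hm hN0 hN0]
    tauto
  have hord : ∀ n, (e n).toZFSet ∈ N := by
    intro n
    have h1 : ZFSet.pair (natZ n) (e n).toZFSet ∈ E.1 := by
      rw [hE]; exact mem_Ss_iff.2 ⟨n, rfl, rfl⟩
    exact (hN.of_pair_mem (hN.mem_of_mem E.2 h1)).2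
  unfold RpD
  constructor
  · rintro ⟨w, h1, h2, ⟨s, h3, h4⟩, h5⟩
    rw [hE] at h1
    obtain ⟨n0, h6, h7⟩ := mem_Ss_iff.1 h1
    refine ⟨n0, h6, (hnc _ _ h6).1 h2, ?_, ?_⟩
    · rw [h7] at h3
      obtain ⟨σ, hσ, h8⟩ := Ordinal.mem_toZFSet_iff.1 h3
      refine ⟨σ, hσ, fun m hm1 hm2 => ?_⟩
      have h9 := h4 ⟨natZ m, hN.natZ_mem_N m⟩ ⟨_, hord m⟩ (by
        rw [hE]; exact mem_Ss_iff.2 ⟨m, rfl, rfl⟩) ((hnc _ m rfl).2 hm1) (by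
        rw [h7]; exact Ordinal.toZFSet_mem_toZFSet_iff.2 hm2)
      rcases h9 with h9 | h9
      · have h9 : (e m).toZFSet = s.1 := congrArg Subtype.val h9
        rw [← h8] at h9
        exact (Ordinal.toZFSet_injective h9).le
      · have h9 : (e m).toZFSet ∈ s.1 := h9
        rw [← h8, Ordinal.toZFSet_mem_toZFSet_iff] at h9
        exact h9.le
    · intro m hm
      have h9 := h5 ⟨natZ m, hN.natZ_mem_N m⟩ (by
        rw [hE]; exact mem_Ss_iff.2 ⟨m, rfl, by rw [h7, hm]⟩)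
      rcases h9 with h9 | h9
      · have h9 : n.1 = natZ m := congrArg Subtype.val h9
        rw [h6, natZ_inj] at h9
        exact h9.le
      · have h9 : n.1 ∈ natZ m := h9
        rw [h6, natZ_mem] at h9
        exact h9.le
  · rintro ⟨n0, hn, h1, ⟨σ, hσ, h2⟩, h3⟩
    have hσN : σ.toZFSet ∈ N :=
      hN.mem_of_mem (hord n0) (Ordinal.toZFSet_mem_toZFSet_iff.2 hσ)
    refine ⟨⟨_, hord n0⟩, ?_, (hnc _ _ hn).2 h1, ⟨⟨_, hσN⟩, ?_, ?_⟩, ?_⟩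
    · rw [hE, hn]; exact mem_Ss_iff.2 ⟨n0, rfl, rfl⟩
    · exact Ordinal.toZFSet_mem_toZFSet_iff.2 hσ
    · intro m v hmv hm hv
      rw [hE] at hmv
      obtain ⟨m0, hm0, hv0⟩ := mem_Ss_iff.1 hmv
      have hv : v.1 ∈ (e n0).toZFSet := hv
      rw [hv0, Ordinal.toZFSet_mem_toZFSet_iff] at hv
      rcases (h2 m0 ((hnc _ _ hm0).1 hm) hv).eq_or_lt with h4 | h4
      · exact Or.inl (Subtype.ext (by rw [hv0, h4]))
      · refine Or.inr ?_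
        show v.1 ∈ σ.toZFSet
        rw [hv0]
        exact Ordinal.toZFSet_mem_toZFSet_iff.2 h4
    · intro m hm
      rw [hE] at hm
      obtain ⟨m0, hm0, hv0⟩ := mem_Ss_iff.1 hm
      have hv0 : (e n0).toZFSet = (e m0).toZFSet := hv0
      rcases (h3 m0 (Ordinal.toZFSet_injective hv0).symm).eq_or_lt with h4 | h4
      · exact Or.inl (Subtype.ext (by rw [hn, hm0, h4]))
      · refine Or.inr ?_
        rw [hn, hm0]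
        exact natZ_mem.2 h4

/-- `i` codes a triple in the table. -/
def CodD (PT CDT : N) (i : N) : Prop := (∃ a : N, (∃ q : N, (∃ c : N, (∃ d : N, ((Tri PT) i a q ∧ (Tri PT) q c d ∧ (Tri CDT) a c d)))))

theorem CodD_dfn (PT CDT : N) : hN.Dfn (fun v : Fin 1 → N => CodD PT CDT (v 0)) := by
  unfold CodD
  exact (Dfn.ex (P := fun v a => (∃ q : N, (∃ c : N, (∃ d : N, ((Tri PT) (v 0) a q ∧ (Tri PT) q c d ∧ (Tri CDT) a c d)))))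
  (Dfn.ex (P := fun v q => (∃ c : N, (∃ d : N, ((Tri PT) (v 0) (v 1) q ∧ (Tri PT) q c d ∧ (Tri CDT) (v 1) c d))))
  (Dfn.ex (P := fun v c => (∃ d : N, ((Tri PT) (v 0) (v 1) (v 2) ∧ (Tri PT) (v 2) c d ∧ (Tri CDT) (v 1) c d)))
  (Dfn.ex (P := fun v d => ((Tri PT) (v 0) (v 1) (v 2) ∧ (Tri PT) (v 2) (v 3) d ∧ (Tri CDT) (v 1) (v 3) d))
  (Dfn.and (Dfn.subst3 (P := (Tri PT)) (Tri_dfn PT) (DT.var _) (DT.var _) (DT.var _))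
  (Dfn.and (Dfn.subst3 (P := (Tri PT)) (Tri_dfn PT) (DT.var _) (DT.var _) (DT.var _))
  (Dfn.subst3 (P := (Tri CDT)) (Tri_dfn CDT) (DT.var _) (DT.var _) (DT.var _))))))))

/-- The code of a closed sequence is in the model. -/
theorem code_mem {N : Set ZFSet.{u}} (hN : CTM N) {f : (ℕ → ℕ) → ℕ → ℕ}
    (hA : AClosed (Am f FR.{u}) N) {a e : ℕ → Ordinal.{u}} {xx : ℕ → ℕ → ℕ} {tt : ℕ → Tm.{u}}
    (hc : Clo N f a e xx tt) :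
    zs (cod (lo e (Nice N f)) (TF e (Nice N f) xx tt)) ∈ N ∧ Ss (sR e (Nice N f)) ∈ N := by
  obtain ⟨E, hE⟩ : ∃ E : N, E.1 = Ss e := ⟨⟨_, hc.te⟩, rfl⟩
  obtain ⟨TN, hTN⟩ : ∃ TN : N, TN.1 =
    relThreeZ.{u} (fun n a b => ¬ Nice N f (e n) ∧ a = 0 ∧ b = 0) := ⟨⟨_, hc.tn⟩, rfl⟩
  obtain ⟨N0, hN0⟩ : ∃ N0 : N, N0.1 = natZ 0 := ⟨⟨natZ 0, hN.natZ_mem_N 0⟩, rfl⟩
  obtain ⟨N1, hN1⟩ : ∃ N1 : N, N1.1 = natZ 1 := ⟨⟨natZ 1, hN.natZ_mem_N 1⟩, rfl⟩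
  obtain ⟨M1, hM1⟩ : ∃ M1 : N, M1.1 = natZ 1 := ⟨⟨natZ 1, hN.natZ_mem_N 1⟩, rfl⟩
  obtain ⟨M2, hM2⟩ : ∃ M2 : N, M2.1 = natZ 2 := ⟨⟨natZ 2, hN.natZ_mem_N 2⟩, rfl⟩
  obtain ⟨M3, hM3⟩ : ∃ M3 : N, M3.1 = natZ 3 := ⟨⟨natZ 3, hN.natZ_mem_N 3⟩, rfl⟩
  obtain ⟨M4, hM4⟩ : ∃ M4 : N, M4.1 = natZ 4 := ⟨⟨natZ 4, hN.natZ_mem_N 4⟩, rfl⟩
  obtain ⟨M5, hM5⟩ : ∃ M5 : N, M5.1 = natZ 5 := ⟨⟨natZ 5, hN.natZ_mem_N 5⟩, rfl⟩
  have hrp : ∀ (m : N) (m0 : ℕ), m.1 = natZ m0 → (RpD E TN N0 m ↔ Rp e (Nice N f) m0) := by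
    intro m m0 hm
    rw [rpd_iff (hN := hN) hE hTN hN0]
    constructor
    · rintro ⟨n0, h1, h2⟩
      rw [hm, natZ_inj] at h1
      rw [h1]; exact h2
    · intro h
      exact ⟨m0, hm, h⟩
  have hEp : ∀ (i : ℕ) (w : ZFSet.{u}), ZFSet.pair (natZ i) w ∈ E.1 ↔ w = (e i).toZFSet := by
    intro i w
    rw [hE]; exact pair_mem_Ss
  have hord : ∀ n, (e n).toZFSet ∈ N := by
    intro n
    exact (hN.of_pair_mem (hN.mem_of_mem E.2 ((hEp n _).2 rfl))).2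
  have heq0 : ∀ (k : ℕ) (X : N) (m : ℕ), X.1 = natZ m →
      ((⟨natZ k, hN.natZ_mem_N k⟩ : N) = X ↔ k = m) := by
    intro k X m hX
    rw [Subtype.ext_iff, hX]; exact natZ_inj
  -- the tables
  have h2 : relThreeZ.{u} (TF.{u} e (Nice N f) xx tt 2) ∈ N := by
    refine rel_of (hN := hN) (P := fun i j k => ((RpD E TN N0) j ∧ ((∃ w : N, (ZFSet.pair i.1 w.1 ∈ E.1 ∧ ZFSet.pair j.1 w.1 ∈ E.1))) ∧ k = N0)) (Dfn.and (Dfn.subst1 (P := (RpD E TN N0)) (RpD_dfn E TN N0) (DT.var _))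
  (Dfn.and (Dfn.ex (P := fun v w => (ZFSet.pair (v 0).1 w.1 ∈ E.1 ∧ ZFSet.pair (v 1).1 w.1 ∈ E.1))
  (Dfn.and (Dfn.pairMem (DT.var _) (DT.var _) (DT.const E))
  (Dfn.pairMem (DT.var _) (DT.var _) (DT.const E))))
  (Dfn.eq (DT.var _) (DT.const N0)))) fun i j k => ?_
    rw [hrp _ j rfl, heq0 k N0 0 hN0]
    show _ ↔ (Rp e (Nice N f) j ∧ e j = e i) ∧ k = 0
    have h1 : (∃ w : N, ZFSet.pair (natZ.{u} i) w.1 ∈ E.1 ∧ ZFSet.pair (natZ.{u} j) w.1 ∈ E.1) ↔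
        e j = e i := by
      constructor
      · rintro ⟨w, h3, h4⟩
        rw [hEp] at h3 h4
        exact Ordinal.toZFSet_injective (h4.symm.trans h3)
      · intro h
        exact ⟨⟨_, hord i⟩, (hEp _ _).2 rfl, (hEp _ _).2 (by rw [h])⟩
    rw [h1, and_assoc]
  have h3 : relThreeZ.{u} (TF.{u} e (Nice N f) xx tt 3) ∈ N := by
    refine rel_of (hN := hN) (P := fun i j k => ((RpD E TN N0) j ∧ ((∃ w : N, (∃ y : N, (ZFSet.pair i.1 w.1 ∈ E.1 ∧ ZFSet.pair j.1 y.1 ∈ E.1 ∧ y.1 ∈ w.1)))) ∧ k = N0)) (Dfn.and (Dfn.subst1 (P := (RpD E TN N0)) (RpD_dfn E TN N0) (DT.var _))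
  (Dfn.and (Dfn.ex (P := fun v w => (∃ y : N, (ZFSet.pair (v 0).1 w.1 ∈ E.1 ∧ ZFSet.pair (v 1).1 y.1 ∈ E.1 ∧ y.1 ∈ w.1)))
  (Dfn.ex (P := fun v y => (ZFSet.pair (v 0).1 (v 3).1 ∈ E.1 ∧ ZFSet.pair (v 1).1 y.1 ∈ E.1 ∧ y.1 ∈ (v 3).1))
  (Dfn.and (Dfn.pairMem (DT.var _) (DT.var _) (DT.const E))
  (Dfn.and (Dfn.pairMem (DT.var _) (DT.var _) (DT.const E))
  (Dfn.mem (DT.var _) (DT.var _))))))
  (Dfn.eq (DT.var _) (DT.const N0)))) fun i j k => ?_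
    rw [hrp _ j rfl, heq0 k N0 0 hN0]
    show _ ↔ (Rp e (Nice N f) j ∧ e j < e i) ∧ k = 0
    have h1 : (∃ w : N, ∃ v : N, ZFSet.pair (natZ.{u} i) w.1 ∈ E.1 ∧
        ZFSet.pair (natZ.{u} j) v.1 ∈ E.1 ∧ v.1 ∈ w.1) ↔ e j < e i := by
      constructor
      · rintro ⟨w, v, h3, h4, h5⟩
        rw [hEp] at h3 h4
        rw [h3, h4, Ordinal.toZFSet_mem_toZFSet_iff] at h5
        exact h5
      · intro h
        exact ⟨⟨_, hord i⟩, ⟨_, hord j⟩, (hEp _ _).2 rfl, (hEp _ _).2 rfl,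
          Ordinal.toZFSet_mem_toZFSet_iff.2 h⟩
    rw [h1, and_assoc]
  have hlo : relThreeZ.{u} (fun i j k => i = 0 ∧ lo e (Nice N f) j k) ∈ N := by
    refine rel_of (hN := hN) (P := fun i j k => (i = N0 ∧ (((((RpD E TN N0) j ∧ (¬ ((RpD E TN N0) k)))) ∨ (((RpD E TN N0) j ∧ (RpD E TN N0) k ∧ ((∃ w : N, (∃ y : N, (ZFSet.pair j.1 w.1 ∈ E.1 ∧ ZFSet.pair k.1 y.1 ∈ E.1 ∧ w.1 ∈ y.1)))))) ∨ (((¬ ((RpD E TN N0) j)) ∧ (¬ ((RpD E TN N0) k)) ∧ j.1 ∈ k.1)))))) (Dfn.and (Dfn.eq (DT.var _) (DT.const N0))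
  (Dfn.or (Dfn.and (Dfn.subst1 (P := (RpD E TN N0)) (RpD_dfn E TN N0) (DT.var _))
  (Dfn.not (Dfn.subst1 (P := (RpD E TN N0)) (RpD_dfn E TN N0) (DT.var _))))
  (Dfn.or (Dfn.and (Dfn.subst1 (P := (RpD E TN N0)) (RpD_dfn E TN N0) (DT.var _))
  (Dfn.and (Dfn.subst1 (P := (RpD E TN N0)) (RpD_dfn E TN N0) (DT.var _))
  (Dfn.ex (P := fun v w => (∃ y : N, (ZFSet.pair (v 1).1 w.1 ∈ E.1 ∧ ZFSet.pair (v 2).1 y.1 ∈ E.1 ∧ w.1 ∈ y.1)))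
  (Dfn.ex (P := fun v y => (ZFSet.pair (v 1).1 (v 3).1 ∈ E.1 ∧ ZFSet.pair (v 2).1 y.1 ∈ E.1 ∧ (v 3).1 ∈ y.1))
  (Dfn.and (Dfn.pairMem (DT.var _) (DT.var _) (DT.const E))
  (Dfn.and (Dfn.pairMem (DT.var _) (DT.var _) (DT.const E))
  (Dfn.mem (DT.var _) (DT.var _))))))))
  (Dfn.and (Dfn.not (Dfn.subst1 (P := (RpD E TN N0)) (RpD_dfn E TN N0) (DT.var _)))
  (Dfn.and (Dfn.not (Dfn.subst1 (P := (RpD E TN N0)) (RpD_dfn E TN N0) (DT.var _)))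
  (Dfn.mem (DT.var _) (DT.var _))))))) fun i j k => ?_
    rw [hrp _ j rfl, hrp _ k rfl, heq0 i N0 0 hN0]
    have h1 : (∃ w : N, ∃ v : N, ZFSet.pair (natZ.{u} j) w.1 ∈ E.1 ∧
        ZFSet.pair (natZ.{u} k) v.1 ∈ E.1 ∧ w.1 ∈ v.1) ↔ e j < e k := by
      constructor
      · rintro ⟨w, v, h3, h4, h5⟩
        rw [hEp] at h3 h4
        rw [h3, h4, Ordinal.toZFSet_mem_toZFSet_iff] at h5
        exact h5
      · intro h
        exact ⟨⟨_, hord j⟩, ⟨_, hord k⟩, (hEp _ _).2 rfl, (hEp _ _).2 rfl,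
          Ordinal.toZFSet_mem_toZFSet_iff.2 h⟩
    have h2 : natZ.{u} j ∈ natZ k ↔ j < k := natZ_mem
    rw [h1, h2]
    rfl
  obtain ⟨LOT, hLOT⟩ : ∃ LOT : N, LOT.1 =
    relThreeZ.{u} (fun i j k => i = 0 ∧ lo e (Nice N f) j k) := ⟨⟨_, hlo⟩, rfl⟩
  obtain ⟨T1, hT1⟩ : ∃ T1 : N, T1.1 = relThreeZ.{u} (TF.{u} e (Nice N f) xx tt 1) :=
    ⟨⟨_, hc.tn⟩, rfl⟩
  obtain ⟨T2, hT2⟩ : ∃ T2 : N, T2.1 = relThreeZ.{u} (TF.{u} e (Nice N f) xx tt 2) := ⟨⟨_, h2⟩, rfl⟩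
  obtain ⟨T3, hT3⟩ : ∃ T3 : N, T3.1 = relThreeZ.{u} (TF.{u} e (Nice N f) xx tt 3) := ⟨⟨_, h3⟩, rfl⟩
  obtain ⟨T4, hT4⟩ : ∃ T4 : N, T4.1 = relThreeZ.{u} (TF.{u} e (Nice N f) xx tt 4) :=
    ⟨⟨_, hc.tl⟩, rfl⟩
  obtain ⟨T5, hT5⟩ : ∃ T5 : N, T5.1 = relThreeZ.{u} (TF.{u} e (Nice N f) xx tt 5) :=
    ⟨⟨_, hc.tc⟩, rfl⟩
  obtain ⟨F7, hF7⟩ : ∃ F7 : N, F7.1 = relThreeZ.{u} (FR.{u} 7) :=
    ⟨⟨_, fr_mem hN hA 7 (by omega)⟩, rfl⟩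
  obtain ⟨F8, hF8⟩ : ∃ F8 : N, F8.1 = relThreeZ.{u} (FR.{u} 8) :=
    ⟨⟨_, fr_mem hN hA 8 (by omega)⟩, rfl⟩
  obtain ⟨PT, hPT⟩ : ∃ PT : N, PT.1 = relThreeZ.{u} (FR.{u} 5) :=
    ⟨⟨_, fr_mem hN hA 5 (by omega)⟩, rfl⟩
  have hcd : relThreeZ.{u} (Cd (lo e (Nice N f)) (TF e (Nice N f) xx tt)) ∈ N := by
    refine rel_of (hN := hN) (P := fun i j k => ((Tri LOT) i j k ∨ (Tri F7) i j k ∨ ((∃ c : N, ((Tri F8) M1 c i ∧ (Tri T1) c j k))) ∨ ((∃ c : N, ((Tri F8) M2 c i ∧ (Tri T2) c j k))) ∨ ((∃ c : N, ((Tri F8) M3 c i ∧ (Tri T3) c j k))) ∨ ((∃ c : N, ((Tri F8) M4 c i ∧ (Tri T4) c j k))) ∨ ((∃ c : N, ((Tri F8) M5 c i ∧ (Tri T5) c j k))))) (Dfn.or (Dfn.subst3 (P := (Tri LOT)) (Tri_dfn LOT) (DT.var _) (DT.var _) (DT.var _))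
  (Dfn.or (Dfn.subst3 (P := (Tri F7)) (Tri_dfn F7) (DT.var _) (DT.var _) (DT.var _))
  (Dfn.or (Dfn.ex (P := fun v c => ((Tri F8) M1 c (v 0) ∧ (Tri T1) c (v 1) (v 2)))
  (Dfn.and (Dfn.subst3 (P := (Tri F8)) (Tri_dfn F8) (DT.const M1) (DT.var _) (DT.var _))
  (Dfn.subst3 (P := (Tri T1)) (Tri_dfn T1) (DT.var _) (DT.var _) (DT.var _))))
  (Dfn.or (Dfn.ex (P := fun v c => ((Tri F8) M2 c (v 0) ∧ (Tri T2) c (v 1) (v 2)))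
  (Dfn.and (Dfn.subst3 (P := (Tri F8)) (Tri_dfn F8) (DT.const M2) (DT.var _) (DT.var _))
  (Dfn.subst3 (P := (Tri T2)) (Tri_dfn T2) (DT.var _) (DT.var _) (DT.var _))))
  (Dfn.or (Dfn.ex (P := fun v c => ((Tri F8) M3 c (v 0) ∧ (Tri T3) c (v 1) (v 2)))
  (Dfn.and (Dfn.subst3 (P := (Tri F8)) (Tri_dfn F8) (DT.const M3) (DT.var _) (DT.var _))
  (Dfn.subst3 (P := (Tri T3)) (Tri_dfn T3) (DT.var _) (DT.var _) (DT.var _))))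
  (Dfn.or (Dfn.ex (P := fun v c => ((Tri F8) M4 c (v 0) ∧ (Tri T4) c (v 1) (v 2)))
  (Dfn.and (Dfn.subst3 (P := (Tri F8)) (Tri_dfn F8) (DT.const M4) (DT.var _) (DT.var _))
  (Dfn.subst3 (P := (Tri T4)) (Tri_dfn T4) (DT.var _) (DT.var _) (DT.var _))))
  (Dfn.ex (P := fun v c => ((Tri F8) M5 c (v 0) ∧ (Tri T5) c (v 1) (v 2)))
  (Dfn.and (Dfn.subst3 (P := (Tri F8)) (Tri_dfn F8) (DT.const M5) (DT.var _) (DT.var _))
  (Dfn.subst3 (P := (Tri T5)) (Tri_dfn T5) (DT.var _) (DT.var _) (DT.var _)))))))))) fun i j k => ?_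
    have hr : ∀ (M T : N) (m : ℕ), M.1 = natZ m →
        T.1 = relThreeZ.{u} (TF.{u} e (Nice N f) xx tt m) →
        ((∃ c : N, Tri F8 M c ⟨natZ i, hN.natZ_mem_N i⟩ ∧
          Tri T c ⟨natZ j, hN.natZ_mem_N j⟩ ⟨natZ k, hN.natZ_mem_N k⟩) ↔
        ∃ c, i = 2 * Nat.pair m c + 2 ∧ TF.{u} e (Nice N f) xx tt m c j k) := by
      intro M T m hM hT
      constructor
      · rintro ⟨c, g1, g2⟩
        obtain ⟨a1, a2, a3, b1, b2, b3, b4⟩ := (tri_iff (hN := hN) hF8).1 g1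
        rw [hM, natZ_inj] at b2
        have b4 : natZ.{u} i = natZ a3 := b4
        rw [natZ_inj] at b4
        have b1 : a3 = 2 * Nat.pair a1 a2 + 2 := b1
        refine ⟨a2, by rw [b4, b1, b2], ?_⟩
        exact (tri_nat (hN := hN) hT b3 rfl rfl).1 g2
      · rintro ⟨c, g1, g2⟩
        refine ⟨⟨natZ c, hN.natZ_mem_N c⟩, ?_, ?_⟩
        · exact (tri_nat (hN := hN) hF8 hM rfl rfl).2 g1
        · exact (tri_nat (hN := hN) hT rfl rfl rfl).2 g2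
    rw [hr M1 T1 1 hM1 hT1, hr M2 T2 2 hM2 hT2, hr M3 T3 3 hM3 hT3, hr M4 T4 4 hM4 hT4,
      hr M5 T5 5 hM5 hT5, tri_nat (hN := hN) hLOT rfl rfl rfl,
      tri_nat (hN := hN) hF7 rfl rfl rfl]
    have hdum : ∀ m, (m = 0 ∨ 6 ≤ m) → TF.{u} (fun _ => 0) (fun _ => True) (fun _ _ => 0)
        (fun _ => (0, [])) m = TF.{u} e (Nice N f) xx tt m := by
      intro m hm
      rcases m with _ | _ | _ | _ | _ | _ | _ | _ | m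
      · rfl
      · omega
      · omega
      · omega
      · omega
      · omega
      · rfl
      · rfl
      · rfl
    show _ ↔ (i = 0 ∧ lo e (Nice N f) j k) ∨
      (∃ m, i = 2 * m + 1 ∧ k = 2 * Nat.pair m j + 2) ∨
      (∃ m c, i = 2 * Nat.pair m c + 2 ∧ TF.{u} e (Nice N f) xx tt m c j k)
    have hF7' : FR.{u} 7 i j k ↔ (∃ m, i = 2 * m + 1 ∧ k = 2 * Nat.pair m j + 2) ∨
      (∃ m c, i = 2 * Nat.pair m c + 2 ∧ (m = 0 ∨ 6 ≤ m) ∧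
        TF.{u} e (Nice N f) xx tt m c j k) := by
      show ((∃ m, i = 2 * m + 1 ∧ k = 2 * Nat.pair m j + 2) ∨
      (∃ m c, i = 2 * Nat.pair m c + 2 ∧ (m = 0 ∨ 6 ≤ m) ∧
        TF.{u} (fun _ => 0) (fun _ => True) (fun _ _ => 0) (fun _ => (0, [])) m c j k)) ↔ _
      refine or_congr Iff.rfl (exists_congr fun m => exists_congr fun c =>
        and_congr_right fun _ => and_congr_right fun hm => ?_)
      rw [hdum m hm]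
    rw [hF7']
    constructor
    · rintro (g | (g | ⟨m, c, g1, _, g2⟩) | ⟨c, g1, g2⟩ | ⟨c, g1, g2⟩ | ⟨c, g1, g2⟩ |
        ⟨c, g1, g2⟩ | ⟨c, g1, g2⟩)
      · exact Or.inl g
      · exact Or.inr (Or.inl g)
      · exact Or.inr (Or.inr ⟨m, c, g1, g2⟩)
      · exact Or.inr (Or.inr ⟨1, c, g1, g2⟩)
      · exact Or.inr (Or.inr ⟨2, c, g1, g2⟩)
      · exact Or.inr (Or.inr ⟨3, c, g1, g2⟩)
      · exact Or.inr (Or.inr ⟨4, c, g1, g2⟩)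
      · exact Or.inr (Or.inr ⟨5, c, g1, g2⟩)
    · rintro (g | g | ⟨m, c, g1, g2⟩)
      · exact Or.inl g
      · exact Or.inr (Or.inl (Or.inl g))
      · have hm : m = 1 ∨ m = 2 ∨ m = 3 ∨ m = 4 ∨ m = 5 ∨ (m = 0 ∨ 6 ≤ m) := by omega
        rcases hm with rfl | rfl | rfl | rfl | rfl | hm
        · exact Or.inr (Or.inr (Or.inl ⟨c, g1, g2⟩))
        · exact Or.inr (Or.inr (Or.inr (Or.inl ⟨c, g1, g2⟩)))
        · exact Or.inr (Or.inr (Or.inr (Or.inr (Or.inl ⟨c, g1, g2⟩))))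
        · exact Or.inr (Or.inr (Or.inr (Or.inr (Or.inr (Or.inl ⟨c, g1, g2⟩)))))
        · exact Or.inr (Or.inr (Or.inr (Or.inr (Or.inr (Or.inr ⟨c, g1, g2⟩)))))
        · exact Or.inr (Or.inl (Or.inr ⟨m, c, g1, hm, g2⟩))
  obtain ⟨CDT, hCDT⟩ : ∃ CDT : N, CDT.1 =
    relThreeZ.{u} (Cd (lo e (Nice N f)) (TF e (Nice N f) xx tt)) := ⟨⟨_, hcd⟩, rfl⟩
  constructor
  · refine zs_of (hN := hN) (P := fun i j => (((j = N1 ∧ (CodD PT CDT) i)) ∨ ((j = N0 ∧ (¬ ((CodD PT CDT) i)))))) (Dfn.or (Dfn.and (Dfn.eq (DT.var _) (DT.const N1))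
  (Dfn.subst1 (P := (CodD PT CDT)) (CodD_dfn PT CDT) (DT.var _)))
  (Dfn.and (Dfn.eq (DT.var _) (DT.const N0))
  (Dfn.not (Dfn.subst1 (P := (CodD PT CDT)) (CodD_dfn PT CDT) (DT.var _))))) fun i j => ?_
    have hin : CodD PT CDT ⟨natZ i, hN.natZ_mem_N i⟩ ↔
        Cd (lo e (Nice N f)) (TF e (Nice N f) xx tt) i.unpair.1 i.unpair.2.unpair.1
          i.unpair.2.unpair.2 := by
      unfold CodD
      constructor
      · rintro ⟨a, q, c, d, g1, g2, g3⟩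
        obtain ⟨a1, a2, a3, b1, b2, b3, b4⟩ := (tri_iff (hN := hN) hPT).1 g1
        obtain ⟨a1', a2', a3', b1', b2', b3', b4'⟩ := (tri_iff (hN := hN) hPT).1 g2
        have b2 : natZ.{u} i = natZ a1 := b2
        rw [natZ_inj] at b2
        rw [b4, natZ_inj] at b2'
        have b1 : a1 = Nat.pair a2 a3 := b1
        have b1' : a1' = Nat.pair a2' a3' := b1'
        have g4 := (tri_nat (hN := hN) hCDT b3 b3' b4').1 g3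
        rw [b2, b1, Nat.unpair_pair, b2', b1', Nat.unpair_pair]
        exact g4
      · intro h
        refine ⟨⟨natZ i.unpair.1, hN.natZ_mem_N _⟩, ⟨natZ i.unpair.2, hN.natZ_mem_N _⟩,
          ⟨natZ i.unpair.2.unpair.1, hN.natZ_mem_N _⟩,
          ⟨natZ i.unpair.2.unpair.2, hN.natZ_mem_N _⟩, ?_, ?_, ?_⟩
        · refine (tri_nat (hN := hN) hPT rfl rfl rfl).2 ?_
          show i = Nat.pair _ _
          rw [Nat.pair_unpair]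
        · refine (tri_nat (hN := hN) hPT rfl rfl rfl).2 ?_
          show i.unpair.2 = Nat.pair _ _
          rw [Nat.pair_unpair]
        · exact (tri_nat (hN := hN) hCDT rfl rfl rfl).2 h
    rw [hin, heq0 j N1 1 hN1, heq0 j N0 0 hN0]
    unfold cod
    by_cases hcd : Cd (lo e (Nice N f)) (TF e (Nice N f) xx tt) i.unpair.1 i.unpair.2.unpair.1
          i.unpair.2.unpair.2
    · simp [hcd, eq_comm]
    · simp [hcd, eq_comm]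
  · obtain ⟨b, hb, hb'⟩ := hN.exists_repl (F := fun i p => ((((RpD E TN N0) i ∧ p.1 ∈ E.1 ∧ ((∃ w : N, p.1 = ZFSet.pair i.1 w.1)))) ∨ (((¬ ((RpD E TN N0) i)) ∧ p.1 = ZFSet.pair i.1 N0.1)))) (Dfn.or (Dfn.and (Dfn.subst1 (P := (RpD E TN N0)) (RpD_dfn E TN N0) (DT.var _))
  (Dfn.and (Dfn.mem (DT.var _) (DT.const E))
  (Dfn.ex (P := fun v w => (v 1).1 = ZFSet.pair (v 0).1 w.1)
  (Dfn.isPair (DT.var _) (DT.var _) (DT.var _)))))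
  (Dfn.and (Dfn.not (Dfn.subst1 (P := (RpD E TN N0)) (RpD_dfn E TN N0) (DT.var _)))
  (Dfn.isPair (DT.var _) (DT.var _) (DT.const N0)))) hN.omZ_mem (by
      intro i hi p p' g g'
      obtain ⟨i0, hi0⟩ := mem_omZ.1 hi
      rcases g with ⟨g1, g2, w, g3⟩ | ⟨g1, g3⟩
      · rcases g' with ⟨_, g2', w', g3'⟩ | ⟨g1', _⟩
        · rw [g3, hi0, hEp] at g2
          rw [g3', hi0, hEp] at g2'
          exact Subtype.ext (by rw [g3, g3', g2, g2'])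
        · exact absurd g1 g1'
      · rcases g' with ⟨g1', _⟩ | ⟨_, g3'⟩
        · exact absurd g1' g1
        · exact Subtype.ext (g3.trans g3'.symm))
    have hz0 : natZ.{u} 0 = (0 : Ordinal.{u}).toZFSet := by
      rw [Ordinal.toZFSet_zero]; rfl
    have : Ss (sR e (Nice N f)) = b := by
      ext z
      rw [Ss, ZFSet.mem_range]
      constructor
      · rintro ⟨i, rfl⟩
        by_cases hi : Rp e (Nice N f) i
        · have hs := sR_of_rp hi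
          have hp : ZFSet.pair (natZ i) (sR e (Nice N f) i).toZFSet ∈ N := by
            rw [hs]; exact hN.pair_mem (hN.natZ_mem_N i) (hord i)
          refine (hb' ⟨_, hp⟩).2 ⟨⟨natZ i, hN.natZ_mem_N i⟩, natZ_mem_omZ i, Or.inl
            ⟨(hrp _ i rfl).2 hi, ?_, ⟨_, hord i⟩, ?_⟩⟩
          · show ZFSet.pair (natZ i) (sR e (Nice N f) i).toZFSet ∈ E.1
            rw [hEp, hs]
          · show ZFSet.pair (natZ i) (sR e (Nice N f) i).toZFSet = _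
            rw [hs]
        · have hs := sR_of_not hi
          have hp : ZFSet.pair (natZ i) (sR e (Nice N f) i).toZFSet ∈ N := by
            rw [hs, ← hz0]; exact hN.pair_mem (hN.natZ_mem_N i) (hN.natZ_mem_N 0)
          refine (hb' ⟨_, hp⟩).2 ⟨⟨natZ i, hN.natZ_mem_N i⟩, natZ_mem_omZ i, Or.inr
            ⟨fun h => hi ((hrp _ i rfl).1 h), ?_⟩⟩
          show ZFSet.pair (natZ i) (sR e (Nice N f) i).toZFSet = _
          rw [hs, hN0, hz0]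
      · intro hz
        obtain ⟨i, hi, g⟩ := (hb' ⟨z, hN.mem_of_mem hb hz⟩).1 hz
        obtain ⟨i0, hi0⟩ := mem_omZ.1 hi
        refine ⟨i0, ?_⟩
        rcases g with ⟨g1, g2, w, g3⟩ | ⟨g1, g3⟩
        · have g3 : z = ZFSet.pair i.1 w.1 := g3
          have g2 : z ∈ E.1 := g2
          rw [g3, hi0, hEp] at g2
          rw [sR_of_rp ((hrp _ i0 hi0).1 g1), g3, hi0, g2]
        · have g3 : z = ZFSet.pair i.1 N0.1 := g3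
          rw [sR_of_not (fun h => g1 ((hrp _ i0 hi0).2 h)), g3, hi0, hN0, hz0]
    rw [this]
    exact hb

end

end Pool.Agent.H17.Omega.T8
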