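import Pool.Agent.H17.T8.Mdl

/-!
# T8: coding of terms by sets, the arithmetical relations on codes
-/

set_option autoImplicit false

universe u v

namespace Pool.Agent.H17.Omega.T8

/-- The type of the `j`-th index of a term with the label `L`. -/
def Ty (L j i : ℕ) : Prop := ((Denumerable.ofNat (ℕ × List ℕ) L).2)[j]? = some i

/-- The number `c` codes a pattern of terms with the labels `L'`, `L`. -/
def Lb (c L' L : ℕ) : Prop := ∃ r' r : Tm.{u}, lb r' = L' ∧ lb r = L ∧ cdL (.mem 0 1) [r', r] = c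

/-- The `i`-th ordinal of the `a`-th term is less than the `j`-th ordinal of the `b`-th term. -/
def Pt (a b : ℕ) (c i j : ℕ) : Prop := ∃ r' r : Tm.{u}, cdL (.mem 0 1) [r', r] = c ∧
  ltAt [os r', os r] (a, i) (b, j)

theorem lb_eq_iff {t t' : Tm.{u}} : lb t = lb t' ↔ t.1 = t'.1 ∧ t.2.map Prod.fst = t'.2.map Prod.fst := by
  unfold lb
  rw [Encodable.encode_inj, Prod.mk.injEq]

theorem ofNat_lb (t : Tm.{u}) : Denumerable.ofNat (ℕ × List ℕ) (lb t) = (t.1, t.2.map Prod.fst) :=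
  Denumerable.ofNat_encode _

theorem exists_lb (L : ℕ) : ∃ (n : ℕ) (l : List ℕ), L = Encodable.encode (n, l) ∧
    ∀ j i, Ty L j i ↔ l[j]? = some i :=
  ⟨_, _, (Denumerable.encode_ofNat (α := ℕ × List ℕ) L).symm, fun _ _ => Iff.rfl⟩

theorem ty_lb {t : Tm.{u}} {j i : ℕ} : Ty (lb t) j i ↔ (t.2.map Prod.fst)[j]? = some i := by
  unfold Ty
  rw [ofNat_lb]

theorem length_os (t : Tm.{u}) : (os t).length = (t.2.map Prod.fst).length := by
  simp [os]

theorem mem_pat {l : List (List Ordinal.{u})} {q : (ℕ × ℕ) × (ℕ × ℕ)} :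
    q ∈ pat l ↔ ltAt l q.1 q.2 := by
  classical
  unfold pat
  rw [Finset.mem_filter]
  refine ⟨fun h => h.2, fun h => ⟨?_, h⟩⟩
  obtain ⟨la, ξ, lb, η, h1, h2, h3, h4, _⟩ := h
  have key : ∀ (p : ℕ × ℕ) (la : List Ordinal.{u}) (ξ : Ordinal.{u}), l[p.1]? = some la →
      la[p.2]? = some ξ → p ∈ posL l := by
    intro p la ξ h1 h2
    unfold posL
    rw [Finset.mem_product, Finset.mem_range, Finset.mem_range]
    obtain ⟨h3, h4⟩ := List.getElem?_eq_some_iff.1 h1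
    obtain ⟨h5, _⟩ := List.getElem?_eq_some_iff.1 h2
    refine ⟨h3, h5.trans_le ?_⟩
    have h6 : la.length ∈ l.map List.length := List.mem_map.2 ⟨la, h4 ▸ List.getElem_mem h3, rfl⟩
    exact List.single_le_sum (fun _ _ => Nat.zero_le _) _ h6
  exact Finset.mem_product.2 ⟨key _ _ _ h1 h2, key _ _ _ h3 h4⟩

theorem cdL_eq_iff {r' r t' t : Tm.{u}} : cdL (.mem 0 1) [r', r] = cdL (.mem 0 1) [t', t] ↔
    (lb r' = lb t' ∧ lb r = lb t) ∧ pat [os r', os r] = pat [os t', os t] := by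
  unfold cdL
  rw [Nat.pair_eq_pair, Encodable.encode_inj, Prod.mk.injEq]
  simp

theorem pt_cdL {a b i j : ℕ} {r' r : Tm.{u}} : Pt.{u} a b (cdL (.mem 0 1) [r', r]) i j ↔
    ltAt [os r', os r] (a, i) (b, j) := by
  constructor
  · rintro ⟨t', t, h1, h2⟩
    have h3 := (cdL_eq_iff.1 h1).2
    have h4 := (mem_pat (l := [os t', os t]) (q := ((a, i), (b, j)))).2 h2
    rw [h3] at h4
    exact mem_pat.1 h4
  · intro h; exact ⟨r', r, rfl, h⟩

theorem ltAt_two {l0 l1 : List Ordinal.{u}} {a b i j : ℕ} : ltAt [l0, l1] (a, i) (b, j) ↔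
    ∃ la ξ lb η, [l0, l1][a]? = some la ∧ la[i]? = some ξ ∧ [l0, l1][b]? = some lb ∧
      lb[j]? = some η ∧ ξ < η := Iff.rfl

/-- The entry at the position `j` of the `a`-th list. -/
def ent (l0 l1 : List Ordinal.{u}) (a j : ℕ) (ξ : Ordinal.{u}) : Prop :=
  ∃ la, [l0, l1][a]? = some la ∧ la[j]? = some ξ

theorem ent_zero {l0 l1 : List Ordinal.{u}} {j : ℕ} {ξ : Ordinal.{u}} :
    ent l0 l1 0 j ξ ↔ l0[j]? = some ξ := by
  unfold ent; simp

theorem ent_one {l0 l1 : List Ordinal.{u}} {j : ℕ} {ξ : Ordinal.{u}} :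
    ent l0 l1 1 j ξ ↔ l1[j]? = some ξ := by
  unfold ent; simp

theorem ent_two {l0 l1 : List Ordinal.{u}} {a j : ℕ} {ξ : Ordinal.{u}} :
    ¬ ent l0 l1 (a + 2) j ξ := by
  unfold ent; simp

theorem ltAt_iff {l0 l1 : List Ordinal.{u}} {a b i j : ℕ} : ltAt [l0, l1] (a, i) (b, j) ↔
    ∃ ξ η, ent l0 l1 a i ξ ∧ ent l0 l1 b j η ∧ ξ < η := by
  rw [ltAt_two]
  constructor
  · rintro ⟨la, ξ, lb, η, h1, h2, h3, h4, h5⟩
    exact ⟨ξ, η, ⟨la, h1, h2⟩, ⟨lb, h3, h4⟩, h5⟩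
  · rintro ⟨ξ, η, ⟨la, h1, h2⟩, ⟨lb, h3, h4⟩, h5⟩
    exact ⟨la, ξ, lb, η, h1, h2, h3, h4, h5⟩

theorem ent_unique {l0 l1 : List Ordinal.{u}} {a j : ℕ} {ξ η : Ordinal.{u}}
    (h : ent l0 l1 a j ξ) (h' : ent l0 l1 a j η) : ξ = η := by
  obtain ⟨la, h1, h2⟩ := h
  obtain ⟨lb, h3, h4⟩ := h'
  rw [h1] at h3
  cases h3
  rw [h2] at h4
  cases h4
  rfl

theorem ent_congr {l0 l1 l0' l1' : List Ordinal.{u}} (h0 : l0.length = l0'.length)
    (h1 : l1.length = l1'.length) {a j : ℕ} {ξ : Ordinal.{u}} (h : ent l0 l1 a j ξ) :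
    ∃ ξ', ent l0' l1' a j ξ' := by
  match a with
  | 0 =>
    rw [ent_zero] at h
    obtain ⟨h2, _⟩ := List.getElem?_eq_some_iff.1 h
    exact ⟨_, ent_zero.2 (List.getElem?_eq_getElem (h0 ▸ h2))⟩
  | 1 =>
    rw [ent_one] at h
    obtain ⟨h2, _⟩ := List.getElem?_eq_some_iff.1 h
    exact ⟨_, ent_one.2 (List.getElem?_eq_getElem (h1 ▸ h2))⟩
  | a + 2 => exact (ent_two h).elim

/-- The membership relation between terms in terms of the relations on codes. -/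
theorem E_iff {x : ℕ → ℕ} {t' t : Tm.{u}} : E x t' t ↔ ∃ c, x c ≠ 0 ∧ Lb.{u} c (lb t') (lb t) ∧
    ∀ a < 2, ∀ b < 2, ∀ i j ξ η, ent (os t') (os t) a i ξ → ent (os t') (os t) b j η →
      (Pt.{u} a b c i j ↔ ξ < η) := by
  constructor
  · intro h
    refine ⟨_, h, ⟨t', t, rfl, rfl, rfl⟩, ?_⟩
    intro a _ b _ i j ξ η h1 h2
    rw [pt_cdL, ltAt_iff]
    constructor
    · rintro ⟨ξ', η', h3, h4, h5⟩
      rw [ent_unique h1 h3, ent_unique h2 h4]; exact h5
    · intro h3; exact ⟨ξ, η, h1, h2, h3⟩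
  · rintro ⟨c, hc, ⟨r', r, h1, h2, rfl⟩, h3⟩
    have e1 : (os r').length = (os t').length := by
      rw [length_os, length_os, (lb_eq_iff.1 h1).2]
    have e2 : (os r).length = (os t).length := by
      rw [length_os, length_os, (lb_eq_iff.1 h2).2]
    have h4 : cdL (.mem 0 1) [r', r] = cdL (.mem 0 1) [t', t] := by
      rw [cdL_eq_iff]
      refine ⟨⟨h1, h2⟩, ?_⟩
      ext ⟨⟨a, i⟩, b, j⟩
      rw [mem_pat, mem_pat]
      show ltAt _ (a, i) (b, j) ↔ ltAt _ (a, i) (b, j)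
      have hlt : ∀ {l0 l1 : List Ordinal.{u}} {a j : ℕ} {ξ}, ent l0 l1 a j ξ → a < 2 := by
        intro l0 l1 a j ξ h
        match a with
        | 0 => omega
        | 1 => omega
        | a + 2 => exact (ent_two h).elim
      constructor
      · intro h5
        obtain ⟨ξ, η, h6, h7, h8⟩ := ltAt_iff.1 h5
        obtain ⟨ξ', h9⟩ := ent_congr e1 e2 h6
        obtain ⟨η', h10⟩ := ent_congr e1 e2 h7
        rw [ltAt_iff]
        exact ⟨ξ', η', h9, h10, (h3 a (hlt h6) b (hlt h7) i j ξ' η' h9 h10).1 (pt_cdL.2 h5)⟩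
      · intro h5
        obtain ⟨ξ, η, h6, h7, h8⟩ := ltAt_iff.1 h5
        exact pt_cdL.1 ((h3 a (hlt h6) b (hlt h7) i j ξ η h6 h7).2 h8)
    show x _ ≠ 0
    rw [← h4]; exact hc

/-- The list of the ordinals of a term as a set. -/
noncomputable def fz (l : List Ordinal.{u}) : ZFSet.{u} :=
  ZFSet.range (fun j : Fin l.length => ZFSet.pair (natZ j) (l.get j).toZFSet)

theorem mem_fz {l : List Ordinal.{u}} {z : ZFSet.{u}} :
    z ∈ fz l ↔ ∃ j ξ, l[j]? = some ξ ∧ z = ZFSet.pair (natZ j) ξ.toZFSet := by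
  rw [fz, ZFSet.mem_range]
  constructor
  · rintro ⟨j, rfl⟩
    exact ⟨j, l.get j, by simp, rfl⟩
  · rintro ⟨j, ξ, h, rfl⟩
    obtain ⟨h1, h2⟩ := List.getElem?_eq_some_iff.1 h
    refine ⟨⟨j, h1⟩, ?_⟩
    simp [h2]

theorem pair_mem_fz {l : List Ordinal.{u}} {j : ℕ} {v : ZFSet.{u}} :
    ZFSet.pair (natZ j) v ∈ fz l ↔ ∃ ξ, l[j]? = some ξ ∧ v = ξ.toZFSet := by
  rw [mem_fz]
  constructor
  · rintro ⟨k, ξ, h1, h2⟩
    rw [ZFSet.pair_inj, natZ_inj] at h2
    obtain ⟨rfl, h2⟩ := h2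
    exact ⟨ξ, h1, h2⟩
  · rintro ⟨ξ, h1, h2⟩; exact ⟨j, ξ, h1, by rw [h2]⟩

theorem fz_inj {l l' : List Ordinal.{u}} (h : fz l = fz l') : l = l' := by
  apply List.ext_getElem?
  intro j
  have key : ∀ {l l' : List Ordinal.{u}}, fz l = fz l' → ∀ ξ, l[j]? = some ξ → l'[j]? = some ξ := by
    intro l l' h ξ h1
    have h2 : ZFSet.pair (natZ j) ξ.toZFSet ∈ fz l := pair_mem_fz.2 ⟨ξ, h1, rfl⟩
    rw [h] at h2
    obtain ⟨ξ', h3, h4⟩ := pair_mem_fz.1 h2
    rw [Ordinal.toZFSet_injective h4]; exact h3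
  apply Option.ext
  intro ξ
  exact ⟨fun h1 => key h ξ h1, fun h1 => key h.symm ξ h1⟩

/-- The code of a term. -/
noncomputable def tc (t : Tm.{u}) : ZFSet.{u} := ZFSet.pair (natZ (lb t)) (fz (os t))

theorem tm_ext {t t' : Tm.{u}} (h1 : lb t = lb t') (h2 : os t = os t') : t = t' := by
  obtain ⟨h3, h4⟩ := lb_eq_iff.1 h1
  refine Prod.ext h3 ?_
  apply List.ext_getElem?
  intro j
  have h5 := congrArg (fun l => l[j]?) h4
  have h6 := congrArg (fun l => l[j]?) h2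
  simp only [os, List.getElem?_map] at h5 h6
  cases ha : t.2[j]? with
  | none =>
    rw [ha] at h5
    simp at h5
    rw [List.getElem?_eq_none h5]
  | some p =>
    cases hb : t'.2[j]? with
    | none => rw [ha, hb] at h5; simp at h5
    | some q =>
      rw [ha, hb] at h5 h6
      simp at h5 h6
      rw [Prod.ext h5 h6]

theorem tc_inj {t t' : Tm.{u}} (h : tc t = tc t') : t = t' := by
  unfold tc at h
  rw [ZFSet.pair_inj, natZ_inj] at h
  exact tm_ext h.1 (fz_inj h.2)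

/-- A term with a given label and given ordinals. -/
theorem exists_tm (L : ℕ) (l : List Ordinal.{u}) (h : ∀ j, (∃ i, Ty L j i) ↔ j < l.length) :
    ∃ t : Tm.{u}, lb t = L ∧ os t = l := by
  obtain ⟨n, ty, rfl, h1⟩ := exists_lb L
  have hlen : ty.length = l.length := by
    have h2 : ∀ j, j < ty.length ↔ j < l.length := by
      intro j
      rw [← h j]
      constructor
      · intro hj; exact ⟨_, (h1 j _).2 (List.getElem?_eq_getElem hj)⟩
      · rintro ⟨i, hi⟩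
        exact (List.getElem?_eq_some_iff.1 ((h1 j i).1 hi)).1
    exact Nat.le_antisymm (le_of_not_gt fun h3 => lt_irrefl _ ((h2 _).1 h3))
      (le_of_not_gt fun h3 => lt_irrefl _ ((h2 _).2 h3))
  refine ⟨(n, ty.zip l), ?_, ?_⟩
  · unfold lb
    simp only
    rw [List.map_fst_zip (by omega)]
  · unfold os
    simp only
    rw [List.map_snd_zip (by omega)]

theorem over_iff {s : ℕ → Ordinal.{u}} {t : Tm.{u}} : Over s t ↔
    ∀ j i, Ty (lb t) j i → ∀ ξ, (os t)[j]? = some ξ → ξ < s i := by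
  constructor
  · intro h j i h1 ξ h2
    rw [ty_lb, List.getElem?_map] at h1
    unfold os at h2
    rw [List.getElem?_map] at h2
    cases hp : t.2[j]? with
    | none => rw [hp] at h1; simp at h1
    | some p =>
      rw [hp] at h1 h2
      simp at h1 h2
      have := h p (List.mem_of_getElem? hp)
      rwa [h1, h2] at this
  · intro h p hp
    obtain ⟨j, hj⟩ := List.getElem?_of_mem hp
    refine h j p.1 ?_ p.2 ?_
    · rw [ty_lb, List.getElem?_map, hj]; rfl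
    · unfold os; rw [List.getElem?_map, hj]; rfl

end Pool.Agent.H17.Omega.T8
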