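import Pool.Agent.H17.T8.Defs

/-!
# T8: the transitive collapse of a structure with a truth predicate
-/

set_option autoImplicit false

universe u v

namespace Pool.Agent.H17.Omega.T8

section coll

variable {α : Type v} [Small.{u} α] {R : α → α → Prop}

/-- Mostowski collapse of a well-founded relation on a small type. -/
noncomputable def coll (wf : WellFounded R) : α → ZFSet.{u} :=
  wf.fix (fun t ih => ZFSet.range (fun s : Shrink.{u} {s : α // R s t} =>
    ih ((equivShrink _).symm s).1 ((equivShrink _).symm s).2))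

theorem coll_def (wf : WellFounded R) (t : α) : coll.{u} wf t =
    ZFSet.range (fun s : Shrink.{u} {s : α // R s t} => coll wf ((equivShrink _).symm s).1) := by
  rw [coll, WellFounded.fix_eq]

theorem mem_coll (wf : WellFounded R) {t : α} {v : ZFSet.{u}} :
    v ∈ coll wf t ↔ ∃ s, R s t ∧ coll wf s = v := by
  rw [coll_def, ZFSet.mem_range]
  constructor
  · rintro ⟨s, hs⟩
    exact ⟨_, ((equivShrink _).symm s).2, hs⟩
  · rintro ⟨s, hs, h⟩
    refine ⟨equivShrink _ ⟨s, hs⟩, ?_⟩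
    rw [← h]
    exact congrArg (fun w : {s : α // R s t} => coll wf w.1)
      ((equivShrink {s : α // R s t}).symm_apply_apply ⟨s, hs⟩)

/-- A truth predicate for a structure. -/
structure HT (R : α → α → Prop) (T : Fml → (ℕ → α) → Prop) : Prop where
  mem : ∀ i j g, T (.mem i j) g ↔ R (g i) (g j)
  eqr : ∀ i j i' j' g g', g i = g' i' → g j = g' j' → T (.eq i j) g → T (.eq i' j') g'
  eqc : ∀ i j g, T (.eq i j) g → (∀ t, R t (g i) ↔ R t (g j)) ∧ (∀ t, R (g i) t ↔ R (g j) t)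
  ext : ∀ i j g, (∀ t, R t (g i) ↔ R t (g j)) → T (.eq i j) g
  bot : ∀ g, ¬ T .bot g
  imp : ∀ φ ψ g, T (.imp φ ψ) g ↔ (T φ g → T ψ g)
  and : ∀ φ ψ g, T (.and φ ψ) g ↔ (T φ g ∧ T ψ g)
  or : ∀ φ ψ g, T (.or φ ψ) g ↔ (T φ g ∨ T ψ g)
  all : ∀ k χ g, T (.all k χ) g ↔ ∀ t, T χ (upd g k t)
  ex : ∀ k χ g, T (.ex k χ) g ↔ ∃ t, T χ (upd g k t)

variable {T : Fml → (ℕ → α) → Prop} (wf : WellFounded R) (h : HT R T)

include h

theorem coll_eq_imp : ∀ s t : α, coll.{u} wf s = coll wf t → ∀ i j g, g i = s → g j = t →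
    T (.eq i j) g := by
  intro s
  induction s using wf.induction with
  | _ s ih =>
    intro t hst i j g hi hj
    apply h.ext
    intro r
    rw [hi, hj]
    constructor
    · intro hr
      have h1 : coll.{u} wf r ∈ coll wf t := by
        rw [← hst]; exact (mem_coll wf).2 ⟨r, hr, rfl⟩
      obtain ⟨r', hr', h2⟩ := (mem_coll wf).1 h1
      have h3 := ih r hr r' h2.symm 0 1 (fun k => if k = 0 then r else r') rfl rfl
      exact ((h.eqc _ _ _ h3).2 t).2 hr'
    · intro hr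
      have h1 : coll.{u} wf r ∈ coll wf s := by
        rw [hst]; exact (mem_coll wf).2 ⟨r, hr, rfl⟩
      obtain ⟨r', hr', h2⟩ := (mem_coll wf).1 h1
      have h3 := ih r' hr' r h2 0 1 (fun k => if k = 0 then r' else r) rfl rfl
      exact ((h.eqc _ _ _ h3).2 s).1 hr'

theorem coll_eq_iff (s t : α) : coll.{u} wf s = coll wf t ↔ ∀ r, R r s ↔ R r t := by
  constructor
  · intro hst
    have := coll_eq_imp wf h s t hst 0 1 (fun k => if k = 0 then s else t) rfl rfl
    exact (h.eqc _ _ _ this).1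
  · intro hst
    ext v
    rw [mem_coll, mem_coll]
    exact exists_congr fun r => and_congr_left fun _ => hst r

theorem coll_mem_iff (s t : α) : coll.{u} wf s ∈ coll wf t ↔ R s t := by
  rw [mem_coll]
  constructor
  · rintro ⟨r, hr, hrs⟩
    have := coll_eq_imp wf h r s hrs 0 1 (fun k => if k = 0 then r else s) rfl rfl
    exact ((h.eqc _ _ _ this).2 t).1 hr
  · intro hr; exact ⟨s, hr, rfl⟩

theorem sat_coll (χ : Fml) : ∀ g : ℕ → α,
    Sat (fun a b : Set.range (coll.{u} wf) => a.1 ∈ b.1) χ (fun k => ⟨coll wf (g k), g k, rfl⟩) ↔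
      T χ g := by
  have hu : ∀ (g : ℕ → α) (k : ℕ) (t : α), upd (fun k => (⟨coll.{u} wf (g k), g k, rfl⟩ :
      Set.range (coll.{u} wf))) k ⟨coll wf t, t, rfl⟩ = fun k' => ⟨coll wf (upd g k t k'), _, rfl⟩ := by
    intro g k t
    funext k'
    simp only [upd]
    split_ifs <;> rfl
  induction χ with
  | mem i j => intro g; rw [h.mem]; exact coll_mem_iff wf h _ _
  | eq i j =>
    intro g
    have h1 : Sat (fun a b : Set.range (coll.{u} wf) => a.1 ∈ b.1) (.eq i j)
      (fun k => ⟨coll wf (g k), g k, rfl⟩) ↔ coll.{u} wf (g i) = coll wf (g j) := by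
      show (_ = _) ↔ _
      exact Subtype.ext_iff
    rw [h1, coll_eq_iff wf h]
    exact ⟨fun h2 => h.ext _ _ _ h2, fun h2 => (h.eqc _ _ _ h2).1⟩
  | bot => intro g; exact ⟨fun h1 => h1.elim, fun h1 => h.bot _ h1⟩
  | imp φ ψ ih1 ih2 => intro g; rw [h.imp]; exact imp_congr (ih1 g) (ih2 g)
  | and φ ψ ih1 ih2 => intro g; rw [h.and]; exact and_congr (ih1 g) (ih2 g)
  | or φ ψ ih1 ih2 => intro g; rw [h.or]; exact or_congr (ih1 g) (ih2 g)
  | all k φ ih =>
    intro g
    rw [h.all]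
    constructor
    · intro h1 t
      have h2 := h1 ⟨coll wf t, t, rfl⟩
      rw [hu] at h2
      exact (ih _).1 h2
    · rintro h1 ⟨_, t, rfl⟩
      show Sat _ φ (upd _ k _)
      rw [hu]
      exact (ih _).2 (h1 t)
  | ex k φ ih =>
    intro g
    rw [h.ex]
    constructor
    · rintro ⟨⟨_, t, rfl⟩, h1⟩
      rw [hu] at h1
      exact ⟨t, (ih _).1 h1⟩
    · rintro ⟨t, h1⟩
      refine ⟨⟨coll wf t, t, rfl⟩, ?_⟩
      show Sat _ φ (upd _ k _)
      rw [hu]
      exact (ih _).2 h1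

omit h in
theorem coll_trans : ∀ x ∈ Set.range (coll.{u} wf), ∀ y ∈ x, y ∈ Set.range (coll.{u} wf) := by
  rintro _ ⟨t, rfl⟩ y hy
  obtain ⟨s, _, hs⟩ := (mem_coll wf).1 hy
  exact ⟨s, hs⟩

theorem models_coll {φ : Fml} (hφ : ∀ g, T φ g) : Models (Set.range (coll.{u} wf)) φ := by
  intro f
  choose g hg using fun k => (f k).2
  have : f = fun k => ⟨coll wf (g k), g k, rfl⟩ := by
    funext k; exact Subtype.ext (hg k).symm
  rw [this]
  exact (sat_coll wf h φ g).2 (hφ g)

/-- A countable well-founded structure that satisfies ZFC collapses to a countable transitive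
model. -/
theorem ctm_coll [Countable α] [Nonempty α] (hz : ∀ ψ, ZFC ψ → ∀ g, T ψ g) :
    CTM (Set.range (coll.{u} wf)) where
  nonempty := Set.range_nonempty _
  countable := Set.countable_range _
  trans := coll_trans wf
  zfc := fun ψ hψ => models_coll wf h (hz ψ hψ)

/-- `Δ₀` predicates. -/
theorem td_coll {n : ℕ} {P : (Fin n → ZFSet.{u}) → Prop} (hP : D0 P) (g : ℕ → α)
    {Q : Prop} (hT : ∀ θ : Fml, Defines θ P → (T θ g ↔ Q)) : P (fun i => coll wf (g i)) ↔ Q := by
  obtain ⟨θ, h1, h2, h3⟩ := hP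
  rw [← hT θ ⟨h1, h2, h3⟩, ← sat_coll wf h, ← h3 (fun k => coll wf (g k))]
  exact (h1.absolute (coll_trans wf) (fun k => ⟨coll.{u} wf (g k), g k, rfl⟩)).symm

end coll

end Pool.Agent.H17.Omega.T8
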