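import Pool.Agent.H17.Omega.Collapse
import Pool.Agent.H17.Omega.CtmN
import Pool.Agent.H17.Omega.D0

/-!
# T8: terms, blueprints (common definitions)

A term is a label together with a finite list of indices `(i, ξ)` (`i` the type, `ξ` an ordinal).
A blueprint is a real `x`; it decides the truth of every formula about terms; the decision only
depends on the labels, the types and the order type of the ordinals.
-/

set_option autoImplicit false

universe u

namespace Pool.Agent.H17.Omega.T8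

/-- Terms: a label and a list of indices (type, ordinal). -/
abbrev Tm : Type (u + 1) := ℕ × List (ℕ × Ordinal.{u})

/-- The label of a term together with the types of its indices. -/
def lb (t : Tm.{u}) : ℕ := Encodable.encode (t.1, t.2.map Prod.fst)

/-- The ordinals of a term. -/
def os (t : Tm.{u}) : List Ordinal.{u} := t.2.map Prod.snd

/-- Comparison of the `j`-th entry of the `a`-th list with the `k`-th entry of the `b`-th list. -/
def ltAt (l : List (List Ordinal.{u})) (p q : ℕ × ℕ) : Prop :=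
  ∃ la ξ lb η, l[p.1]? = some la ∧ la[p.2]? = some ξ ∧ l[q.1]? = some lb ∧ lb[q.2]? = some η ∧ ξ < η

/-- All positions of a list of lists. -/
def posL (l : List (List Ordinal.{u})) : Finset (ℕ × ℕ) :=
  Finset.range l.length ×ˢ Finset.range (l.map List.length).sum

open Classical in
/-- The order pattern of a list of lists of ordinals. -/
noncomputable def pat (l : List (List Ordinal.{u})) : Finset ((ℕ × ℕ) × (ℕ × ℕ)) :=
  (posL l ×ˢ posL l).filter fun q => ltAt l q.1 q.2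

/-- The code of a formula with a list of terms. -/
noncomputable def cdL (χ : Fml) (ts : List Tm.{u}) : ℕ :=
  Nat.pair χ.code (Encodable.encode (ts.map lb, pat (ts.map os)))

/-- The code of a formula with an assignment of terms. -/
noncomputable def cdT (χ : Fml) (g : ℕ → Tm.{u}) : ℕ := cdL χ ((List.range χ.bd).map g)

/-- The truth value of `χ(g)` according to the blueprint `x`. -/
def Tr8 (x : ℕ → ℕ) (χ : Fml) (g : ℕ → Tm.{u}) : Prop := x (cdT χ g) ≠ 0

/-- The membership relation between terms according to the blueprint `x`. -/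
def E (x : ℕ → ℕ) (t t' : Tm.{u}) : Prop := x (cdL (.mem 0 1) [t, t']) ≠ 0

/-- The ordinals of type `i` of the term are less than `s i`. -/
def Over (s : ℕ → Ordinal.{u}) (t : Tm.{u}) : Prop := ∀ p ∈ t.2, p.2 < s p.1

/-- Well-foundedness of the membership relation on the terms over every countable ordinal. -/
def WF (x : ℕ → ℕ) : Prop := ∀ η : Ordinal.{u}, η.card ≤ Cardinal.aleph0 →
  WellFounded fun t' t : Tm.{u} => Over (fun _ => η) t' ∧ Over (fun _ => η) t ∧ E x t' t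

/-- The order of `ℕ` coded by the real `z`. -/
def Lo (z : ℕ → ℕ) (i j : ℕ) : Prop := z (Nat.pair 0 (Nat.pair i j)) ≠ 0

/-- `z` codes a well-order of `ℕ`. -/
def WOr (z : ℕ → ℕ) : Prop := IsWellOrder ℕ (Lo z)

/-- The ternary relation on `ℕ` coded by the real `z`. -/
def Tern (z : ℕ → ℕ) (i j k : ℕ) : Prop := z (Nat.pair i (Nat.pair j k)) ≠ 0

/-- A `Δ₀` formula that defines the predicate `P`. -/
def Defines (θ : Fml) {n : ℕ} (P : (Fin n → ZFSet.{u}) → Prop) : Prop :=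
  θ.Delta0 ∧ (∀ k, θ.Free k → k < n) ∧
    ∀ f : ℕ → ZFSet.{u}, Sat (fun a b : ZFSet.{u} => a ∈ b) θ f ↔ P (fun i => f i)

/-- The truth value of the `Δ₀` predicate `P` for the terms `g` is `Q`. -/
def TD (T : Fml → (ℕ → Tm.{u}) → Prop) {n : ℕ} (P : (Fin n → ZFSet.{u}) → Prop) (g : ℕ → Tm.{u})
    (Q : Prop) : Prop := ∀ θ : Fml, Defines θ P → (T θ g ↔ Q)

/-- Assignment with the first few values given by a list. -/
def as (l : List Tm.{u}) : ℕ → Tm.{u} := fun k => l.getD k (0, [])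

/-- A truth predicate for the structure of all terms. -/
structure Truth (x : ℕ → ℕ) (T : Fml → (ℕ → Tm.{u}) → Prop) : Prop where
  mem : ∀ i j g, T (.mem i j) g ↔ E x (g i) (g j)
  eqr : ∀ i j i' j' g g', g i = g' i' → g j = g' j' → T (.eq i j) g → T (.eq i' j') g'
  eqc : ∀ i j g, T (.eq i j) g →
    (∀ t, E x t (g i) ↔ E x t (g j)) ∧ (∀ t, E x (g i) t ↔ E x (g j) t)
  bot : ∀ g, ¬ T .bot g
  imp : ∀ φ ψ g, T (.imp φ ψ) g ↔ (T φ g → T ψ g)
  and : ∀ φ ψ g, T (.and φ ψ) g ↔ (T φ g ∧ T ψ g)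
  or : ∀ φ ψ g, T (.or φ ψ) g ↔ (T φ g ∨ T ψ g)
  all_imp : ∀ k χ g t, T (.all k χ) g → T χ (upd g k t)
  all_of : ∀ k χ g, (∀ t : Tm.{u}, (∀ p ∈ t.2, ∃ i, p ∈ (g i).2) → T χ (upd g k t)) →
    T (.all k χ) g
  ex_imp : ∀ k χ g, T (.ex k χ) g → ∃ t : Tm.{u}, (∀ p ∈ t.2, ∃ i, p ∈ (g i).2) ∧ T χ (upd g k t)
  ex_of : ∀ k χ g t, T χ (upd g k t) → T (.ex k χ) g
  zfc : ∀ ψ, ZFC ψ → ∀ g, T ψ g

/-- `x` is a blueprint for `z` (and the sentence `φ`). Terms: `tz` (its value is the ternary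
relation coded by `z`), `tK` (its value is the function `i ↦ k i`), `nn n` (the natural number
`n`), `kk i` (the length of the `i`-th block), `cc i ξ` (the indiscernible with the index
`(i, ξ)`). -/
structure BP (φ : Fml) (z x : ℕ → ℕ) (T : Fml → (ℕ → Tm.{u}) → Prop) (tz tK : Tm.{u})
    (nn kk : ℕ → Tm.{u}) (cc : ℕ → Ordinal.{u} → Tm.{u}) : Prop where
  truth : Truth x T
  phi : ∀ g, T φ g
  tz_nil : tz.2 = []
  tK_nil : tK.2 = []
  nn_nil : ∀ n, (nn n).2 = []
  kk_nil : ∀ i, (kk i).2 = []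
  cc_one : ∀ i ξ, (cc i ξ).2 = [(i, ξ)]
  /-- the term `nn n` denotes the natural number `n` -/
  nn_val : ∀ n, TD T (fun v : Fin 1 → ZFSet.{u} => v 0 = natZ n) (as [nn n]) True
  /-- `(i, (j, k)) ∈ tz` -/
  tz_mem : ∀ i j k, TD T (fun v : Fin 4 → ZFSet.{u} =>
    ZFSet.pair (v 0) (ZFSet.pair (v 1) (v 2)) ∈ v 3) (as [nn i, nn j, nn k, tz]) (Tern z i j k)
  /-- all elements of `tz` are triples of natural numbers -/
  tz_sub : TD T (fun v : Fin 1 → ZFSet.{u} => ∀ p ∈ v 0, ∃ i j k : ℕ,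
    p = ZFSet.pair (natZ i) (ZFSet.pair (natZ j) (natZ k))) (as [tz]) True
  /-- `(i, k i) ∈ tK` -/
  tK_mem : ∀ i, TD T (fun v : Fin 3 → ZFSet.{u} => ZFSet.pair (v 0) (v 1) ∈ v 2)
    (as [nn i, kk i, tK]) True
  /-- `tK` is single-valued -/
  tK_fun : TD T (fun v : Fin 1 → ZFSet.{u} => ∀ i a b : ZFSet.{u},
    ZFSet.pair i a ∈ v 0 → ZFSet.pair i b ∈ v 0 → a = b) (as [tK]) True
  /-- the `k i` are ordinals -/
  kk_ord : ∀ i, TD T (fun v : Fin 1 → ZFSet.{u} => (v 0).IsOrdinal) (as [kk i]) True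
  cc_mem : ∀ i ξ, E x (cc i ξ) (kk i)
  cc_lt : ∀ i ξ ξ', ξ < ξ' → E x (cc i ξ) (cc i ξ')
  /-- (P2) -/
  bdd : ∀ i ξ (t : Tm.{u}), E x t (kk i) → (∀ p ∈ t.2, p.1 = i → p.2 < ξ) → E x t (cc i ξ)
  /-- (P3) -/
  red : ∀ i ξ (t : Tm.{u}), E x t (cc i ξ) → ∃ t' : Tm.{u},
    (∀ p ∈ t'.2, p ∈ t.2 ∧ (Lo z p.1 i ∨ (p.1 = i ∧ p.2 < ξ))) ∧ ∀ r, E x r t ↔ E x r t'

/-- The predicate used by parts B and C: `x` is a blueprint for `z`. -/
def Bp (φ : Fml) (z x : ℕ → ℕ) : Prop :=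
  ∃ (T : Fml → (ℕ → Tm.{u}) → Prop) (tz tK : Tm.{u}) (nn kk : ℕ → Tm.{u})
    (cc : ℕ → Ordinal.{u} → Tm.{u}), BP φ z x T tz tK nn kk cc

end Pool.Agent.H17.Omega.T8
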