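import Pool.Agent.H17.T8.Code
import Pool.Agent.H17.Omega.MForce

/-!
# T8: the models of a blueprint inside a countable transitive model (1)
-/

set_option autoImplicit false
set_option linter.unusedVariables false
set_option linter.unusedSectionVars false
set_option linter.unusedSimpArgs false
set_option linter.deprecated false

universe u v

namespace Pool.Agent.H17.Omega.T8

open CTM

variable {N : Set ZFSet.{u}} {hN : CTM N}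

/-- `y` codes a term over `S`. -/
def IsTd (TY S y : N) : Prop := (∃ L : N, (∃ f : N, (y.1 = ZFSet.pair L.1 f.1 ∧ L.1 ∈ omZ ∧ ((∀ j : N, (∀ i : N, (∀ e : N, (e.1 = ZFSet.pair j.1 i.1 → (ZFSet.pair L.1 e.1 ∈ TY.1 → (∃ w : N, (∃ ξ : N, (ZFSet.pair i.1 w.1 ∈ S.1 ∧ ξ.1 ∈ w.1 ∧ ξ.1.IsOrdinal ∧ ZFSet.pair j.1 ξ.1 ∈ f.1))))))))) ∧ ((∀ p : N, (p.1 ∈ f.1 → (∃ j : N, (∃ ξ : N, (∃ i : N, (∃ e : N, (p.1 = ZFSet.pair j.1 ξ.1 ∧ e.1 = ZFSet.pair j.1 i.1 ∧ ZFSet.pair L.1 e.1 ∈ TY.1)))))))) ∧ ((∀ j : N, (∀ ξ : N, (∀ η : N, (ZFSet.pair j.1 ξ.1 ∈ f.1 → (ZFSet.pair j.1 η.1 ∈ f.1 → ξ = η)))))))))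

theorem IsTd_dfn (TY : N) : hN.Dfn (fun v : Fin 2 → N => IsTd TY (v 0) (v 1)) := by
  unfold IsTd
  exact (Dfn.ex (P := fun v L => (∃ f : N, ((v 1).1 = ZFSet.pair L.1 f.1 ∧ L.1 ∈ omZ ∧ ((∀ j : N, (∀ i : N, (∀ e : N, (e.1 = ZFSet.pair j.1 i.1 → (ZFSet.pair L.1 e.1 ∈ TY.1 → (∃ w : N, (∃ ξ : N, (ZFSet.pair i.1 w.1 ∈ (v 0).1 ∧ ξ.1 ∈ w.1 ∧ ξ.1.IsOrdinal ∧ ZFSet.pair j.1 ξ.1 ∈ f.1))))))))) ∧ ((∀ p : N, (p.1 ∈ f.1 → (∃ j : N, (∃ ξ : N, (∃ i : N, (∃ e : N, (p.1 = ZFSet.pair j.1 ξ.1 ∧ e.1 = ZFSet.pair j.1 i.1 ∧ ZFSet.pair L.1 e.1 ∈ TY.1)))))))) ∧ ((∀ j : N, (∀ ξ : N, (∀ η : N, (ZFSet.pair j.1 ξ.1 ∈ f.1 → (ZFSet.pair j.1 η.1 ∈ f.1 → ξ = η)))))))))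
  (Dfn.ex (P := fun v f => ((v 1).1 = ZFSet.pair (v 2).1 f.1 ∧ (v 2).1 ∈ omZ ∧ ((∀ j : N, (∀ i : N, (∀ e : N, (e.1 = ZFSet.pair j.1 i.1 → (ZFSet.pair (v 2).1 e.1 ∈ TY.1 → (∃ w : N, (∃ ξ : N, (ZFSet.pair i.1 w.1 ∈ (v 0).1 ∧ ξ.1 ∈ w.1 ∧ ξ.1.IsOrdinal ∧ ZFSet.pair j.1 ξ.1 ∈ f.1))))))))) ∧ ((∀ p : N, (p.1 ∈ f.1 → (∃ j : N, (∃ ξ : N, (∃ i : N, (∃ e : N, (p.1 = ZFSet.pair j.1 ξ.1 ∧ e.1 = ZFSet.pair j.1 i.1 ∧ ZFSet.pair (v 2).1 e.1 ∈ TY.1)))))))) ∧ ((∀ j : N, (∀ ξ : N, (∀ η : N, (ZFSet.pair j.1 ξ.1 ∈ f.1 → (ZFSet.pair j.1 η.1 ∈ f.1 → ξ = η))))))))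
  (Dfn.and (Dfn.isPair (DT.var _) (DT.var _) (DT.var _))
  (Dfn.and (Dfn.mem (DT.var _) (DT.const ⟨omZ, hN.omZ_mem⟩))
  (Dfn.and (Dfn.all (P := fun v j => (∀ i : N, (∀ e : N, (e.1 = ZFSet.pair j.1 i.1 → (ZFSet.pair (v 2).1 e.1 ∈ TY.1 → (∃ w : N, (∃ ξ : N, (ZFSet.pair i.1 w.1 ∈ (v 0).1 ∧ ξ.1 ∈ w.1 ∧ ξ.1.IsOrdinal ∧ ZFSet.pair j.1 ξ.1 ∈ (v 3).1))))))))
  (Dfn.all (P := fun v i => (∀ e : N, (e.1 = ZFSet.pair (v 4).1 i.1 → (ZFSet.pair (v 2).1 e.1 ∈ TY.1 → (∃ w : N, (∃ ξ : N, (ZFSet.pair i.1 w.1 ∈ (v 0).1 ∧ ξ.1 ∈ w.1 ∧ ξ.1.IsOrdinal ∧ ZFSet.pair (v 4).1 ξ.1 ∈ (v 3).1)))))))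
  (Dfn.all (P := fun v e => (e.1 = ZFSet.pair (v 4).1 (v 5).1 → (ZFSet.pair (v 2).1 e.1 ∈ TY.1 → (∃ w : N, (∃ ξ : N, (ZFSet.pair (v 5).1 w.1 ∈ (v 0).1 ∧ ξ.1 ∈ w.1 ∧ ξ.1.IsOrdinal ∧ ZFSet.pair (v 4).1 ξ.1 ∈ (v 3).1))))))
  (Dfn.imp (Dfn.isPair (DT.var _) (DT.var _) (DT.var _))
  (Dfn.imp (Dfn.pairMem (DT.var _) (DT.var _) (DT.const TY))
  (Dfn.ex (P := fun v w => (∃ ξ : N, (ZFSet.pair (v 5).1 w.1 ∈ (v 0).1 ∧ ξ.1 ∈ w.1 ∧ ξ.1.IsOrdinal ∧ ZFSet.pair (v 4).1 ξ.1 ∈ (v 3).1)))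
  (Dfn.ex (P := fun v ξ => (ZFSet.pair (v 5).1 (v 7).1 ∈ (v 0).1 ∧ ξ.1 ∈ (v 7).1 ∧ ξ.1.IsOrdinal ∧ ZFSet.pair (v 4).1 ξ.1 ∈ (v 3).1))
  (Dfn.and (Dfn.pairMem (DT.var _) (DT.var _) (DT.var _))
  (Dfn.and (Dfn.mem (DT.var _) (DT.var _))
  (Dfn.and (Dfn.isOrd (DT.var _))
  (Dfn.pairMem (DT.var _) (DT.var _) (DT.var _))))))))))))
  (Dfn.and (Dfn.all (P := fun v p => (p.1 ∈ (v 3).1 → (∃ j : N, (∃ ξ : N, (∃ i : N, (∃ e : N, (p.1 = ZFSet.pair j.1 ξ.1 ∧ e.1 = ZFSet.pair j.1 i.1 ∧ ZFSet.pair (v 2).1 e.1 ∈ TY.1)))))))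
  (Dfn.imp (Dfn.mem (DT.var _) (DT.var _))
  (Dfn.ex (P := fun v j => (∃ ξ : N, (∃ i : N, (∃ e : N, ((v 4).1 = ZFSet.pair j.1 ξ.1 ∧ e.1 = ZFSet.pair j.1 i.1 ∧ ZFSet.pair (v 2).1 e.1 ∈ TY.1)))))
  (Dfn.ex (P := fun v ξ => (∃ i : N, (∃ e : N, ((v 4).1 = ZFSet.pair (v 5).1 ξ.1 ∧ e.1 = ZFSet.pair (v 5).1 i.1 ∧ ZFSet.pair (v 2).1 e.1 ∈ TY.1))))
  (Dfn.ex (P := fun v i => (∃ e : N, ((v 4).1 = ZFSet.pair (v 5).1 (v 6).1 ∧ e.1 = ZFSet.pair (v 5).1 i.1 ∧ ZFSet.pair (v 2).1 e.1 ∈ TY.1)))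
  (Dfn.ex (P := fun v e => ((v 4).1 = ZFSet.pair (v 5).1 (v 6).1 ∧ e.1 = ZFSet.pair (v 5).1 (v 7).1 ∧ ZFSet.pair (v 2).1 e.1 ∈ TY.1))
  (Dfn.and (Dfn.isPair (DT.var _) (DT.var _) (DT.var _))
  (Dfn.and (Dfn.isPair (DT.var _) (DT.var _) (DT.var _))
  (Dfn.pairMem (DT.var _) (DT.var _) (DT.const TY))))))))))
  (Dfn.all (P := fun v j => (∀ ξ : N, (∀ η : N, (ZFSet.pair j.1 ξ.1 ∈ (v 3).1 → (ZFSet.pair j.1 η.1 ∈ (v 3).1 → ξ = η)))))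
  (Dfn.all (P := fun v ξ => (∀ η : N, (ZFSet.pair (v 4).1 ξ.1 ∈ (v 3).1 → (ZFSet.pair (v 4).1 η.1 ∈ (v 3).1 → ξ = η))))
  (Dfn.all (P := fun v η => (ZFSet.pair (v 4).1 (v 5).1 ∈ (v 3).1 → (ZFSet.pair (v 4).1 η.1 ∈ (v 3).1 → (v 5) = η)))
  (Dfn.imp (Dfn.pairMem (DT.var _) (DT.var _) (DT.var _))
  (Dfn.imp (Dfn.pairMem (DT.var _) (DT.var _) (DT.var _))
  (Dfn.eq (DT.var _) (DT.var _)))))))))))))

/-- The pattern `P` is correct. -/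
def Pm (P c f g : N) : Prop := (∀ i : N, (∀ j : N, (∀ a : N, (∀ b : N, (∀ e : N, (e.1 = ZFSet.pair i.1 j.1 → (ZFSet.pair i.1 a.1 ∈ f.1 → (ZFSet.pair j.1 b.1 ∈ g.1 → (ZFSet.pair c.1 e.1 ∈ P.1 ↔ a.1 ∈ b.1)))))))))

theorem Pm_dfn (P : N) : hN.Dfn (fun v : Fin 3 → N => Pm P (v 0) (v 1) (v 2)) := by
  unfold Pm
  exact (Dfn.all (P := fun v i => (∀ j : N, (∀ a : N, (∀ b : N, (∀ e : N, (e.1 = ZFSet.pair i.1 j.1 → (ZFSet.pair i.1 a.1 ∈ (v 1).1 → (ZFSet.pair j.1 b.1 ∈ (v 2).1 → (ZFSet.pair (v 0).1 e.1 ∈ P.1 ↔ a.1 ∈ b.1)))))))))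
  (Dfn.all (P := fun v j => (∀ a : N, (∀ b : N, (∀ e : N, (e.1 = ZFSet.pair (v 3).1 j.1 → (ZFSet.pair (v 3).1 a.1 ∈ (v 1).1 → (ZFSet.pair j.1 b.1 ∈ (v 2).1 → (ZFSet.pair (v 0).1 e.1 ∈ P.1 ↔ a.1 ∈ b.1))))))))
  (Dfn.all (P := fun v a => (∀ b : N, (∀ e : N, (e.1 = ZFSet.pair (v 3).1 (v 4).1 → (ZFSet.pair (v 3).1 a.1 ∈ (v 1).1 → (ZFSet.pair (v 4).1 b.1 ∈ (v 2).1 → (ZFSet.pair (v 0).1 e.1 ∈ P.1 ↔ a.1 ∈ b.1)))))))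
  (Dfn.all (P := fun v b => (∀ e : N, (e.1 = ZFSet.pair (v 3).1 (v 4).1 → (ZFSet.pair (v 3).1 (v 5).1 ∈ (v 1).1 → (ZFSet.pair (v 4).1 b.1 ∈ (v 2).1 → (ZFSet.pair (v 0).1 e.1 ∈ P.1 ↔ (v 5).1 ∈ b.1))))))
  (Dfn.all (P := fun v e => (e.1 = ZFSet.pair (v 3).1 (v 4).1 → (ZFSet.pair (v 3).1 (v 5).1 ∈ (v 1).1 → (ZFSet.pair (v 4).1 (v 6).1 ∈ (v 2).1 → (ZFSet.pair (v 0).1 e.1 ∈ P.1 ↔ (v 5).1 ∈ (v 6).1)))))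
  (Dfn.imp (Dfn.isPair (DT.var _) (DT.var _) (DT.var _))
  (Dfn.imp (Dfn.pairMem (DT.var _) (DT.var _) (DT.var _))
  (Dfn.imp (Dfn.pairMem (DT.var _) (DT.var _) (DT.var _))
  (Dfn.iff (Dfn.pairMem (DT.var _) (DT.var _) (DT.const P))
  (Dfn.mem (DT.var _) (DT.var _)))))))))))

/-- The membership relation on codes. -/
def EWd (P1 P2 P3 P4 P5 Y y x : N) : Prop := (∃ L' : N, (∃ f' : N, (∃ L : N, (∃ f : N, (∃ c : N, (∃ e : N, (y.1 = ZFSet.pair L'.1 f'.1 ∧ x.1 = ZFSet.pair L.1 f.1 ∧ c.1 ∈ Y.1 ∧ e.1 = ZFSet.pair L'.1 L.1 ∧ ZFSet.pair c.1 e.1 ∈ P1.1 ∧ (Pm P2) c f' f' ∧ (Pm P3) c f' f ∧ (Pm P4) c f f' ∧ (Pm P5) c f f)))))))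

theorem EWd_dfn (P1 P2 P3 P4 P5 : N) : hN.Dfn (fun v : Fin 3 → N => EWd P1 P2 P3 P4 P5 (v 0) (v 1) (v 2)) := by
  unfold EWd
  exact (Dfn.ex (P := fun v L' => (∃ f' : N, (∃ L : N, (∃ f : N, (∃ c : N, (∃ e : N, ((v 1).1 = ZFSet.pair L'.1 f'.1 ∧ (v 2).1 = ZFSet.pair L.1 f.1 ∧ c.1 ∈ (v 0).1 ∧ e.1 = ZFSet.pair L'.1 L.1 ∧ ZFSet.pair c.1 e.1 ∈ P1.1 ∧ (Pm P2) c f' f' ∧ (Pm P3) c f' f ∧ (Pm P4) c f f' ∧ (Pm P5) c f f)))))))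
  (Dfn.ex (P := fun v f' => (∃ L : N, (∃ f : N, (∃ c : N, (∃ e : N, ((v 1).1 = ZFSet.pair (v 3).1 f'.1 ∧ (v 2).1 = ZFSet.pair L.1 f.1 ∧ c.1 ∈ (v 0).1 ∧ e.1 = ZFSet.pair (v 3).1 L.1 ∧ ZFSet.pair c.1 e.1 ∈ P1.1 ∧ (Pm P2) c f' f' ∧ (Pm P3) c f' f ∧ (Pm P4) c f f' ∧ (Pm P5) c f f))))))
  (Dfn.ex (P := fun v L => (∃ f : N, (∃ c : N, (∃ e : N, ((v 1).1 = ZFSet.pair (v 3).1 (v 4).1 ∧ (v 2).1 = ZFSet.pair L.1 f.1 ∧ c.1 ∈ (v 0).1 ∧ e.1 = ZFSet.pair (v 3).1 L.1 ∧ ZFSet.pair c.1 e.1 ∈ P1.1 ∧ (Pm P2) c (v 4) (v 4) ∧ (Pm P3) c (v 4) f ∧ (Pm P4) c f (v 4) ∧ (Pm P5) c f f)))))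
  (Dfn.ex (P := fun v f => (∃ c : N, (∃ e : N, ((v 1).1 = ZFSet.pair (v 3).1 (v 4).1 ∧ (v 2).1 = ZFSet.pair (v 5).1 f.1 ∧ c.1 ∈ (v 0).1 ∧ e.1 = ZFSet.pair (v 3).1 (v 5).1 ∧ ZFSet.pair c.1 e.1 ∈ P1.1 ∧ (Pm P2) c (v 4) (v 4) ∧ (Pm P3) c (v 4) f ∧ (Pm P4) c f (v 4) ∧ (Pm P5) c f f))))
  (Dfn.ex (P := fun v c => (∃ e : N, ((v 1).1 = ZFSet.pair (v 3).1 (v 4).1 ∧ (v 2).1 = ZFSet.pair (v 5).1 (v 6).1 ∧ c.1 ∈ (v 0).1 ∧ e.1 = ZFSet.pair (v 3).1 (v 5).1 ∧ ZFSet.pair c.1 e.1 ∈ P1.1 ∧ (Pm P2) c (v 4) (v 4) ∧ (Pm P3) c (v 4) (v 6) ∧ (Pm P4) c (v 6) (v 4) ∧ (Pm P5) c (v 6) (v 6))))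
  (Dfn.ex (P := fun v e => ((v 1).1 = ZFSet.pair (v 3).1 (v 4).1 ∧ (v 2).1 = ZFSet.pair (v 5).1 (v 6).1 ∧ (v 7).1 ∈ (v 0).1 ∧ e.1 = ZFSet.pair (v 3).1 (v 5).1 ∧ ZFSet.pair (v 7).1 e.1 ∈ P1.1 ∧ (Pm P2) (v 7) (v 4) (v 4) ∧ (Pm P3) (v 7) (v 4) (v 6) ∧ (Pm P4) (v 7) (v 6) (v 4) ∧ (Pm P5) (v 7) (v 6) (v 6)))
  (Dfn.and (Dfn.isPair (DT.var _) (DT.var _) (DT.var _))
  (Dfn.and (Dfn.isPair (DT.var _) (DT.var _) (DT.var _))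
  (Dfn.and (Dfn.mem (DT.var _) (DT.var _))
  (Dfn.and (Dfn.isPair (DT.var _) (DT.var _) (DT.var _))
  (Dfn.and (Dfn.pairMem (DT.var _) (DT.var _) (DT.const P1))
  (Dfn.and (Dfn.subst3 (P := (Pm P2)) (Pm_dfn P2) (DT.var _) (DT.var _) (DT.var _))
  (Dfn.and (Dfn.subst3 (P := (Pm P3)) (Pm_dfn P3) (DT.var _) (DT.var _) (DT.var _))
  (Dfn.and (Dfn.subst3 (P := (Pm P4)) (Pm_dfn P4) (DT.var _) (DT.var _) (DT.var _))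
  (Dfn.subst3 (P := (Pm P5)) (Pm_dfn P5) (DT.var _) (DT.var _) (DT.var _))))))))))))))))

/-- The membership relation for all blueprints in `C`. -/
def RR (TY P1 P2 P3 P4 P5 C p q : N) : Prop := (∃ Y : N, (∃ S : N, (∃ y : N, (∃ x : N, (∃ r : N, (∃ r' : N, (r.1 = ZFSet.pair S.1 y.1 ∧ p.1 = ZFSet.pair Y.1 r.1 ∧ r'.1 = ZFSet.pair S.1 x.1 ∧ q.1 = ZFSet.pair Y.1 r'.1 ∧ Y.1 ∈ C.1 ∧ (IsTd TY) S y ∧ (EWd P1 P2 P3 P4 P5) Y y x)))))))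

theorem RR_dfn (TY P1 P2 P3 P4 P5 C : N) : hN.Dfn (fun v : Fin 2 → N => RR TY P1 P2 P3 P4 P5 C (v 0) (v 1)) := by
  unfold RR
  exact (Dfn.ex (P := fun v Y => (∃ S : N, (∃ y : N, (∃ x : N, (∃ r : N, (∃ r' : N, (r.1 = ZFSet.pair S.1 y.1 ∧ (v 0).1 = ZFSet.pair Y.1 r.1 ∧ r'.1 = ZFSet.pair S.1 x.1 ∧ (v 1).1 = ZFSet.pair Y.1 r'.1 ∧ Y.1 ∈ C.1 ∧ (IsTd TY) S y ∧ (EWd P1 P2 P3 P4 P5) Y y x)))))))
  (Dfn.ex (P := fun v S => (∃ y : N, (∃ x : N, (∃ r : N, (∃ r' : N, (r.1 = ZFSet.pair S.1 y.1 ∧ (v 0).1 = ZFSet.pair (v 2).1 r.1 ∧ r'.1 = ZFSet.pair S.1 x.1 ∧ (v 1).1 = ZFSet.pair (v 2).1 r'.1 ∧ (v 2).1 ∈ C.1 ∧ (IsTd TY) S y ∧ (EWd P1 P2 P3 P4 P5) (v 2) y x))))))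
  (Dfn.ex (P := fun v y => (∃ x : N, (∃ r : N, (∃ r' : N, (r.1 = ZFSet.pair (v 3).1 y.1 ∧ (v 0).1 = ZFSet.pair (v 2).1 r.1 ∧ r'.1 = ZFSet.pair (v 3).1 x.1 ∧ (v 1).1 = ZFSet.pair (v 2).1 r'.1 ∧ (v 2).1 ∈ C.1 ∧ (IsTd TY) (v 3) y ∧ (EWd P1 P2 P3 P4 P5) (v 2) y x)))))
  (Dfn.ex (P := fun v x => (∃ r : N, (∃ r' : N, (r.1 = ZFSet.pair (v 3).1 (v 4).1 ∧ (v 0).1 = ZFSet.pair (v 2).1 r.1 ∧ r'.1 = ZFSet.pair (v 3).1 x.1 ∧ (v 1).1 = ZFSet.pair (v 2).1 r'.1 ∧ (v 2).1 ∈ C.1 ∧ (IsTd TY) (v 3) (v 4) ∧ (EWd P1 P2 P3 P4 P5) (v 2) (v 4) x))))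
  (Dfn.ex (P := fun v r => (∃ r' : N, (r.1 = ZFSet.pair (v 3).1 (v 4).1 ∧ (v 0).1 = ZFSet.pair (v 2).1 r.1 ∧ r'.1 = ZFSet.pair (v 3).1 (v 5).1 ∧ (v 1).1 = ZFSet.pair (v 2).1 r'.1 ∧ (v 2).1 ∈ C.1 ∧ (IsTd TY) (v 3) (v 4) ∧ (EWd P1 P2 P3 P4 P5) (v 2) (v 4) (v 5))))
  (Dfn.ex (P := fun v r' => ((v 6).1 = ZFSet.pair (v 3).1 (v 4).1 ∧ (v 0).1 = ZFSet.pair (v 2).1 (v 6).1 ∧ r'.1 = ZFSet.pair (v 3).1 (v 5).1 ∧ (v 1).1 = ZFSet.pair (v 2).1 r'.1 ∧ (v 2).1 ∈ C.1 ∧ (IsTd TY) (v 3) (v 4) ∧ (EWd P1 P2 P3 P4 P5) (v 2) (v 4) (v 5)))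
  (Dfn.and (Dfn.isPair (DT.var _) (DT.var _) (DT.var _))
  (Dfn.and (Dfn.isPair (DT.var _) (DT.var _) (DT.var _))
  (Dfn.and (Dfn.isPair (DT.var _) (DT.var _) (DT.var _))
  (Dfn.and (Dfn.isPair (DT.var _) (DT.var _) (DT.var _))
  (Dfn.and (Dfn.mem (DT.var _) (DT.const C))
  (Dfn.and (Dfn.subst2 (P := (IsTd TY)) (IsTd_dfn TY) (DT.var _) (DT.var _))
  (Dfn.subst3 (P := (EWd P1 P2 P3 P4 P5)) (EWd_dfn P1 P2 P3 P4 P5) (DT.var _) (DT.var _) (DT.var _))))))))))))))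

theorem GG_dfn' (TY P1 P2 P3 P4 P5 C : N) : hN.Dfn (fun v : Fin 3 → N => (∀ z : N, (z.1 ∈ (v 2).1 ↔ (∃ p : N, ((RR TY P1 P2 P3 P4 P5 C) p (v 0) ∧ ZFSet.pair p.1 z.1 ∈ (v 1).1))))) :=
  (Dfn.all (P := fun v z => (z.1 ∈ (v 2).1 ↔ (∃ p : N, ((RR TY P1 P2 P3 P4 P5 C) p (v 0) ∧ ZFSet.pair p.1 z.1 ∈ (v 1).1))))
  (Dfn.iff (Dfn.mem (DT.var _) (DT.var _))
  (Dfn.ex (P := fun v p => ((RR TY P1 P2 P3 P4 P5 C) p (v 0) ∧ ZFSet.pair p.1 (v 3).1 ∈ (v 1).1))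
  (Dfn.and (Dfn.subst2 (P := (RR TY P1 P2 P3 P4 P5 C)) (RR_dfn TY P1 P2 P3 P4 P5 C) (DT.var _) (DT.var _))
  (Dfn.pairMem (DT.var _) (DT.var _) (DT.var _))))))


/-! ## Semantics -/

theorem pair_relThreeZ {T : ℕ → ℕ → ℕ → Prop} {c e : ZFSet.{u}} (h : ZFSet.pair c e ∈ relThreeZ T) :
    ∃ k i j, T k i j ∧ c = natZ k ∧ e = ZFSet.pair (natZ i) (natZ j) := by
  obtain ⟨k, i, j, h1, h2⟩ := mem_relThreeZ.1 h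
  rw [ZFSet.pair_inj] at h2
  exact ⟨k, i, j, h1, h2.1, h2.2⟩

include hN in
theorem fz_mem : ∀ l : List Ordinal.{u}, (∀ ξ ∈ l, ξ.toZFSet ∈ N) → fz l ∈ N := by
  intro l
  induction l using List.reverseRecOn with
  | nil =>
    intro _
    have : fz ([] : List Ordinal.{u}) = ∅ := by
      rw [ZFSet.eq_empty]
      intro z hz
      obtain ⟨j, ξ, h, _⟩ := mem_fz.1 hz
      simp at h
    rw [this]; exact hN.empty_mem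
  | append_singleton l a ih =>
    intro h
    have h1 : fz (l ++ [a]) = insert (ZFSet.pair (natZ l.length) a.toZFSet) (fz l) := by
      ext z
      rw [ZFSet.mem_insert_iff, mem_fz, mem_fz]
      constructor
      · rintro ⟨j, ξ, h2, rfl⟩
        rcases lt_trichotomy j l.length with h3 | h3 | h3
        · rw [List.getElem?_append_left h3] at h2
          exact Or.inr ⟨j, ξ, h2, rfl⟩
        · subst h3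
          rw [List.getElem?_append_right le_rfl] at h2
          simp at h2
          exact Or.inl (by rw [h2])
        · rw [List.getElem?_eq_none (by simp; omega)] at h2
          simp at h2
      · rintro (rfl | ⟨j, ξ, h2, rfl⟩)
        · exact ⟨l.length, a, by simp, rfl⟩
        · refine ⟨j, ξ, ?_, rfl⟩
          rw [List.getElem?_append_left (List.getElem?_eq_some_iff.1 h2).1]
          exact h2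
    rw [h1]
    exact hN.insert_mem (hN.pair_mem (hN.natZ_mem_N _) (h a (by simp)))
      (ih fun ξ hξ => h ξ (by simp [hξ]))

include hN in
theorem tc_mem {t : Tm.{u}} (h : ∀ ξ ∈ os t, ξ.toZFSet ∈ N) : tc t ∈ N :=
  hN.pair_mem (hN.natZ_mem_N _) (fz_mem (hN := hN) _ h)

include hN in
theorem os_mem_of_tc {t : Tm.{u}} (h : tc t ∈ N) : ∀ ξ ∈ os t, ξ.toZFSet ∈ N := by
  intro ξ hξ
  obtain ⟨j, hj⟩ := List.getElem?_of_mem hξ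
  have h1 := (hN.of_pair_mem h).2
  have h2 : ZFSet.pair (natZ j) ξ.toZFSet ∈ fz (os t) := pair_mem_fz.2 ⟨ξ, hj, rfl⟩
  exact (hN.of_pair_mem (hN.mem_of_mem h1 h2)).2

include hN in
theorem isTd_iff {TY : N} (hTY : TY.1 = relThreeZ Ty) {S y : N} : IsTd TY S y ↔
    ∃ t : Tm.{u}, y.1 = tc t ∧ ∀ j i ξ, Ty (lb t) j i → (os t)[j]? = some ξ →
      ∃ w, ZFSet.pair (natZ i) w ∈ S.1 ∧ ξ.toZFSet ∈ w := by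
  unfold IsTd
  constructor
  · rintro ⟨L, f, hy, hL, h1, h2, h3⟩
    obtain ⟨L0, hL0⟩ := mem_omZ.1 hL
    obtain ⟨n, ty, hnt, hty⟩ := exists_lb L0
    have h4 : ∀ j : Fin ty.length, ∃ ξ : Ordinal.{u}, ZFSet.pair (natZ j) ξ.toZFSet ∈ f.1 ∧
        ∀ i, Ty L0 j i → ∃ w, ZFSet.pair (natZ i) w ∈ S.1 ∧ ξ.toZFSet ∈ w := by
      intro j
      have h5 : Ty L0 j (ty.get j) := (hty _ _).2 (by simp)
      obtain ⟨w, ξ, h6, h7, h8, h9⟩ := h1 ⟨natZ j, hN.natZ_mem_N _⟩ ⟨natZ (ty.get j), hN.natZ_mem_N _⟩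
        ⟨_, hN.pair_mem (hN.natZ_mem_N j) (hN.natZ_mem_N (ty.get j))⟩ rfl (by
          rw [hTY, hL0]; exact pair_mem_relThreeZ.2 h5)
      refine ⟨ξ.1.rank, ?_, ?_⟩
      · rw [h8.toZFSet_rank_eq]; exact h9
      · intro i hi
        have h10 : i = ty.get j := by
          have h11 := (hty _ _).1 hi
          rw [List.getElem?_eq_getElem j.2] at h11
          simpa using (Option.some_injective _ h11).symm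
        rw [h10, h8.toZFSet_rank_eq]
        exact ⟨w.1, h6, h7⟩
    choose o ho1 ho2 using h4
    have hl : ∀ j ξ, (List.ofFn o)[j]? = some ξ ↔ ∃ h : j < ty.length, ξ = o ⟨j, h⟩ := by
      intro j ξ
      rw [List.getElem?_ofFn]
      split_ifs with hj
      · simp [hj, eq_comm]
      · simp [hj]
    obtain ⟨t, ht1, ht2⟩ := exists_tm L0 (List.ofFn o) (by
      intro j
      rw [List.length_ofFn]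
      constructor
      · rintro ⟨i, hi⟩; exact (List.getElem?_eq_some_iff.1 ((hty j i).1 hi)).1
      · intro hj; exact ⟨_, (hty j _).2 (List.getElem?_eq_getElem hj)⟩)
    refine ⟨t, ?_, ?_⟩
    · rw [hy, tc, ht1, ht2, hL0]
      congr 1
      ext z
      rw [mem_fz]
      constructor
      · intro hz
        obtain ⟨j, ξ, i, e, h5, h6, h7⟩ := h2 ⟨z, hN.mem_of_mem f.2 hz⟩ hz
        rw [hTY, hL0] at h7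
        obtain ⟨_, j0, i0, h8, h9, h10⟩ := pair_relThreeZ h7
        rw [natZ_inj] at h9
        subst h9
        rw [h6, ZFSet.pair_inj] at h10
        have hj0 : j0 < ty.length := (List.getElem?_eq_some_iff.1 ((hty j0 i0).1 h8)).1
        have h5' : z = ZFSet.pair j.1 ξ.1 := h5
        have hzj : ZFSet.pair j.1 ξ.1 ∈ f.1 := h5' ▸ hz
        have hoN : (o ⟨j0, hj0⟩).toZFSet ∈ N :=
          (hN.of_pair_mem (hN.mem_of_mem f.2 (ho1 ⟨j0, hj0⟩))).2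
        have h11 := h3 j ξ ⟨_, hoN⟩ hzj (by rw [h10.1]; exact ho1 ⟨j0, hj0⟩)
        refine ⟨j0, o ⟨j0, hj0⟩, (hl _ _).2 ⟨hj0, rfl⟩, ?_⟩
        rw [h5', h10.1, h11]
      · rintro ⟨j, ξ, h5, rfl⟩
        obtain ⟨hj, rfl⟩ := (hl _ _).1 h5
        exact ho1 ⟨j, hj⟩
    · intro j i ξ h5 h6
      rw [ht1] at h5
      rw [ht2] at h6
      obtain ⟨hj, rfl⟩ := (hl _ _).1 h6
      exact ho2 ⟨j, hj⟩ i h5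
  · rintro ⟨t, hy, h1⟩
    have hyN : tc t ∈ N := by rw [← hy]; exact y.2
    refine ⟨⟨natZ (lb t), hN.natZ_mem_N _⟩, ⟨fz (os t), (hN.of_pair_mem hyN).2⟩, hy,
      natZ_mem_omZ _, ?_, ?_, ?_⟩
    · intro j i e he h2
      rw [hTY] at h2
      obtain ⟨L0, j0, i0, h3, h4, h5⟩ := pair_relThreeZ h2
      have h4' : natZ.{u} (lb t) = natZ L0 := h4
      rw [natZ_inj] at h4'
      subst h4'
      rw [he, ZFSet.pair_inj] at h5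
      have hj0 : j0 < (os t).length := by
        rw [length_os]
        exact (List.getElem?_eq_some_iff.1 (ty_lb.1 h3)).1
      obtain ⟨w, h6, h7⟩ := h1 j0 i0 _ h3 (List.getElem?_eq_getElem hj0)
      have hwN : w ∈ N := (hN.of_pair_mem (hN.mem_of_mem S.2 h6)).2
      refine ⟨⟨w, hwN⟩, ⟨_, hN.mem_of_mem hwN h7⟩, by rw [h5.2]; exact h6, h7,
        ZFSet.isOrdinal_toZFSet _, ?_⟩
      rw [h5.1]
      exact pair_mem_fz.2 ⟨_, List.getElem?_eq_getElem hj0, rfl⟩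
    · intro p hp
      obtain ⟨j, ξ, h2, h3⟩ := mem_fz.1 hp
      have hj : j < (t.2.map Prod.fst).length := by
        rw [← length_os]
        exact (List.getElem?_eq_some_iff.1 h2).1
      have hξN : ξ.toZFSet ∈ N := by
        have := p.2
        rw [h3] at this
        exact (hN.of_pair_mem this).2
      refine ⟨⟨natZ j, hN.natZ_mem_N _⟩, ⟨_, hξN⟩, ⟨natZ _, hN.natZ_mem_N _⟩,
        ⟨_, hN.pair_mem (hN.natZ_mem_N j) (hN.natZ_mem_N ((t.2.map Prod.fst)[j]))⟩, h3, rfl, ?_⟩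
      rw [hTY]
      exact pair_mem_relThreeZ.2 (ty_lb.2 (List.getElem?_eq_getElem hj))
    · intro j ξ η h2 h3
      obtain ⟨j0, ξ0, h4, h5⟩ := mem_fz.1 h2
      obtain ⟨j1, ξ1, h6, h7⟩ := mem_fz.1 h3
      rw [ZFSet.pair_inj] at h5 h7
      have : j0 = j1 := natZ_inj.1 (h5.1.symm.trans h7.1)
      subst this
      rw [h4] at h6
      cases h6
      exact Subtype.ext (h5.2.trans h7.2.symm)

/-- The set of the natural numbers `c` with `x c ≠ 0`. -/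
noncomputable def Ys (x : ℕ → ℕ) : ZFSet.{u} := ZFSet.sep (fun z => ∃ c, x c ≠ 0 ∧ z = natZ c) omZ

theorem mem_Ys {x : ℕ → ℕ} {z : ZFSet.{u}} : z ∈ Ys x ↔ ∃ c, x c ≠ 0 ∧ z = natZ c := by
  unfold Ys
  rw [ZFSet.mem_sep]
  refine ⟨fun h => h.2, fun h => ⟨?_, h⟩⟩
  obtain ⟨c, _, rfl⟩ := h
  exact natZ_mem_omZ c

/-- The sequence `s` as a set. -/
noncomputable def Ss (s : ℕ → Ordinal.{u}) : ZFSet.{u} :=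
  ZFSet.range (fun i : ℕ => ZFSet.pair (natZ i) (s i).toZFSet)

theorem pair_mem_Ss {s : ℕ → Ordinal.{u}} {i : ℕ} {w : ZFSet.{u}} :
    ZFSet.pair (natZ i) w ∈ Ss s ↔ w = (s i).toZFSet := by
  rw [Ss, ZFSet.mem_range]
  constructor
  · rintro ⟨j, h⟩
    rw [ZFSet.pair_inj, natZ_inj] at h
    rw [← h.2, h.1]
  · rintro rfl; exact ⟨i, rfl⟩

include hN in
theorem isTd_iff_over {TY : N} (hTY : TY.1 = relThreeZ Ty) {S y : N} {s : ℕ → Ordinal.{u}}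
    (hS : S.1 = Ss s) : IsTd TY S y ↔ ∃ t : Tm.{u}, y.1 = tc t ∧ Over s t := by
  rw [isTd_iff (hN := hN) hTY]
  refine exists_congr fun t => and_congr_right fun _ => ?_
  rw [over_iff]
  constructor
  · intro h j i h1 ξ h2
    obtain ⟨w, h3, h4⟩ := h j i ξ h1 h2
    rw [hS, pair_mem_Ss] at h3
    rw [h3, Ordinal.toZFSet_mem_toZFSet_iff] at h4
    exact h4
  · intro h j i ξ h1 h2
    exact ⟨_, by rw [hS, pair_mem_Ss], Ordinal.toZFSet_mem_toZFSet_iff.2 (h j i h1 ξ h2)⟩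

include hN in
theorem pm_iff {P c f g : N} {Q : ℕ → ℕ → ℕ → Prop} (hP : P.1 = relThreeZ Q) {c0 : ℕ}
    (hc : c.1 = natZ c0) {l l' : List Ordinal.{u}} (hf : f.1 = fz l) (hg : g.1 = fz l') :
    Pm P c f g ↔ ∀ i j ξ η, l[i]? = some ξ → l'[j]? = some η → (Q c0 i j ↔ ξ < η) := by
  unfold Pm
  constructor
  · intro h i j ξ η h1 h2
    have h3 : ZFSet.pair (natZ i) ξ.toZFSet ∈ f.1 := by rw [hf]; exact pair_mem_fz.2 ⟨ξ, h1, rfl⟩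
    have h4 : ZFSet.pair (natZ j) η.toZFSet ∈ g.1 := by rw [hg]; exact pair_mem_fz.2 ⟨η, h2, rfl⟩
    have h5 := hN.of_pair_mem (hN.mem_of_mem f.2 h3)
    have h6 := hN.of_pair_mem (hN.mem_of_mem g.2 h4)
    have h7 := h ⟨_, h5.1⟩ ⟨_, h6.1⟩ ⟨_, h5.2⟩ ⟨_, h6.2⟩ ⟨_, hN.pair_mem h5.1 h6.1⟩ rfl h3 h4
    rw [hP, hc] at h7
    simp only at h7
    rw [pair_mem_relThreeZ, Ordinal.toZFSet_mem_toZFSet_iff] at h7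
    exact h7
  · intro h i j a b e he h1 h2
    rw [hf] at h1
    rw [hg] at h2
    obtain ⟨i0, ξ, h3, h4⟩ := mem_fz.1 h1
    obtain ⟨j0, η, h5, h6⟩ := mem_fz.1 h2
    rw [ZFSet.pair_inj] at h4 h6
    rw [he, hP, hc, h4.1, h4.2, h6.1, h6.2, pair_mem_relThreeZ, Ordinal.toZFSet_mem_toZFSet_iff]
    exact h i0 j0 ξ η h3 h5

/-- The arithmetical relations on codes. -/
def QR : ℕ → ℕ → ℕ → ℕ → Prop
  | 0 => Ty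
  | 1 => Lb.{u}
  | 2 => Pt.{u} 0 0
  | 3 => Pt.{u} 0 1
  | 4 => Pt.{u} 1 0
  | _ => Pt.{u} 1 1

/-- The model contains the arithmetical relations on codes. -/
def HasQ (N : Set ZFSet.{u}) : Prop := ∀ m, relThreeZ.{u} (QR.{u} m) ∈ N

include hN in
theorem ewd_iff (hQ : HasQ N) {Y y x : N} {x0 : ℕ → ℕ} (hY : Y.1 = Ys x0) {t' t : Tm.{u}}
    (hy : y.1 = tc t') (hx : x.1 = tc t) :
    EWd ⟨_, hQ 1⟩ ⟨_, hQ 2⟩ ⟨_, hQ 3⟩ ⟨_, hQ 4⟩ ⟨_, hQ 5⟩ Y y x ↔ E x0 t' t := by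
  have hyN : tc t' ∈ N := by rw [← hy]; exact y.2
  have hxN : tc t ∈ N := by rw [← hx]; exact x.2
  have key : ∀ c0 : ℕ, ((∀ a < 2, ∀ b < 2, ∀ i j ξ η, ent (os t') (os t) a i ξ →
      ent (os t') (os t) b j η → (Pt.{u} a b c0 i j ↔ ξ < η)) ↔
      ((∀ i j ξ η, (os t')[i]? = some ξ → (os t')[j]? = some η → (Pt.{u} 0 0 c0 i j ↔ ξ < η)) ∧
      (∀ i j ξ η, (os t')[i]? = some ξ → (os t)[j]? = some η → (Pt.{u} 0 1 c0 i j ↔ ξ < η)) ∧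
      (∀ i j ξ η, (os t)[i]? = some ξ → (os t')[j]? = some η → (Pt.{u} 1 0 c0 i j ↔ ξ < η)) ∧
      (∀ i j ξ η, (os t)[i]? = some ξ → (os t)[j]? = some η → (Pt.{u} 1 1 c0 i j ↔ ξ < η)))) := by
    intro c0
    constructor
    · intro h
      exact ⟨fun i j ξ η h1 h2 => h 0 (by omega) 0 (by omega) i j ξ η (ent_zero.2 h1) (ent_zero.2 h2),
        fun i j ξ η h1 h2 => h 0 (by omega) 1 (by omega) i j ξ η (ent_zero.2 h1) (ent_one.2 h2),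
        fun i j ξ η h1 h2 => h 1 (by omega) 0 (by omega) i j ξ η (ent_one.2 h1) (ent_zero.2 h2),
        fun i j ξ η h1 h2 => h 1 (by omega) 1 (by omega) i j ξ η (ent_one.2 h1) (ent_one.2 h2)⟩
    · rintro ⟨h0, h1, h2, h3⟩ a ha b hb i j ξ η h4 h5
      have ha' : a = 0 ∨ a = 1 := by omega
      have hb' : b = 0 ∨ b = 1 := by omega
      rcases ha' with rfl | rfl <;> rcases hb' with rfl | rfl
      · exact h0 i j ξ η (ent_zero.1 h4) (ent_zero.1 h5)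
      · exact h1 i j ξ η (ent_zero.1 h4) (ent_one.1 h5)
      · exact h2 i j ξ η (ent_one.1 h4) (ent_zero.1 h5)
      · exact h3 i j ξ η (ent_one.1 h4) (ent_one.1 h5)
  rw [E_iff]
  unfold EWd
  constructor
  · rintro ⟨L', f', L, f, c, e, h1, h2, h3, h4, h5, h6, h7, h8, h9⟩
    rw [hY, mem_Ys] at h3
    obtain ⟨c0, hc0, hc⟩ := h3
    rw [hy, tc, ZFSet.pair_inj] at h1
    rw [hx, tc, ZFSet.pair_inj] at h2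
    refine ⟨c0, hc0, ?_, (key c0).2 ⟨?_, ?_, ?_, ?_⟩⟩
    · rw [hc, h4, ← h1.1, ← h2.1] at h5
      exact pair_mem_relThreeZ.1 h5
    · exact (pm_iff (hN := hN) (Q := Pt.{u} 0 0) rfl hc h1.2.symm h1.2.symm).1 h6
    · exact (pm_iff (hN := hN) (Q := Pt.{u} 0 1) rfl hc h1.2.symm h2.2.symm).1 h7
    · exact (pm_iff (hN := hN) (Q := Pt.{u} 1 0) rfl hc h2.2.symm h1.2.symm).1 h8
    · exact (pm_iff (hN := hN) (Q := Pt.{u} 1 1) rfl hc h2.2.symm h2.2.symm).1 h9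
  · rintro ⟨c0, hc0, h1, h2⟩
    obtain ⟨h3, h4, h5, h6⟩ := (key c0).1 h2
    refine ⟨⟨natZ (lb t'), hN.natZ_mem_N _⟩, ⟨fz (os t'), (hN.of_pair_mem hyN).2⟩,
      ⟨natZ (lb t), hN.natZ_mem_N _⟩, ⟨fz (os t), (hN.of_pair_mem hxN).2⟩,
      ⟨natZ c0, hN.natZ_mem_N _⟩, ⟨_, hN.pair_mem (hN.natZ_mem_N (lb t')) (hN.natZ_mem_N (lb t))⟩,
      hy, hx, by rw [hY, mem_Ys]; exact ⟨c0, hc0, rfl⟩, rfl, pair_mem_relThreeZ.2 h1, ?_, ?_, ?_, ?_⟩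
    · exact (pm_iff (hN := hN) (Q := Pt.{u} 0 0) rfl rfl rfl rfl).2 h3
    · exact (pm_iff (hN := hN) (Q := Pt.{u} 0 1) rfl rfl rfl rfl).2 h4
    · exact (pm_iff (hN := hN) (Q := Pt.{u} 1 0) rfl rfl rfl rfl).2 h5
    · exact (pm_iff (hN := hN) (Q := Pt.{u} 1 1) rfl rfl rfl rfl).2 h6

end Pool.Agent.H17.Omega.T8
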