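import Pool.Agent.H17.T8.CloB
import Pool.Agent.H17.T8.CloC
import Pool.Agent.H17.T8.Amal

/-!
# T8: from the function that chooses the blueprints to the theorem

Written by helper82 (statement and plan by helper17).
-/

set_option autoImplicit false
set_option linter.unusedVariables false
set_option linter.unusedSectionVars false

universe u v

namespace Pool.Agent.H17.Omega.T8

section

variable {N : Set ZFSet.{u}} (hN : CTM N) {f : (ℕ → ℕ) → ℕ → ℕ}

include hN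

theorem ss_mem {s : ℕ → Ordinal.{u}} (hs : Ss s ∈ N) (i : ℕ) : (s i).toZFSet ∈ N :=
  (hN.of_pair_mem (hN.mem_of_mem hs (pair_mem_Ss.2 rfl : ZFSet.pair (natZ i) _ ∈ Ss s))).2

variable (hA : AClosed (Am f FR.{u}) N)

include hA

theorem hasQ_of_closed : HasQ N := fun m => fr_mem hN hA (m + 9) (by omega)

/-- The models given by blueprints of `N` are contained in `N`. -/
theorem NN_sub (hf : ∀ b, WOr b → WF.{u} (f b)) {b : ℕ → ℕ} (hb : zs b ∈ N) (hw : WOr b)
    {s : ℕ → Ordinal.{u}} (hs : Ss s ∈ N) : NN (f b) s ⊆ N := by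
  have hQ := hasQ_of_closed hN hA
  obtain ⟨S, SC3, PR0, N0, N1, N2, hT⟩ := exists_tabs hN hA
    (fr_mem hN hA 4 (by omega)) (fr_mem hN hA 6 (by omega))
  obtain ⟨C, hC⟩ := exists_C (hN := hN) hT
  obtain ⟨F, hF, hF'⟩ := exists_valF hN hQ (C := C) (fun Y hY => by
    obtain ⟨b', _, h2, h3⟩ := (hC Y).1 hY
    exact ⟨f b', hf b' h2, h3⟩)
  have hY : Ys (f b) ∈ C.1 := (hC _).2 ⟨b, hb, hw, rfl⟩
  rintro v ⟨t, ht, rfl⟩
  have ht' : tc t ∈ N := by
    refine tc_mem (hN := hN) fun ξ hξ => ?_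
    obtain ⟨p, hp, rfl⟩ := List.mem_map.1 hξ
    exact hN.toZFSet_mem_of_le (ht p hp).le (ss_mem hN hs _)
  have hq : ZFSet.pair (Ys (f b)) (ZFSet.pair (Ss s) (tc t)) ∈ N :=
    hN.pair_mem (hN.mem_of_mem C.2 hY) (hN.pair_mem hs ht')
  rw [← valF_eq hQ hF' (hf b hw) hY hN (ss_mem hN hs) t ht ⟨_, hq⟩ rfl]
  exact (F _).2

/-- Witnesses for sequences of ordinals. -/
theorem exists_witness_seq {ψ : Fml} (hψ : ψ.Delta0) (hfree : ∀ n, ψ.Free n → n = 0 ∨ n = 1)
    (hf : ∀ z, WOr z → Bp.{u} (piTwo ψ) z (f z) ∧ WF.{u} (f z)) {a : ℕ → Ordinal.{u}}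
    (ha : Ss a ∈ N) : ∃ y ∈ N, Tr ψ (Ss a) y := by
  have hwf : ∀ b, WOr b → WF.{u} (f b) := fun b hb => (hf b hb).2
  obtain ⟨e, xx, tt, hc⟩ := exists_clo hN hA hwf ha
  obtain ⟨hz, hS⟩ := code_mem hN hA hc
  generalize hz' : cod (lo e (Nice N f)) (TF e (Nice N f) xx tt) = z' at hz
  have hlo : Lo z' = lo e (Nice N f) := by rw [← hz', lo_cod]
  have htern : ∀ i j k, Tern z' i j k ↔ Cd (lo e (Nice N f)) (TF e (Nice N f) xx tt) i j k := by
    intro i j k
    rw [← hz', tern_cod]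
  have hwo : WOr z' := by
    unfold WOr
    rw [hlo]
    exact wo_lo
  obtain ⟨⟨T, tz, tK, nn, kk, cc, hB⟩, hx⟩ := hf z' hwo
  have hs : Ctb (sR e (Nice N f)) := fun i => card_le_of_mem (hN := hN) (ss_mem hN hS i)
  have hM : CTM (NN (f z') (sR e (Nice N f))) := ctm_NN hx hs hB.truth
  -- the values of the terms `kk i`
  have key : ∀ i, Rp e (Nice N f) i → vl (f z') (sR e (Nice N f)) (kk i) = (e i).toZFSet := by
    intro i hi
    obtain ⟨σ, h1, h2⟩ := sR_low hi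
    have hsi := sR_of_rp hi
    rw [← hsi]
    refine vl_kk hB hx hs i h1 (fun j hj => h2 j (by rw [← hlo]; exact hj)) ?_
    intro η hη o ho
    by_contra hcon
    have hcon := not_lt.1 hcon
    have hcη : Ctb (fun _ : ℕ => η) := fun _ =>
      (Ordinal.card_le_card hη.le).trans (hs i)
    have h3 : (sR e (Nice N f) i).toZFSet ∈ NN (f z') (fun _ => η) := by
      rcases hcon.eq_or_lt with h4 | h4
      · rw [h4]; exact ho
      · exact NN_trans hx hcη _ ho _ (Ordinal.toZFSet_mem_toZFSet_iff.2 h4)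
    obtain ⟨t, h4, h5⟩ := h3
    rw [hsi] at h5 hη
    exact hi.1 z' hz hwo η hη t h4 h5
  have hD : RDat e xx tt (fun n => ¬ Nice N f (e n))
      (fun n m => Rp e (Nice N f) m ∧ e m = e n) (fun n m => Rp e (Nice N f) m ∧ e m < e n)
      (fun i => vl (f z') (sR e (Nice N f)) (kk i)) := by
    refine ⟨?_, hc.ovr, hc.kid, hc.val, hc.lt, fun n m m' => rep_uniq, ?_, ?_⟩
    · intro n hn
      obtain ⟨b, _, h2, h3⟩ := hc.wo n hn
      rw [h3]
      exact hwf b h2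
    · intro n hn m hm
      show vl (f z') (sR e (Nice N f)) (kk m) = _
      rw [key m hm.1, hm.2]
    · intro n hn hno z
      rcases rep_or_lim n (not_not.1 hn) with h1 | h1
      · exact absurd h1 hno
      · rw [h1.2 z]
        refine exists_congr fun j => and_congr_right fun h2 => ?_
        show _ ↔ z ∈ vl (f z') (sR e (Nice N f)) (kk j)
        rw [key j h2.1]
  have hdec : ∀ m, relThreeZ.{u} (TF.{u} e (Nice N f) xx tt m) ∈ NN (f z') (sR e (Nice N f)) :=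
    dec_mem hM (tz_mem_NN hB hx hs) (TF.{u} e (Nice N f) xx tt)
      (fun m j k => (htern _ _ _).trans cd_odd) (fun m c j k => (htern _ _ _).trans cd_even)
  have hQ' : HasQ (NN (f z') (sR e (Nice N f))) := fun m => hdec (m + 8)
  have hSet : RSet (NN (f z') (sR e (Nice N f))) xx tt (fun n => ¬ Nice N f (e n))
      (fun n m => Rp e (Nice N f) m ∧ e m = e n) (fun n m => Rp e (Nice N f) m ∧ e m < e n)
      (fun i => vl (f z') (sR e (Nice N f)) (kk i)) (vl (f z') (sR e (Nice N f)) tK) :=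
    ⟨hdec 0, hdec 1, hdec 2, hdec 3, hdec 4, hdec 5, hdec 6, hdec 7,
      ⟨tK, over_nil hB.tK_nil, rfl⟩, fun m v => vl_tK hB hx hs m v⟩
  have hrec := rec_mem hM hQ' hD hSet
  have hae : (fun m => e (2 * m)) = a := funext hc.ev
  rw [hae] at hrec
  obtain ⟨y, hy, hy'⟩ := hM.exists_witness hψ hfree (models_NN hx hs hB.truth hB.phi) hrec
  exact ⟨y, NN_sub hN hA hwf hz hwo hS hy, hy'⟩

end

/-- The final theorem of part D. -/
theorem prov_of_bpFun {ψ : Fml} (hψ : ψ.Delta0) (hfree : ∀ n, ψ.Free n → n = 0 ∨ n = 1)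
    (htriv : ∀ x y : ZFSet.{u}, (¬ ∃ s : ℕ → Ordinal.{u}, x = Ss s) → Tr ψ x y)
    {f : (ℕ → ℕ) → ℕ → ℕ} (hub : UB.{u} {a | f (fun n => a (n + 2)) (a 0) = a 1})
    (hf : ∀ z, WOr z → Bp.{u} (piTwo ψ) z (f z) ∧ WF.{u} (f z)) : ProvOmega.{u} (piTwo ψ) := by
  refine ⟨Am f FR.{u}, UB_amal hub _, fun N hN hA => hN.models_of_witness hψ hfree ?_⟩
  intro x hx
  by_cases h : ∃ s : ℕ → Ordinal.{u}, x = Ss s
  · obtain ⟨a, rfl⟩ := h
    exact exists_witness_seq hN hA hψ hfree hf hx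
  · exact ⟨x, hx, htriv x x h⟩

end Pool.Agent.H17.Omega.T8
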