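import Pool.Agent.H17.T8.Mdl
import Pool.Agent.H17.Omega.CtmM

/-!
# T8: the length of a block in the models
-/

set_option autoImplicit false

universe u v

namespace Pool.Agent.H17.Omega

theorem D0.isOrd {n : ℕ} {s : (Fin n → ZFSet.{u}) → ZFSet.{u}} (hs : D0T s) :
    D0 (fun v => (s v).IsOrdinal) :=
  ((D0.isTrans hs).and (D0.ballZ (p := fun v y => y.IsTransitive) hs
    (D0.isTrans D0T.last))).congr fun v => ZFSet.isOrdinal_iff_forall_mem_isTransitive.symm

namespace T8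

theorem le_of_strict {β γ : Ordinal.{u}} (F : Ordinal.{u} → Ordinal.{u})
    (h1 : ∀ ξ ξ', ξ < ξ' → ξ' < β → F ξ < F ξ') (h2 : ∀ ξ < β, F ξ < γ) : β ≤ γ := by
  by_contra h
  have h := not_le.1 h
  have h3 : ∀ ξ, ξ < β → ξ ≤ F ξ := by
    intro ξ
    induction ξ using WellFoundedLT.induction with
    | _ ξ ih =>
      intro hξ
      by_contra hc
      have hc := not_le.1 hc
      exact absurd (ih _ hc (hc.trans hξ)) (not_le.2 (h1 _ _ hc hξ))
  exact absurd (h3 γ h) (not_le.2 (h2 γ h))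

theorem over_nil {s : ℕ → Ordinal.{u}} {t : Tm.{u}} (h : t.2 = []) : Over s t := by
  intro p hp; rw [h] at hp; simp at hp

theorem over_as {s : ℕ → Ordinal.{u}} {l : List Tm.{u}} (h : ∀ t ∈ l, Over s t) (k : ℕ) :
    Over s (as l k) := by
  unfold as
  by_cases hk : k < l.length
  · rw [List.getD_eq_getElem _ _ hk]
    exact h _ (List.getElem_mem hk)
  · rw [List.getD_eq_default _ _ (not_lt.1 hk)]
    exact over_nil rfl

section

variable {φ : Fml} {z x : ℕ → ℕ} {T : Fml → (ℕ → Tm.{u}) → Prop} {tz tK : Tm.{u}}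
  {nn kk : ℕ → Tm.{u}} {cc : ℕ → Ordinal.{u} → Tm.{u}} (hB : BP φ z x T tz tK nn kk cc)
  (hx : WF.{u} x) {s : ℕ → Ordinal.{u}} (hs : Ctb s)

include hB hx hs

theorem kk_isOrdinal (i : ℕ) : (vl x s (kk i)).IsOrdinal := by
  have h := td_NN hx hs hB.truth (P := fun v : Fin 1 → ZFSet.{u} => (v 0).IsOrdinal)
    (D0.isOrd (D0T.var _)) (as [kk i]) (over_as (by
      intro t ht
      rw [List.mem_singleton] at ht
      rw [ht]
      exact over_nil (hB.kk_nil i))) (hB.kk_ord i)
  exact h.2 trivial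

theorem over_cc {i : ℕ} {ξ : Ordinal.{u}} (h : ξ < s i) : Over s (cc i ξ) := by
  intro p hp
  rw [hB.cc_one, List.mem_singleton] at hp
  rw [hp]
  exact h

theorem le_kk (i : ℕ) : s i ≤ (vl x s (kk i)).rank := by
  refine le_of_strict (fun ξ => (vl x s (cc i ξ)).rank) (fun ξ ξ' h h' => ?_) fun ξ h => ?_
  · exact ZFSet.rank_lt_of_mem ((vl_mem_iff hx hs hB.truth (over_cc hB hx hs (h.trans h'))
      (over_cc hB hx hs h')).2 (hB.cc_lt i ξ ξ' h))
  · exact ZFSet.rank_lt_of_mem ((vl_mem_iff hx hs hB.truth (over_cc hB hx hs h)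
      (over_nil (hB.kk_nil i))).2 (hB.cc_mem i ξ))

theorem vl_kk (i : ℕ) {σ : Ordinal.{u}} (hσ : σ < s i) (hlow : ∀ j, Lo z j i → s j ≤ σ)
    (hnice : ∀ η < s i, ∀ o : Ordinal.{u}, o.toZFSet ∈ NN x (fun _ => η) → o < s i) :
    vl x s (kk i) = (s i).toZFSet := by
  have hcb : ∀ η < s i, Ctb (fun _ : ℕ => η) := fun η hη _ =>
    (Ordinal.card_le_card hη.le).trans (hs i)
  have hsucc : ∀ η < s i, Order.succ η < s i := by
    intro η hη
    have hc := hcb η hη
    have h1 := le_kk hB hx hc i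
    have hN := ctm_NN hx hc hB.truth
    have h2 : vl x (fun _ => η) (kk i) ∈ NN x (fun _ => η) := ⟨_, over_nil (hB.kk_nil i), rfl⟩
    have h3 := hN.rank_mem h2
    have h4 : (Order.succ (vl x (fun _ => η) (kk i)).rank).toZFSet ∈ NN x (fun _ => η) := by
      rw [Ordinal.toZFSet_succ]; exact hN.insert_mem h3 h3
    exact (Order.succ_le_succ h1).trans_lt (hnice η hη _ h4)
  have hord := kk_isOrdinal hB hx hs i
  rw [← hord.toZFSet_rank_eq]
  congr 1
  refine le_antisymm ?_ (le_kk hB hx hs i)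
  by_contra hlt
  have hlt := not_le.1 hlt
  have h1 : (s i).toZFSet ∈ vl x s (kk i) := by
    rw [← hord.toZFSet_rank_eq]
    exact Ordinal.toZFSet_mem_toZFSet_iff.2 hlt
  obtain ⟨t, ht, h2, h3⟩ := (mem_vl hx hs (over_nil (hB.kk_nil i))).1 h1
  -- a bound for the ordinals of type `i`
  obtain ⟨ξ, hξ, hξσ, hξt⟩ : ∃ ξ < s i, σ ≤ ξ ∧ ∀ p ∈ t.2, p.1 = i → p.2 < ξ := by
    have h4 : ∀ l : List (ℕ × Ordinal.{u}), (∀ p ∈ l, p.2 < s p.1) →
        ∃ ξ < s i, σ ≤ ξ ∧ ∀ p ∈ l, p.1 = i → p.2 < ξ := by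
      intro l
      induction l with
      | nil => intro _; exact ⟨σ, hσ, le_rfl, fun p hp => by simp at hp⟩
      | cons a l ih =>
        intro hl
        obtain ⟨ξ, h5, h6, h7⟩ := ih fun p hp => hl p (List.mem_cons_of_mem _ hp)
        by_cases ha : a.1 = i
        · have h8 : a.2 < s i := by
            have := hl a List.mem_cons_self
            rwa [ha] at this
          refine ⟨max ξ (Order.succ a.2), max_lt h5 (hsucc _ h8), h6.trans (le_max_left _ _), ?_⟩
          intro p hp hpi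
          rcases List.mem_cons.1 hp with rfl | hp
          · exact (Order.lt_succ _).trans_le (le_max_right _ _)
          · exact (h7 p hp hpi).trans_le (le_max_left _ _)
        · refine ⟨ξ, h5, h6, ?_⟩
          intro p hp hpi
          rcases List.mem_cons.1 hp with rfl | hp
          · exact (ha hpi).elim
          · exact h7 p hp hpi
    exact h4 t.2 ht
  have hc := hcb ξ hξ
  have hccO : Over s (cc i ξ) := over_cc hB hx hs hξ
  have h4 : E x t (cc i ξ) := hB.bdd i ξ t h2 hξt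
  have h5 : vl x s t ∈ vl x s (cc i ξ) := (vl_mem_iff hx hs hB.truth ht hccO).2 h4
  have hccord : (vl x s (cc i ξ)).IsOrdinal := by
    refine hord.mem ?_
    exact (vl_mem_iff hx hs hB.truth hccO (over_nil (hB.kk_nil i))).2 (hB.cc_mem i ξ)
  have h6 : s i < (vl x s (cc i ξ)).rank := by
    rw [h3] at h5
    have := ZFSet.rank_lt_of_mem h5
    rwa [Ordinal.rank_toZFSet] at this
  -- reduced terms
  have h7 : ∀ o : Ordinal.{u}, ∃ r : Tm.{u}, o < (vl x s (cc i ξ)).rank →
      Over s r ∧ Over (fun _ => ξ) r ∧ vl x s r = o.toZFSet := by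
    intro o
    by_cases ho : o < (vl x s (cc i ξ)).rank
    · have h8 : o.toZFSet ∈ vl x s (cc i ξ) := by
        rw [← hccord.toZFSet_rank_eq]
        exact Ordinal.toZFSet_mem_toZFSet_iff.2 ho
      obtain ⟨r, hr, hr1, hr2⟩ := (mem_vl hx hs hccO).1 h8
      obtain ⟨r', h9, h10⟩ := hB.red i ξ r hr1
      have hr' : Over s r' := fun p hp => hr p (h9 p hp).1
      refine ⟨r', fun _ => ⟨hr', ?_, ?_⟩⟩
      · intro p hp
        rcases (h9 p hp).2 with h11 | h11
        · exact (hr' p hp).trans_le ((hlow _ h11).trans hξσ)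
        · exact h11.2
      · rw [← hr2]
        exact ((vl_eq_iff hx hs hB.truth hr hr').2 fun w _ => h10 w).symm
    · exact ⟨t, fun h => (ho h).elim⟩
  choose r hr using h7
  have h8 : (vl x s (cc i ξ)).rank ≤ s i := by
    refine le_of_strict (fun o => (vl x (fun _ => ξ) (r o)).rank) (fun o o' h h' => ?_)
      fun o ho => ?_
    · obtain ⟨a1, a2, a3⟩ := hr o (h.trans h')
      obtain ⟨b1, b2, b3⟩ := hr o' h'
      have h9 : E x (r o) (r o') := by
        rw [← vl_mem_iff hx hs hB.truth a1 b1, a3, b3]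
        exact Ordinal.toZFSet_mem_toZFSet_iff.2 h
      exact ZFSet.rank_lt_of_mem ((vl_mem_iff hx hc hB.truth a2 b2).2 h9)
    · obtain ⟨a1, a2, a3⟩ := hr o ho
      refine hnice ξ hξ _ ?_
      exact (ctm_NN hx hc hB.truth).rank_mem ⟨_, a2, rfl⟩
  exact absurd h6 (not_lt.2 h8)

end

end T8

end Pool.Agent.H17.Omega
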