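import Pool.Agent.H17.T8.Coll

/-!
# T8: the models given by a well-founded blueprint
-/

set_option autoImplicit false

universe u v

namespace Pool.Agent.H17.Omega.T8

/-- Terms over `s`. -/
abbrev TmO (s : ℕ → Ordinal.{u}) := {t : Tm.{u} // Over s t}

/-- All `s i` are countable. -/
def Ctb (s : ℕ → Ordinal.{u}) : Prop := ∀ i, (s i).card ≤ Cardinal.aleph0

theorem countable_Iio {o : Ordinal.{u}} (h : o.card ≤ Cardinal.aleph0) : (Set.Iio o).Countable := by
  rw [← Set.countable_coe_iff, ← Cardinal.mk_le_aleph0_iff, Cardinal.mk_Iio_ordinal]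
  exact Cardinal.lift_le_aleph0.2 h

theorem countable_TmO {s : ℕ → Ordinal.{u}} (hs : Ctb s) : Countable (TmO s) := by
  set S : Set (ℕ × Ordinal.{u}) := {p | p.2 < s p.1} with hS
  have hc : S.Countable := by
    have h1 : S ⊆ ⋃ i : ℕ, (fun ξ => (i, ξ)) '' Set.Iio (s i) := by
      rintro ⟨i, ξ⟩ h
      exact Set.mem_iUnion.2 ⟨i, ξ, h, rfl⟩
    exact (Set.countable_iUnion fun i => (countable_Iio (hs i)).image _).mono h1
  have := hc.to_subtype
  let F : TmO s → ℕ × List S := fun t => (t.1.1, t.1.2.attachWith (· ∈ S) t.2)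
  have hF : Function.Injective F := by
    intro t t' h
    have h1 : (F t).1 = (F t').1 := congrArg Prod.fst h
    have h2 : (F t).2 = (F t').2 := congrArg Prod.snd h
    have h3 : (F t).2.map Subtype.val = (F t').2.map Subtype.val :=
      congrArg (List.map Subtype.val) h2
    have h4 : ∀ t : TmO s, (F t).2.map Subtype.val = t.1.2 := fun t =>
      List.attachWith_map_subtype_val _
    rw [h4, h4] at h3
    apply Subtype.ext
    exact Prod.ext h1 h3
  exact hF.countable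

theorem wfO {x : ℕ → ℕ} (hx : WF.{u} x) {s : ℕ → Ordinal.{u}} (hs : Ctb s) :
    WellFounded fun t' t : TmO s => E x t'.1 t.1 := by
  have h1 : (⨆ i, s i).card ≤ Cardinal.aleph0 := by
    refine (Ordinal.card_iSup_le_sum_card s).trans ?_
    refine (Cardinal.sum_le_sum _ _ hs).trans ?_
    simp
  have h2 := hx _ h1
  have h3 : ∀ t : TmO s, Over (fun _ => ⨆ i, s i) t.1 := fun t p hp =>
    (t.2 p hp).trans_le (Ordinal.le_iSup s p.1)
  exact Subrelation.wf (fun {a b} (h : E x a.1 b.1) => ⟨h3 a, h3 b, h⟩)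
    (InvImage.wf (fun t : TmO s => t.1) h2)

open Classical in
/-- The value of a term in the model over `s`. -/
noncomputable def vl (x : ℕ → ℕ) (s : ℕ → Ordinal.{u}) (t : Tm.{u}) : ZFSet.{u} :=
  if h : (WF.{u} x ∧ Ctb s) ∧ Over s t then
    have := countable_TmO h.1.2
    coll.{u, u + 1} (wfO h.1.1 h.1.2) ⟨t, h.2⟩
  else ∅

/-- The model over `s`. -/
def NN (x : ℕ → ℕ) (s : ℕ → Ordinal.{u}) : Set ZFSet.{u} := {v | ∃ t, Over s t ∧ vl x s t = v}

section

variable {x : ℕ → ℕ} (hx : WF.{u} x) {s : ℕ → Ordinal.{u}} (hs : Ctb s)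

theorem vl_eq {t : Tm.{u}} (ht : Over s t) : vl x s t =
    (have := countable_TmO hs; coll.{u, u + 1} (wfO hx hs) ⟨t, ht⟩) := by
  unfold vl
  rw [dif_pos ⟨⟨hx, hs⟩, ht⟩]

include hx hs

theorem mem_vl {t : Tm.{u}} (ht : Over s t) {v : ZFSet.{u}} :
    v ∈ vl x s t ↔ ∃ t', Over s t' ∧ E x t' t ∧ vl x s t' = v := by
  have := countable_TmO hs
  rw [vl_eq hx hs ht, mem_coll]
  constructor
  · rintro ⟨t', h1, h2⟩
    exact ⟨t'.1, t'.2, h1, (vl_eq hx hs t'.2).trans h2⟩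
  · rintro ⟨t', h0, h1, h2⟩
    exact ⟨⟨t', h0⟩, h1, (vl_eq hx hs h0).symm.trans h2⟩

theorem NN_eq : NN x s = (have := countable_TmO hs; Set.range (coll.{u, u + 1} (wfO hx hs))) := by
  have := countable_TmO hs
  ext v
  constructor
  · rintro ⟨t, ht, rfl⟩
    exact ⟨⟨t, ht⟩, (vl_eq hx hs ht).symm⟩
  · rintro ⟨t, rfl⟩
    exact ⟨t.1, t.2, vl_eq hx hs t.2⟩

omit hx hs in
theorem ht_of_truth {T : Fml → (ℕ → Tm.{u}) → Prop} (hT : Truth x T) :
    HT (fun t' t : TmO s => E x t'.1 t.1) (fun χ g => T χ (fun k => (g k).1)) := by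
  have hu : ∀ (g : ℕ → TmO s) (k : ℕ) (t : TmO s), (fun k' => (upd g k t k').1) =
      upd (fun k => (g k).1) k t.1 := by
    intro g k t
    funext k'
    simp only [upd]
    split_ifs <;> rfl
  have hov : ∀ (g : ℕ → TmO s) (t : Tm.{u}), (∀ p ∈ t.2, ∃ i, p ∈ ((g i).1).2) → Over s t := by
    intro g t h p hp
    obtain ⟨i, hi⟩ := h p hp
    exact (g i).2 p hi
  refine ⟨fun i j g => hT.mem i j _, fun i j i' j' g g' h1 h2 => hT.eqr i j i' j' _ _
    (congrArg Subtype.val h1) (congrArg Subtype.val h2), fun i j g h => ?_, fun i j g h => ?_,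
    fun g => hT.bot _, fun φ ψ g => hT.imp φ ψ _, fun φ ψ g => hT.and φ ψ _,
    fun φ ψ g => hT.or φ ψ _, fun k χ g => ⟨fun h t => ?_, fun h => ?_⟩,
    fun k χ g => ⟨fun h => ?_, fun h => ?_⟩⟩
  · have := hT.eqc i j _ h
    exact ⟨fun t => this.1 t.1, fun t => this.2 t.1⟩
  · -- extensionality
    have h1 := hT.zfc _ ZFC.ext (fun k => (g k).1)
    have h2 := hT.all_imp 1 _ _ (g j).1 (hT.all_imp 0 _ _ (g i).1 h1)
    rw [hT.imp] at h2
    refine hT.eqr _ _ _ _ _ _ ?_ ?_ (h2 ?_)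
    · simp [upd]
    · simp [upd]
    · refine hT.all_of _ _ _ fun t ht => ?_
      have htO : Over s t := by
        intro p hp
        obtain ⟨k, hk⟩ := ht p hp
        simp only [upd] at hk
        split_ifs at hk
        · exact (g j).2 p hk
        · exact (g i).2 p hk
        · exact (g k).2 p hk
      have h3 := h ⟨t, htO⟩
      simp only [Fml.iff, hT.and, hT.imp, hT.mem]
      simp only [upd]
      simpa using (iff_iff_implies_and_implies).1 h3
  · rw [hu]; exact hT.all_imp k χ _ t.1 h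
  · refine hT.all_of k χ _ fun t ht => ?_
    have := h ⟨t, hov g t ht⟩
    rwa [hu] at this
  · obtain ⟨t, h1, h2⟩ := hT.ex_imp k χ _ h
    refine ⟨⟨t, hov g t h1⟩, ?_⟩
    rw [hu]; exact h2
  · obtain ⟨t, h1⟩ := h
    rw [hu] at h1
    exact hT.ex_of k χ _ _ h1

variable {T : Fml → (ℕ → Tm.{u}) → Prop} (hT : Truth x T)

theorem NN_trans : ∀ a ∈ NN x s, ∀ b ∈ a, b ∈ NN x s := by
  have := countable_TmO hs
  rw [NN_eq hx hs]; exact coll_trans.{u, u + 1} _

include hT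

theorem vl_mem_iff {t t' : Tm.{u}} (ht : Over s t) (ht' : Over s t') :
    vl x s t ∈ vl x s t' ↔ E x t t' := by
  have := countable_TmO hs
  rw [vl_eq hx hs ht, vl_eq hx hs ht']
  exact coll_mem_iff.{u, u + 1} _ (ht_of_truth hT) _ _

theorem vl_eq_iff {t t' : Tm.{u}} (ht : Over s t) (ht' : Over s t') :
    vl x s t = vl x s t' ↔ ∀ r, Over s r → (E x r t ↔ E x r t') := by
  have := countable_TmO hs
  rw [vl_eq hx hs ht, vl_eq hx hs ht']
  refine (coll_eq_iff.{u, u + 1} _ (ht_of_truth hT) _ _).trans ?_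
  exact ⟨fun h r hr => h ⟨r, hr⟩, fun h r => h r.1 r.2⟩

theorem ctm_NN : CTM (NN x s) := by
  have := countable_TmO hs
  have : Nonempty (TmO s) := ⟨⟨(0, []), fun p hp => by simp at hp⟩⟩
  rw [NN_eq hx hs]
  exact ctm_coll.{u, u + 1} _ (ht_of_truth hT) fun ψ hψ g => hT.zfc ψ hψ _

theorem models_NN {φ : Fml} (hφ : ∀ g, T φ g) : Models (NN x s) φ := by
  have := countable_TmO hs
  rw [NN_eq hx hs]
  exact models_coll.{u, u + 1} _ (ht_of_truth hT) fun g => hφ _

theorem td_NN {n : ℕ} {P : (Fin n → ZFSet.{u}) → Prop} (hP : D0 P) (g : ℕ → Tm.{u})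
    (hg : ∀ k, Over s (g k)) {Q : Prop} (h : TD T P g Q) : P (fun i => vl x s (g i)) ↔ Q := by
  have := countable_TmO hs
  have h1 := td_coll.{u, u + 1} (wfO hx hs) (ht_of_truth hT) hP (fun k => ⟨g k, hg k⟩) (Q := Q) h
  rw [← h1]
  have : (fun i : Fin n => vl x s (g i)) = fun i : Fin n => coll.{u, u + 1} (wfO hx hs) ⟨g i, hg i⟩ := by
    funext i
    exact vl_eq hx hs (hg i)
  rw [this]

end

end Pool.Agent.H17.Omega.T8
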