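import Pool.Agent.H17.T8.Rec
import Pool.Agent.H17.T8.Hgt

/-!
# T8: decoding of the real in the model
-/

set_option autoImplicit false
set_option linter.unusedVariables false
set_option linter.unusedSectionVars false
set_option linter.unusedSimpArgs false
set_option linter.deprecated false

universe u v

namespace Pool.Agent.H17.Omega

namespace D0

variable {n : ℕ} {s t r : (Fin n → ZFSet.{u}) → ZFSet.{u}}

theorem isInsert (hr : D0T r) (hs : D0T s) (ht : D0T t) : D0 (fun v => r v = insert (s v) (t v)) := by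
  refine ((mem hs hr).and ((subset ht hr).and (ballZ (p := fun v z => z = s v ∨ z ∈ t v) hr
    ((eqv D0T.last hs.lift).or (mem D0T.last ht.lift))))).congr fun v => ?_
  constructor
  · rintro ⟨h1, h2, h3⟩
    ext z
    rw [ZFSet.mem_insert_iff]
    constructor
    · exact h3 z
    · rintro (rfl | h)
      · exact h1
      · exact h2 h
  · intro h
    rw [h]
    refine ⟨ZFSet.mem_insert _ _, fun z hz => ZFSet.mem_insert_of_mem _ hz, fun z hz => ?_⟩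
    rwa [ZFSet.mem_insert_iff] at hz

theorem isNat (hs : D0T s) : D0 (fun v => IsNatZ (s v)) :=
  ((isEmpty hs).or (bexZ (p := fun v y => s v = insert y y) hs
    (isInsert hs.lift D0T.last D0T.last))).and
    ((ballZ (p := fun v y => y = ∅ ∨ ∃ z ∈ y, y = insert z z) hs
      ((isEmpty D0T.last).or (bexZ (p := fun v z => v (Fin.last n) = insert z z) D0T.last
        (isInsert (D0T.var _) (D0T.var _) (D0T.var _))))).and (isTrans hs))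

theorem isNatZ : ∀ (m : ℕ) {n : ℕ} {s : (Fin n → ZFSet.{u}) → ZFSet.{u}}, D0T s →
    D0 (fun v => s v = natZ m)
  | 0, _, _, hs => isEmpty hs
  | m + 1, _, s, hs => by
    refine (bexZ (p := fun v y => y = natZ m ∧ s v = insert y y) hs
      ((isNatZ m D0T.last).and (isInsert hs.lift D0T.last D0T.last))).congr fun v => ?_
    constructor
    · rintro ⟨y, _, h1, h2⟩
      rw [h2, h1]; rfl
    · intro h
      refine ⟨natZ m, ?_, rfl, h⟩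
      rw [h]; exact ZFSet.mem_insert _ _

theorem tzmem : D0 (fun v : Fin 4 → ZFSet.{u} => ZFSet.pair (v 0) (ZFSet.pair (v 1) (v 2)) ∈ v 3) := by
  refine D0.congr (fun v => ?_) (show D0 (fun v : Fin 4 → ZFSet.{u} => (∃ p ∈ v 3, (∃ w ∈ p, (∃ e ∈ w, (p = ZFSet.pair (v 0) e ∧ e = ZFSet.pair (v 1) (v 2)))))) from (D0.bexZ (s := fun v => v 3) (p := fun v p => (∃ w ∈ p, (∃ e ∈ w, (p = ZFSet.pair (v 0) e ∧ e = ZFSet.pair (v 1) (v 2))))) (D0T.var _)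
  (D0.bexZ (s := fun v => v 4) (p := fun v w => (∃ e ∈ w, (v 4 = ZFSet.pair (v 0) e ∧ e = ZFSet.pair (v 1) (v 2)))) (D0T.var _)
  (D0.bexZ (s := fun v => v 5) (p := fun v e => (v 4 = ZFSet.pair (v 0) e ∧ e = ZFSet.pair (v 1) (v 2))) (D0T.var _)
  (D0.and (D0.isPair (D0T.var _) (D0T.var _) (D0T.var _))
  (D0.isPair (D0T.var _) (D0T.var _) (D0T.var _)))))))
  constructor
  · rintro ⟨p, hp, w, _, e, _, h1, h2⟩
    rw [← h2, ← h1]; exact hp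
  · intro h
    refine ⟨_, h, {v 0, ZFSet.pair (v 1) (v 2)}, ?_, _, ?_, rfl, rfl⟩
    · rw [ZFSet.pair]; simp
    · simp

theorem tzsub : D0 (fun v : Fin 1 → ZFSet.{u} => ∀ p ∈ v 0, ∃ i j k : ℕ,
    p = ZFSet.pair (natZ i) (ZFSet.pair (natZ j) (natZ k))) := by
  refine D0.congr (fun v => ?_) (show D0 (fun v : Fin 1 → ZFSet.{u} => (∀ p ∈ v 0, (∃ w ∈ p, (∃ i ∈ w, (∃ e ∈ w, (∃ t ∈ e, (∃ j ∈ t, (∃ k ∈ t, (IsNatZ i ∧ IsNatZ j ∧ IsNatZ k ∧ e = ZFSet.pair j k ∧ p = ZFSet.pair i e))))))))) from (D0.ballZ (s := fun v => v 0) (p := fun v p => (∃ w ∈ p, (∃ i ∈ w, (∃ e ∈ w, (∃ t ∈ e, (∃ j ∈ t, (∃ k ∈ t, (IsNatZ i ∧ IsNatZ j ∧ IsNatZ k ∧ e = ZFSet.pair j k ∧ p = ZFSet.pair i e)))))))) (D0T.var _)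
  (D0.bexZ (s := fun v => v 1) (p := fun v w => (∃ i ∈ w, (∃ e ∈ w, (∃ t ∈ e, (∃ j ∈ t, (∃ k ∈ t, (IsNatZ i ∧ IsNatZ j ∧ IsNatZ k ∧ e = ZFSet.pair j k ∧ v 1 = ZFSet.pair i e))))))) (D0T.var _)
  (D0.bexZ (s := fun v => v 2) (p := fun v i => (∃ e ∈ v 2, (∃ t ∈ e, (∃ j ∈ t, (∃ k ∈ t, (IsNatZ i ∧ IsNatZ j ∧ IsNatZ k ∧ e = ZFSet.pair j k ∧ v 1 = ZFSet.pair i e)))))) (D0T.var _)
  (D0.bexZ (s := fun v => v 2) (p := fun v e => (∃ t ∈ e, (∃ j ∈ t, (∃ k ∈ t, (IsNatZ (v 3) ∧ IsNatZ j ∧ IsNatZ k ∧ e = ZFSet.pair j k ∧ v 1 = ZFSet.pair (v 3) e))))) (D0T.var _)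
  (D0.bexZ (s := fun v => v 4) (p := fun v t => (∃ j ∈ t, (∃ k ∈ t, (IsNatZ (v 3) ∧ IsNatZ j ∧ IsNatZ k ∧ v 4 = ZFSet.pair j k ∧ v 1 = ZFSet.pair (v 3) (v 4))))) (D0T.var _)
  (D0.bexZ (s := fun v => v 5) (p := fun v j => (∃ k ∈ v 5, (IsNatZ (v 3) ∧ IsNatZ j ∧ IsNatZ k ∧ v 4 = ZFSet.pair j k ∧ v 1 = ZFSet.pair (v 3) (v 4)))) (D0T.var _)
  (D0.bexZ (s := fun v => v 5) (p := fun v k => (IsNatZ (v 3) ∧ IsNatZ (v 6) ∧ IsNatZ k ∧ v 4 = ZFSet.pair (v 6) k ∧ v 1 = ZFSet.pair (v 3) (v 4))) (D0T.var _)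
  (D0.and (D0.isNat (D0T.var _))
  (D0.and (D0.isNat (D0T.var _))
  (D0.and (D0.isNat (D0T.var _))
  (D0.and (D0.isPair (D0T.var _) (D0T.var _) (D0T.var _))
  (D0.isPair (D0T.var _) (D0T.var _) (D0T.var _))))))))))))))
  refine forall₂_congr fun p hp => ?_
  constructor
  · rintro ⟨w, _, i, _, e, _, t, _, j, _, k, _, h1, h2, h3, h4, h5⟩
    obtain ⟨i, rfl⟩ := isNatZ_iff.1 h1
    obtain ⟨j, rfl⟩ := isNatZ_iff.1 h2
    obtain ⟨k, rfl⟩ := isNatZ_iff.1 h3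
    exact ⟨i, j, k, by rw [h5, h4]⟩
  · rintro ⟨i, j, k, rfl⟩
    refine ⟨{natZ i, ZFSet.pair (natZ j) (natZ k)}, ?_, natZ i, ?_, _, ?_, {natZ j, natZ k}, ?_,
      natZ j, ?_, natZ k, ?_, isNatZ_iff.2 ⟨i, rfl⟩, isNatZ_iff.2 ⟨j, rfl⟩, isNatZ_iff.2 ⟨k, rfl⟩,
      rfl, rfl⟩
    · rw [ZFSet.pair]; simp
    · simp
    · simp
    · rw [ZFSet.pair]; simp
    · simp
    · simp

theorem tkfun : D0 (fun v : Fin 1 → ZFSet.{u} => ∀ i a b : ZFSet.{u},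
    ZFSet.pair i a ∈ v 0 → ZFSet.pair i b ∈ v 0 → a = b) := by
  refine D0.congr (fun v => ?_) (show D0 (fun v : Fin 1 → ZFSet.{u} => (∀ p ∈ v 0, (∀ q ∈ v 0, (∀ w ∈ p, (∀ i ∈ w, (∀ a ∈ w, (∀ t ∈ q, (∀ b ∈ t, (p = ZFSet.pair i a → (q = ZFSet.pair i b → a = b)))))))))) from (D0.ballZ (s := fun v => v 0) (p := fun v p => (∀ q ∈ v 0, (∀ w ∈ p, (∀ i ∈ w, (∀ a ∈ w, (∀ t ∈ q, (∀ b ∈ t, (p = ZFSet.pair i a → (q = ZFSet.pair i b → a = b))))))))) (D0T.var _)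
  (D0.ballZ (s := fun v => v 0) (p := fun v q => (∀ w ∈ v 1, (∀ i ∈ w, (∀ a ∈ w, (∀ t ∈ q, (∀ b ∈ t, (v 1 = ZFSet.pair i a → (q = ZFSet.pair i b → a = b)))))))) (D0T.var _)
  (D0.ballZ (s := fun v => v 1) (p := fun v w => (∀ i ∈ w, (∀ a ∈ w, (∀ t ∈ v 2, (∀ b ∈ t, (v 1 = ZFSet.pair i a → (v 2 = ZFSet.pair i b → a = b))))))) (D0T.var _)
  (D0.ballZ (s := fun v => v 3) (p := fun v i => (∀ a ∈ v 3, (∀ t ∈ v 2, (∀ b ∈ t, (v 1 = ZFSet.pair i a → (v 2 = ZFSet.pair i b → a = b)))))) (D0T.var _)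
  (D0.ballZ (s := fun v => v 3) (p := fun v a => (∀ t ∈ v 2, (∀ b ∈ t, (v 1 = ZFSet.pair (v 4) a → (v 2 = ZFSet.pair (v 4) b → a = b))))) (D0T.var _)
  (D0.ballZ (s := fun v => v 2) (p := fun v t => (∀ b ∈ t, (v 1 = ZFSet.pair (v 4) (v 5) → (v 2 = ZFSet.pair (v 4) b → v 5 = b)))) (D0T.var _)
  (D0.ballZ (s := fun v => v 6) (p := fun v b => (v 1 = ZFSet.pair (v 4) (v 5) → (v 2 = ZFSet.pair (v 4) b → v 5 = b))) (D0T.var _)
  (D0.imp (D0.isPair (D0T.var _) (D0T.var _) (D0T.var _))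
  (D0.imp (D0.isPair (D0T.var _) (D0T.var _) (D0T.var _))
  (D0.eqv (D0T.var _) (D0T.var _))))))))))))
  constructor
  · intro h i a b h1 h2
    refine h _ h1 _ h2 {i, a} ?_ i ?_ a ?_ {i, b} ?_ b ?_ rfl rfl
    · rw [ZFSet.pair]; simp
    · simp
    · simp
    · rw [ZFSet.pair]; simp
    · simp
  · intro h p hp q hq w _ i _ a _ t _ b _ h1 h2
    rw [h1] at hp
    rw [h2] at hq
    exact h i a b hp hq

end D0

namespace T8

open CTM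

section

variable {N : Set ZFSet.{u}} (hN : CTM N)

include hN in
/-- The rows of the coded relation. -/
theorem dec_mem {Z : ℕ → ℕ → ℕ → Prop} (hZ : relThreeZ.{u} Z ∈ N) (T : ℕ → ℕ → ℕ → ℕ → Prop)
    (hodd : ∀ m j k, Z (2 * m + 1) j k ↔ k = 2 * Nat.pair m j + 2)
    (heven : ∀ m c j k, Z (2 * Nat.pair m c + 2) j k ↔ T m c j k) (m : ℕ) :
    relThreeZ.{u} (T m) ∈ N := by
  obtain ⟨TZ, hTZ⟩ : ∃ TZ : N, TZ.1 = relThreeZ.{u} Z := ⟨⟨_, hZ⟩, rfl⟩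
  obtain ⟨A, hA⟩ : ∃ A : N, A.1 = natZ (2 * m + 1) := ⟨⟨natZ (2 * m + 1), hN.natZ_mem_N _⟩, rfl⟩
  have hd : hN.Dfn (fun v : Fin 1 → N => (∃ c : N, (∃ j : N, (∃ k : N, (∃ i : N, (∃ e : N, ((v 0).1 = ZFSet.pair c.1 e.1 ∧ e.1 = ZFSet.pair j.1 k.1 ∧ (Tri TZ) A c i ∧ (Tri TZ) i j k))))))) := (Dfn.ex (P := fun v c => (∃ j : N, (∃ k : N, (∃ i : N, (∃ e : N, ((v 0).1 = ZFSet.pair c.1 e.1 ∧ e.1 = ZFSet.pair j.1 k.1 ∧ (Tri TZ) A c i ∧ (Tri TZ) i j k))))))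
  (Dfn.ex (P := fun v j => (∃ k : N, (∃ i : N, (∃ e : N, ((v 0).1 = ZFSet.pair (v 1).1 e.1 ∧ e.1 = ZFSet.pair j.1 k.1 ∧ (Tri TZ) A (v 1) i ∧ (Tri TZ) i j k)))))
  (Dfn.ex (P := fun v k => (∃ i : N, (∃ e : N, ((v 0).1 = ZFSet.pair (v 1).1 e.1 ∧ e.1 = ZFSet.pair (v 2).1 k.1 ∧ (Tri TZ) A (v 1) i ∧ (Tri TZ) i (v 2) k))))
  (Dfn.ex (P := fun v i => (∃ e : N, ((v 0).1 = ZFSet.pair (v 1).1 e.1 ∧ e.1 = ZFSet.pair (v 2).1 (v 3).1 ∧ (Tri TZ) A (v 1) i ∧ (Tri TZ) i (v 2) (v 3))))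
  (Dfn.ex (P := fun v e => ((v 0).1 = ZFSet.pair (v 1).1 e.1 ∧ e.1 = ZFSet.pair (v 2).1 (v 3).1 ∧ (Tri TZ) A (v 1) (v 4) ∧ (Tri TZ) (v 4) (v 2) (v 3)))
  (Dfn.and (Dfn.isPair (DT.var _) (DT.var _) (DT.var _))
  (Dfn.and (Dfn.isPair (DT.var _) (DT.var _) (DT.var _))
  (Dfn.and (Dfn.subst3 (P := (Tri TZ)) (Tri_dfn TZ) (DT.const A) (DT.var _) (DT.var _))
  (Dfn.subst3 (P := (Tri TZ)) (Tri_dfn TZ) (DT.var _) (DT.var _) (DT.var _))))))))))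
  obtain ⟨b, hb, hb'⟩ := hN.exists_sep (P := fun p => (∃ c : N, (∃ j : N, (∃ k : N, (∃ i : N, (∃ e : N, (p.1 = ZFSet.pair c.1 e.1 ∧ e.1 = ZFSet.pair j.1 k.1 ∧ (Tri TZ) A c i ∧ (Tri TZ) i j k))))))) hd
    (hN.prod_mem hN.omZ_mem (hN.prod_mem hN.omZ_mem hN.omZ_mem))
  have hfin : relThreeZ.{u} (T m) = b := by
    ext z
    rw [mem_relThreeZ]
    constructor
    · rintro ⟨c, j, k, h, rfl⟩
      have hp : ZFSet.pair (natZ.{u} c) (ZFSet.pair (natZ j) (natZ k)) ∈ N :=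
        hN.pair_mem (hN.natZ_mem_N c) (hN.pair_mem (hN.natZ_mem_N j) (hN.natZ_mem_N k))
      refine (hb' _).2 ⟨?_, hp, ⟨natZ c, hN.natZ_mem_N c⟩, ⟨natZ j, hN.natZ_mem_N j⟩,
        ⟨natZ k, hN.natZ_mem_N k⟩, ⟨natZ (2 * Nat.pair m c + 2), hN.natZ_mem_N _⟩,
        ⟨_, hN.pair_mem (hN.natZ_mem_N j) (hN.natZ_mem_N k)⟩, rfl, rfl, ?_, ?_⟩
      · simp [natZ_mem_omZ]
      · exact (tri_nat (hN := hN) hTZ hA rfl rfl).2 ((hodd _ _ _).2 rfl)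
      · exact (tri_nat (hN := hN) hTZ rfl rfl rfl).2 ((heven _ _ _ _).2 h)
    · intro hz
      obtain ⟨_, _, c, j, k, i, e, h1, h2, h3, h4⟩ := (hb' z).1 hz
      obtain ⟨a1, a2, a3, b1, b2, b3, b4⟩ := (tri_iff (hN := hN) hTZ).1 h3
      obtain ⟨a1', a2', a3', b1', b2', b3', b4'⟩ := (tri_iff (hN := hN) hTZ).1 h4
      rw [hA, natZ_inj] at b2
      subst b2
      have b1 := (hodd _ _ _).1 b1
      rw [b4, b1, natZ_inj] at b2'
      subst b2'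
      have h1 : z = ZFSet.pair c.1 e.1 := h1
      exact ⟨a2, a2', a3', (heven _ _ _ _).1 b1', by rw [h1, h2, b3, b3', b4']⟩
  rw [hfin]; exact hb

end

section

variable {φ : Fml} {z x : ℕ → ℕ} {T : Fml → (ℕ → Tm.{u}) → Prop} {tz tK : Tm.{u}}
  {nn kk : ℕ → Tm.{u}} {cc : ℕ → Ordinal.{u} → Tm.{u}} (hB : BP φ z x T tz tK nn kk cc)
  (hx : WF.{u} x) {s : ℕ → Ordinal.{u}} (hs : Ctb s)

include hB hx hs

theorem vl_nn (i : ℕ) : vl x s (nn i) = natZ i := by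
  have h := td_NN hx hs hB.truth (P := fun v : Fin 1 → ZFSet.{u} => v 0 = natZ i)
    (D0.isNatZ i (D0T.var _)) (as [nn i]) (over_as (by
      intro t ht
      rw [List.mem_singleton] at ht
      rw [ht]
      exact over_nil (hB.nn_nil i))) (hB.nn_val i)
  exact h.2 trivial

theorem vl_tz : vl x s tz = relThreeZ (Tern z) := by
  have hov : Over s tz := over_nil hB.tz_nil
  have h1 := td_NN hx hs hB.truth (P := fun v : Fin 1 → ZFSet.{u} => ∀ p ∈ v 0, ∃ i j k : ℕ,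
    p = ZFSet.pair (natZ i) (ZFSet.pair (natZ j) (natZ k))) D0.tzsub (as [tz]) (over_as (by
      intro t ht
      rw [List.mem_singleton] at ht
      rw [ht]
      exact hov)) hB.tz_sub
  have h1 : ∀ p ∈ vl x s tz, ∃ i j k : ℕ,
    p = ZFSet.pair (natZ i) (ZFSet.pair (natZ j) (natZ k)) := h1.2 trivial
  have h2 : ∀ i j k, ZFSet.pair (natZ.{u} i) (ZFSet.pair (natZ j) (natZ k)) ∈ vl x s tz ↔
      Tern z i j k := by
    intro i j k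
    have h := td_NN hx hs hB.truth (P := fun v : Fin 4 → ZFSet.{u} =>
      ZFSet.pair (v 0) (ZFSet.pair (v 1) (v 2)) ∈ v 3) D0.tzmem (as [nn i, nn j, nn k, tz])
      (over_as (by
        intro t ht
        simp only [List.mem_cons, List.not_mem_nil, or_false] at ht
        rcases ht with rfl | rfl | rfl | rfl
        · exact over_nil (hB.nn_nil i)
        · exact over_nil (hB.nn_nil j)
        · exact over_nil (hB.nn_nil k)
        · exact hov)) (hB.tz_mem i j k)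
    rw [← h]
    show _ ↔ ZFSet.pair (vl x s (nn i)) (ZFSet.pair (vl x s (nn j)) (vl x s (nn k))) ∈ vl x s tz
    rw [vl_nn hB hx hs, vl_nn hB hx hs, vl_nn hB hx hs]
  ext p
  rw [mem_relThreeZ]
  constructor
  · intro hp
    obtain ⟨i, j, k, rfl⟩ := h1 p hp
    exact ⟨i, j, k, (h2 i j k).1 hp, rfl⟩
  · rintro ⟨i, j, k, h, rfl⟩
    exact (h2 i j k).2 h

theorem tz_mem_NN : relThreeZ (Tern z) ∈ NN x s := ⟨tz, over_nil hB.tz_nil, vl_tz hB hx hs⟩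

theorem vl_tK (i : ℕ) (v : ZFSet.{u}) : ZFSet.pair (natZ i) v ∈ vl x s tK ↔ v = vl x s (kk i) := by
  have hov : Over s tK := over_nil hB.tK_nil
  have h1 := td_NN hx hs hB.truth (P := fun v : Fin 1 → ZFSet.{u} => ∀ i a b : ZFSet.{u},
    ZFSet.pair i a ∈ v 0 → ZFSet.pair i b ∈ v 0 → a = b) D0.tkfun (as [tK]) (over_as (by
      intro t ht
      rw [List.mem_singleton] at ht
      rw [ht]
      exact hov)) hB.tK_fun
  have h1 : ∀ i a b : ZFSet.{u}, ZFSet.pair i a ∈ vl x s tK → ZFSet.pair i b ∈ vl x s tK → a = b :=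
    h1.2 trivial
  have h2 : ZFSet.pair (natZ i) (vl x s (kk i)) ∈ vl x s tK := by
    have h := td_NN hx hs hB.truth (P := fun v : Fin 3 → ZFSet.{u} => ZFSet.pair (v 0) (v 1) ∈ v 2)
      (D0.pairMem (D0T.var _) (D0T.var _) (D0T.var _)) (as [nn i, kk i, tK])
      (over_as (by
        intro t ht
        simp only [List.mem_cons, List.not_mem_nil, or_false] at ht
        rcases ht with rfl | rfl | rfl
        · exact over_nil (hB.nn_nil i)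
        · exact over_nil (hB.kk_nil i)
        · exact hov)) (hB.tK_mem i)
    have h : ZFSet.pair (vl x s (nn i)) (vl x s (kk i)) ∈ vl x s tK := h.2 trivial
    rwa [vl_nn hB hx hs] at h
  constructor
  · intro h; exact h1 _ _ _ h h2
  · rintro rfl; exact h2

end

end T8

end Pool.Agent.H17.Omega
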