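import Pool.Agent.H17.T8.Val

/-!
# T8: the recursion inside the model
-/

set_option autoImplicit false
set_option linter.unusedVariables false
set_option linter.unusedSectionVars false
set_option linter.unusedSimpArgs false
set_option linter.deprecated false

universe u v

namespace Pool.Agent.H17.Omega.T8

open CTM

variable {N : Set ZFSet.{u}} {hN : CTM N}

/-- `(a, (b, c)) ∈ TT`. -/
def Tri (TT a b c : N) : Prop := (∃ e : N, (e.1 = ZFSet.pair b.1 c.1 ∧ ZFSet.pair a.1 e.1 ∈ TT.1))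

theorem Tri_dfn (TT : N) : hN.Dfn (fun v : Fin 3 → N => Tri TT (v 0) (v 1) (v 2)) := by
  unfold Tri
  exact (Dfn.ex (P := fun v e => (e.1 = ZFSet.pair (v 1).1 (v 2).1 ∧ ZFSet.pair (v 0).1 e.1 ∈ TT.1))
  (Dfn.and (Dfn.isPair (DT.var _) (DT.var _) (DT.var _))
  (Dfn.pairMem (DT.var _) (DT.var _) (DT.const TT))))

/-- The relation `k` is a child of the non-nice `n`. -/
def RCd (OD TN E0 k n : N) : Prop := ((Tri TN) n E0 E0 ∧ ((∃ j : N, (Tri OD) k n j)))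

theorem RCd_dfn (OD TN E0 : N) : hN.Dfn (fun v : Fin 2 → N => RCd OD TN E0 (v 0) (v 1)) := by
  unfold RCd
  exact (Dfn.and (Dfn.subst3 (P := (Tri TN)) (Tri_dfn TN) (DT.var _) (DT.const E0) (DT.const E0))
  (Dfn.ex (P := fun v j => (Tri OD) (v 0) (v 1) j)
  (Dfn.subst3 (P := (Tri OD)) (Tri_dfn OD) (DT.var _) (DT.var _) (DT.var _))))

/-- `S` is the constant sequence `η`. -/
def CST (η S : N) : Prop := (∀ p : N, (p.1 ∈ S.1 ↔ (∃ i : N, (i.1 ∈ omZ ∧ p.1 = ZFSet.pair i.1 η.1))))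

theorem CST_dfn : hN.Dfn (fun v : Fin 2 → N => CST (v 0) (v 1)) := by
  unfold CST
  exact (Dfn.all (P := fun v p => (p.1 ∈ (v 1).1 ↔ (∃ i : N, (i.1 ∈ omZ ∧ p.1 = ZFSet.pair i.1 (v 0).1))))
  (Dfn.iff (Dfn.mem (DT.var _) (DT.var _))
  (Dfn.ex (P := fun v i => (i.1 ∈ omZ ∧ (v 2).1 = ZFSet.pair i.1 (v 0).1))
  (Dfn.and (Dfn.mem (DT.var _) (DT.const ⟨omZ, hN.omZ_mem⟩))
  (Dfn.isPair (DT.var _) (DT.var _) (DT.var _))))))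

/-- `Y` is the blueprint attached to `n`. -/
def CYd (TC E0 n Y : N) : Prop := (∀ c : N, (c.1 ∈ Y.1 ↔ (Tri TC) n c E0))

theorem CYd_dfn (TC E0 : N) : hN.Dfn (fun v : Fin 2 → N => CYd TC E0 (v 0) (v 1)) := by
  unfold CYd
  exact (Dfn.all (P := fun v c => (c.1 ∈ (v 1).1 ↔ (Tri TC) (v 0) c E0))
  (Dfn.iff (Dfn.mem (DT.var _) (DT.var _))
  (Dfn.subst3 (P := (Tri TC)) (Tri_dfn TC) (DT.var _) (DT.var _) (DT.const E0))))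

/-- The value at a nice `n`. -/
def GBCd (TR TM KZ E0 n v : N) : Prop := (((∃ m : N, ((Tri TR) n m E0 ∧ ZFSet.pair m.1 v.1 ∈ KZ.1))) ∨ (((¬ ((∃ m : N, (Tri TR) n m E0))) ∧ ((∀ z : N, (z.1 ∈ v.1 ↔ (∃ j : N, (∃ w : N, ((Tri TM) n j E0 ∧ ZFSet.pair j.1 w.1 ∈ KZ.1 ∧ z.1 ∈ w.1)))))))))

theorem GBCd_dfn (TR TM KZ E0 : N) : hN.Dfn (fun v : Fin 2 → N => GBCd TR TM KZ E0 (v 0) (v 1)) := by
  unfold GBCd
  exact (Dfn.or (Dfn.ex (P := fun v m => ((Tri TR) (v 0) m E0 ∧ ZFSet.pair m.1 (v 1).1 ∈ KZ.1))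
  (Dfn.and (Dfn.subst3 (P := (Tri TR)) (Tri_dfn TR) (DT.var _) (DT.var _) (DT.const E0))
  (Dfn.pairMem (DT.var _) (DT.var _) (DT.const KZ))))
  (Dfn.and (Dfn.not (Dfn.ex (P := fun v m => (Tri TR) (v 0) m E0)
  (Dfn.subst3 (P := (Tri TR)) (Tri_dfn TR) (DT.var _) (DT.var _) (DT.const E0))))
  (Dfn.all (P := fun v z => (z.1 ∈ (v 1).1 ↔ (∃ j : N, (∃ w : N, ((Tri TM) (v 0) j E0 ∧ ZFSet.pair j.1 w.1 ∈ KZ.1 ∧ z.1 ∈ w.1)))))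
  (Dfn.iff (Dfn.mem (DT.var _) (DT.var _))
  (Dfn.ex (P := fun v j => (∃ w : N, ((Tri TM) (v 0) j E0 ∧ ZFSet.pair j.1 w.1 ∈ KZ.1 ∧ (v 2).1 ∈ w.1)))
  (Dfn.ex (P := fun v w => ((Tri TM) (v 0) (v 3) E0 ∧ ZFSet.pair (v 3).1 w.1 ∈ KZ.1 ∧ (v 2).1 ∈ w.1))
  (Dfn.and (Dfn.subst3 (P := (Tri TM)) (Tri_dfn TM) (DT.var _) (DT.var _) (DT.const E0))
  (Dfn.and (Dfn.pairMem (DT.var _) (DT.var _) (DT.const KZ))
  (Dfn.mem (DT.var _) (DT.var _))))))))))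

/-- The ordinals of the term attached to `n`. -/
def FFd (OD TY SC E0 : N) (r : N → N → Prop) (n L f : N) : Prop :=
  ∀ p : N, (p.1 ∈ f.1 ↔ (∃ k : N, (∃ w : N, (∃ c : N, (∃ j : N, (∃ i : N, (Tri TY L k i ∧ Tri SC j k E0 ∧
    Tri OD c n j ∧ (r c w) ∧ p.1 = ZFSet.pair k.1 w.1)))))))

/-- The value at a non-nice `n`. -/
def GAd (OD TY TL TC SC E0 : N) (F : N → N) (n : N) (r : N → N → Prop) (v : N) : Prop :=
  ∃ c0 η S L f y Y u q : N, Tri OD c0 n E0 ∧ (r c0 η) ∧ CST η S ∧ Tri TL n L E0 ∧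
    (FFd OD TY SC E0 r n L f) ∧ y.1 = ZFSet.pair L.1 f.1 ∧ CYd TC E0 n Y ∧
    u.1 = ZFSet.pair S.1 y.1 ∧ q.1 = ZFSet.pair Y.1 u.1 ∧ F q = v

/-- The recursion step. -/
def GGd (OD TY TN TR TM TL TC SC KZ E0 : N) (F : N → N) (n : N) (r : N → N → Prop) (v : N) : Prop :=
  (∀ y w w2 : N, r y w → r y w2 → w = w2) ∧ ((Tri TN n E0 E0 ∧ GAd OD TY TL TC SC E0 F n r v) ∨
    (¬ Tri TN n E0 E0 ∧ GBCd TR TM KZ E0 n v))

theorem GGd_dfn (OD TY TN TR TM TL TC SC KZ E0 : N) {F : N → N}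
    (hF : hN.Dfn (fun v : Fin 2 → N => F (v 0) = v 1)) :
    hN.Dfn (fun v : Fin 3 → N => GGd OD TY TN TR TM TL TC SC KZ E0 F (v 0)
      (fun y w => RCd OD TN E0 y (v 0) ∧ ZFSet.pair y.1 w.1 ∈ (v 1).1) (v 2)) := by
  have h := (show hN.Dfn (fun v : Fin 3 → N => (((∀ y : N, (∀ w : N, (∀ w2 : N, (((RCd OD TN E0) y (v 0) ∧ ZFSet.pair y.1 w.1 ∈ (v 1).1) → (((RCd OD TN E0) y (v 0) ∧ ZFSet.pair y.1 w2.1 ∈ (v 1).1) → w = w2)))))) ∧ (((((Tri TN) (v 0) E0 E0 ∧ ((∃ c0 : N, (∃ η : N, (∃ S : N, (∃ L : N, (∃ f : N, (∃ y : N, (∃ Y : N, (∃ u : N, (∃ q : N, ((Tri OD) c0 (v 0) E0 ∧ (((RCd OD TN E0) c0 (v 0) ∧ ZFSet.pair c0.1 η.1 ∈ (v 1).1)) ∧ CST η S ∧ (Tri TL) (v 0) L E0 ∧ ((∀ p : N, (p.1 ∈ f.1 ↔ (∃ k : N, (∃ w : N, (∃ c : N, (∃ j : N, (∃ i : N, ((Tri TY) L k i ∧ (Tri SC) j k E0 ∧ (Tri OD) c (v 0) j ∧ (((RCd OD TN E0) c (v 0) ∧ ZFSet.pair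 c.1 w.1 ∈ (v 1).1)) ∧ p.1 = ZFSet.pair k.1 w.1))))))))) ∧ y.1 = ZFSet.pair L.1 f.1 ∧ (CYd TC E0) (v 0) Y ∧ u.1 = ZFSet.pair S.1 y.1 ∧ q.1 = ZFSet.pair Y.1 u.1 ∧ (fun x y => F x = y) q (v 2)))))))))))))) ∨ (((¬ ((Tri TN) (v 0) E0 E0)) ∧ (GBCd TR TM KZ E0) (v 0) (v 2))))))) from (Dfn.and (Dfn.all (P := fun v y => (∀ w : N, (∀ w2 : N, (((RCd OD TN E0) y (v 0) ∧ ZFSet.pair y.1 w.1 ∈ (v 1).1) → (((RCd OD TN E0) y (v 0) ∧ ZFSet.pair y.1 w2.1 ∈ (v 1).1) → w = w2)))))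
  (Dfn.all (P := fun v w => (∀ w2 : N, (((RCd OD TN E0) (v 3) (v 0) ∧ ZFSet.pair (v 3).1 w.1 ∈ (v 1).1) → (((RCd OD TN E0) (v 3) (v 0) ∧ ZFSet.pair (v 3).1 w2.1 ∈ (v 1).1) → w = w2))))
  (Dfn.all (P := fun v w2 => (((RCd OD TN E0) (v 3) (v 0) ∧ ZFSet.pair (v 3).1 (v 4).1 ∈ (v 1).1) → (((RCd OD TN E0) (v 3) (v 0) ∧ ZFSet.pair (v 3).1 w2.1 ∈ (v 1).1) → (v 4) = w2)))
  (Dfn.imp (Dfn.and (Dfn.subst2 (P := (RCd OD TN E0)) (RCd_dfn OD TN E0) (DT.var _) (DT.var _))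
  (Dfn.pairMem (DT.var _) (DT.var _) (DT.var _)))
  (Dfn.imp (Dfn.and (Dfn.subst2 (P := (RCd OD TN E0)) (RCd_dfn OD TN E0) (DT.var _) (DT.var _))
  (Dfn.pairMem (DT.var _) (DT.var _) (DT.var _)))
  (Dfn.eq (DT.var _) (DT.var _)))))))
  (Dfn.or (Dfn.and (Dfn.subst3 (P := (Tri TN)) (Tri_dfn TN) (DT.var _) (DT.const E0) (DT.const E0))
  (Dfn.ex (P := fun v c0 => (∃ η : N, (∃ S : N, (∃ L : N, (∃ f : N, (∃ y : N, (∃ Y : N, (∃ u : N, (∃ q : N, ((Tri OD) c0 (v 0) E0 ∧ (((RCd OD TN E0) c0 (v 0) ∧ ZFSet.pair c0.1 η.1 ∈ (v 1).1)) ∧ CST η S ∧ (Tri TL) (v 0) L E0 ∧ ((∀ p : N, (p.1 ∈ f.1 ↔ (∃ k : N, (∃ w : N, (∃ c : N, (∃ j : N, (∃ i : N, ((Tri TY) L k i ∧ (Tri SC) j k E0 ∧ (Tri OD) c (v 0) j ∧ (((RCd OD TN E0) c (v 0) ∧ ZFSet.pair c.1 w.1 ∈ (v 1).1)) ∧ p.1 = ZFSet.pair k.1 w.1))))))))) ∧ y.1 = ZFSet.pair L.1 f.1 ∧ (CYd TC E0) (v 0)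 Y ∧ u.1 = ZFSet.pair S.1 y.1 ∧ q.1 = ZFSet.pair Y.1 u.1 ∧ (fun x y => F x = y) q (v 2)))))))))))
  (Dfn.ex (P := fun v η => (∃ S : N, (∃ L : N, (∃ f : N, (∃ y : N, (∃ Y : N, (∃ u : N, (∃ q : N, ((Tri OD) (v 3) (v 0) E0 ∧ (((RCd OD TN E0) (v 3) (v 0) ∧ ZFSet.pair (v 3).1 η.1 ∈ (v 1).1)) ∧ CST η S ∧ (Tri TL) (v 0) L E0 ∧ ((∀ p : N, (p.1 ∈ f.1 ↔ (∃ k : N, (∃ w : N, (∃ c : N, (∃ j : N, (∃ i : N, ((Tri TY) L k i ∧ (Tri SC) j k E0 ∧ (Tri OD) c (v 0) j ∧ (((RCd OD TN E0) c (v 0) ∧ ZFSet.pair c.1 w.1 ∈ (v 1).1)) ∧ p.1 = ZFSet.pair k.1 w.1))))))))) ∧ y.1 = ZFSet.pair L.1 f.1 ∧ (CYd TC E0) (v 0) Y ∧ u.1 = ZFSet.pair S.1 y.1 ∧ q.1 = ZFSet.pair Y.1 u.1 ∧ (fun x y => F x = y) q (v 2))))))))))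
  (Dfn.ex (P := fun v S => (∃ L : N, (∃ f : N, (∃ y : N, (∃ Y : N, (∃ u : N, (∃ q : N, ((Tri OD) (v 3) (v 0) E0 ∧ (((RCd OD TN E0) (v 3) (v 0) ∧ ZFSet.pair (v 3).1 (v 4).1 ∈ (v 1).1)) ∧ CST (v 4) S ∧ (Tri TL) (v 0) L E0 ∧ ((∀ p : N, (p.1 ∈ f.1 ↔ (∃ k : N, (∃ w : N, (∃ c : N, (∃ j : N, (∃ i : N, ((Tri TY) L k i ∧ (Tri SC) j k E0 ∧ (Tri OD) c (v 0) j ∧ (((RCd OD TN E0) c (v 0) ∧ ZFSet.pair c.1 w.1 ∈ (v 1).1)) ∧ p.1 = ZFSet.pair k.1 w.1))))))))) ∧ y.1 = ZFSet.pair L.1 f.1 ∧ (CYd TC E0) (v 0) Y ∧ u.1 = ZFSet.pair S.1 y.1 ∧ q.1 = ZFSet.pair Y.1 u.1 ∧ (fun x y => F x = y) q (v 2)))))))))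
  (Dfn.ex (P := fun v L => (∃ f : N, (∃ y : N, (∃ Y : N, (∃ u : N, (∃ q : N, ((Tri OD) (v 3) (v 0) E0 ∧ (((RCd OD TN E0) (v 3) (v 0) ∧ ZFSet.pair (v 3).1 (v 4).1 ∈ (v 1).1)) ∧ CST (v 4) (v 5) ∧ (Tri TL) (v 0) L E0 ∧ ((∀ p : N, (p.1 ∈ f.1 ↔ (∃ k : N, (∃ w : N, (∃ c : N, (∃ j : N, (∃ i : N, ((Tri TY) L k i ∧ (Tri SC) j k E0 ∧ (Tri OD) c (v 0) j ∧ (((RCd OD TN E0) c (v 0) ∧ ZFSet.pair c.1 w.1 ∈ (v 1).1)) ∧ p.1 = ZFSet.pair k.1 w.1))))))))) ∧ y.1 = ZFSet.pair L.1 f.1 ∧ (CYd TC E0) (v 0) Y ∧ u.1 = ZFSet.pair (v 5).1 y.1 ∧ q.1 = ZFSet.pair Y.1 u.1 ∧ (fun x y => F x = y) q (v 2))))))))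
  (Dfn.ex (P := fun v f => (∃ y : N, (∃ Y : N, (∃ u : N, (∃ q : N, ((Tri OD) (v 3) (v 0) E0 ∧ (((RCd OD TN E0) (v 3) (v 0) ∧ ZFSet.pair (v 3).1 (v 4).1 ∈ (v 1).1)) ∧ CST (v 4) (v 5) ∧ (Tri TL) (v 0) (v 6) E0 ∧ ((∀ p : N, (p.1 ∈ f.1 ↔ (∃ k : N, (∃ w : N, (∃ c : N, (∃ j : N, (∃ i : N, ((Tri TY) (v 6) k i ∧ (Tri SC) j k E0 ∧ (Tri OD) c (v 0) j ∧ (((RCd OD TN E0) c (v 0) ∧ ZFSet.pair c.1 w.1 ∈ (v 1).1)) ∧ p.1 = ZFSet.pair k.1 w.1))))))))) ∧ y.1 = ZFSet.pair (v 6).1 f.1 ∧ (CYd TC E0) (v 0) Y ∧ u.1 = ZFSet.pair (v 5).1 y.1 ∧ q.1 = ZFSet.pair Y.1 u.1 ∧ (fun x y => F x = y) q (v 2)))))))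
  (Dfn.ex (P := fun v y => (∃ Y : N, (∃ u : N, (∃ q : N, ((Tri OD) (v 3) (v 0) E0 ∧ (((RCd OD TN E0) (v 3) (v 0) ∧ ZFSet.pair (v 3).1 (v 4).1 ∈ (v 1).1)) ∧ CST (v 4) (v 5) ∧ (Tri TL) (v 0) (v 6) E0 ∧ ((∀ p : N, (p.1 ∈ (v 7).1 ↔ (∃ k : N, (∃ w : N, (∃ c : N, (∃ j : N, (∃ i : N, ((Tri TY) (v 6) k i ∧ (Tri SC) j k E0 ∧ (Tri OD) c (v 0) j ∧ (((RCd OD TN E0) c (v 0) ∧ ZFSet.pair c.1 w.1 ∈ (v 1).1)) ∧ p.1 = ZFSet.pair k.1 w.1))))))))) ∧ y.1 = ZFSet.pair (v 6).1 (v 7).1 ∧ (CYd TC E0) (v 0) Y ∧ u.1 = ZFSet.pair (v 5).1 y.1 ∧ q.1 = ZFSet.pair Y.1 u.1 ∧ (fun x y => F x = y) q (v 2))))))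
  (Dfn.ex (P := fun v Y => (∃ u : N, (∃ q : N, ((Tri OD) (v 3) (v 0) E0 ∧ (((RCd OD TN E0) (v 3) (v 0) ∧ ZFSet.pair (v 3).1 (v 4).1 ∈ (v 1).1)) ∧ CST (v 4) (v 5) ∧ (Tri TL) (v 0) (v 6) E0 ∧ ((∀ p : N, (p.1 ∈ (v 7).1 ↔ (∃ k : N, (∃ w : N, (∃ c : N, (∃ j : N, (∃ i : N, ((Tri TY) (v 6) k i ∧ (Tri SC) j k E0 ∧ (Tri OD) c (v 0) j ∧ (((RCd OD TN E0) c (v 0) ∧ ZFSet.pair c.1 w.1 ∈ (v 1).1)) ∧ p.1 = ZFSet.pair k.1 w.1))))))))) ∧ (v 8).1 = ZFSet.pair (v 6).1 (v 7).1 ∧ (CYd TC E0) (v 0) Y ∧ u.1 = ZFSet.pair (v 5).1 (v 8).1 ∧ q.1 = ZFSet.pair Y.1 u.1 ∧ (fun x y => F x = y) q (v 2)))))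
  (Dfn.ex (P := fun v u => (∃ q : N, ((Tri OD) (v 3) (v 0) E0 ∧ (((RCd OD TN E0) (v 3) (v 0) ∧ ZFSet.pair (v 3).1 (v 4).1 ∈ (v 1).1)) ∧ CST (v 4) (v 5) ∧ (Tri TL) (v 0) (v 6) E0 ∧ ((∀ p : N, (p.1 ∈ (v 7).1 ↔ (∃ k : N, (∃ w : N, (∃ c : N, (∃ j : N, (∃ i : N, ((Tri TY) (v 6) k i ∧ (Tri SC) j k E0 ∧ (Tri OD) c (v 0) j ∧ (((RCd OD TN E0) c (v 0) ∧ ZFSet.pair c.1 w.1 ∈ (v 1).1)) ∧ p.1 = ZFSet.pair k.1 w.1))))))))) ∧ (v 8).1 = ZFSet.pair (v 6).1 (v 7).1 ∧ (CYd TC E0) (v 0) (v 9) ∧ u.1 = ZFSet.pair (v 5).1 (v 8).1 ∧ q.1 = ZFSet.pair (v 9).1 u.1 ∧ (fun x y => F x = y) q (v 2))))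
  (Dfn.ex (P := fun v q => ((Tri OD) (v 3) (v 0) E0 ∧ (((RCd OD TN E0) (v 3) (v 0) ∧ ZFSet.pair (v 3).1 (v 4).1 ∈ (v 1).1)) ∧ CST (v 4) (v 5) ∧ (Tri TL) (v 0) (v 6) E0 ∧ ((∀ p : N, (p.1 ∈ (v 7).1 ↔ (∃ k : N, (∃ w : N, (∃ c : N, (∃ j : N, (∃ i : N, ((Tri TY) (v 6) k i ∧ (Tri SC) j k E0 ∧ (Tri OD) c (v 0) j ∧ (((RCd OD TN E0) c (v 0) ∧ ZFSet.pair c.1 w.1 ∈ (v 1).1)) ∧ p.1 = ZFSet.pair k.1 w.1))))))))) ∧ (v 8).1 = ZFSet.pair (v 6).1 (v 7).1 ∧ (CYd TC E0) (v 0) (v 9) ∧ (v 10).1 = ZFSet.pair (v 5).1 (v 8).1 ∧ q.1 = ZFSet.pair (v 9).1 (v 10).1 ∧ (fun x y => F x = y) q (v 2)))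
  (Dfn.and (Dfn.subst3 (P := (Tri OD)) (Tri_dfn OD) (DT.var _) (DT.var _) (DT.const E0))
  (Dfn.and (Dfn.and (Dfn.subst2 (P := (RCd OD TN E0)) (RCd_dfn OD TN E0) (DT.var _) (DT.var _))
  (Dfn.pairMem (DT.var _) (DT.var _) (DT.var _)))
  (Dfn.and (Dfn.subst2 (P := CST) CST_dfn (DT.var _) (DT.var _))
  (Dfn.and (Dfn.subst3 (P := (Tri TL)) (Tri_dfn TL) (DT.var _) (DT.var _) (DT.const E0))
  (Dfn.and (Dfn.all (P := fun v p => (p.1 ∈ (v 7).1 ↔ (∃ k : N, (∃ w : N, (∃ c : N, (∃ j : N, (∃ i : N, ((Tri TY) (v 6) k i ∧ (Tri SC) j k E0 ∧ (Tri OD) c (v 0) j ∧ (((RCd OD TN E0) c (v 0) ∧ ZFSet.pair c.1 w.1 ∈ (v 1).1)) ∧ p.1 = ZFSet.pair k.1 w.1))))))))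
  (Dfn.iff (Dfn.mem (DT.var _) (DT.var _))
  (Dfn.ex (P := fun v k => (∃ w : N, (∃ c : N, (∃ j : N, (∃ i : N, ((Tri TY) (v 6) k i ∧ (Tri SC) j k E0 ∧ (Tri OD) c (v 0) j ∧ (((RCd OD TN E0) c (v 0) ∧ ZFSet.pair c.1 w.1 ∈ (v 1).1)) ∧ (v 12).1 = ZFSet.pair k.1 w.1))))))
  (Dfn.ex (P := fun v w => (∃ c : N, (∃ j : N, (∃ i : N, ((Tri TY) (v 6) (v 13) i ∧ (Tri SC) j (v 13) E0 ∧ (Tri OD) c (v 0) j ∧ (((RCd OD TN E0) c (v 0) ∧ ZFSet.pair c.1 w.1 ∈ (v 1).1)) ∧ (v 12).1 = ZFSet.pair (v 13).1 w.1)))))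
  (Dfn.ex (P := fun v c => (∃ j : N, (∃ i : N, ((Tri TY) (v 6) (v 13) i ∧ (Tri SC) j (v 13) E0 ∧ (Tri OD) c (v 0) j ∧ (((RCd OD TN E0) c (v 0) ∧ ZFSet.pair c.1 (v 14).1 ∈ (v 1).1)) ∧ (v 12).1 = ZFSet.pair (v 13).1 (v 14).1))))
  (Dfn.ex (P := fun v j => (∃ i : N, ((Tri TY) (v 6) (v 13) i ∧ (Tri SC) j (v 13) E0 ∧ (Tri OD) (v 15) (v 0) j ∧ (((RCd OD TN E0) (v 15) (v 0) ∧ ZFSet.pair (v 15).1 (v 14).1 ∈ (v 1).1)) ∧ (v 12).1 = ZFSet.pair (v 13).1 (v 14).1)))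
  (Dfn.ex (P := fun v i => ((Tri TY) (v 6) (v 13) i ∧ (Tri SC) (v 16) (v 13) E0 ∧ (Tri OD) (v 15) (v 0) (v 16) ∧ (((RCd OD TN E0) (v 15) (v 0) ∧ ZFSet.pair (v 15).1 (v 14).1 ∈ (v 1).1)) ∧ (v 12).1 = ZFSet.pair (v 13).1 (v 14).1))
  (Dfn.and (Dfn.subst3 (P := (Tri TY)) (Tri_dfn TY) (DT.var _) (DT.var _) (DT.var _))
  (Dfn.and (Dfn.subst3 (P := (Tri SC)) (Tri_dfn SC) (DT.var _) (DT.var _) (DT.const E0))
  (Dfn.and (Dfn.subst3 (P := (Tri OD)) (Tri_dfn OD) (DT.var _) (DT.var _) (DT.var _))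
  (Dfn.and (Dfn.and (Dfn.subst2 (P := (RCd OD TN E0)) (RCd_dfn OD TN E0) (DT.var _) (DT.var _))
  (Dfn.pairMem (DT.var _) (DT.var _) (DT.var _)))
  (Dfn.isPair (DT.var _) (DT.var _) (DT.var _)))))))))))))
  (Dfn.and (Dfn.isPair (DT.var _) (DT.var _) (DT.var _))
  (Dfn.and (Dfn.subst2 (P := (CYd TC E0)) (CYd_dfn TC E0) (DT.var _) (DT.var _))
  (Dfn.and (Dfn.isPair (DT.var _) (DT.var _) (DT.var _))
  (Dfn.and (Dfn.isPair (DT.var _) (DT.var _) (DT.var _))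
  (Dfn.subst2 (P := (fun x y => F x = y)) hF (DT.var _) (DT.var _)))))))))))))))))))))
  (Dfn.and (Dfn.not (Dfn.subst3 (P := (Tri TN)) (Tri_dfn TN) (DT.var _) (DT.const E0) (DT.const E0)))
  (Dfn.subst2 (P := (GBCd TR TM KZ E0)) (GBCd_dfn TR TM KZ E0) (DT.var _) (DT.var _))))))
  refine Dfn.congr (fun v => ?_) h
  exact Iff.rfl


/-! ## Semantics -/

include hN in
theorem tri_iff {TT a b c : N} {Q : ℕ → ℕ → ℕ → Prop} (hT : TT.1 = relThreeZ Q) :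
    Tri TT a b c ↔ ∃ i j k, Q i j k ∧ a.1 = natZ i ∧ b.1 = natZ j ∧ c.1 = natZ k := by
  unfold Tri
  constructor
  · rintro ⟨e, h1, h2⟩
    rw [hT] at h2
    obtain ⟨i, j, k, h3, h4, h5⟩ := pair_relThreeZ h2
    rw [h1, ZFSet.pair_inj] at h5
    exact ⟨i, j, k, h3, h4, h5.1, h5.2⟩
  · rintro ⟨i, j, k, h1, h2, h3, h4⟩
    refine ⟨⟨_, hN.pair_mem b.2 c.2⟩, rfl, ?_⟩
    show ZFSet.pair a.1 (ZFSet.pair b.1 c.1) ∈ TT.1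
    rw [hT, h2, h3, h4]
    exact pair_mem_relThreeZ.2 h1

include hN in
theorem tri_nat {TT a b c : N} {Q : ℕ → ℕ → ℕ → Prop} (hT : TT.1 = relThreeZ Q) {i j k : ℕ}
    (ha : a.1 = natZ i) (hb : b.1 = natZ j) (hc : c.1 = natZ k) : Tri TT a b c ↔ Q i j k := by
  rw [tri_iff (hN := hN) hT]
  constructor
  · rintro ⟨i', j', k', h, h1, h2, h3⟩
    rw [ha, natZ_inj] at h1
    rw [hb, natZ_inj] at h2
    rw [hc, natZ_inj] at h3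
    rw [h1, h2, h3]; exact h
  · intro h; exact ⟨i, j, k, h, ha, hb, hc⟩

/-- The `j`-th child of `n`. -/
def ch (n j : ℕ) : ℕ := 2 * Nat.pair n j + 1

theorem ch_inj {n j n' j' : ℕ} (h : ch n j = ch n' j') : n = n' ∧ j = j' := by
  unfold ch at h
  have : Nat.pair n j = Nat.pair n' j' := by omega
  exact Nat.pair_eq_pair.1 this

/-- The data for the recursion. -/
structure RDat (e : ℕ → Ordinal.{u}) (xx : ℕ → ℕ → ℕ) (tt : ℕ → Tm.{u}) (nn : ℕ → Prop)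
    (rep lim : ℕ → ℕ → Prop) (vK : ℕ → ZFSet.{u}) : Prop where
  wf : ∀ n, nn n → WF.{u} (xx n)
  ovr : ∀ n, nn n → Over (fun _ => e (ch n 0)) (tt n)
  kid : ∀ n, nn n → ∀ j ξ, (os (tt n))[j]? = some ξ → e (ch n (j + 1)) = ξ
  val : ∀ n, nn n → vl (xx n) (fun _ => e (ch n 0)) (tt n) = (e n).toZFSet
  lt : ∀ n, nn n → ∀ j, e (ch n j) < e n
  rep_uniq : ∀ n m m', rep n m → rep n m' → m = m'
  vrep : ∀ n, ¬ nn n → ∀ m, rep n m → vK m = (e n).toZFSet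
  vlim : ∀ n, ¬ nn n → (¬ ∃ m, rep n m) → ∀ z, z ∈ (e n).toZFSet ↔ ∃ j, lim n j ∧ z ∈ vK j

/-- The sets needed in the model for the recursion. -/
structure RSet (N : Set ZFSet.{u}) (xx : ℕ → ℕ → ℕ) (tt : ℕ → Tm.{u}) (nn : ℕ → Prop)
    (rep lim : ℕ → ℕ → Prop) (vK : ℕ → ZFSet.{u}) (kz : ZFSet.{u}) : Prop where
  od : relThreeZ.{u} (fun n l j => n = ch l j) ∈ N
  tn : relThreeZ.{u} (fun n a b => nn n ∧ a = 0 ∧ b = 0) ∈ N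
  tr : relThreeZ.{u} (fun n m b => rep n m ∧ b = 0) ∈ N
  tm : relThreeZ.{u} (fun n m b => lim n m ∧ b = 0) ∈ N
  tl : relThreeZ.{u} (fun n L b => L = lb (tt n) ∧ b = 0) ∈ N
  tc : relThreeZ.{u} (fun n c b => xx n c ≠ 0 ∧ b = 0) ∈ N
  sc : relThreeZ.{u} (fun j k b => j = k + 1 ∧ b = 0) ∈ N
  ev : relThreeZ.{u} (fun n m b => n = 2 * m ∧ b = 0) ∈ N
  kz_mem : kz ∈ N
  kz_iff : ∀ m v, ZFSet.pair (natZ m) v ∈ kz ↔ v = vK m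

section

variable {e : ℕ → Ordinal.{u}} {xx : ℕ → ℕ → ℕ} {tt : ℕ → Tm.{u}} {nn : ℕ → Prop}
  {rep lim : ℕ → ℕ → Prop} {vK : ℕ → ZFSet.{u}} {kz : ZFSet.{u}}

include hN in
theorem rcd_iff {OD TN E0 : N} (hOD : OD.1 = relThreeZ.{u} (fun n l j => n = ch l j))
    (hTN : TN.1 = relThreeZ.{u} (fun n a b => nn n ∧ a = 0 ∧ b = 0)) (hE0 : E0.1 = natZ 0) {k n : N} :
    RCd OD TN E0 k n ↔ ∃ n0 j, nn n0 ∧ n.1 = natZ n0 ∧ k.1 = natZ (ch n0 j) := by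
  unfold RCd
  constructor
  · rintro ⟨h1, j, h2⟩
    obtain ⟨n0, _, _, ⟨h3, _, _⟩, h4, _, _⟩ := (tri_iff (hN := hN) hTN).1 h1
    obtain ⟨k0, n1, j0, h5, h6, h7, h8⟩ := (tri_iff (hN := hN) hOD).1 h2
    rw [h4, natZ_inj] at h7
    subst h7
    exact ⟨n0, j0, h3, h4, by rw [h6, h5]⟩
  · rintro ⟨n0, j, h1, h2, h3⟩
    refine ⟨(tri_nat (hN := hN) hTN h2 hE0 hE0).2 ⟨h1, rfl, rfl⟩, ⟨natZ j, hN.natZ_mem_N j⟩, ?_⟩
    exact (tri_nat (hN := hN) hOD h3 h2 rfl).2 rfl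

include hN in
theorem rec_unique {OD TY TN TR TM TL TC SC KZ E0 : N} {F : N → N}
    (hOD : OD.1 = relThreeZ.{u} (fun n l j => n = ch l j))
    (hTR : TR.1 = relThreeZ.{u} (fun n m b => rep n m ∧ b = 0))
    (hTL : TL.1 = relThreeZ.{u} (fun n L b => L = lb (tt n) ∧ b = 0))
    (hrep : ∀ n m m', rep n m → rep n m' → m = m')
    (hKZ : ∀ m v, ZFSet.pair (natZ m) v ∈ KZ.1 ↔ v = vK m)
    {n : N} {r : N → N → Prop} {v v' : N} (h : GGd OD TY TN TR TM TL TC SC KZ E0 F n r v)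
    (h' : GGd OD TY TN TR TM TL TC SC KZ E0 F n r v') : v = v' := by
  obtain ⟨hfun, h⟩ := h
  obtain ⟨_, h'⟩ := h'
  rcases h with ⟨hn, h⟩ | ⟨hn, h⟩
  · rcases h' with ⟨_, h'⟩ | ⟨hn', _⟩
    swap
    · exact (hn' hn).elim
    obtain ⟨c0, η, S, L, f, y, Y, u, q, h1, h2, h3, h4, h5, h6, h7, h8, h9, h10⟩ := h
    obtain ⟨c0', η', S', L', f', y', Y', u', q', h1', h2', h3', h4', h5', h6', h7', h8', h9', h10'⟩ := h'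
    obtain ⟨i0, j0, k0, g1, g2, g3, g4⟩ := (tri_iff (hN := hN) hOD).1 h1
    obtain ⟨i0', j0', k0', g1', g2', g3', g4'⟩ := (tri_iff (hN := hN) hOD).1 h1'
    have e1 : c0 = c0' := by
      apply Subtype.ext
      rw [g3, natZ_inj] at g3'
      rw [g4, natZ_inj] at g4'
      rw [g2, g2', g1, g1', g3', g4']
    subst e1
    have e2 := hfun _ _ _ h2 h2'
    subst e2
    have e3 : S = S' := Subtype.ext (hN.ext' S.2 S'.2 fun z => (h3 z).trans (h3' z).symm)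
    subst e3
    have e4 : L = L' := by
      obtain ⟨a1, a2, a3, b1, b2, b3, b4⟩ := (tri_iff (hN := hN) hTL).1 h4
      obtain ⟨a1', a2', a3', b1', b2', b3', b4'⟩ := (tri_iff (hN := hN) hTL).1 h4'
      apply Subtype.ext
      rw [b2, natZ_inj] at b2'
      rw [b3, b3', b1.1, b1'.1, b2']
    subst e4
    have e5 : f = f' := Subtype.ext (hN.ext' f.2 f'.2 fun z => (h5 z).trans (h5' z).symm)
    subst e5
    have e6 : Y = Y' := Subtype.ext (hN.ext' Y.2 Y'.2 fun z => (h7 z).trans (h7' z).symm)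
    subst e6
    have e7 : y = y' := Subtype.ext (h6.trans h6'.symm)
    subst e7
    have e8 : u = u' := Subtype.ext (h8.trans h8'.symm)
    subst e8
    have e9 : q = q' := Subtype.ext (h9.trans h9'.symm)
    subst e9
    exact h10.symm.trans h10'
  · rcases h' with ⟨hn', _⟩ | ⟨_, h'⟩
    · exact (hn hn').elim
    have hm : ∀ m : N, Tri TR n m E0 → ∃ n0 m0, rep n0 m0 ∧ n.1 = natZ n0 ∧ m.1 = natZ m0 := by
      intro m h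
      obtain ⟨a1, a2, a3, b1, b2, b3, b4⟩ := (tri_iff (hN := hN) hTR).1 h
      exact ⟨a1, a2, b1.1, b2, b3⟩
    rcases h with ⟨m, h1, h2⟩ | ⟨h1, h2⟩
    · rcases h' with ⟨m', h1', h2'⟩ | ⟨h1', h2'⟩
      · obtain ⟨n0, m0, g1, g2, g3⟩ := hm m h1
        obtain ⟨n0', m0', g1', g2', g3'⟩ := hm m' h1'
        rw [g2, natZ_inj] at g2'
        subst g2'
        have := hrep _ _ _ g1 g1'
        subst this
        rw [g3, hKZ] at h2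
        rw [g3', hKZ] at h2'
        exact Subtype.ext (h2.trans h2'.symm)
      · exact (h1' ⟨m, h1⟩).elim
    · rcases h' with ⟨m', h1', h2'⟩ | ⟨h1', h2'⟩
      · exact (h1 ⟨m', h1'⟩).elim
      · exact Subtype.ext (hN.ext' v.2 v'.2 fun z => (h2 z).trans (h2' z).symm)

include hN in
theorem rec_exists {OD TY TN TR TM TL TC SC KZ E0 : N} {F : N → N}
    (hOD : OD.1 = relThreeZ.{u} (fun n l j => n = ch l j))
    (hTN : TN.1 = relThreeZ.{u} (fun n a b => nn n ∧ a = 0 ∧ b = 0))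
    (hTR : TR.1 = relThreeZ.{u} (fun n m b => rep n m ∧ b = 0))
    (hTM : TM.1 = relThreeZ.{u} (fun n m b => lim n m ∧ b = 0))
    (hTL : TL.1 = relThreeZ.{u} (fun n L b => L = lb (tt n) ∧ b = 0))
    (hTC : TC.1 = relThreeZ.{u} (fun n c b => xx n c ≠ 0 ∧ b = 0))
    (hSC : SC.1 = relThreeZ.{u} (fun j k b => j = k + 1 ∧ b = 0))
    (hTY : TY.1 = relThreeZ.{u} Ty)
    (hE0 : E0.1 = natZ 0)
    (hKZ : ∀ m v, ZFSet.pair (natZ m) v ∈ KZ.1 ↔ v = vK m)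
    (n h : N) (hd : ∀ y, RCd OD TN E0 y n → ∃ w : N, ZFSet.pair y.1 w.1 ∈ h.1)
    (hu : ∀ y, RCd OD TN E0 y n → ∀ w w' : N, ZFSet.pair y.1 w.1 ∈ h.1 →
      ZFSet.pair y.1 w'.1 ∈ h.1 → w = w') :
    ∃ v, GGd OD TY TN TR TM TL TC SC KZ E0 F n (fun y w => RCd OD TN E0 y n ∧
      ZFSet.pair y.1 w.1 ∈ h.1) v := by
  have hfun : ∀ y w w2 : N, (RCd OD TN E0 y n ∧ ZFSet.pair y.1 w.1 ∈ h.1) →
      (RCd OD TN E0 y n ∧ ZFSet.pair y.1 w2.1 ∈ h.1) → w = w2 := fun y w w2 h1 h2 =>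
    hu y h1.1 w w2 h1.2 h2.2
  by_cases hn : Tri TN n E0 E0
  · obtain ⟨n0, _, _, ⟨hnn, _, _⟩, hn0, _, _⟩ := (tri_iff (hN := hN) hTN).1 hn
    have hrc : ∀ j, RCd OD TN E0 ⟨natZ (ch n0 j), hN.natZ_mem_N _⟩ n := fun j =>
      (rcd_iff (hN := hN) hOD hTN hE0).2 ⟨n0, j, hnn, hn0, rfl⟩
    obtain ⟨η, hη⟩ := hd _ (hrc 0)
    let L : N := ⟨natZ (lb (tt n0)), hN.natZ_mem_N _⟩
    -- the set `f`
    have hFd : hN.Dfn (fun v : Fin 2 → N => (∃ w : N, (∃ c : N, (∃ j : N, (∃ i : N, ((Tri TY) L (v 0) i ∧ (Tri SC) j (v 0) E0 ∧ (Tri OD) c n j ∧ (((RCd OD TN E0) c n ∧ ZFSet.pair c.1 w.1 ∈ h.1)) ∧ (v 1).1 = ZFSet.pair (v 0).1 w.1)))))) := (Dfn.ex (P := fun v w => (∃ c : N, (∃ j : N, (∃ i : N, ((Tri TY) L (v 0) i ∧ (Tri SC) j (v 0) E0 ∧ (Tri OD) c n j ∧ (((RCd OD TN E0) c n ∧ ZFSet.pair c.1 w.1 ∈ h.1)) ∧ (v 1).1 = ZFSet.pair (v 0).1 w.1)))))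
  (Dfn.ex (P := fun v c => (∃ j : N, (∃ i : N, ((Tri TY) L (v 0) i ∧ (Tri SC) j (v 0) E0 ∧ (Tri OD) c n j ∧ (((RCd OD TN E0) c n ∧ ZFSet.pair c.1 (v 2).1 ∈ h.1)) ∧ (v 1).1 = ZFSet.pair (v 0).1 (v 2).1))))
  (Dfn.ex (P := fun v j => (∃ i : N, ((Tri TY) L (v 0) i ∧ (Tri SC) j (v 0) E0 ∧ (Tri OD) (v 3) n j ∧ (((RCd OD TN E0) (v 3) n ∧ ZFSet.pair (v 3).1 (v 2).1 ∈ h.1)) ∧ (v 1).1 = ZFSet.pair (v 0).1 (v 2).1)))
  (Dfn.ex (P := fun v i => ((Tri TY) L (v 0) i ∧ (Tri SC) (v 4) (v 0) E0 ∧ (Tri OD) (v 3) n (v 4) ∧ (((RCd OD TN E0) (v 3) n ∧ ZFSet.pair (v 3).1 (v 2).1 ∈ h.1)) ∧ (v 1).1 = ZFSet.pair (v 0).1 (v 2).1))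
  (Dfn.and (Dfn.subst3 (P := (Tri TY)) (Tri_dfn TY) (DT.const L) (DT.var _) (DT.var _))
  (Dfn.and (Dfn.subst3 (P := (Tri SC)) (Tri_dfn SC) (DT.var _) (DT.var _) (DT.const E0))
  (Dfn.and (Dfn.subst3 (P := (Tri OD)) (Tri_dfn OD) (DT.var _) (DT.const n) (DT.var _))
  (Dfn.and (Dfn.and (Dfn.subst2 (P := (RCd OD TN E0)) (RCd_dfn OD TN E0) (DT.var _) (DT.const n))
  (Dfn.pairMem (DT.var _) (DT.var _) (DT.const h)))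
  (Dfn.isPair (DT.var _) (DT.var _) (DT.var _))))))))))
    obtain ⟨f, hf, hf'⟩ := hN.exists_repl (F := fun k p : N => (∃ w : N, (∃ c : N, (∃ j : N, (∃ i : N, ((Tri TY) L k i ∧ (Tri SC) j k E0 ∧ (Tri OD) c n j ∧ (((RCd OD TN E0) c n ∧ ZFSet.pair c.1 w.1 ∈ h.1)) ∧ p.1 = ZFSet.pair k.1 w.1)))))) hFd hN.omZ_mem (by
      intro k hk p p' h1 h2
      obtain ⟨w, c, j, i, h3, h4, h5, h6, h7⟩ := h1
      obtain ⟨w', c', j', i', h3', h4', h5', h6', h7'⟩ := h2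
      obtain ⟨a1, a2, a3, b1, b2, b3, b4⟩ := (tri_iff (hN := hN) hSC).1 h4
      obtain ⟨a1', a2', a3', b1', b2', b3', b4'⟩ := (tri_iff (hN := hN) hSC).1 h4'
      rw [b3, natZ_inj] at b3'
      have e1 : j = j' := Subtype.ext (by rw [b2, b2', b1.1, b1'.1, b3'])
      subst e1
      obtain ⟨d1, d2, d3, g1, g2, g3, g4⟩ := (tri_iff (hN := hN) hOD).1 h5
      obtain ⟨d1', d2', d3', g1', g2', g3', g4'⟩ := (tri_iff (hN := hN) hOD).1 h5'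
      rw [g3, natZ_inj] at g3'
      rw [g4, natZ_inj] at g4'
      have e2 : c = c' := Subtype.ext (by rw [g2, g2', g1, g1', g3', g4'])
      subst e2
      have e3 := hfun _ _ _ h6 h6'
      subst e3
      exact Subtype.ext (h7.trans h7'.symm))
    -- the set `Y`
    have hYd : hN.Dfn (fun v : Fin 1 → N => (Tri TC) n (v 0) E0) := (Dfn.subst3 (P := (Tri TC)) (Tri_dfn TC) (DT.const n) (DT.var _) (DT.const E0))
    obtain ⟨Y, hY, hY'⟩ := hN.exists_sep (P := fun c => (Tri TC) n c E0) hYd hN.omZ_mem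
    have hS : ZFSet.prod omZ {η.1} ∈ N := hN.prod_mem hN.omZ_mem (hN.singleton_mem η.2)
    have hy := hN.pair_mem L.2 hf
    have hu' := hN.pair_mem hS hy
    have hq := hN.pair_mem hY hu'
    refine ⟨F ⟨_, hq⟩, hfun, Or.inl ⟨hn, ⟨natZ (ch n0 0), hN.natZ_mem_N _⟩, η, ⟨_, hS⟩, L, ⟨f, hf⟩,
      ⟨_, hy⟩, ⟨Y, hY⟩, ⟨_, hu'⟩, ⟨_, hq⟩, ?_, ⟨hrc 0, hη⟩, ?_, ?_, ?_, rfl, ?_, rfl, rfl, rfl⟩⟩
    · exact (tri_nat (hN := hN) hOD rfl hn0 hE0).2 rfl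
    · intro p
      show p.1 ∈ ZFSet.prod omZ {η.1} ↔ _
      rw [ZFSet.mem_prod]
      constructor
      · rintro ⟨i, hi, w, hw, h1⟩
        rw [ZFSet.mem_singleton] at hw
        exact ⟨⟨i, hN.mem_of_mem hN.omZ_mem hi⟩, hi, by rw [h1, hw]⟩
      · rintro ⟨i, hi, h1⟩
        exact ⟨i.1, hi, η.1, ZFSet.mem_singleton.2 rfl, h1⟩
    · exact (tri_nat (hN := hN) hTL hn0 rfl hE0).2 ⟨rfl, rfl⟩
    · intro p
      show p.1 ∈ f ↔ _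
      rw [hf']
      constructor
      · rintro ⟨k, hk, w, c, j, i, h1, h2, h3, h4, h5⟩
        exact ⟨k, w, c, j, i, h1, h2, h3, h4, h5⟩
      · rintro ⟨k, w, c, j, i, h1, h2, h3, h4, h5⟩
        refine ⟨k, ?_, w, c, j, i, h1, h2, h3, h4, h5⟩
        obtain ⟨a1, a2, a3, b1, b2, b3, b4⟩ := (tri_iff (hN := hN) hSC).1 h2
        rw [b3]; exact natZ_mem_omZ _
    · intro c
      show c.1 ∈ Y ↔ _
      rw [hY']
      constructor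
      · rintro ⟨_, _, h1⟩; exact h1
      · intro h1
        refine ⟨?_, c.2, h1⟩
        obtain ⟨a1, a2, a3, b1, b2, b3, b4⟩ := (tri_iff (hN := hN) hTC).1 h1
        rw [b3]; exact natZ_mem_omZ _
  · by_cases hm : ∃ m, Tri TR n m E0
    · obtain ⟨m, hm⟩ := hm
      obtain ⟨a1, a2, a3, b1, b2, b3, b4⟩ := (tri_iff (hN := hN) hTR).1 hm
      have h1 : ZFSet.pair (natZ a2) (vK a2) ∈ KZ.1 := (hKZ _ _).2 rfl
      refine ⟨⟨vK a2, (hN.of_pair_mem (hN.mem_of_mem KZ.2 h1)).2⟩, hfun, Or.inr ⟨hn, Or.inl ⟨m, hm, ?_⟩⟩⟩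
      rw [b3]; exact h1
    · have hLd : hN.Dfn (fun v : Fin 1 → N => (∃ j : N, (∃ w : N, ((Tri TM) n j E0 ∧ ZFSet.pair j.1 w.1 ∈ KZ.1 ∧ (v 0).1 ∈ w.1)))) := (Dfn.ex (P := fun v j => (∃ w : N, ((Tri TM) n j E0 ∧ ZFSet.pair j.1 w.1 ∈ KZ.1 ∧ (v 0).1 ∈ w.1)))
  (Dfn.ex (P := fun v w => ((Tri TM) n (v 1) E0 ∧ ZFSet.pair (v 1).1 w.1 ∈ KZ.1 ∧ (v 0).1 ∈ w.1))
  (Dfn.and (Dfn.subst3 (P := (Tri TM)) (Tri_dfn TM) (DT.const n) (DT.var _) (DT.const E0))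
  (Dfn.and (Dfn.pairMem (DT.var _) (DT.var _) (DT.const KZ))
  (Dfn.mem (DT.var _) (DT.var _))))))
      obtain ⟨w, hw, hw'⟩ := hN.exists_sep (P := fun z => (∃ j : N, (∃ w : N, ((Tri TM) n j E0 ∧ ZFSet.pair j.1 w.1 ∈ KZ.1 ∧ z.1 ∈ w.1)))) hLd
        (hN.sUnion_mem (hN.sUnion_mem (hN.sUnion_mem KZ.2)))
      refine ⟨⟨w, hw⟩, hfun, Or.inr ⟨hn, Or.inr ⟨hm, fun z => ?_⟩⟩⟩
      show z.1 ∈ w ↔ _
      rw [hw']
      constructor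
      · rintro ⟨_, _, h1⟩; exact h1
      · intro h1
        refine ⟨?_, z.2, h1⟩
        obtain ⟨j, w', h2, h3, h4⟩ := h1
        exact ZFSet.mem_sUnion.2 ⟨_, (mem_sUnion_sUnion_pair h3).2, h4⟩

/-- The recursion inside the model recovers the sequence. -/
theorem rec_mem (hN : CTM N) (hQ : HasQ N) (hD : RDat e xx tt nn rep lim vK)
    (hS : RSet N xx tt nn rep lim vK kz) : Ss (fun m => e (2 * m)) ∈ N := by
  obtain ⟨OD, hOD⟩ : ∃ OD : N, OD.1 = relThreeZ.{u} (fun n l j => n = ch l j) := ⟨⟨_, hS.od⟩, rfl⟩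
  obtain ⟨TN, hTN⟩ : ∃ TN : N, TN.1 = relThreeZ.{u} (fun n a b => nn n ∧ a = 0 ∧ b = 0) :=
    ⟨⟨_, hS.tn⟩, rfl⟩
  obtain ⟨TR, hTR⟩ : ∃ TR : N, TR.1 = relThreeZ.{u} (fun n m b => rep n m ∧ b = 0) :=
    ⟨⟨_, hS.tr⟩, rfl⟩
  obtain ⟨TM, hTM⟩ : ∃ TM : N, TM.1 = relThreeZ.{u} (fun n m b => lim n m ∧ b = 0) :=
    ⟨⟨_, hS.tm⟩, rfl⟩
  obtain ⟨TL, hTL⟩ : ∃ TL : N, TL.1 = relThreeZ.{u} (fun n L b => L = lb (tt n) ∧ b = 0) :=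
    ⟨⟨_, hS.tl⟩, rfl⟩
  obtain ⟨TC, hTC⟩ : ∃ TC : N, TC.1 = relThreeZ.{u} (fun n c b => xx n c ≠ 0 ∧ b = 0) :=
    ⟨⟨_, hS.tc⟩, rfl⟩
  obtain ⟨SC, hSC⟩ : ∃ SC : N, SC.1 = relThreeZ.{u} (fun j k b => j = k + 1 ∧ b = 0) :=
    ⟨⟨_, hS.sc⟩, rfl⟩
  obtain ⟨EV, hEV⟩ : ∃ EV : N, EV.1 = relThreeZ.{u} (fun n m b => n = 2 * m ∧ b = 0) :=
    ⟨⟨_, hS.ev⟩, rfl⟩
  obtain ⟨TY, hTY⟩ : ∃ TY : N, TY.1 = relThreeZ.{u} Ty := ⟨⟨_, hQ 0⟩, rfl⟩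
  obtain ⟨KZ, hKZ⟩ : ∃ KZ : N, KZ.1 = kz := ⟨⟨_, hS.kz_mem⟩, rfl⟩
  have hKZi : ∀ m v, ZFSet.pair (natZ m) v ∈ KZ.1 ↔ v = vK m := by rw [hKZ]; exact hS.kz_iff
  obtain ⟨E0, hE0⟩ : ∃ E0 : N, E0.1 = natZ 0 := ⟨⟨natZ 0, hN.natZ_mem_N 0⟩, rfl⟩
  have hcy : ∀ n Y : N, ∀ n0, n.1 = natZ n0 → (CYd TC E0 n Y ↔ Y.1 = Ys (xx n0)) := by
    intro n Y n0 hn
    have h1 : ∀ c : N, Tri TC n c E0 ↔ c.1 ∈ Ys.{u} (xx n0) := by
      intro c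
      rw [tri_iff (hN := hN) hTC, mem_Ys]
      constructor
      · rintro ⟨i, j, k, h1, h2, h3, h4⟩
        rw [hn, natZ_inj] at h2
        subst h2
        exact ⟨j, h1.1, h3⟩
      · rintro ⟨j, h1, h2⟩
        exact ⟨n0, j, 0, ⟨h1, rfl⟩, hn, h2, hE0⟩
    constructor
    · intro h
      apply ZFSet.ext
      intro z
      constructor
      · intro hz
        exact (h1 ⟨z, hN.mem_of_mem Y.2 hz⟩).1 ((h _).1 hz)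
      · intro hz
        obtain ⟨c, _, hc⟩ := mem_Ys.1 hz
        have hzN : z ∈ N := by rw [hc]; exact hN.natZ_mem_N c
        exact (h ⟨z, hzN⟩).2 ((h1 ⟨z, hzN⟩).2 hz)
    · intro h c
      rw [h, h1]
  -- the set of the blueprints
  obtain ⟨C, hC, hC'⟩ := hN.exists_repl (F := fun n Y : N => Tri TN n E0 E0 ∧ CYd TC E0 n Y)
    (Dfn.and (Dfn.subst3 (P := Tri TN) (Tri_dfn TN) (DT.var 0) (DT.const E0) (DT.const E0))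
      (Dfn.subst2 (P := CYd TC E0) (CYd_dfn TC E0) (DT.var 0) (DT.var 1))) hN.omZ_mem (by
      rintro n hn Y Y' ⟨_, h1⟩ ⟨_, h2⟩
      exact Subtype.ext (hN.ext' Y.2 Y'.2 fun z => (h1 z).trans (h2 z).symm))
  have hC1 : ∀ Y ∈ C, ∃ x : ℕ → ℕ, WF.{u} x ∧ Y = Ys x := by
    intro Y hY
    obtain ⟨n, hn, h1, h2⟩ := (hC' ⟨Y, hN.mem_of_mem hC hY⟩).1 hY
    obtain ⟨n0, _, _, ⟨h3, _, _⟩, h4, _, _⟩ := (tri_iff (hN := hN) hTN).1 h1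
    exact ⟨xx n0, hD.wf n0 h3, (hcy n _ n0 h4).1 h2⟩
  have hYs : ∀ n0, Ys (xx n0) ∈ N := by
    intro n0
    have h1 : hN.Dfn (fun v : Fin 1 → N => Tri TC ⟨natZ n0, hN.natZ_mem_N n0⟩ (v 0) E0) :=
      Dfn.subst3 (P := Tri TC) (Tri_dfn TC) (DT.const _) (DT.var 0) (DT.const E0)
    obtain ⟨Y, hY, hY'⟩ := hN.exists_sep (P := fun c => Tri TC ⟨natZ n0, hN.natZ_mem_N n0⟩ c E0) h1
      hN.omZ_mem
    have h2 : CYd TC E0 ⟨natZ n0, hN.natZ_mem_N n0⟩ ⟨Y, hY⟩ := by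
      intro c
      show c.1 ∈ Y ↔ _
      rw [hY']
      refine ⟨fun ⟨_, _, h⟩ => h, fun h => ⟨?_, c.2, h⟩⟩
      obtain ⟨i, j, k, h1, h2, h3, h4⟩ := (tri_iff (hN := hN) hTC).1 h
      rw [h3]; exact natZ_mem_omZ _
    rw [← (hcy _ _ n0 rfl).1 h2]
    exact hY
  have hYC : ∀ n0, nn n0 → Ys (xx n0) ∈ C := by
    intro n0 h
    refine (hC' ⟨_, hYs n0⟩).2 ⟨⟨natZ n0, hN.natZ_mem_N _⟩, natZ_mem_omZ _, ?_, ?_⟩
    · exact (tri_nat (hN := hN) hTN rfl hE0 hE0).2 ⟨h, rfl, rfl⟩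
    · exact (hcy _ _ n0 rfl).2 rfl
  obtain ⟨F, hF, hF'⟩ := exists_valF hN hQ (C := ⟨C, hC⟩) hC1
  have hwf : WellFounded (fun k n : N => RCd OD TN E0 k n) := by
    classical
    let μ : N → Ordinal.{u} := fun x => if h : ∃ n, x.1 = natZ n then e h.choose else 0
    have hμ : ∀ n x, x.1 = natZ n → μ x = e n := by
      intro n x hx
      have h : ∃ n, x.1 = natZ n := ⟨n, hx⟩
      have h1 : h.choose = n := natZ_inj.1 (h.choose_spec.symm.trans hx)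
      simp only [μ]
      rw [dif_pos h, h1]
    refine Subrelation.wf (r := fun k n => μ k < μ n) ?_ (InvImage.wf μ wellFounded_lt)
    intro k n h
    obtain ⟨n0, j, h1, h2, h3⟩ := (rcd_iff (hN := hN) hOD hTN hE0).1 h
    rw [hμ _ _ h2, hμ _ _ h3]
    exact hD.lt n0 h1 j
  obtain ⟨F', hF1, hF2⟩ := recursion (hN := hN) (R := fun k n : N => RCd OD TN E0 k n)
    (𝒢 := GGd OD TY TN TR TM TL TC SC KZ E0 F) (RCd_dfn OD TN E0)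
    (GGd_dfn OD TY TN TR TM TL TC SC KZ E0 hF) (by
      intro n
      obtain ⟨e, he, he'⟩ := hN.exists_sep (P := fun k => RCd OD TN E0 k n)
        (Dfn.subst2 (P := RCd OD TN E0) (RCd_dfn OD TN E0) (DT.var 0) (DT.const n)) hN.omZ_mem
      refine ⟨e, he, fun k => ?_⟩
      rw [he']
      refine ⟨fun ⟨_, _, h⟩ => h, fun h => ⟨?_, k.2, h⟩⟩
      obtain ⟨n0, j, h1, h2, h3⟩ := (rcd_iff (hN := hN) hOD hTN hE0).1 h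
      rw [h3]; exact natZ_mem_omZ _) hwf
    (fun n r v v' h h' => rec_unique (hN := hN) hOD hTR hTL hD.rep_uniq hKZi h h')
    (fun n h hd hu => rec_exists (hN := hN) hOD hTN hTR hTM hTL hTC hSC hTY hE0 hKZi n h hd hu)
  -- the values
  have key : ∀ o : Ordinal.{u}, ∀ n, e n = o → (F' ⟨natZ n, hN.natZ_mem_N n⟩).1 = o.toZFSet := by
    intro o
    induction o using WellFoundedLT.induction with
    | _ o ih =>
      intro n hn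
      obtain ⟨hfun, h⟩ := hF2 ⟨natZ n, hN.natZ_mem_N n⟩
      rcases h with ⟨h1, h⟩ | ⟨h1, h⟩
      · have hnn : nn n := ((tri_nat (hN := hN) hTN rfl hE0 hE0).1 h1).1
        obtain ⟨c0, η, S, L, f, y, Y, u, q, g1, g2, g3, g4, g5, g6, g7, g8, g9, g10⟩ := h
        have hc0 : c0 = ⟨natZ (ch n 0), hN.natZ_mem_N _⟩ := by
          obtain ⟨a1, a2, a3, b1, b2, b3, b4⟩ := (tri_iff (hN := hN) hOD).1 g1
          have b3 : natZ.{u} n = natZ a2 := b3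
          rw [hE0] at b4
          rw [natZ_inj] at b3 b4
          exact Subtype.ext (by rw [b2, b1, ← b3, ← b4])
        have hη : η.1 = (e (ch n 0)).toZFSet := by
          rw [← g2.2, hc0]
          exact ih _ (hn ▸ hD.lt n hnn 0) _ rfl
        have hS' : S.1 = Ss (fun _ => e (ch n 0)) := by
          apply ZFSet.ext
          intro z
          rw [Ss, ZFSet.mem_range]
          constructor
          · intro hz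
            obtain ⟨i, hi, h2⟩ := (g3 ⟨z, hN.mem_of_mem S.2 hz⟩).1 hz
            obtain ⟨i0, hi0⟩ := mem_omZ.1 hi
            refine ⟨i0, ?_⟩
            have h2 : z = ZFSet.pair i.1 η.1 := h2
            rw [h2, hi0, hη]
          · rintro ⟨i, rfl⟩
            have hzN : ZFSet.pair (natZ i) (e (ch n 0)).toZFSet ∈ N := by
              rw [← hη]; exact hN.pair_mem (hN.natZ_mem_N i) η.2
            refine (g3 ⟨_, hzN⟩).2 ⟨⟨natZ i, hN.natZ_mem_N i⟩, natZ_mem_omZ i, ?_⟩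
            show ZFSet.pair _ _ = ZFSet.pair _ _
            rw [hη]
        have hL : L.1 = natZ (lb (tt n)) := by
          obtain ⟨a1, a2, a3, b1, b2, b3, b4⟩ := (tri_iff (hN := hN) hTL).1 g4
          have b2 : natZ.{u} n = natZ a1 := b2
          rw [natZ_inj] at b2
          rw [b3, b1.1, ← b2]
        have hf : f.1 = fz (os (tt n)) := by
          apply ZFSet.ext
          intro z
          rw [mem_fz]
          constructor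
          · intro hz
            obtain ⟨k, w, c, j, i, d1, d2, d3, d4, d5⟩ := (g5 ⟨z, hN.mem_of_mem f.2 hz⟩).1 hz
            obtain ⟨a1, a2, a3, b1, b2, b3, b4⟩ := (tri_iff (hN := hN) hTY).1 d1
            obtain ⟨a1', a2', a3', b1', b2', b3', b4'⟩ := (tri_iff (hN := hN) hSC).1 d2
            obtain ⟨l1, l2, l3, m1, m2, m3, m4⟩ := (tri_iff (hN := hN) hOD).1 d3
            rw [hL, natZ_inj] at b2
            subst b2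
            rw [b3, natZ_inj] at b3'
            subst b3'
            have m3 : natZ.{u} n = natZ l2 := m3
            rw [natZ_inj] at m3
            subst m3
            rw [b2', natZ_inj] at m4
            have hk : a2 < (os (tt n)).length := by
              rw [length_os]
              exact (List.getElem?_eq_some_iff.1 (ty_lb.1 b1)).1
            have h3 := hD.kid n hnn a2 _ (List.getElem?_eq_getElem hk)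
            refine ⟨a2, _, List.getElem?_eq_getElem hk, ?_⟩
            have d5 : z = ZFSet.pair k.1 w.1 := d5
            have h4 : c = ⟨natZ (ch n (a2 + 1)), hN.natZ_mem_N _⟩ :=
              Subtype.ext (by rw [m2, m1, ← m4, b1'.1])
            have h5 : w.1 = (e (ch n (a2 + 1))).toZFSet := by
              rw [← d4.2, h4]
              exact ih _ (hn ▸ hD.lt n hnn _) _ rfl
            rw [d5, b3, h5, h3]
          · rintro ⟨k, ξ, h2, rfl⟩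
            have h3 := hD.kid n hnn k ξ h2
            have hk : k < ((tt n).2.map Prod.fst).length := by
              rw [← length_os]
              exact (List.getElem?_eq_some_iff.1 h2).1
            have h5 : (F' ⟨natZ (ch n (k + 1)), hN.natZ_mem_N _⟩).1 = ξ.toZFSet := by
              rw [← h3]
              exact ih _ (hn ▸ hD.lt n hnn _) _ rfl
            have hξN : ξ.toZFSet ∈ N := by rw [← h5]; exact (F' _).2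
            refine (g5 ⟨_, hN.pair_mem (hN.natZ_mem_N k) hξN⟩).2 ⟨⟨natZ k, hN.natZ_mem_N k⟩,
              ⟨_, hξN⟩, ⟨natZ (ch n (k + 1)), hN.natZ_mem_N _⟩, ⟨natZ (k + 1), hN.natZ_mem_N _⟩,
              ⟨natZ (((tt n).2.map Prod.fst)[k]), hN.natZ_mem_N _⟩, ?_, ?_, ?_, ⟨?_, ?_⟩, rfl⟩
            · exact (tri_nat (hN := hN) hTY hL rfl rfl).2
                (ty_lb.2 (List.getElem?_eq_getElem hk))
            · exact (tri_nat (hN := hN) hSC rfl rfl hE0).2 ⟨rfl, rfl⟩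
            · exact (tri_nat (hN := hN) hOD rfl rfl rfl).2 rfl
            · exact (rcd_iff (hN := hN) hOD hTN hE0).2 ⟨n, k + 1, hnn, rfl, rfl⟩
            · exact Subtype.ext h5
        have hY : Y.1 = Ys (xx n) := (hcy _ _ n rfl).1 g7
        have hq : q.1 = ZFSet.pair (Ys (xx n)) (ZFSet.pair (Ss (fun _ => e (ch n 0))) (tc (tt n))) := by
          rw [g9, g8, g6, hY, hS', hf, hL]; rfl
        rw [← g10, valF_eq hQ hF' (hD.wf n hnn) (hYC n hnn) (s := fun _ => e (ch n 0)) hN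
          (fun _ => by rw [← hη]; exact η.2) (tt n) (hD.ovr n hnn) q hq, hD.val n hnn, hn]
      · have hnn : ¬ nn n := fun h2 => h1
          ((tri_nat (hN := hN) hTN rfl hE0 hE0).2 ⟨h2, rfl, rfl⟩)
        rcases h with ⟨m, h2, h3⟩ | ⟨h2, h3⟩
        · obtain ⟨a1, a2, a3, b1, b2, b3, b4⟩ := (tri_iff (hN := hN) hTR).1 h2
          have b2 : natZ.{u} n = natZ a1 := b2
          rw [natZ_inj] at b2
          subst b2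
          rw [b3, hKZi] at h3
          rw [h3, hD.vrep n hnn a2 b1.1, hn]
        · have h4 : ¬ ∃ m, rep n m := by
            rintro ⟨m, hm⟩
            exact h2 ⟨⟨natZ m, hN.natZ_mem_N m⟩,
              (tri_nat (hN := hN) hTR rfl rfl hE0).2 ⟨hm, rfl⟩⟩
          have h5 := hD.vlim n hnn h4
          rw [← hn]
          apply ZFSet.ext
          intro z
          rw [h5]
          constructor
          · intro hz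
            obtain ⟨j, w, d1, d2, d3⟩ := (h3 ⟨z, hN.mem_of_mem (F' _).2 hz⟩).1 hz
            obtain ⟨a1, a2, a3, b1, b2, b3, b4⟩ := (tri_iff (hN := hN) hTM).1 d1
            have b2 : natZ.{u} n = natZ a1 := b2
            rw [natZ_inj] at b2
            subst b2
            rw [b3, hKZi] at d2
            exact ⟨a2, b1.1, by rw [← d2]; exact d3⟩
          · rintro ⟨j, hj, hz⟩
            have h6 : ZFSet.pair (natZ j) (vK j) ∈ kz := (hS.kz_iff _ _).2 rfl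
            have h7 : vK j ∈ N := (hN.of_pair_mem (hN.mem_of_mem hS.kz_mem h6)).2
            refine (h3 ⟨z, hN.mem_of_mem h7 hz⟩).2 ⟨⟨natZ j, hN.natZ_mem_N j⟩, ⟨_, h7⟩, ?_, by rw [hKZ]; exact h6, hz⟩
            exact (tri_nat (hN := hN) hTM rfl rfl hE0).2 ⟨hj, rfl⟩
  -- the sequence
  have hd : hN.Dfn (fun v : Fin 2 → N => (∃ n : N, (∃ w : N, (∃ c : N, ((Tri EV) n (v 0) E0 ∧ (fun x y => F' x = y) n w ∧ (v 1).1 = ZFSet.pair (v 0).1 w.1))))) := (Dfn.ex (P := fun v n => (∃ w : N, (∃ c : N, ((Tri EV) n (v 0) E0 ∧ (fun x y => F' x = y) n w ∧ (v 1).1 = ZFSet.pair (v 0).1 w.1))))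
  (Dfn.ex (P := fun v w => (∃ c : N, ((Tri EV) (v 2) (v 0) E0 ∧ (fun x y => F' x = y) (v 2) w ∧ (v 1).1 = ZFSet.pair (v 0).1 w.1)))
  (Dfn.ex (P := fun v c => ((Tri EV) (v 2) (v 0) E0 ∧ (fun x y => F' x = y) (v 2) (v 3) ∧ (v 1).1 = ZFSet.pair (v 0).1 (v 3).1))
  (Dfn.and (Dfn.subst3 (P := (Tri EV)) (Tri_dfn EV) (DT.var _) (DT.var _) (DT.const E0))
  (Dfn.and (Dfn.subst2 (P := (fun x y => F' x = y)) hF1 (DT.var _) (DT.var _))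
  (Dfn.isPair (DT.var _) (DT.var _) (DT.var _)))))))
  obtain ⟨b, hb, hb'⟩ := hN.exists_repl (F := fun m p : N => (∃ n : N, (∃ w : N, (∃ c : N, ((Tri EV) n m E0 ∧ (fun x y => F' x = y) n w ∧ p.1 = ZFSet.pair m.1 w.1))))) hd hN.omZ_mem (by
    intro m hm p p' h1 h2
    obtain ⟨n, w, _, h3, h4, h5⟩ := h1
    obtain ⟨n', w', _, h3', h4', h5'⟩ := h2
    obtain ⟨a1, a2, a3, b1, b2, b3, b4⟩ := (tri_iff (hN := hN) hEV).1 h3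
    obtain ⟨a1', a2', a3', b1', b2', b3', b4'⟩ := (tri_iff (hN := hN) hEV).1 h3'
    rw [b3, natZ_inj] at b3'
    have e1 : n = n' := Subtype.ext (by rw [b2, b2', b1.1, b1'.1, b3'])
    subst e1
    have h4 : F' n = w := h4
    have h4' : F' n = w' := h4'
    exact Subtype.ext (h5.trans (by rw [h5', ← h4, ← h4'])))
  have hfin : Ss (fun m => e (2 * m)) = b := by
    ext z
    rw [Ss, ZFSet.mem_range]
    constructor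
    · rintro ⟨m, rfl⟩
      have h1 := key _ (2 * m) rfl
      have h2 : (e (2 * m)).toZFSet ∈ N := by rw [← h1]; exact (F' _).2
      refine (hb' ⟨_, hN.pair_mem (hN.natZ_mem_N m) h2⟩).2 ⟨⟨natZ m, hN.natZ_mem_N m⟩,
        natZ_mem_omZ m, ⟨natZ (2 * m), hN.natZ_mem_N _⟩, ⟨_, h2⟩, E0, ?_, Subtype.ext h1, rfl⟩
      exact (tri_nat (hN := hN) hEV rfl rfl hE0).2 ⟨rfl, rfl⟩
    · intro hz
      obtain ⟨m, hm, n, w, _, h3, h4, h5⟩ := (hb' ⟨z, hN.mem_of_mem hb hz⟩).1 hz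
      obtain ⟨a1, a2, a3, b1, b2, b3, b4⟩ := (tri_iff (hN := hN) hEV).1 h3
      refine ⟨a2, ?_⟩
      have h5 : z = ZFSet.pair m.1 w.1 := h5
      have h4 : F' n = w := h4
      have e1 : n = ⟨natZ (2 * a2), hN.natZ_mem_N _⟩ := Subtype.ext (by rw [b2, b1.1])
      rw [h5, b3, ← h4, e1, key _ (2 * a2) rfl]
  rw [hfin]
  exact hb

end

end Pool.Agent.H17.Omega.T8
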