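import Pool.Agent.H17.T8.Clo
import Pool.Agent.H17.Omega.Tukey

/-!
# T8: reductions inside a model
-/

set_option autoImplicit false
set_option linter.unusedVariables false
set_option linter.unusedSectionVars false
set_option linter.unusedSimpArgs false
set_option linter.deprecated false

universe u v

namespace Pool.Agent.H17.Omega.T8

open CTM

variable {N : Set ZFSet.{u}} {hN : CTM N}

/-- `q` is a reduction of `α`. -/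
def REDd (S SC3 PR0 N0 N1 N2 TY : N) (F : N → N) (α q : N) : Prop := (∃ η : N, (∃ u : N, (∃ z : N, (∃ y : N, (∃ Yv : N, (∃ Sv : N, (∃ w : N, (∃ p : N, (q.1 = ZFSet.pair η.1 u.1 ∧ u.1 = ZFSet.pair z.1 y.1 ∧ η.1 ∈ α.1 ∧ IsRl z ∧ (WOD PR0 N0) z ∧ (FYd S SC3 N0 N1 N2) z Yv ∧ CST η Sv ∧ (IsTd TY) Sv y ∧ w.1 = ZFSet.pair Sv.1 y.1 ∧ p.1 = ZFSet.pair Yv.1 w.1 ∧ (fun x y => F x = y) p α)))))))))

theorem REDd_dfn (S SC3 PR0 N0 N1 N2 TY : N) {F : N → N}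
    (hF : hN.Dfn (fun v : Fin 2 → N => F (v 0) = v 1)) :
    hN.Dfn (fun v : Fin 2 → N => REDd S SC3 PR0 N0 N1 N2 TY F (v 0) (v 1)) := by
  unfold REDd
  exact (Dfn.ex (P := fun v η => (∃ u : N, (∃ z : N, (∃ y : N, (∃ Yv : N, (∃ Sv : N, (∃ w : N, (∃ p : N, ((v 1).1 = ZFSet.pair η.1 u.1 ∧ u.1 = ZFSet.pair z.1 y.1 ∧ η.1 ∈ (v 0).1 ∧ IsRl z ∧ (WOD PR0 N0) z ∧ (FYd S SC3 N0 N1 N2) z Yv ∧ CST η Sv ∧ (IsTd TY) Sv y ∧ w.1 = ZFSet.pair Sv.1 y.1 ∧ p.1 = ZFSet.pair Yv.1 w.1 ∧ (fun x y => F x = y) p (v 0))))))))))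
  (Dfn.ex (P := fun v u => (∃ z : N, (∃ y : N, (∃ Yv : N, (∃ Sv : N, (∃ w : N, (∃ p : N, ((v 1).1 = ZFSet.pair (v 2).1 u.1 ∧ u.1 = ZFSet.pair z.1 y.1 ∧ (v 2).1 ∈ (v 0).1 ∧ IsRl z ∧ (WOD PR0 N0) z ∧ (FYd S SC3 N0 N1 N2) z Yv ∧ CST (v 2) Sv ∧ (IsTd TY) Sv y ∧ w.1 = ZFSet.pair Sv.1 y.1 ∧ p.1 = ZFSet.pair Yv.1 w.1 ∧ (fun x y => F x = y) p (v 0)))))))))
  (Dfn.ex (P := fun v z => (∃ y : N, (∃ Yv : N, (∃ Sv : N, (∃ w : N, (∃ p : N, ((v 1).1 = ZFSet.pair (v 2).1 (v 3).1 ∧ (v 3).1 = ZFSet.pair z.1 y.1 ∧ (v 2).1 ∈ (v 0).1 ∧ IsRl z ∧ (WOD PR0 N0) z ∧ (FYd S SC3 N0 N1 N2) z Yv ∧ CST (v 2) Sv ∧ (IsTd TY) Sv y ∧ w.1 = ZFSet.pair Sv.1 y.1 ∧ p.1 = ZFSet.pair Yv.1 w.1 ∧ (fun x y => F x = y) p (v 0))))))))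
  (Dfn.ex (P := fun v y => (∃ Yv : N, (∃ Sv : N, (∃ w : N, (∃ p : N, ((v 1).1 = ZFSet.pair (v 2).1 (v 3).1 ∧ (v 3).1 = ZFSet.pair (v 4).1 y.1 ∧ (v 2).1 ∈ (v 0).1 ∧ IsRl (v 4) ∧ (WOD PR0 N0) (v 4) ∧ (FYd S SC3 N0 N1 N2) (v 4) Yv ∧ CST (v 2) Sv ∧ (IsTd TY) Sv y ∧ w.1 = ZFSet.pair Sv.1 y.1 ∧ p.1 = ZFSet.pair Yv.1 w.1 ∧ (fun x y => F x = y) p (v 0)))))))
  (Dfn.ex (P := fun v Yv => (∃ Sv : N, (∃ w : N, (∃ p : N, ((v 1).1 = ZFSet.pair (v 2).1 (v 3).1 ∧ (v 3).1 = ZFSet.pair (v 4).1 (v 5).1 ∧ (v 2).1 ∈ (v 0).1 ∧ IsRl (v 4) ∧ (WOD PR0 N0) (v 4) ∧ (FYd S SC3 N0 N1 N2) (v 4) Yv ∧ CST (v 2) Sv ∧ (IsTd TY) Sv (v 5) ∧ w.1 = ZFSet.pair Sv.1 (v 5).1 ∧ p.1 = ZFSet.pair Yv.1 w.1 ∧ (fun x y => F x = y) p (v 0))))))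
  (Dfn.ex (P := fun v Sv => (∃ w : N, (∃ p : N, ((v 1).1 = ZFSet.pair (v 2).1 (v 3).1 ∧ (v 3).1 = ZFSet.pair (v 4).1 (v 5).1 ∧ (v 2).1 ∈ (v 0).1 ∧ IsRl (v 4) ∧ (WOD PR0 N0) (v 4) ∧ (FYd S SC3 N0 N1 N2) (v 4) (v 6) ∧ CST (v 2) Sv ∧ (IsTd TY) Sv (v 5) ∧ w.1 = ZFSet.pair Sv.1 (v 5).1 ∧ p.1 = ZFSet.pair (v 6).1 w.1 ∧ (fun x y => F x = y) p (v 0)))))
  (Dfn.ex (P := fun v w => (∃ p : N, ((v 1).1 = ZFSet.pair (v 2).1 (v 3).1 ∧ (v 3).1 = ZFSet.pair (v 4).1 (v 5).1 ∧ (v 2).1 ∈ (v 0).1 ∧ IsRl (v 4) ∧ (WOD PR0 N0) (v 4) ∧ (FYd S SC3 N0 N1 N2) (v 4) (v 6) ∧ CST (v 2) (v 7) ∧ (IsTd TY) (v 7) (v 5) ∧ w.1 = ZFSet.pair (v 7).1 (v 5).1 ∧ p.1 = ZFSet.pair (v 6).1 w.1 ∧ (fun x y => F x = y) p (v 0))))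
  (Dfn.ex (P := fun v p => ((v 1).1 = ZFSet.pair (v 2).1 (v 3).1 ∧ (v 3).1 = ZFSet.pair (v 4).1 (v 5).1 ∧ (v 2).1 ∈ (v 0).1 ∧ IsRl (v 4) ∧ (WOD PR0 N0) (v 4) ∧ (FYd S SC3 N0 N1 N2) (v 4) (v 6) ∧ CST (v 2) (v 7) ∧ (IsTd TY) (v 7) (v 5) ∧ (v 8).1 = ZFSet.pair (v 7).1 (v 5).1 ∧ p.1 = ZFSet.pair (v 6).1 (v 8).1 ∧ (fun x y => F x = y) p (v 0)))
  (Dfn.and (Dfn.isPair (DT.var _) (DT.var _) (DT.var _))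
  (Dfn.and (Dfn.isPair (DT.var _) (DT.var _) (DT.var _))
  (Dfn.and (Dfn.mem (DT.var _) (DT.var _))
  (Dfn.and (Dfn.subst1 (P := IsRl) IsRl_dfn (DT.var _))
  (Dfn.and (Dfn.subst1 (P := (WOD PR0 N0)) (WOD_dfn PR0 N0) (DT.var _))
  (Dfn.and (Dfn.subst2 (P := (FYd S SC3 N0 N1 N2)) (FYd_dfn S SC3 N0 N1 N2) (DT.var _) (DT.var _))
  (Dfn.and (Dfn.subst2 (P := CST) CST_dfn (DT.var _) (DT.var _))
  (Dfn.and (Dfn.subst2 (P := (IsTd TY)) (IsTd_dfn TY) (DT.var _) (DT.var _))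
  (Dfn.and (Dfn.isPair (DT.var _) (DT.var _) (DT.var _))
  (Dfn.and (Dfn.isPair (DT.var _) (DT.var _) (DT.var _))
  (Dfn.subst2 (P := (fun x y => F x = y)) hF (DT.var _) (DT.var _))))))))))))))))))))

theorem ss_const (o : Ordinal.{u}) : Ss (fun _ => o) = ZFSet.prod omZ {o.toZFSet} := by
  ext z
  rw [Ss, ZFSet.mem_range, ZFSet.mem_prod]
  constructor
  · rintro ⟨i, rfl⟩
    exact ⟨natZ i, natZ_mem_omZ i, o.toZFSet, ZFSet.mem_singleton.2 rfl, rfl⟩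
  · rintro ⟨x, hx, y, hy, rfl⟩
    obtain ⟨i, rfl⟩ := mem_omZ.1 hx
    rw [ZFSet.mem_singleton] at hy
    exact ⟨i, by rw [hy]⟩

include hN in
theorem cst_iff {η S : N} {o : Ordinal.{u}} (hη : η.1 = o.toZFSet) :
    CST η S ↔ S.1 = Ss (fun _ => o) := by
  have h1 : ∀ p : N, (∃ i : N, i.1 ∈ omZ ∧ p.1 = ZFSet.pair i.1 η.1) ↔ p.1 ∈ Ss (fun _ => o) := by
    intro p
    rw [ss_const, ZFSet.mem_prod]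
    constructor
    · rintro ⟨i, hi, h1⟩
      exact ⟨i.1, hi, _, ZFSet.mem_singleton.2 rfl, by rw [h1, hη]⟩
    · rintro ⟨i, hi, y, hy, h1⟩
      rw [ZFSet.mem_singleton] at hy
      exact ⟨⟨i, hN.mem_of_mem hN.omZ_mem hi⟩, hi, by rw [h1, hy, hη]⟩
  have hSN : Ss (fun _ => o) ∈ N := by
    rw [ss_const, ← hη]
    exact hN.prod_mem hN.omZ_mem (hN.singleton_mem η.2)
  unfold CST
  constructor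
  · intro h
    exact hN.ext' S.2 hSN fun p => (h p).trans (h1 p)
  · intro h p
    rw [h]; exact (h1 p).symm

/-- Uniformization inside the model. -/
theorem exists_unif_dfn (hN : CTM N) {R : N → N → Prop}
    (hR : hN.Dfn (fun v : Fin 2 → N => R (v 0) (v 1))) {κ D : ZFSet.{u}} (hκ : κ ∈ N) (hD : D ∈ N) :
    ∃ G : N → N → Prop, hN.Dfn (fun v : Fin 2 → N => G (v 0) (v 1)) ∧
      (∀ α q, G α q → α.1 ∈ κ ∧ q.1 ∈ D ∧ R α q) ∧ (∀ α q q', G α q → G α q' → q = q') ∧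
      ∀ α q : N, α.1 ∈ κ → q.1 ∈ D → R α q → ∃ q', G α q' := by
  have hu : ∀ α b b' : N, (∀ q : N, q.1 ∈ b.1 ↔ (q.1 ∈ D ∧ R α q)) →
      (∀ q : N, q.1 ∈ b'.1 ↔ (q.1 ∈ D ∧ R α q)) → b = b' := fun α b b' h h' =>
    Subtype.ext (hN.ext' b.2 b'.2 fun q => (h q).trans (h' q).symm)
  obtain ⟨p, hp, hp'⟩ := hN.exists_repl (F := fun α b => (∀ q : N, (q.1 ∈ b.1 ↔ (q.1 ∈ D ∧ R α q)))) (show hN.Dfn (fun v : Fin 2 → N => (∀ q : N, (q.1 ∈ (v 1).1 ↔ (q.1 ∈ D ∧ R (v 0) q)))) from (Dfn.all (P := fun v q => (q.1 ∈ (v 1).1 ↔ (q.1 ∈ D ∧ R (v 0) q)))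
  (Dfn.iff (Dfn.mem (DT.var _) (DT.var _))
  (Dfn.and (Dfn.mem (DT.var _) (DT.const ⟨D, hD⟩))
  (Dfn.subst2 (P := R) hR (DT.var _) (DT.var _)))))) hκ
    (fun α _ b b' h h' => hu α b b' h h')
  obtain ⟨c, hc, hc'⟩ := hN.exists_choice hp
  refine ⟨fun α q => (∃ b : N, (((∀ q : N, (q.1 ∈ b.1 ↔ (q.1 ∈ D ∧ R α q)))) ∧ α.1 ∈ κ ∧ q.1 ∈ b.1 ∧ ZFSet.pair b.1 q.1 ∈ c)), (show hN.Dfn (fun v : Fin 2 → N => (∃ b : N, (((∀ q : N, (q.1 ∈ b.1 ↔ (q.1 ∈ D ∧ R (v 0) q)))) ∧ (v 0).1 ∈ κ ∧ (v 1).1 ∈ b.1 ∧ ZFSet.pair b.1 (v 1).1 ∈ c))) from (Dfn.ex (P := fun v b => (((∀ q : N, (q.1 ∈ b.1 ↔ (q.1 ∈ D ∧ R (v 0) q)))) ∧ (v 0).1 ∈ κ ∧ (v 1).1 ∈ b.1 ∧ ZFSet.pair b.1 (v 1).1 ∈ c))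
  (Dfn.and (Dfn.all (P := fun v q => (q.1 ∈ (v 2).1 ↔ (q.1 ∈ D ∧ R (v 0) q)))
  (Dfn.iff (Dfn.mem (DT.var _) (DT.var _))
  (Dfn.and (Dfn.mem (DT.var _) (DT.const ⟨D, hD⟩))
  (Dfn.subst2 (P := R) hR (DT.var _) (DT.var _)))))
  (Dfn.and (Dfn.mem (DT.var _) (DT.const ⟨κ, hκ⟩))
  (Dfn.and (Dfn.mem (DT.var _) (DT.var _))
  (Dfn.pairMem (DT.var _) (DT.var _) (DT.const ⟨c, hc⟩))))))), ?_, ?_, ?_⟩
  · rintro α q ⟨b, h1, h2, h3, h4⟩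
    exact ⟨h2, (h1 q).1 h3⟩
  · rintro α q q' ⟨b, h1, h2, h3, h4⟩ ⟨b', h1', h2', h3', h4'⟩
    have hb := hu α b b' h1 h1'
    subst hb
    obtain ⟨y, hy, _, hy'⟩ := hc' b.1 ((hp' b).2 ⟨α, h2, h1⟩) (fun h => by
      rw [h] at h3; exact ZFSet.notMem_empty _ h3)
    exact Subtype.ext ((hy' _ h3 h4).trans (hy' _ h3' h4').symm)
  · intro α q h1 h2 h3
    obtain ⟨b, hb, hb'⟩ := hN.exists_sep (P := fun q => R α q)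
      (Dfn.subst2 (P := R) hR (DT.const α) (DT.var 0)) hD
    have hbd : ∀ q : N, q.1 ∈ b ↔ (q.1 ∈ D ∧ R α q) := by
      intro q
      rw [hb']
      exact and_congr_right fun _ => ⟨fun ⟨_, h⟩ => h, fun h => ⟨q.2, h⟩⟩
    obtain ⟨y, hy, hyc, _⟩ := hc' b ((hp' ⟨b, hb⟩).2 ⟨α, h1, hbd⟩) (fun h => by
      have := (hbd q).2 ⟨h2, h3⟩
      rw [h] at this; exact ZFSet.notMem_empty _ this)
    exact ⟨⟨y, hN.mem_of_mem hb hy⟩, ⟨b, hb⟩, hbd, h1, hy, hyc⟩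

/-- The meaning of `REDd`. -/
theorem redd_iff (hN : CTM N) {f : (ℕ → ℕ) → ℕ → ℕ} {S SC3 PR0 N0 N1 N2 TY : N}
    (hT : Tabs N f S SC3 PR0 N0 N1 N2) (hTY : TY.1 = relThreeZ Ty) (hQ : HasQ N) {C : N}
    (hC : ∀ v : ZFSet.{u}, v ∈ C.1 ↔ ∃ b, zs b ∈ N ∧ WOr b ∧ v = Ys (f b)) {F : N → N}
    (hF : ∀ q z : N, z.1 ∈ (F q).1 ↔ ∃ p, RQ hQ C p q ∧ F p = z)
    (hwf : ∀ b, WOr b → WF.{u} (f b)) {α q : N} {o : Ordinal.{u}} (hα : α.1 = o.toZFSet) :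
    REDd S SC3 PR0 N0 N1 N2 TY F α q ↔ ∃ (η : Ordinal.{u}) (b : ℕ → ℕ) (t : Tm.{u}), η < o ∧
      zs b ∈ N ∧ WOr b ∧ Over (fun _ => η) t ∧ vl (f b) (fun _ => η) t = o.toZFSet ∧
      q.1 = ZFSet.pair η.toZFSet (ZFSet.pair (zs b) (tc t)) := by
  constructor
  · rintro ⟨η, u, z, y, Yv, Sv, w, p, h1, h2, h3, h4, h5, h6, h7, h8, h9, h10, h11⟩
    rw [hα] at h3
    obtain ⟨η0, hη0, h3⟩ := Ordinal.mem_toZFSet_iff.1 h3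
    obtain ⟨b, hb⟩ := (isRl_iff (hN := hN)).1 h4
    have hbN : zs b ∈ N := by rw [← hb]; exact z.2
    have hw := (wod_iff (hN := hN) hT hb).1 h5
    have hY := (fy_iff (hN := hN) hT hb).1 h6
    have hS := (cst_iff (hN := hN) h3.symm).1 h7
    obtain ⟨t, ht, ht'⟩ := (isTd_iff_over (hN := hN) hTY hS).1 h8
    have hv := valF_eq hQ hF (hwf b hw) ((hC _).2 ⟨b, hbN, hw, rfl⟩) (s := fun _ => η0) hN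
      (fun _ => by rw [h3]; exact η.2) t ht' p (by rw [h10, h9, hY, hS, ht])
    have h11 : F p = α := h11
    refine ⟨η0, b, t, hη0, hbN, hw, ht', ?_, ?_⟩
    · rw [← hv, h11, hα]
    · rw [h1, h2, h3, hb, ht]
  · rintro ⟨η, b, t, h1, h2, h3, h4, h5, h6⟩
    have hoN : o.toZFSet ∈ N := by rw [← hα]; exact α.2
    have hηN : η.toZFSet ∈ N := hN.toZFSet_mem_of_le h1.le hoN
    have htN : tc t ∈ N := by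
      refine tc_mem (hN := hN) fun ξ hξ => ?_
      obtain ⟨p, hp, rfl⟩ := List.mem_map.1 hξ
      exact hN.toZFSet_mem_of_le (h4 p hp).le hηN
    have hYN := ys_mem (hN := hN) hT h2
    have hSN : Ss (fun _ => η) ∈ N := by
      rw [ss_const]; exact hN.prod_mem hN.omZ_mem (hN.singleton_mem hηN)
    have hv := valF_eq hQ hF (hwf b h3) ((hC _).2 ⟨b, h2, h3, rfl⟩) (s := fun _ => η) hN
      (fun _ => hηN) t h4 ⟨_, hN.pair_mem hYN (hN.pair_mem hSN htN)⟩ rfl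
    refine ⟨⟨_, hηN⟩, ⟨_, hN.pair_mem h2 htN⟩, ⟨_, h2⟩, ⟨_, htN⟩, ⟨_, hYN⟩, ⟨_, hSN⟩,
      ⟨_, hN.pair_mem hSN htN⟩, ⟨_, hN.pair_mem hYN (hN.pair_mem hSN htN)⟩, h6, rfl, ?_,
      (isRl_iff (hN := hN)).2 ⟨b, rfl⟩, (wod_iff (hN := hN) hT rfl).2 h3,
      (fy_iff (hN := hN) hT rfl).2 rfl, (cst_iff (hN := hN) rfl).2 rfl,
      (isTd_iff_over (hN := hN) hTY rfl).2 ⟨t, rfl, h4⟩, rfl, rfl, ?_⟩
    · rw [hα]; exact Ordinal.toZFSet_mem_toZFSet_iff.2 h1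
    · show F _ = α
      exact Subtype.ext (by rw [hv, h5, hα])

end Pool.Agent.H17.Omega.T8
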