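import Pool.Agent.H17.T8.Ns

/-!
# T8: the functions from `ω` to the ordinals are `Δ₀` definable
-/

set_option autoImplicit false
set_option linter.unusedVariables false
set_option linter.unusedSectionVars false
set_option linter.unusedSimpArgs false
set_option linter.deprecated false

universe u

namespace Pool.Agent.H17.Omega.T8

/-- `x` is a function from `ω` to the ordinals: `x = {(i, s i) : i ∈ ω}`. -/
def IsSeq (x : ZFSet.{u}) : Prop :=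
  ∃ s : ℕ → Ordinal.{u}, ∀ z, z ∈ x ↔ ∃ i : ℕ, z = ZFSet.pair (natZ i) (s i).toZFSet

theorem isSeq_iff {x : ZFSet.{u}} : IsSeq x ↔ ∃ s : ℕ → Ordinal.{u}, x = Ss s := by
  refine exists_congr fun s => ?_
  constructor
  · intro h
    ext z
    rw [h, Ss, ZFSet.mem_range]
    exact exists_congr fun i => eq_comm
  · rintro rfl z
    rw [Ss, ZFSet.mem_range]
    exact exists_congr fun i => eq_comm

theorem mem_pairs {x a b p w : ZFSet.{u}} (hp : p = ZFSet.pair a b) (hw : w = {a, b}) :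
    w ∈ p ∧ a ∈ w ∧ b ∈ w := by
  rw [hp, hw, ZFSet.pair]
  simp

theorem d0_isSeq : D0 (fun v : Fin 1 → ZFSet.{u} => IsSeq (v 0)) := by
  refine D0.congr (fun v => ?_) (show D0 (fun v : Fin 1 → ZFSet.{u} => ((∀ p ∈ v 0, (∃ w ∈ p, (∃ i ∈ w, (∃ a ∈ w, (p = ZFSet.pair i a ∧ IsNatZ i ∧ a.IsOrdinal))))) ∧ (∀ p ∈ v 0, (∀ q ∈ v 0, (∀ w ∈ p, (∀ i ∈ w, (∀ a ∈ w, (∀ t ∈ q, (∀ b ∈ t, (p = ZFSet.pair i a → (q = ZFSet.pair i b → a = b))))))))) ∧ (∃ p ∈ v 0, (∃ w ∈ p, (∃ i ∈ w, (∃ a ∈ w, (p = ZFSet.pair i a ∧ i = ∅))))) ∧ (∀ p ∈ v 0, (∀ w ∈ p, (∀ i ∈ w, (∀ a ∈ w, (p = ZFSet.pair i a → (∃ q ∈ v 0, (∃ t ∈ q, (∃ j ∈ t, (∃ b ∈ t, (q = ZFSet.pair j b ∧ j = insert i i)))))))))))) from (D0.and (D0.ballZ (s := fun v => v 0) (p := fun v p => (∃ w ∈ p, (∃ i ∈ w, (∃ a ∈ w, (p = ZFSet.pair i a ∧ IsNatZ i ∧ a.IsOrdinal))))) (D0T.var _)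
  (D0.bexZ (s := fun v => v 1) (p := fun v w => (∃ i ∈ w, (∃ a ∈ w, (v 1 = ZFSet.pair i a ∧ IsNatZ i ∧ a.IsOrdinal)))) (D0T.var _)
  (D0.bexZ (s := fun v => v 2) (p := fun v i => (∃ a ∈ v 2, (v 1 = ZFSet.pair i a ∧ IsNatZ i ∧ a.IsOrdinal))) (D0T.var _)
  (D0.bexZ (s := fun v => v 2) (p := fun v a => (v 1 = ZFSet.pair (v 3) a ∧ IsNatZ (v 3) ∧ a.IsOrdinal)) (D0T.var _)
  (D0.and (D0.isPair (D0T.var _) (D0T.var _) (D0T.var _))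
  (D0.and (D0.isNat (D0T.var _))
  (D0.isOrd (D0T.var _))))))))
  (D0.and (D0.ballZ (s := fun v => v 0) (p := fun v p => (∀ q ∈ v 0, (∀ w ∈ p, (∀ i ∈ w, (∀ a ∈ w, (∀ t ∈ q, (∀ b ∈ t, (p = ZFSet.pair i a → (q = ZFSet.pair i b → a = b))))))))) (D0T.var _)
  (D0.ballZ (s := fun v => v 0) (p := fun v q => (∀ w ∈ v 1, (∀ i ∈ w, (∀ a ∈ w, (∀ t ∈ q, (∀ b ∈ t, (v 1 = ZFSet.pair i a → (q = ZFSet.pair i b → a = b)))))))) (D0T.var _)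
  (D0.ballZ (s := fun v => v 1) (p := fun v w => (∀ i ∈ w, (∀ a ∈ w, (∀ t ∈ v 2, (∀ b ∈ t, (v 1 = ZFSet.pair i a → (v 2 = ZFSet.pair i b → a = b))))))) (D0T.var _)
  (D0.ballZ (s := fun v => v 3) (p := fun v i => (∀ a ∈ v 3, (∀ t ∈ v 2, (∀ b ∈ t, (v 1 = ZFSet.pair i a → (v 2 = ZFSet.pair i b → a = b)))))) (D0T.var _)
  (D0.ballZ (s := fun v => v 3) (p := fun v a => (∀ t ∈ v 2, (∀ b ∈ t, (v 1 = ZFSet.pair (v 4) a → (v 2 = ZFSet.pair (v 4) b → a = b))))) (D0T.var _)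
  (D0.ballZ (s := fun v => v 2) (p := fun v t => (∀ b ∈ t, (v 1 = ZFSet.pair (v 4) (v 5) → (v 2 = ZFSet.pair (v 4) b → v 5 = b)))) (D0T.var _)
  (D0.ballZ (s := fun v => v 6) (p := fun v b => (v 1 = ZFSet.pair (v 4) (v 5) → (v 2 = ZFSet.pair (v 4) b → v 5 = b))) (D0T.var _)
  (D0.imp (D0.isPair (D0T.var _) (D0T.var _) (D0T.var _))
  (D0.imp (D0.isPair (D0T.var _) (D0T.var _) (D0T.var _))
  (D0.eqv (D0T.var _) (D0T.var _)))))))))))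
  (D0.and (D0.bexZ (s := fun v => v 0) (p := fun v p => (∃ w ∈ p, (∃ i ∈ w, (∃ a ∈ w, (p = ZFSet.pair i a ∧ i = ∅))))) (D0T.var _)
  (D0.bexZ (s := fun v => v 1) (p := fun v w => (∃ i ∈ w, (∃ a ∈ w, (v 1 = ZFSet.pair i a ∧ i = ∅)))) (D0T.var _)
  (D0.bexZ (s := fun v => v 2) (p := fun v i => (∃ a ∈ v 2, (v 1 = ZFSet.pair i a ∧ i = ∅))) (D0T.var _)
  (D0.bexZ (s := fun v => v 2) (p := fun v a => (v 1 = ZFSet.pair (v 3) a ∧ v 3 = ∅)) (D0T.var _)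
  (D0.and (D0.isPair (D0T.var _) (D0T.var _) (D0T.var _))
  (D0.isEmpty (D0T.var _)))))))
  (D0.ballZ (s := fun v => v 0) (p := fun v p => (∀ w ∈ p, (∀ i ∈ w, (∀ a ∈ w, (p = ZFSet.pair i a → (∃ q ∈ v 0, (∃ t ∈ q, (∃ j ∈ t, (∃ b ∈ t, (q = ZFSet.pair j b ∧ j = insert i i)))))))))) (D0T.var _)
  (D0.ballZ (s := fun v => v 1) (p := fun v w => (∀ i ∈ w, (∀ a ∈ w, (v 1 = ZFSet.pair i a → (∃ q ∈ v 0, (∃ t ∈ q, (∃ j ∈ t, (∃ b ∈ t, (q = ZFSet.pair j b ∧ j = insert i i))))))))) (D0T.var _)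
  (D0.ballZ (s := fun v => v 2) (p := fun v i => (∀ a ∈ v 2, (v 1 = ZFSet.pair i a → (∃ q ∈ v 0, (∃ t ∈ q, (∃ j ∈ t, (∃ b ∈ t, (q = ZFSet.pair j b ∧ j = insert i i)))))))) (D0T.var _)
  (D0.ballZ (s := fun v => v 2) (p := fun v a => (v 1 = ZFSet.pair (v 3) a → (∃ q ∈ v 0, (∃ t ∈ q, (∃ j ∈ t, (∃ b ∈ t, (q = ZFSet.pair j b ∧ j = insert (v 3) (v 3)))))))) (D0T.var _)
  (D0.imp (D0.isPair (D0T.var _) (D0T.var _) (D0T.var _))
  (D0.bexZ (s := fun v => v 0) (p := fun v q => (∃ t ∈ q, (∃ j ∈ t, (∃ b ∈ t, (q = ZFSet.pair j b ∧ j = insert (v 3) (v 3)))))) (D0T.var _)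
  (D0.bexZ (s := fun v => v 5) (p := fun v t => (∃ j ∈ t, (∃ b ∈ t, (v 5 = ZFSet.pair j b ∧ j = insert (v 3) (v 3))))) (D0T.var _)
  (D0.bexZ (s := fun v => v 6) (p := fun v j => (∃ b ∈ v 6, (v 5 = ZFSet.pair j b ∧ j = insert (v 3) (v 3)))) (D0T.var _)
  (D0.bexZ (s := fun v => v 6) (p := fun v b => (v 5 = ZFSet.pair (v 7) b ∧ v 7 = insert (v 3) (v 3))) (D0T.var _)
  (D0.and (D0.isPair (D0T.var _) (D0T.var _) (D0T.var _))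
  (D0.isInsert (D0T.var _) (D0T.var _) (D0T.var _))))))))))))))))
  constructor
  · rintro ⟨h1, h2, h3, h4⟩
    have hfun : ∀ i a b : ZFSet.{u}, ZFSet.pair i a ∈ v 0 → ZFSet.pair i b ∈ v 0 → a = b := by
      intro i a b ha hb
      refine h2 _ ha _ hb {i, a} ?_ i ?_ a ?_ {i, b} ?_ b ?_ rfl rfl
      · rw [ZFSet.pair]; simp
      · simp
      · simp
      · rw [ZFSet.pair]; simp
      · simp
    have hex : ∀ n : ℕ, ∃ a, ZFSet.pair (natZ n) a ∈ v 0 := by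
      intro n
      induction n with
      | zero =>
        obtain ⟨p, hp, w, _, i, _, a, _, h5, h6⟩ := h3
        exact ⟨a, by rw [show natZ 0 = i from h6.symm, ← h5]; exact hp⟩
      | succ n ih =>
        obtain ⟨a, ha⟩ := ih
        obtain ⟨q, hq, t, _, j, _, b, _, h5, h6⟩ := h4 _ ha {natZ n, a}
          (by rw [ZFSet.pair]; simp) (natZ n) (by simp) a (by simp) rfl
        exact ⟨b, by rw [show natZ (n + 1) = j from h6.symm, ← h5]; exact hq⟩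
    have hex' : ∀ n : ℕ, ∃ o : Ordinal.{u}, ZFSet.pair (natZ n) o.toZFSet ∈ v 0 := by
      intro n
      obtain ⟨a, ha⟩ := hex n
      obtain ⟨w, _, i, _, a', _, h5, h6, h7⟩ := h1 _ ha
      rw [ZFSet.pair_inj] at h5
      refine ⟨a'.rank, ?_⟩
      rw [h7.toZFSet_rank_eq, ← h5.2]; exact ha
    choose s hs using hex'
    refine ⟨s, fun z => ⟨fun hz => ?_, ?_⟩⟩
    · obtain ⟨w, _, i, _, a, _, h5, h6, h7⟩ := h1 z hz
      obtain ⟨n, rfl⟩ := isNatZ_iff.1 h6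
      rw [h5] at hz
      exact ⟨n, by rw [h5, hfun _ _ _ hz (hs n)]⟩
    · rintro ⟨n, rfl⟩; exact hs n
  · rintro ⟨s, hs⟩
    have key : ∀ i a, ZFSet.pair i a ∈ v 0 ↔ ∃ n : ℕ, i = natZ n ∧ a = (s n).toZFSet := by
      intro i a
      rw [hs]
      exact exists_congr fun n => ZFSet.pair_inj
    refine ⟨?_, ?_, ?_, ?_⟩
    · intro p hp
      obtain ⟨n, rfl⟩ := (hs p).1 hp
      obtain ⟨g1, g2, g3⟩ := mem_pairs (x := v 0) (a := natZ n) (b := (s n).toZFSet) rfl rfl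
      exact ⟨_, g1, _, g2, _, g3, rfl, isNatZ_iff.2 ⟨n, rfl⟩, ZFSet.isOrdinal_toZFSet _⟩
    · intro p hp q hq w _ i _ a _ t _ b _ h1 h2
      rw [h1, key] at hp
      rw [h2, key] at hq
      obtain ⟨n, h3, h4⟩ := hp
      obtain ⟨m, h5, h6⟩ := hq
      have : n = m := natZ_inj.1 (h3.symm.trans h5)
      rw [h4, h6, this]
    · refine ⟨_, (hs _).2 ⟨0, rfl⟩, ?_⟩
      obtain ⟨g1, g2, g3⟩ := mem_pairs (x := v 0) (a := natZ 0) (b := (s 0).toZFSet) rfl rfl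
      exact ⟨_, g1, _, g2, _, g3, rfl, rfl⟩
    · intro p hp w _ i _ a _ h1
      rw [h1, key] at hp
      obtain ⟨n, rfl, rfl⟩ := hp
      obtain ⟨g1, g2, g3⟩ := mem_pairs (x := v 0) (a := natZ (n + 1)) (b := (s (n + 1)).toZFSet) rfl rfl
      exact ⟨_, (hs _).2 ⟨n + 1, rfl⟩, _, g1, _, g2, _, g3, rfl, rfl⟩

/-- `χ` is a `Δ₀` formula without free variables besides `0` which says that `v₀` is a function
from `ω` to the ordinals. -/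
def SeqFml (χ : Fml) : Prop := χ.Delta0 ∧ (∀ n, χ.Free n → n = 0) ∧
  ∀ g : ℕ → ZFSet.{u}, Sat (fun a b : ZFSet.{u} => a ∈ b) χ g ↔ IsSeq (g 0)

theorem exists_seqFml : ∃ χ, SeqFml.{u} χ := by
  obtain ⟨θ, h1, h2, h3⟩ := d0_isSeq.{u}
  refine ⟨θ, h1, fun n hn => ?_, fun g => ?_⟩
  · have := h2 n hn; omega
  · exact h3 g

end Pool.Agent.H17.Omega.T8
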