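import Pool.Agent.H17.T8.Enc
import Pool.Agent.H17.T8.Hgt

/-!
# T8: the models of a blueprint inside a countable transitive model (2)
-/

set_option autoImplicit false
set_option linter.unusedVariables false
set_option linter.unusedSectionVars false
set_option linter.unusedSimpArgs false
set_option linter.deprecated false

universe u v

namespace Pool.Agent.H17.Omega.T8

open CTM

variable {N : Set ZFSet.{u}} {hN : CTM N}

include hN in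
theorem card_le_of_mem {o : Ordinal.{u}} (ho : o.toZFSet ∈ N) : o.card ≤ Cardinal.aleph0 := by
  have h1 : (Set.Iio o).Countable := by
    have := hN.countable.to_subtype
    refine Set.countable_coe_iff.1 ?_
    exact (Function.Injective.countable (f := fun b : Set.Iio o => (⟨b.1.toZFSet,
      hN.toZFSet_mem_of_le (le_of_lt b.2) ho⟩ : N))
      (fun x y h => Subtype.ext (Ordinal.toZFSet_injective (congrArg Subtype.val h))))
  rw [← Set.countable_coe_iff, ← Cardinal.mk_le_aleph0_iff, Cardinal.mk_Iio_ordinal] at h1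
  exact Cardinal.lift_le_aleph0.1 h1

include hN in
theorem exists_bound : ∃ Θ : Ordinal.{u}, Θ.card ≤ Cardinal.aleph0 ∧
    ∀ o : Ordinal.{u}, o.toZFSet ∈ N → o < Θ := by
  refine ⟨⨆ n : ℕ, Order.succ (hN.enum n).1.rank, ?_, ?_⟩
  · refine (Ordinal.card_iSup_le_sum_card _).trans ?_
    have h1 : ∀ n, (Order.succ (hN.enum n).1.rank).card ≤ Cardinal.aleph0 := by
      intro n
      apply card_le_of_mem (hN := hN)
      rw [Ordinal.toZFSet_succ]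
      exact hN.insert_mem (hN.rank_mem (hN.enum n).2) (hN.rank_mem (hN.enum n).2)
    refine (Cardinal.sum_le_sum _ _ h1).trans ?_
    simp
  · intro o ho
    obtain ⟨n, hn⟩ := hN.enum_surj ⟨_, ho⟩
    have h1 : (hN.enum n).1.rank = o := by rw [hn]; exact Ordinal.rank_toZFSet o
    have h2 : Order.succ (hN.enum n).1.rank ≤ ⨆ n : ℕ, Order.succ (hN.enum n).1.rank :=
      Ordinal.le_iSup (fun n : ℕ => Order.succ (hN.enum n).1.rank) n
    rw [h1] at h2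
    exact Order.succ_le_iff.1 h2

/-- The membership relation for all blueprints in `C`. -/
def RQ (hQ : HasQ N) (C p q : N) : Prop :=
  RR ⟨_, hQ 0⟩ ⟨_, hQ 1⟩ ⟨_, hQ 2⟩ ⟨_, hQ 3⟩ ⟨_, hQ 4⟩ ⟨_, hQ 5⟩ C p q

theorem RQ_dfn (hQ : HasQ N) (C : N) : hN.Dfn (fun v : Fin 2 → N => RQ hQ C (v 0) (v 1)) :=
  RR_dfn _ _ _ _ _ _ _

include hN in
/-- Elements of the relation. -/
theorem rq_left {hQ : HasQ N} {C p q : N} (h : RQ hQ C p q) : ∃ (Y S x : N) (t : Tm.{u}),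
    Y.1 ∈ C.1 ∧ p.1 = ZFSet.pair Y.1 (ZFSet.pair S.1 (tc t)) ∧
    q.1 = ZFSet.pair Y.1 (ZFSet.pair S.1 x.1) ∧ (∀ j i ξ, Ty (lb t) j i → (os t)[j]? = some ξ →
      ∃ w, ZFSet.pair (natZ i) w ∈ S.1 ∧ ξ.toZFSet ∈ w) ∧
    ∀ x0 : ℕ → ℕ, Y.1 = Ys x0 → ∀ t1 : Tm.{u}, x.1 = tc t1 → E x0 t t1 := by
  obtain ⟨Y, S, y, x, r, r', h1, h2, h3, h4, h5, h6, h7⟩ := h
  obtain ⟨t, ht, ht'⟩ := (isTd_iff (hN := hN) rfl).1 h6
  refine ⟨Y, S, x, t, h5, ?_, ?_, ht', fun x0 hx0 t1 ht1 => ?_⟩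
  · rw [h2, h1, ht]
  · rw [h4, h3]
  · exact (ewd_iff (hN := hN) hQ hx0 ht ht1).1 h7

include hN in
theorem rq_of {hQ : HasQ N} {C : N} {x0 : ℕ → ℕ} (hY : Ys x0 ∈ C.1) {s : ℕ → Ordinal.{u}}
    {t t1 : Tm.{u}} (ht : Over s t) (hE : E x0 t t1) {p q : N}
    (hp : p.1 = ZFSet.pair (Ys x0) (ZFSet.pair (Ss s) (tc t)))
    (hq : q.1 = ZFSet.pair (Ys x0) (ZFSet.pair (Ss s) (tc t1))) : RQ hQ C p q := by
  have hp1 : ZFSet.pair (Ys x0) (ZFSet.pair (Ss s) (tc t)) ∈ N := by rw [← hp]; exact p.2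
  have hq1 : ZFSet.pair (Ys x0) (ZFSet.pair (Ss s) (tc t1)) ∈ N := by rw [← hq]; exact q.2
  have h1 := hN.of_pair_mem hp1
  have h2 := hN.of_pair_mem hq1
  refine ⟨⟨_, h1.1⟩, ⟨_, (hN.of_pair_mem h1.2).1⟩, ⟨_, (hN.of_pair_mem h1.2).2⟩,
    ⟨_, (hN.of_pair_mem h2.2).2⟩, ⟨_, h1.2⟩, ⟨_, h2.2⟩, rfl, hp, rfl, hq, hY, ?_, ?_⟩
  · exact (isTd_iff_over (hN := hN) rfl rfl).2 ⟨t, rfl, ht⟩
  · exact (ewd_iff (hN := hN) hQ rfl rfl rfl).2 hE

include hN in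
theorem wf_RQ (hQ : HasQ N) {C : N} (hC : ∀ Y ∈ C.1, ∃ x : ℕ → ℕ, WF.{u} x ∧ Y = Ys x) :
    WellFounded (fun p q : N => RQ hQ C p q) := by
  obtain ⟨Θ, hΘ, hΘ'⟩ := exists_bound (hN := hN)
  have hover : ∀ t : Tm.{u}, tc t ∈ N → Over (fun _ => Θ) t := by
    intro t ht p hp
    exact hΘ' _ (os_mem_of_tc (hN := hN) ht _ (List.mem_map.2 ⟨p, hp, rfl⟩))
  have key : ∀ (x0 : ℕ → ℕ), WF.{u} x0 → ∀ (t : Tm.{u}) (S : N) (q : N),
      q.1 = ZFSet.pair (Ys x0) (ZFSet.pair S.1 (tc t)) → Acc (fun p q : N => RQ hQ C p q) q := by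
    intro x0 hx0 t
    induction t using (hx0 Θ hΘ).induction with
    | _ t ih =>
      intro S q hq
      refine Acc.intro _ fun p hp => ?_
      obtain ⟨Y, S', x, t', h1, h2, h3, h4, h5⟩ := rq_left (hN := hN) hp
      rw [hq, ZFSet.pair_inj, ZFSet.pair_inj] at h3
      obtain ⟨h6, h7, h8⟩ := h3
      have hpN : ZFSet.pair Y.1 (ZFSet.pair S'.1 (tc t')) ∈ N := by rw [← h2]; exact p.2
      have hqN : ZFSet.pair (Ys x0) (ZFSet.pair S.1 (tc t)) ∈ N := by rw [← hq]; exact q.2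
      refine ih t' ⟨hover _ (hN.of_pair_mem (hN.of_pair_mem hpN).2).2,
        hover _ (hN.of_pair_mem (hN.of_pair_mem hqN).2).2, h5 x0 h6.symm t h8.symm⟩ S' p ?_
      rw [h2, h6]
  refine ⟨fun q => Acc.intro _ fun p hp => ?_⟩
  obtain ⟨Y, S, x, t, h1, h2, h3, h4, h5⟩ := rq_left (hN := hN) hp
  obtain ⟨x0, hx0, hY⟩ := hC _ h1
  exact key x0 hx0 t S p (by rw [h2, hY])

include hN in
theorem set_RQ (hQ : HasQ N) (C q : N) : ∃ e ∈ N, ∀ p : N, p.1 ∈ e ↔ RQ hQ C p q := by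
  by_cases hq : ∃ Y S x : N, q.1 = ZFSet.pair Y.1 (ZFSet.pair S.1 x.1)
  · obtain ⟨Y, S, x, hq⟩ := hq
    obtain ⟨pw, hpw, hpw'⟩ := hN.exists_pow (hN.prod_mem hN.omZ_mem
      (hN.sUnion_mem (hN.sUnion_mem (hN.sUnion_mem S.2))))
    have hB : ZFSet.prod {Y.1} (ZFSet.prod {S.1} (ZFSet.prod omZ pw)) ∈ N :=
      hN.prod_mem (hN.singleton_mem Y.2) (hN.prod_mem (hN.singleton_mem S.2)
        (hN.prod_mem hN.omZ_mem hpw))
    obtain ⟨e, he, he'⟩ := hN.exists_sep (P := fun p => RQ hQ C p q)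
      (Dfn.subst2 (P := RQ hQ C) (RQ_dfn hQ C) (DT.var _) (DT.const q)) hB
    refine ⟨e, he, fun p => ?_⟩
    rw [he']
    refine ⟨fun ⟨_, _, h⟩ => h, fun h => ⟨?_, p.2, h⟩⟩
    obtain ⟨Y', S', x', t, h1, h2, h3, h4, h5⟩ := rq_left (hN := hN) h
    rw [hq, ZFSet.pair_inj, ZFSet.pair_inj] at h3
    obtain ⟨h6, h7, h8⟩ := h3
    have hpN : ZFSet.pair Y'.1 (ZFSet.pair S'.1 (tc t)) ∈ N := by rw [← h2]; exact p.2
    have htN : tc t ∈ N := (hN.of_pair_mem (hN.of_pair_mem hpN).2).2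
    rw [h2, ← h6, ← h7]
    refine ZFSet.mem_prod.2 ⟨_, ZFSet.mem_singleton.2 rfl, _, ZFSet.mem_prod.2 ⟨_,
      ZFSet.mem_singleton.2 rfl, _, ?_, rfl⟩, rfl⟩
    refine ZFSet.mem_prod.2 ⟨_, natZ_mem_omZ _, _, (hpw' _).2 ⟨(hN.of_pair_mem htN).2, ?_⟩, rfl⟩
    intro z hz
    obtain ⟨j, ξ, h9, rfl⟩ := mem_fz.1 hz
    have hj : j < (t.2.map Prod.fst).length := by
      rw [← length_os]
      exact (List.getElem?_eq_some_iff.1 h9).1
    obtain ⟨w, h10, h11⟩ := h4 j _ ξ (ty_lb.2 (List.getElem?_eq_getElem hj)) h9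
    refine ZFSet.mem_prod.2 ⟨_, natZ_mem_omZ _, _, ?_, rfl⟩
    rw [← h7] at h10
    exact ZFSet.mem_sUnion.2 ⟨w, (mem_sUnion_sUnion_pair h10).2, h11⟩
  · refine ⟨∅, hN.empty_mem, fun p => ⟨fun h => (ZFSet.notMem_empty _ h).elim, fun h => ?_⟩⟩
    obtain ⟨Y, S, x, t, h1, h2, h3, h4, h5⟩ := rq_left (hN := hN) h
    exact (hq ⟨Y, S, x, h3⟩).elim

/-- The collapse of all models given by blueprints in `C`, inside the model `N`. -/
theorem exists_valF (hN : CTM N) (hQ : HasQ N) {C : N}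
    (hC : ∀ Y ∈ C.1, ∃ x : ℕ → ℕ, WF.{u} x ∧ Y = Ys x) :
    ∃ F : N → N, hN.Dfn (fun v : Fin 2 → N => F (v 0) = v 1) ∧
      ∀ q z : N, z.1 ∈ (F q).1 ↔ ∃ p, RQ hQ C p q ∧ F p = z := by
  refine recursion (hN := hN) (R := fun p q : N => RQ hQ C p q)
    (𝒢 := fun x r v => ∀ z : N, z.1 ∈ v.1 ↔ ∃ y, r y z) (RQ_dfn hQ C) ?_
    (fun q => set_RQ (hN := hN) hQ C q) (wf_RQ (hN := hN) hQ hC) ?_ ?_
  · exact (Dfn.all (P := fun v z => (z.1 ∈ (v 2).1 ↔ (∃ p : N, ((RQ hQ C) p (v 0) ∧ ZFSet.pair p.1 z.1 ∈ (v 1).1))))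
  (Dfn.iff (Dfn.mem (DT.var _) (DT.var _))
  (Dfn.ex (P := fun v p => ((RQ hQ C) p (v 0) ∧ ZFSet.pair p.1 (v 3).1 ∈ (v 1).1))
  (Dfn.and (Dfn.subst2 (P := (RQ hQ C)) (RQ_dfn hQ C) (DT.var _) (DT.var _))
  (Dfn.pairMem (DT.var _) (DT.var _) (DT.var _))))))
  · intro x r v v' h h'
    exact Subtype.ext (hN.ext' v.2 v'.2 fun z => (h z).trans (h' z).symm)
  · intro q h hd hu
    have hUN : ZFSet.sUnion (ZFSet.sUnion h.1) ∈ N := hN.sUnion_mem (hN.sUnion_mem h.2)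
    have hd' : hN.Dfn (fun v : Fin 1 → N => (∃ p : N, ((RQ hQ C) p q ∧ ZFSet.pair p.1 (v 0).1 ∈ h.1))) :=
      (Dfn.ex (P := fun v p => ((RQ hQ C) p q ∧ ZFSet.pair p.1 (v 0).1 ∈ h.1))
  (Dfn.and (Dfn.subst2 (P := (RQ hQ C)) (RQ_dfn hQ C) (DT.var _) (DT.const q))
  (Dfn.pairMem (DT.var _) (DT.var _) (DT.const h))))
    obtain ⟨b, hb, hb'⟩ := hN.exists_sep (P := fun z => (∃ p : N, ((RQ hQ C) p q ∧ ZFSet.pair p.1 z.1 ∈ h.1))) hd' hUN
    refine ⟨⟨b, hb⟩, fun z => ?_⟩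
    rw [hb']
    constructor
    · rintro ⟨_, _, h1⟩; exact h1
    · rintro ⟨y, h1, h2⟩
      exact ⟨(mem_sUnion_sUnion_pair h2).2, z.2, y, h1, h2⟩

/-- The value computed in the model is the true value. -/
theorem valF_eq (hQ : HasQ N) {C : N} {F : N → N}
    (hF : ∀ q z : N, z.1 ∈ (F q).1 ↔ ∃ p, RQ hQ C p q ∧ F p = z)
    {x0 : ℕ → ℕ} (hx0 : WF.{u} x0) (hY : Ys x0 ∈ C.1) {s : ℕ → Ordinal.{u}} (hN : CTM N)
    (hs : ∀ i, (s i).toZFSet ∈ N) (t : Tm.{u}) (ht : Over s t) (q : N)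
    (hq : q.1 = ZFSet.pair (Ys x0) (ZFSet.pair (Ss s) (tc t))) : (F q).1 = vl x0 s t := by
  have hc : Ctb s := fun i => card_le_of_mem (hN := hN) (hs i)
  have hqN : ZFSet.pair (Ys x0) (ZFSet.pair (Ss s) (tc t)) ∈ N := by rw [← hq]; exact q.2
  have hYN := (hN.of_pair_mem hqN).1
  have hSN := (hN.of_pair_mem (hN.of_pair_mem hqN).2).1
  have htN : ∀ t : Tm.{u}, Over s t → tc t ∈ N := by
    intro t ht
    refine tc_mem (hN := hN) fun ξ hξ => ?_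
    obtain ⟨p, hp, rfl⟩ := List.mem_map.1 hξ
    exact hN.toZFSet_mem_of_le (ht p hp).le (hs _)
  have key : ∀ t : TmO s, ∀ q : N, q.1 = ZFSet.pair (Ys x0) (ZFSet.pair (Ss s) (tc t.1)) →
      (F q).1 = vl x0 s t.1 := by
    intro t
    induction t using (wfO hx0 hc).induction with
    | _ t ih =>
      intro q hq
      apply ZFSet.ext
      intro z
      rw [mem_vl hx0 hc t.2]
      constructor
      · intro hz
        obtain ⟨p, hp, h1⟩ := (hF q ⟨z, hN.mem_of_mem (F q).2 hz⟩).1 hz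
        obtain ⟨Y, S, x, t', h2, h3, h4, h5, h6⟩ := rq_left (hN := hN) hp
        rw [hq, ZFSet.pair_inj, ZFSet.pair_inj] at h4
        obtain ⟨h7, h8, h9⟩ := h4
        have hO : Over s t' := by
          rw [over_iff]
          intro j i h10 ξ h11
          obtain ⟨w, h12, h13⟩ := h5 j i ξ h10 h11
          rw [← h8, pair_mem_Ss] at h12
          rw [h12, Ordinal.toZFSet_mem_toZFSet_iff] at h13
          exact h13
        have hE := h6 x0 h7.symm t.1 h9.symm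
        have h10 := ih ⟨t', hO⟩ hE p (by rw [h3, ← h7, ← h8])
        refine ⟨t', hO, hE, ?_⟩
        rw [← h10, h1]
      · rintro ⟨t', hO, hE, rfl⟩
        have hpN : ZFSet.pair (Ys x0) (ZFSet.pair (Ss s) (tc t')) ∈ N :=
          hN.pair_mem hYN (hN.pair_mem hSN (htN t' hO))
        have h1 := ih ⟨t', hO⟩ hE ⟨_, hpN⟩ rfl
        rw [← h1]
        exact (hF q (F ⟨_, hpN⟩)).2 ⟨⟨_, hpN⟩, rq_of (hN := hN) hY hO hE rfl hq, rfl⟩
  exact key ⟨t, ht⟩ q hq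

end Pool.Agent.H17.Omega.T8
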